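import Pool.Agent.H90ZD.Hilb

open Filter Topology Polynomial

namespace Pool.Agent.H90ZD

variable {K F : Type} [Field K] [Field F] [Algebra K F]

open GrIdeal

variable {V : Submodule K F}

theorem mem_iff_frac {O : Subalgebra K F} (hO : O ∈ Model V) {f : F} :
    f ∈ O ↔ ∃ m : ℕ, ∃ a ∈ V ^ m, ∃ b ∈ V ^ m, b ∉ (ptIdeal hO).comp m ∧ f = a / b := by
  conv_lhs => rw [← locPt_ptIdeal hO]
  exact mem_locPt

/-- The ideal of the local ring generated by a homogeneous ideal. -/
def locIdeal {O : Subalgebra K F} (hO : O ∈ Model V) (I : GrIdeal V) : Ideal O where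
  carrier := {f | ∃ m : ℕ, ∃ b ∈ V ^ m, b ∉ (ptIdeal hO).comp m ∧ (f : F) * b ∈ I.comp m}
  add_mem' := by
    rintro f g ⟨m, b, hb, hbP, hfb⟩ ⟨n, c, hc, hcP, hgc⟩
    refine ⟨m + n, b * c, mul_mem_pow_add hb hc, (ptIdeal_isPrime hO).mul_not_mem hb hc hbP hcP, ?_⟩
    have h1 := I.mul_mem' hfb hc
    have h2 := I.mul_mem hb hgc
    have : ((f + g : O) : F) * (b * c) = f * b * c + b * (g * c) := by
      have : ((f + g : O) : F) = f + g := rfl
      rw [this]
      ring
    rw [this]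
    exact Submodule.add_mem _ h1 h2
  zero_mem' := by
    refine ⟨0, 1, by simp, (ptIdeal_isPrime hO).one_not_mem, ?_⟩
    simp
  smul_mem' := by
    rintro r f ⟨m, b, hb, hbP, hfb⟩
    obtain ⟨k, a, ha, d, hd, hdP, hr⟩ := (mem_iff_frac hO).1 r.2
    refine ⟨k + m, d * b, mul_mem_pow_add hd hb,
      (ptIdeal_isPrime hO).mul_not_mem hd hb hdP hbP, ?_⟩
    have hd0 := IsPrime.ne_zero_of_not_mem hdP
    have : ((r • f : O) : F) * (d * b) = a * (f * b) := by
      have : ((r • f : O) : F) = r * f := rfl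
      rw [this, hr]
      field_simp
    rw [this]
    exact I.mul_mem ha hfb

theorem mem_locIdeal {O : Subalgebra K F} {hO : O ∈ Model V} {I : GrIdeal V} {f : O} :
    f ∈ locIdeal hO I ↔ ∃ m : ℕ, ∃ b ∈ V ^ m, b ∉ (ptIdeal hO).comp m ∧ (f : F) * b ∈ I.comp m :=
  Iff.rfl

theorem locIdeal_eq_top {O : Subalgebra K F} {hO : O ∈ Model V} {I : GrIdeal V}
    (h : ¬ I ≤ ptIdeal hO) : locIdeal hO I = ⊤ := by
  rw [GrIdeal.le_def] at h
  push Not at h
  obtain ⟨m, hm⟩ := h
  rw [SetLike.not_le_iff_exists] at hm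
  obtain ⟨b, hb, hbP⟩ := hm
  rw [Ideal.eq_top_iff_one, mem_locIdeal]
  refine ⟨m, b, I.le_pow m hb, hbP, ?_⟩
  simpa using hb

theorem mx_of_mem_locIdeal {O : Subalgebra K F} {hO : O ∈ Model V} {I : GrIdeal V}
    (h : I ≤ ptIdeal hO) {f : O} (hf : f ∈ locIdeal hO I) : (f : F) ∈ mx O := by
  obtain ⟨u, hu⟩ := exists_dom hO
  have hu0 := hu.ne_zero
  obtain ⟨m, b, hb, hbP, hfb⟩ := hf
  have h1 := ((mem_ptIdeal hO hu).1 (h m hfb)).2
  have h2 : b / u ^ m ∉ mx O := (not_mem_ptIdeal_iff hO hu hb).1 hbP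
  rw [mul_div_assoc] at h1
  rcases mem_mx_or_of_mul f.2 (hu.div_pow_mem hb) h1 with h3 | h3
  · exact h3
  · exact absurd h3 h2

theorem mem_locIdeal_ptIdeal {O : Subalgebra K F} {hO : O ∈ Model V} {f : O} :
    f ∈ locIdeal hO (ptIdeal hO) ↔ (f : F) ∈ mx O := by
  constructor
  · exact fun h => mx_of_mem_locIdeal le_rfl h
  · intro h
    obtain ⟨u, hu⟩ := exists_dom hO
    have hu0 := hu.ne_zero
    obtain ⟨m, a, ha, b, hb, hbP, hf⟩ := (mem_iff_frac hO).1 f.2
    have hb0 := IsPrime.ne_zero_of_not_mem hbP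
    refine ⟨m, b, hb, hbP, ?_⟩
    have h1 : (f : F) * b = a := by
      rw [hf]
      field_simp
    rw [h1, mem_ptIdeal hO hu]
    refine ⟨ha, ?_⟩
    have h2 : a / u ^ m = (f : F) * (b / u ^ m) := by
      rw [hf]
      field_simp
    rw [h2]
    exact mx_mul_right h (hu.div_pow_mem hb)

/-- The length of the quotient ring. -/
noncomputable def qlen {R : Type} [CommRing R] (I : Ideal R) : ℕ∞ := Module.length R (R ⧸ I)

theorem qlen_top {R : Type} [CommRing R] : qlen (⊤ : Ideal R) = 0 := by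
  unfold qlen
  rw [Module.length_eq_zero_iff]
  exact Ideal.Quotient.subsingleton_iff.2 rfl

theorem qlen_maximalIdeal {R : Type} [CommRing R] [IsLocalRing R] :
    qlen (IsLocalRing.maximalIdeal R) = 1 := by
  unfold qlen
  rw [Module.length_eq_one_iff, isSimpleModule_iff_isCoatom]
  exact (IsLocalRing.maximalIdeal.isMaximal R).out

theorem qlen_span {R : Type} [CommRing R] (x : R) : qlen (Ideal.span {x}) = Ring.ord R x := rfl

theorem qlen_locIdeal_ptIdeal {O : Subalgebra K F} (hO : O ∈ Model V) :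
    qlen (locIdeal hO (ptIdeal hO)) = 1 := by
  have hloc := isLocalRing_of_mem hO
  have h1 : locIdeal hO (ptIdeal hO) = IsLocalRing.maximalIdeal O := by
    ext f
    rw [mem_locIdeal_ptIdeal, IsLocalRing.mem_maximalIdeal, mem_nonunits_iff, mem_mx_iff f.2]
  rw [h1, qlen_maximalIdeal]

theorem locIdeal_addGen {O : Subalgebra K F} {hO : O ∈ Model V} {u : F} (hu : Dom V O u)
    (I : GrIdeal V) {n : ℕ} {x : F} (hx : x ∈ V ^ n) :
    locIdeal hO (I.addGen n x hx) = locIdeal hO I ⊔ Ideal.span {⟨x / u ^ n, hu.div_pow_mem hx⟩} := by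
  have hu0 := hu.ne_zero
  have hP := ptIdeal_isPrime hO
  apply le_antisymm
  · rintro f ⟨m, b, hb, hbP, hfb⟩
    have hb0 := IsPrime.ne_zero_of_not_mem hbP
    change (f : F) * b ∈ I.comp m ⊔ _ at hfb
    rw [Submodule.mem_sup] at hfb
    obtain ⟨i, hi, y, hy, hiy⟩ := hfb
    have h1 : i / b ∈ O := (mem_iff_frac hO).2 ⟨m, i, I.le_pow m hi, b, hb, hbP, rfl⟩
    have h1' : (⟨i / b, h1⟩ : O) ∈ locIdeal hO I := ⟨m, b, hb, hbP, by
      change i / b * b ∈ _
      rwa [div_mul_cancel₀ _ hb0]⟩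
    split_ifs at hy with hnm
    · obtain ⟨c, hc, rfl⟩ := hy
      have hcu : c * u ^ n ∈ V ^ m := by
        have := mul_mem_pow_add hc (pow_mem_pow hu.mem n)
        rwa [Nat.sub_add_cancel hnm] at this
      have h2 : c * u ^ n / b ∈ O := (mem_iff_frac hO).2 ⟨m, _, hcu, b, hb, hbP, rfl⟩
      have hf : f = ⟨i / b, h1⟩ + ⟨c * u ^ n / b, h2⟩ * ⟨x / u ^ n, hu.div_pow_mem hx⟩ := by
        apply Subtype.ext
        change (f : F) = i / b + c * u ^ n / b * (x / u ^ n)
        have : (f : F) = (i + c * x) / b := by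
          rw [eq_div_iff hb0, ← hiy]
          rfl
        rw [this]
        field_simp
      rw [hf]
      exact Submodule.add_mem_sup h1' (Ideal.mul_mem_left _ _ (Ideal.mem_span_singleton_self _))
    · rw [Submodule.mem_bot] at hy
      have hf : f = ⟨i / b, h1⟩ := by
        apply Subtype.ext
        change (f : F) = i / b
        rw [eq_div_iff hb0, ← hiy, hy, add_zero]
      rw [hf]
      exact Submodule.mem_sup_left h1'
  · apply sup_le
    · rintro f ⟨m, b, hb, hbP, hfb⟩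
      exact ⟨m, b, hb, hbP, I.le_addGen n x hx m hfb⟩
    · rw [Ideal.span_singleton_le_iff_mem]
      refine ⟨n, u ^ n, pow_mem_pow hu.mem n, hP.pow_not_mem hu.mem (hu.not_mem_ptIdeal hO) n, ?_⟩
      change x / u ^ n * u ^ n ∈ _
      rw [div_mul_cancel₀ _ (pow_ne_zero _ hu0)]
      exact I.gen_mem_addGen n x hx

theorem mem_locIdeal_colon {O : Subalgebra K F} {hO : O ∈ Model V} {u : F} (hu : Dom V O u)
    (I : GrIdeal V) {n : ℕ} {x : F} (hx : x ∈ V ^ n) {f : O} :
    f ∈ locIdeal hO (I.colon n x hx) ↔ f * ⟨x / u ^ n, hu.div_pow_mem hx⟩ ∈ locIdeal hO I := by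
  have hu0 := hu.ne_zero
  have hP := ptIdeal_isPrime hO
  constructor
  · rintro ⟨m, b, hb, hbP, hfb⟩
    rw [mem_colon] at hfb
    refine ⟨m + n, b * u ^ n, mul_mem_pow_add hb (pow_mem_pow hu.mem n),
      hP.mul_not_mem hb (pow_mem_pow hu.mem n) hbP
        (hP.pow_not_mem hu.mem (hu.not_mem_ptIdeal hO) n), ?_⟩
    change (f : F) * (x / u ^ n) * (b * u ^ n) ∈ _
    have : (f : F) * (x / u ^ n) * (b * u ^ n) = f * b * x := by field_simp
    rw [this]
    exact hfb.2
  · rintro ⟨m, b, hb, hbP, hfb⟩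
    change (f : F) * (x / u ^ n) * b ∈ _ at hfb
    obtain ⟨k, a, ha, d, hd, hdP, hf⟩ := (mem_iff_frac hO).1 f.2
    have hd0 := IsPrime.ne_zero_of_not_mem hdP
    refine ⟨k + m, d * b, mul_mem_pow_add hd hb, hP.mul_not_mem hd hb hdP hbP, ?_⟩
    rw [mem_colon]
    refine ⟨?_, ?_⟩
    · have : (f : F) * (d * b) = a * b := by
        rw [hf]
        field_simp
      rw [this]
      exact mul_mem_pow_add ha hb
    · have h1 := I.mul_mem (mul_mem_pow_add hd (pow_mem_pow hu.mem n)) hfb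
      have e : (f : F) * (d * b) * x = d * u ^ n * (f * (x / u ^ n) * b) := by
        field_simp
      rw [e]
      have e2 : k + m + n = k + n + m := by ring
      rw [e2]
      exact h1

theorem qlen_step {R : Type} [CommRing R] (J J' L : Ideal R) (t : R)
    (hJ' : J' = J ⊔ Ideal.span {t}) (hL : ∀ f, f ∈ L ↔ f * t ∈ J) :
    qlen J = qlen L + qlen J' := by
  subst hJ'
  unfold qlen
  let f : (R ⧸ L) →ₗ[R] (R ⧸ J) :=
    Submodule.mapQ L J (LinearMap.mulRight R t) (fun x hx => (hL x).1 hx)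
  let g : (R ⧸ J) →ₗ[R] (R ⧸ (J ⊔ Ideal.span {t})) := Submodule.factor le_sup_left
  refine Module.length_eq_add_of_exact f g ?_ (Submodule.factor_surjective _) ?_
  · rw [injective_iff_map_eq_zero]
    intro x hx
    obtain ⟨y, rfl⟩ := Submodule.Quotient.mk_surjective _ x
    have h1 : f (Submodule.Quotient.mk y) = Submodule.Quotient.mk (y * t) := rfl
    rw [h1, Submodule.Quotient.mk_eq_zero] at hx
    rw [Submodule.Quotient.mk_eq_zero]
    exact (hL y).2 hx
  · intro x
    obtain ⟨y, rfl⟩ := Submodule.Quotient.mk_surjective _ x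
    have h2 : g (Submodule.Quotient.mk y) = Submodule.Quotient.mk y := rfl
    rw [h2, Submodule.Quotient.mk_eq_zero, Submodule.mem_sup]
    constructor
    · rintro ⟨j, hj, z, hz, rfl⟩
      rw [Ideal.mem_span_singleton'] at hz
      obtain ⟨a, rfl⟩ := hz
      refine ⟨Submodule.Quotient.mk a, ?_⟩
      have h1 : f (Submodule.Quotient.mk a) = Submodule.Quotient.mk (a * t) := rfl
      rw [h1]
      rw [Submodule.Quotient.eq]
      have : a * t - (j + a * t) = -j := by ring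
      rw [this]
      exact J.neg_mem hj
    · rintro ⟨z, hz⟩
      obtain ⟨a, rfl⟩ := Submodule.Quotient.mk_surjective _ z
      have h1 : f (Submodule.Quotient.mk a) = Submodule.Quotient.mk (a * t) := rfl
      rw [h1, Submodule.Quotient.eq] at hz
      refine ⟨y - a * t, ?_, a * t, Ideal.mem_span_singleton'.2 ⟨a, rfl⟩, by ring⟩
      have := J.neg_mem hz
      simpa using this

theorem qlen_locIdeal_step {O : Subalgebra K F} (hO : O ∈ Model V)
    (I : GrIdeal V) {n : ℕ} {x : F} (hx : x ∈ V ^ n) :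
    qlen (locIdeal hO I) = qlen (locIdeal hO (I.colon n x hx)) +
      qlen (locIdeal hO (I.addGen n x hx)) := by
  obtain ⟨u, hu⟩ := exists_dom hO
  exact qlen_step _ _ _ ⟨x / u ^ n, hu.div_pow_mem hx⟩ (locIdeal_addGen hu I hx)
    (fun f => mem_locIdeal_colon hu I hx)

end Pool.Agent.H90ZD
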