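import Pool.Agent.H90ZD.Models

open Filter Topology Polynomial

namespace Pool.Agent.H90ZD

variable {K F : Type} [Field K] [Field F] [Algebra K F]

open GrIdeal

/-- The image of a local ring under an automorphism. -/
def mp (θ : F ≃ₐ[K] F) (O : Subalgebra K F) : Subalgebra K F := O.map (θ : F →ₐ[K] F)

/-- The image of a subspace under an automorphism. -/
def ms (θ : F ≃ₐ[K] F) (V : Submodule K F) : Submodule K F :=
  V.map (θ : F →ₐ[K] F).toLinearMap

theorem mem_mp {θ : F ≃ₐ[K] F} {O : Subalgebra K F} {f : F} :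
    f ∈ mp θ O ↔ θ.symm f ∈ O := by
  constructor
  · rintro ⟨g, hg, rfl⟩
    simpa using hg
  · intro h
    exact ⟨θ.symm f, h, by simp⟩

theorem apply_mem_mp {θ : F ≃ₐ[K] F} {O : Subalgebra K F} {f : F} :
    θ f ∈ mp θ O ↔ f ∈ O := by
  rw [mem_mp]
  simp

theorem mem_ms {θ : F ≃ₐ[K] F} {V : Submodule K F} {f : F} :
    f ∈ ms θ V ↔ θ.symm f ∈ V := by
  constructor
  · rintro ⟨g, hg, rfl⟩
    simpa using hg
  · intro h
    exact ⟨θ.symm f, h, by simp⟩

theorem apply_mem_ms {θ : F ≃ₐ[K] F} {V : Submodule K F} {f : F} :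
    θ f ∈ ms θ V ↔ f ∈ V := by
  rw [mem_ms]
  simp

theorem mp_symm_mp (θ : F ≃ₐ[K] F) (O : Subalgebra K F) : mp θ.symm (mp θ O) = O := by
  ext f
  rw [mem_mp, mem_mp]
  simp

theorem mp_mp_symm (θ : F ≃ₐ[K] F) (O : Subalgebra K F) : mp θ (mp θ.symm O) = O := by
  ext f
  rw [mem_mp, mem_mp]
  simp

theorem ms_symm_ms (θ : F ≃ₐ[K] F) (V : Submodule K F) : ms θ.symm (ms θ V) = V := by
  ext f
  rw [mem_ms, mem_ms]
  simp

theorem ms_mul (θ : F ≃ₐ[K] F) (V W : Submodule K F) : ms θ (V * W) = ms θ V * ms θ W :=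
  Submodule.map_mul _ _ _

theorem ms_pow (θ : F ≃ₐ[K] F) (V : Submodule K F) (m : ℕ) : ms θ (V ^ m) = ms θ V ^ m :=
  Submodule.map_pow _ _ _

theorem ms_fg (θ : F ≃ₐ[K] F) {V : Submodule K F} (hV : V.FG) : (ms θ V).FG := hV.map _

theorem mp_mono {θ : F ≃ₐ[K] F} {O O' : Subalgebra K F} : mp θ O ≤ mp θ O' ↔ O ≤ O' := by
  constructor
  · intro h f hf
    exact apply_mem_mp.1 (h (apply_mem_mp.2 hf))
  · intro h f hf
    rw [mem_mp] at hf ⊢
    exact h hf

theorem mp_injective (θ : F ≃ₐ[K] F) : Function.Injective (mp θ : Subalgebra K F → _) := by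
  intro a b h
  rw [← mp_symm_mp θ a, h, mp_symm_mp]

theorem mp_top (θ : F ≃ₐ[K] F) : mp θ (⊤ : Subalgebra K F) = ⊤ := by
  ext f
  rw [mem_mp]
  simp

theorem isLocalRing_mp (θ : F ≃ₐ[K] F) {O : Subalgebra K F} (h : IsLocalRing O) :
    IsLocalRing (mp θ O) := by
  let e : O ≃+* mp θ O :=
    { toFun := fun f => ⟨θ f, apply_mem_mp.2 f.2⟩
      invFun := fun f => ⟨θ.symm f, mem_mp.1 f.2⟩
      left_inv := fun f => by
        apply Subtype.ext
        simp
      right_inv := fun f => by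
        apply Subtype.ext
        simp
      map_mul' := fun f g => by
        apply Subtype.ext
        simp
      map_add' := fun f g => by
        apply Subtype.ext
        simp }
  exact e.isLocalRing

theorem apply_mem_mx {θ : F ≃ₐ[K] F} {O : Subalgebra K F} {f : F} :
    θ f ∈ mx (mp θ O) ↔ f ∈ mx O := by
  change (θ f ∈ mp θ O ∧ (θ f = 0 ∨ (θ f)⁻¹ ∉ mp θ O)) ↔ (f ∈ O ∧ (f = 0 ∨ f⁻¹ ∉ O))
  rw [apply_mem_mp, ← map_inv₀, apply_mem_mp, map_eq_zero_iff θ θ.injective]

theorem mem_mx_mp {θ : F ≃ₐ[K] F} {O : Subalgebra K F} {f : F} :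
    f ∈ mx (mp θ O) ↔ θ.symm f ∈ mx O := by
  rw [← apply_mem_mx (θ := θ) (O := O) (f := θ.symm f), AlgEquiv.apply_symm_apply]

theorem dom_mp {θ : F ≃ₐ[K] F} {V : Submodule K F} {O : Subalgebra K F} {u : F} (hu : Dom V O u) :
    Dom (ms θ V) (mp θ O) (θ u) := by
  refine ⟨apply_mem_ms.2 hu.mem, by simpa using hu.ne_zero, ?_⟩
  intro v hv
  rw [mem_ms] at hv
  rw [mem_mp, map_div₀]
  simpa using hu.div_mem _ hv

theorem mp_mem_model {θ : F ≃ₐ[K] F} {V : Submodule K F} {O : Subalgebra K F} (h : O ∈ Model V) :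
    mp θ O ∈ Model (ms θ V) := by
  rw [mem_model_iff] at h ⊢
  obtain ⟨u, hu, hloc, hfrac⟩ := h
  refine ⟨θ u, dom_mp hu, isLocalRing_mp θ hloc, ?_⟩
  intro f hf
  rw [mem_mp] at hf
  obtain ⟨m, a, ha, b, hb, hb0, hbO, hab⟩ := hfrac _ hf
  refine ⟨m, θ a, ?_, θ b, ?_, by simpa using hb0, ?_, ?_⟩
  · rw [← ms_pow]
    exact apply_mem_ms.2 ha
  · rw [← ms_pow]
    exact apply_mem_ms.2 hb
  · rw [← map_pow, ← map_div₀]
    exact apply_mem_mp.2 hbO
  · rw [← map_div₀, ← hab]
    simp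

theorem mp_mem_model_iff {θ : F ≃ₐ[K] F} {V : Submodule K F} {O : Subalgebra K F} :
    mp θ O ∈ Model (ms θ V) ↔ O ∈ Model V := by
  constructor
  · intro h
    have := mp_mem_model (θ := θ.symm) h
    rwa [mp_symm_mp, ms_symm_ms] at this
  · exact mp_mem_model

/-- `θ` maps the surface `X` to itself. -/
def Stable (θ : F ≃ₐ[K] F) (X : Set (Subalgebra K F)) : Prop := ∀ O, mp θ O ∈ X ↔ O ∈ X

variable {X : Set (Subalgebra K F)} {θ : F ≃ₐ[K] F}

theorem Stable.symm (h : Stable θ X) : Stable θ.symm X := by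
  intro O
  rw [← h (mp θ.symm O), mp_mp_symm]

theorem mp_mp (θ₁ θ₂ : F ≃ₐ[K] F) (O : Subalgebra K F) :
    mp θ₁ (mp θ₂ O) = mp (θ₂.trans θ₁) O := by
  ext f
  rw [mem_mp, mem_mp, mem_mp]
  rfl

theorem Stable.trans {θ₁ θ₂ : F ≃ₐ[K] F} (h₁ : Stable θ₁ X) (h₂ : Stable θ₂ X) :
    Stable (θ₁.trans θ₂) X := by
  intro O
  rw [← mp_mp, h₂, h₁]

theorem Stable.model (h : Stable θ X) {V : Submodule K F} (hV : Model V = X) :
    Model (ms θ V) = X := by
  ext O
  rw [← mp_mp_symm θ O, mp_mem_model_iff, hV, h]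

theorem stable_of_model {V : Submodule K F} (h1 : Model V = X) (h2 : Model (ms θ V) = X) :
    Stable θ X := by
  intro O
  have h3 := mp_mem_model_iff (θ := θ) (V := V) (O := O)
  rwa [h1, h2] at h3

theorem Stable.closed (h : Stable θ X) {O : Subalgebra K F} (hO : IsClosedPoint X O) :
    IsClosedPoint X (mp θ O) := by
  refine ⟨(h O).2 hO.mem, ?_⟩
  intro f hf
  obtain ⟨c, hc⟩ := hO.rational _ (mem_mp.1 hf)
  refine ⟨c, ?_⟩
  rw [mem_mx_mp]
  simpa using hc

theorem Stable.curve (h : Stable θ X) {O : Subalgebra K F} (hO : IsCurve X O) :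
    IsCurve X (mp θ O) := by
  refine ⟨(h O).2 hO.mem, ?_, ?_⟩
  · intro h'
    rw [← mp_top θ] at h'
    exact hO.ne_top (mp_injective θ h')
  · intro h'
    have := h.symm.closed h'
    rw [mp_symm_mp] at this
    exact hO.not_closed this

/-- The action on curves. -/
def curveMap (h : Stable θ X) : Curve X ≃ Curve X where
  toFun C := ⟨mp θ C.1, h.curve C.2⟩
  invFun C := ⟨mp θ.symm C.1, h.symm.curve C.2⟩
  left_inv C := Subtype.ext (mp_symm_mp θ C.1)
  right_inv C := Subtype.ext (mp_mp_symm θ C.1)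

theorem curveMap_val (h : Stable θ X) (C : Curve X) : (curveMap h C).1 = mp θ C.1 := rfl

theorem vanishing_mp {V : Submodule K F} {C : Subalgebra K F} (m : ℕ) :
    vanishing (ms θ V) (mp θ C) m = ms θ (vanishing V C m) := by
  unfold vanishing ms
  rw [Submodule.map_span]
  congr 1
  ext G
  constructor
  · rintro ⟨hG, u, hu, hu0, hdom, hmx⟩
    refine ⟨θ.symm G, ⟨?_, θ.symm u, ?_, ?_, ?_, ?_⟩, by simp⟩
    · change G ∈ ms θ V ^ m at hG
      rw [← ms_pow, mem_ms] at hG
      exact hG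
    · exact mem_ms.1 hu
    · simpa using hu0
    · intro v hv
      have := hdom (θ v) (apply_mem_ms.2 hv)
      rw [mem_mp, map_div₀] at this
      simpa using this
    · rw [mem_mx_mp, map_div₀, map_pow] at hmx
      exact hmx
  · rintro ⟨G, ⟨hG, u, hu, hu0, hdom, hmx⟩, rfl⟩
    change θ G ∈ ms θ V ^ m ∧ _
    refine ⟨?_, θ u, ?_, ?_, ?_, ?_⟩
    · rw [← ms_pow]
      exact apply_mem_ms.2 hG
    · exact apply_mem_ms.2 hu
    · simpa using hu0
    · intro v hv
      have hv' : θ.symm v ∈ V := mem_ms.1 hv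
      rw [mem_mp, map_div₀]
      simpa using hdom _ hv'
    · change θ G / θ u ^ m ∈ _
      rw [← map_pow, ← map_div₀]
      exact apply_mem_mx.2 hmx

theorem finrank_ms (V : Submodule K F) : Module.finrank K (ms θ V) = Module.finrank K V := by
  have hinj : Function.Injective ((θ : F →ₐ[K] F).toLinearMap) := θ.injective
  exact (Submodule.equivMapOfInjective _ hinj V).finrank_eq.symm

theorem hilb_mp {V : Submodule K F} {C : Subalgebra K F} (m : ℕ) :
    hilb (ms θ V) (mp θ C) m = hilb V C m := by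
  unfold hilb
  rw [vanishing_mp, finrank_ms, ← ms_pow, finrank_ms]

theorem degC_mp {V : Submodule K F} {C : Subalgebra K F} :
    degC (ms θ V) (mp θ C) = degC V C := by
  unfold degC
  simp_rw [hilb_mp]

/-- The action on cycles. -/
noncomputable def cycMap (h : Stable θ X) : Cycles X ≃ₗ[ℝ] Cycles X :=
  Finsupp.domLCongr (curveMap h)

theorem cycMap_apply (h : Stable θ X) (Z : Cycles X) (C : Curve X) :
    cycMap h Z C = Z ((curveMap h).symm C) := by
  unfold cycMap
  rw [Finsupp.domLCongr_apply, Finsupp.domCongr_apply]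
  exact Finsupp.equivMapDomain_apply _ _ _

theorem cycMap_sum {M : Type} [AddCommMonoid M] (h : Stable θ X) (Z : Cycles X)
    (g : Curve X → ℝ → M) :
    (cycMap h Z).sum g = Z.sum fun C a => g (curveMap h C) a := by
  unfold cycMap
  rw [Finsupp.domLCongr_apply, Finsupp.domCongr_apply, Finsupp.sum_equivMapDomain]

theorem cycMap_mem_numTriv (h : Stable θ X) {Z : Cycles X} (hZ : Z ∈ numTriv X) :
    cycMap h Z ∈ numTriv X := by
  intro V hV hVX
  have h1 := hZ (ms θ.symm V) (ms_fg _ hV) (h.symm.model hVX)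
  refine h1.congr fun m => ?_
  rw [cycMap_sum]
  congr 1
  refine Finsupp.sum_congr fun C _ => ?_
  rw [curveMap_val]
  have : hilb (ms θ (ms θ.symm V)) (mp θ C.1) m = hilb (ms θ.symm V) C.1 m := hilb_mp m
  have e : ms θ (ms θ.symm V) = V := ms_symm_ms θ.symm V
  rw [e] at this
  rw [this]

theorem cycMap_symm_eq (h : Stable θ X) : (cycMap h).symm = cycMap h.symm := by
  ext Z C
  have h1 : (cycMap h).symm Z C = Z (curveMap h C) := by
    unfold cycMap
    rw [Finsupp.domLCongr_symm, Finsupp.domLCongr_apply, Finsupp.domCongr_apply]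
    exact Finsupp.equivMapDomain_apply _ _ _
  rw [h1, cycMap_apply]
  rfl

/-- The action on numerical classes. -/
noncomputable def nMap (h : Stable θ X) : N1 X ≃ₗ[ℝ] N1 X :=
  Submodule.Quotient.equiv (numTriv X) (numTriv X) (cycMap h) (by
    apply le_antisymm
    · rw [Submodule.map_le_iff_le_comap]
      intro Z hZ
      exact cycMap_mem_numTriv h hZ
    · intro Z hZ
      refine ⟨cycMap h.symm Z, cycMap_mem_numTriv h.symm hZ, ?_⟩
      rw [← cycMap_symm_eq]
      exact (cycMap h).apply_symm_apply Z)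

theorem nMap_cls (h : Stable θ X) (Z : Cycles X) : nMap h (cls Z) = cls (cycMap h Z) := rfl

instance instModuleTopologyN1 : IsModuleTopology ℝ (N1 X) := ⟨rfl⟩

instance instAddGroupN1 : IsTopologicalAddGroup (N1 X) :=
  IsModuleTopology.topologicalAddGroup ℝ (N1 X)

theorem nMap_continuous (h : Stable θ X) : Continuous (nMap h) := by
  exact IsModuleTopology.continuous_of_linearMap (nMap h).toLinearMap

theorem nMap_symm_continuous (h : Stable θ X) : Continuous (nMap h).symm := by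
  exact IsModuleTopology.continuous_of_linearMap (nMap h).symm.toLinearMap

/-- The action on numerical classes is a homeomorphism. -/
noncomputable def nHomeo (h : Stable θ X) : N1 X ≃ₜ N1 X where
  toEquiv := (nMap h).toEquiv
  continuous_toFun := nMap_continuous h
  continuous_invFun := nMap_symm_continuous h

theorem nMap_symm_eq (h : Stable θ X) (γ : N1 X) : (nMap h).symm γ = nMap h.symm γ := by
  rw [LinearEquiv.symm_apply_eq]
  obtain ⟨Z, rfl⟩ := Submodule.Quotient.mk_surjective _ γ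
  change cls Z = nMap h (nMap h.symm (cls Z))
  rw [nMap_cls, nMap_cls, ← cycMap_symm_eq h, (cycMap h).apply_symm_apply]

theorem nMap_effCone (h : Stable θ X) {γ : N1 X} (hγ : γ ∈ effCone X) : nMap h γ ∈ effCone X := by
  obtain ⟨Z, hZ, rfl⟩ := hγ
  refine ⟨cycMap h Z, fun C => ?_, nMap_cls h Z⟩
  rw [cycMap_apply]
  exact hZ _

theorem image_closure_nMap (h : Stable θ X) (S : Set (N1 X)) :
    nMap h '' closure S = closure (nMap h '' S) :=
  (nHomeo h).image_closure S

theorem nMap_closure {S : Set (N1 X)} (h : Stable θ X) (hS : ∀ γ ∈ S, nMap h γ ∈ S) {γ : N1 X}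
    (hγ : γ ∈ closure S) : nMap h γ ∈ closure S := by
  have h1 : nMap h γ ∈ nMap h '' closure S := ⟨γ, hγ, rfl⟩
  rw [image_closure_nMap] at h1
  refine closure_mono ?_ h1
  rintro _ ⟨δ, hδ, rfl⟩
  exact hS δ hδ

theorem nMap_Eff (h : Stable θ X) {γ : N1 X} (hγ : γ ∈ Eff X) : nMap h γ ∈ Eff X :=
  nMap_closure h (fun _ hδ => nMap_effCone h hδ) hγ

theorem nMap_image_Eff (h : Stable θ X) : nMap h '' Eff X = Eff X := by
  apply Set.Subset.antisymm
  · rintro _ ⟨γ, hγ, rfl⟩
    exact nMap_Eff h hγ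
  · intro γ hγ
    refine ⟨(nMap h).symm γ, ?_, (nMap h).apply_symm_apply γ⟩
    rw [nMap_symm_eq]
    exact nMap_Eff h.symm hγ

theorem nMap_IsBig (h : Stable θ X) {γ : N1 X} (hγ : IsBig X γ) : IsBig X (nMap h γ) := by
  unfold IsBig at *
  have h1 : nMap h γ ∈ nMap h '' interior (Eff X) := ⟨γ, hγ, rfl⟩
  have h2 : nMap h '' interior (Eff X) = interior (nMap h '' Eff X) :=
    (nHomeo h).image_interior (Eff X)
  rw [h2, nMap_image_Eff] at h1
  exact h1

theorem pencil_curveMap (h : Stable θ X) {C : Curve X} (hC : IsPencilMember C) :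
    IsPencilMember (curveMap h C) := by
  obtain ⟨u, h1, h2, h3⟩ := hC
  refine ⟨θ u, ?_, ?_, ?_⟩
  · intro c hc
    apply h1 c
    apply θ.injective
    rw [hc]
    simp
  · intro C'
    have e : C' = curveMap h ((curveMap h).symm C') := ((curveMap h).apply_symm_apply C').symm
    rw [e, curveMap_val, apply_mem_mx, h2]
    exact ((curveMap h).injective.eq_iff).symm
  · intro f hf
    rw [curveMap_val, mem_mx_mp] at hf
    rw [curveMap_val, mem_mp, map_div₀]
    simpa using h3 _ hf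

theorem nMap_Mov (h : Stable θ X) {γ : N1 X} (hγ : γ ∈ Mov X) : nMap h γ ∈ Mov X := by
  refine nMap_closure h ?_ hγ
  rintro _ ⟨Z, hZ, hp, rfl⟩
  refine ⟨cycMap h Z, fun C => ?_, fun C hC => ?_, nMap_cls h Z⟩
  · rw [cycMap_apply]
    exact hZ _
  · rw [cycMap_apply] at hC
    have := pencil_curveMap h (hp _ hC)
    rwa [Equiv.apply_symm_apply] at this


end Pool.Agent.H90ZD
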