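import Pool.Agent.H90ZD.Res

open Filter Topology Bornology

namespace Pool.Agent.H90ZD

theorem moduleTopology_le_of {E : Type} [AddCommGroup E] [Module ℝ E] [t : TopologicalSpace E]
    (h1 : IsTopologicalAddGroup E) (h2 : ContinuousSMul ℝ E) : moduleTopology ℝ E ≤ t :=
  moduleTopology_le ℝ E

theorem seminorm_nhds {E : Type} [AddCommGroup E] [Module ℝ E] (p : Seminorm ℝ E) {S : Set E}
    {x : E} (h : ∀ y, p (y - x) < 1 → y ∈ S) : S ∈ @nhds E (moduleTopology ℝ E) x := by
  let P : SeminormFamily ℝ E Unit := fun _ => p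
  let t : TopologicalSpace E := P.moduleFilterBasis.topology
  have hWS : WithSeminorms P := ⟨rfl⟩
  have hadd : IsTopologicalAddGroup E := hWS.topologicalAddGroup
  have hsmul : ContinuousSMul ℝ E := hWS.continuousSMul
  have hle : moduleTopology ℝ E ≤ t := moduleTopology_le_of hadd hsmul
  have hnt : S ∈ @nhds E t x := by
    rw [hWS.mem_nhds_iff]
    refine ⟨{()}, 1, one_pos, ?_⟩
    intro y hy
    rw [Finset.sup_singleton, Seminorm.mem_ball] at hy
    exact h y hy
  exact nhds_mono hle hnt

/-- In the module topology of a real vector space, the algebraic interior points of a convex set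
are interior points. -/
theorem mem_interior_of_alg {E : Type} [AddCommGroup E] [Module ℝ E] [τ : TopologicalSpace E]
    [hτ : IsModuleTopology ℝ E] {S : Set E} (hS : Convex ℝ S) {x : E}
    (h : ∀ v, ∃ ε : ℝ, 0 < ε ∧ x + ε • v ∈ S) : x ∈ interior S := by
  have hx : x ∈ S := by
    obtain ⟨ε, _, h1⟩ := h 0
    simpa using h1
  set T : Set E := {v | x + v ∈ S ∧ x - v ∈ S} with hT
  have hTc : Convex ℝ T := by
    intro v hv w hw a b ha hb hab
    refine ⟨?_, ?_⟩
    · have e : x + (a • v + b • w) = a • (x + v) + b • (x + w) := by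
        have : x = (a + b) • x := by rw [hab, one_smul]
        conv_lhs => rw [this]
        module
      rw [e]
      exact hS hv.1 hw.1 ha hb hab
    · have e : x - (a • v + b • w) = a • (x - v) + b • (x - w) := by
        have : x = (a + b) • x := by rw [hab, one_smul]
        conv_lhs => rw [this]
        module
      rw [e]
      exact hS hv.2 hw.2 ha hb hab
  have hseg : ∀ (a : ℝ) (v : E), 0 ≤ a → a ≤ 1 → x + v ∈ S → x + a • v ∈ S := by
    intro a v ha ha1 hv
    have e : x + a • v = (1 - a) • x + a • (x + v) := by module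
    rw [e]
    exact hS hx hv (by linarith) ha (by ring)
  have hTb : Balanced ℝ T := by
    intro a ha
    rintro _ ⟨v, hv, rfl⟩
    rw [Real.norm_eq_abs] at ha
    change x + a • v ∈ S ∧ x - a • v ∈ S
    have hv2 : x + (-v) ∈ S := by rw [← sub_eq_add_neg]; exact hv.2
    rcases le_total 0 a with h0 | h0
    · rw [abs_of_nonneg h0] at ha
      refine ⟨hseg a v h0 ha hv.1, ?_⟩
      have := hseg a (-v) h0 ha hv2
      rwa [smul_neg, ← sub_eq_add_neg] at this
    · rw [abs_of_nonpos h0] at ha
      refine ⟨?_, ?_⟩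
      · have := hseg (-a) (-v) (by linarith) ha hv2
        rwa [smul_neg, neg_smul, neg_neg] at this
      · have := hseg (-a) v (by linarith) ha hv.1
        rwa [neg_smul, ← sub_eq_add_neg] at this
  have hTa : Absorbent ℝ T := by
    rw [absorbent_iff_inv_smul]
    intro v
    obtain ⟨ε₁, hε₁, h1⟩ := h v
    obtain ⟨ε₂, hε₂, h2⟩ := h (-v)
    rw [← comap_norm_atTop]
    rw [Filter.eventually_comap]
    filter_upwards [eventually_ge_atTop (max ε₁⁻¹ ε₂⁻¹)] with r hr c hc
    have hr1 : ε₁⁻¹ ≤ r := le_trans (le_max_left _ _) hr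
    have hr2 : ε₂⁻¹ ≤ r := le_trans (le_max_right _ _) hr
    have hr0 : 0 < r := lt_of_lt_of_le (inv_pos.2 hε₁) hr1
    rw [Real.norm_eq_abs] at hc
    have hc0 : c ≠ 0 := by
      rintro rfl
      rw [abs_zero] at hc
      exact hr0.ne hc
    have key : ∀ s : ℝ, |s| = r⁻¹ → x + s • v ∈ S := by
      intro s hs
      have hr' : r⁻¹ ≤ ε₁ := by
        rw [inv_le_comm₀ hr0 hε₁]
        exact hr1
      have hr'' : r⁻¹ ≤ ε₂ := by
        rw [inv_le_comm₀ hr0 hε₂]
        exact hr2
      rcases le_total 0 s with h0 | h0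
      · rw [abs_of_nonneg h0] at hs
        have := hseg (s / ε₁) (ε₁ • v) (by positivity) (by
          rw [div_le_one hε₁, hs]; exact hr') h1
        rwa [smul_smul, div_mul_cancel₀ _ hε₁.ne'] at this
      · rw [abs_of_nonpos h0] at hs
        have := hseg (-s / ε₂) (ε₂ • (-v)) (by
          apply div_nonneg _ hε₂.le
          linarith) (by
          rw [div_le_one hε₂, hs]; exact hr'') h2
        rwa [smul_smul, div_mul_cancel₀ _ hε₂.ne', smul_neg, neg_smul, neg_neg] at this
    refine ⟨key c⁻¹ ?_, ?_⟩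
    · rw [abs_inv, hc]
    · have := key (-c⁻¹) (by rw [abs_neg, abs_inv, hc])
      rwa [neg_smul, ← sub_eq_add_neg] at this
  let p : Seminorm ℝ E := gaugeSeminorm hTb hTc hTa
  rw [mem_interior_iff_mem_nhds, hτ.eq_moduleTopology']
  refine seminorm_nhds p ?_
  intro y hy
  have h1 : y - x ∈ T := by
    apply setOfPred_gauge_lt_one_subset_self hTc hTa.zero_mem hTa
    exact hy
  have := h1.1
  rwa [add_sub_cancel] at this

variable {K F : Type} [Field K] [Field F] [Algebra K F]

variable {X : Set (Subalgebra K F)}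

theorem cls_add (Z₁ Z₂ : Cycles X) : cls (Z₁ + Z₂) = cls Z₁ + cls Z₂ := map_add _ _ _

theorem cls_smul (a : ℝ) (Z : Cycles X) : cls (a • Z) = a • cls Z := map_smul _ _ _

theorem effCone_add {γ δ : N1 X} (hγ : γ ∈ effCone X) (hδ : δ ∈ effCone X) :
    γ + δ ∈ effCone X := by
  obtain ⟨Z, hZ, rfl⟩ := hγ
  obtain ⟨W, hW, rfl⟩ := hδ
  exact ⟨Z + W, fun C => add_nonneg (hZ C) (hW C), (cls_add Z W).symm⟩

theorem effCone_smul {a : ℝ} (ha : 0 ≤ a) {γ : N1 X} (hγ : γ ∈ effCone X) :
    a • γ ∈ effCone X := by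
  obtain ⟨Z, hZ, rfl⟩ := hγ
  exact ⟨a • Z, fun C => mul_nonneg ha (hZ C), (cls_smul a Z).symm⟩

theorem effCone_zero : (0 : N1 X) ∈ effCone X :=
  ⟨0, fun _ => le_rfl, (map_zero _).symm⟩

theorem effCone_convex : Convex ℝ (effCone X) := by
  intro γ hγ δ hδ a b ha hb _
  exact effCone_add (effCone_smul ha hγ) (effCone_smul hb hδ)

theorem natCls_mem_effCone (E : Curve X →₀ ℕ) : natCls E ∈ effCone X :=
  ⟨_, fun C => by simp, rfl⟩

theorem natCls_single (C : Curve X) (n : ℕ) :
    natCls (Finsupp.single C n) = (n : ℝ) • cls (Finsupp.single C (1 : ℝ)) := by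
  unfold natCls
  rw [Finsupp.mapRange_single, ← cls_smul, Finsupp.smul_single, smul_eq_mul, mul_one]

/-- `H` is a class such that for every curve `C` some multiple of `H` minus `C` is effective. -/
def Dominating (X : Set (Subalgebra K F)) (H : N1 X) : Prop :=
  H ∈ effCone X ∧ ∀ C : Curve X, ∃ d : ℕ, (d : ℝ) • H - cls (Finsupp.single C (1 : ℝ)) ∈ effCone X

theorem Dominating.exists_add {H : N1 X} (hH : Dominating X H) (v : N1 X) :
    ∃ ε : ℝ, 0 < ε ∧ H + ε • v ∈ effCone X := by
  obtain ⟨Z, rfl⟩ := Submodule.Quotient.mk_surjective _ v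
  change ∃ ε : ℝ, 0 < ε ∧ H + ε • cls Z ∈ effCone X
  have key : ∃ d : ℝ, 0 ≤ d ∧ d • H + cls Z ∈ effCone X := by
    induction Z using Finsupp.induction_linear with
    | zero => exact ⟨0, le_rfl, by
        rw [zero_smul, zero_add]
        have : cls (0 : Cycles X) = 0 := map_zero _
        rw [this]
        exact effCone_zero⟩
    | add Z W hZ hW =>
      obtain ⟨d, hd, h1⟩ := hZ
      obtain ⟨e, he, h2⟩ := hW
      refine ⟨d + e, add_nonneg hd he, ?_⟩
      have : (d + e) • H + cls (Z + W) = (d • H + cls Z) + (e • H + cls W) := by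
        rw [cls_add]
        module
      rw [this]
      exact effCone_add h1 h2
    | single C a =>
      have e1 : cls (Finsupp.single C a) = a • cls (Finsupp.single C (1 : ℝ)) := by
        rw [← cls_smul, Finsupp.smul_single, smul_eq_mul, mul_one]
      rcases le_total 0 a with h0 | h0
      · refine ⟨0, le_rfl, ?_⟩
        rw [zero_smul, zero_add, e1]
        apply effCone_smul h0
        refine ⟨_, fun C' => ?_, rfl⟩
        classical
        rw [Finsupp.single_apply]
        split_ifs <;> norm_num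
      · obtain ⟨d, hd⟩ := hH.2 C
        refine ⟨-a * d, mul_nonneg (by linarith) (Nat.cast_nonneg d), ?_⟩
        have e2 : (-a * d) • H + cls (Finsupp.single C a) =
            (-a) • ((d : ℝ) • H - cls (Finsupp.single C (1 : ℝ))) := by
          rw [e1]
          module
        rw [e2]
        exact effCone_smul (by linarith) hd
  obtain ⟨d, hd, h1⟩ := key
  refine ⟨(d + 1)⁻¹, by positivity, ?_⟩
  have e : H + (d + 1)⁻¹ • cls Z = (d + 1)⁻¹ • (d • H + cls Z) + (d + 1)⁻¹ • H := by
    have h2 : (d + 1) ≠ 0 := by positivity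
    have h3 : H = ((d + 1)⁻¹ * (d + 1)) • H := by
      rw [inv_mul_cancel₀ h2, one_smul]
    conv_lhs => rw [h3]
    module
  rw [e]
  exact effCone_add (effCone_smul (by positivity) h1) (effCone_smul (by positivity) hH.1)

theorem isBig_of_sub {H γ : N1 X} (hH : Dominating X H) {ε : ℝ} (hε : 0 < ε)
    (h : γ - ε • H ∈ effCone X) : IsBig X γ := by
  have h1 : γ ∈ interior (effCone X) := by
    apply mem_interior_of_alg effCone_convex
    intro v
    obtain ⟨δ, hδ, h2⟩ := hH.exists_add v
    refine ⟨ε * δ, mul_pos hε hδ, ?_⟩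
    have e : γ + (ε * δ) • v = (γ - ε • H) + ε • (H + δ • v) := by module
    rw [e]
    exact effCone_add h (effCone_smul hε.le h2)
  exact interior_mono subset_closure h1

/-- The divisor of zeros of a section of the linear system `V`. -/
theorem dominating_of_section [IsAlgClosed K] (hX : IsProjectiveSurface X) {V : Submodule K F}
    (hV : V.FG) (hVX : Model V = X) {s : F} (hs : s ∈ V) (hs0 : s ≠ 0) (ν : Curve X →₀ ℕ)
    (hν : ∀ (C : Curve X), ∃ u, Dom V C.1 u ∧ ν C = oz C.1 (s / u)) :
    Dominating X (natCls ν) := by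
  refine ⟨natCls_mem_effCone ν, fun C => ?_⟩
  obtain ⟨t, ht, ht0⟩ := curve_exists_mx hX C
  have hC : C.1 ∈ Model V := by rw [hVX]; exact C.2.mem
  obtain ⟨u, hu⟩ := exists_dom hC
  have hu0 := hu.ne_zero
  obtain ⟨d, a, ha, b, hb, hbP, rfl⟩ := (mem_iff_frac hC).1 ht.1
  have hb0 := GrIdeal.IsPrime.ne_zero_of_not_mem hbP
  have ha0 : a ≠ 0 := by
    rintro rfl
    simp at ht0
  obtain ⟨νa, hνa, -⟩ := exists_div_form hX hV hVX ha ha0
  have hνa' : ∀ (C : Curve X) (u : F) (hu : Dom V C.1 u), oz C.1 (a / u ^ d) = νa C := by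
    intro C u hu
    rw [oz_eq (hu.div_pow_mem ha), hνa C u hu]
    rfl
  refine ⟨d, ?_⟩
  have h1 : natCls νa = natCls (d • ν) := by
    apply natCls_eq_of_zord hX (h := a / s ^ d) (div_ne_zero ha0 (pow_ne_zero _ hs0))
    intro C'
    obtain ⟨u', hu', h2⟩ := hν C'
    have hu0' := hu'.ne_zero
    have hfin := finOrd_curve hX C'
    have hfr := fracOf_curve hX C'.2.mem
    have e : a / s ^ d = (a / u' ^ d) / (s / u') ^ d := by
      rw [div_pow]
      field_simp
    have hsu : s / u' ∈ C'.1 := hu'.div_mem s hs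
    have hsu0 : s / u' ≠ 0 := div_ne_zero hs0 hu0'
    have hpow : ∀ n : ℕ, zord C'.1 ((s / u') ^ n) = n * zord C'.1 (s / u') := by
      intro n
      induction n with
      | zero =>
        rw [pow_zero, zord_unit hfin C'.1.one_mem one_not_mem_mx]
        simp
      | succ n ih =>
        rw [pow_succ, zord_mul hfin hfr (pow_ne_zero _ hsu0) hsu0, ih]
        push_cast
        ring
    rw [e, zord_div' hfin hfr (div_ne_zero ha0 (pow_ne_zero _ hu0')) (pow_ne_zero _ hsu0),
      hpow, zord_of_mem hfin (hu'.div_pow_mem ha) (div_ne_zero ha0 (pow_ne_zero _ hu0')),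
      zord_of_mem hfin hsu hsu0, hνa' C' u' hu', ← h2, Finsupp.smul_apply, smul_eq_mul]
    push_cast
    ring
  have h3 : 1 ≤ νa C := by
    rw [← hνa' C u hu]
    apply oz_pos (finOrd_curve hX C)
    · have e : a / u ^ d = (a / b) * (b / u ^ d) := by field_simp
      rw [e]
      exact mx_mul_right ht (hu.div_pow_mem hb)
    · exact div_ne_zero ha0 (pow_ne_zero _ hu0)
  classical
  have h4 : νa = (νa - Finsupp.single C 1) + Finsupp.single C 1 := by
    ext C'
    rw [Finsupp.add_apply, Finsupp.tsub_apply]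
    by_cases hC' : C' = C
    · subst hC'
      rw [Finsupp.single_eq_same]
      omega
    · rw [Finsupp.single_eq_of_ne hC']
      omega
  have h5 : (d : ℝ) • natCls ν - cls (Finsupp.single C (1 : ℝ)) =
      natCls (νa - Finsupp.single C 1) := by
    rw [natCls_nsmul] at h1
    rw [h4, natCls_add, natCls_single] at h1
    rw [Nat.cast_smul_eq_nsmul, ← h1]
    simp
  rw [h5]
  exact natCls_mem_effCone _

end Pool.Agent.H90ZD
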