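import Pool.Agent.H90ZD.Big

open Filter Topology

namespace Pool.Agent.H90ZD

variable {K F : Type} [Field K] [Field F] [Algebra K F]

variable {X : Set (Subalgebra K F)}

theorem rational_subset (M : N1 X → ENNReal) (hM : IsMobilityFunction X M) :
    RationalPositiveParts X ⊆ PositiveParts X M := by
  rintro ⟨β, P⟩ ⟨h1, h2, h3, n, B, Q, hn, hB, hQ, hmob⟩
  refine ⟨h1, h2, h3, ?_⟩
  have hn' : (0 : ℝ) < n := by exact_mod_cast hn
  have h4 := hM.homogeneous n β hn'
  have h5 := hM.homogeneous n P hn'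
  change (n : ℝ) • β = _ at hB
  change (n : ℝ) • P = _ at hQ
  rw [hB, hM.integral] at h4
  rw [hQ, hM.integral, hmob, h4] at h5
  have h6 : ENNReal.ofReal n ^ 2 ≠ 0 := by
    apply pow_ne_zero
    rw [ENNReal.ofReal_ne_zero_iff]
    exact hn'
  have h7 : ENNReal.ofReal n ^ 2 ≠ ⊤ := ENNReal.pow_ne_top ENNReal.ofReal_ne_top
  change M P = M β
  exact ((ENNReal.mul_right_inj h6 h7).1 h5).symm

theorem natCls_smul_cast (m : ℕ) (E : Curve X →₀ ℕ) : natCls (m • E) = (m : ℝ) • natCls E := by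
  rw [natCls_nsmul, Nat.cast_smul_eq_nsmul]

/-- The class of a curve. -/
noncomputable def cc (C : Curve X) : N1 X := cls (Finsupp.single C (1 : ℝ))

theorem natCls_single' (C : Curve X) (n : ℕ) :
    natCls (Finsupp.single C n) = (n : ℝ) • cc C := natCls_single C n

theorem cc_mem_effCone (C : Curve X) : cc C ∈ effCone X := by
  refine ⟨_, fun C' => ?_, rfl⟩
  classical
  rw [Finsupp.single_apply]
  split_ifs <;> norm_num

theorem nMap_cc {θ : F ≃ₐ[K] F} (h : Stable θ X) (C : Curve X) :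
    nMap h (cc C) = cc (curveMap h C) := by
  unfold cc
  rw [nMap_cls]
  congr 1
  unfold cycMap
  rw [Finsupp.domLCongr_apply, Finsupp.domCongr_apply, Finsupp.equivMapDomain_single]

theorem nMap_natCls {θ : F ≃ₐ[K] F} (h : Stable θ X) (E : Curve X →₀ ℕ) :
    nMap h (natCls E) = natCls (E.equivMapDomain (curveMap h)) := by
  unfold natCls
  rw [nMap_cls]
  congr 1
  ext C
  rw [cycMap_apply]
  simp

theorem cc_mem_Mov {D : Curve X} (hD : IsPencilMember D) {b : ℝ} (hb : 0 ≤ b) :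
    b • cc D ∈ Mov X := by
  apply subset_closure
  refine ⟨Finsupp.single D b, fun C => ?_, fun C hC => ?_, ?_⟩
  · classical
    rw [Finsupp.single_apply]
    split_ifs
    · exact hb
    · exact le_rfl
  · by_cases h : C = D
    · rwa [h]
    · rw [Finsupp.single_eq_of_ne h] at hC
      exact absurd rfl hC
  · unfold cc
    rw [← cls_smul, Finsupp.smul_single, smul_eq_mul, mul_one]

/-- The data from which the example is built. -/
structure Data [IsAlgClosed K] (X : Set (Subalgebra K F)) where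
  surface : IsProjectiveSurface X
  V₀ : Submodule K F
  V₁ : Submodule K F
  V₂ : Submodule K F
  fg₀ : V₀.FG
  fg₁ : V₁.FG
  fg₂ : V₂.FG
  model₀ : Model V₀ = X
  model₁ : Model V₁ = X
  model₂ : Model V₂ = X
  C₁ : Curve X
  D : Curve X
  deg_C₁ : degC V₁ C₁.1 < degC V₂ C₁.1
  deg_D : degC V₁ D.1 = degC V₂ D.1
  deg_le : ∀ C : Curve X, C ≠ C₁ → degC V₂ C.1 ≤ degC V₁ C.1
  pencil : IsPencilMember D
  big : ∀ a b : ℝ, 0 < a → 0 < b → IsBig X (a • cc C₁ + b • cc D)
  α : N1 X
  θ : ℕ → (F ≃ₐ[K] F)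
  hθ : ∀ j, Stable (θ j) X
  p : ℕ → ℕ
  q : ℕ → ℕ
  hp : ∀ j, 0 < p j
  hq : ∀ j, 0 < q j
  lim : Tendsto (fun j => ((p j : ℝ) / q j) • nMap (hθ j) (cc C₁)) atTop (𝓝 α)
  ψ : ℕ → (F ≃ₐ[K] F)
  hψ : ∀ j, Stable (ψ j) X
  s : ℕ → ℝ
  eig : ∀ n, nMap (hψ n) α = s n • α
  hs : Tendsto s atTop (𝓝 0)
  deg_pos : 0 < degN surface fg₀ model₀ α

variable [IsAlgClosed K] (d : Data X)

/-- The functional that is negative exactly on `C₁`. -/
theorem contains_C₁ (a b m : ℕ) (E : Curve X →₀ ℕ)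
    (hE : natCls E = m • ((a : ℝ) • cc d.C₁ + (b : ℝ) • cc d.D)) : m * a ≤ E d.C₁ := by
  classical
  have h1 : ∀ E : Curve X →₀ ℕ, degN d.surface d.fg₁ d.model₁ (natCls E) -
      degN d.surface d.fg₂ d.model₂ (natCls E) =
      E.sum fun C n => (n : ℝ) * (degC d.V₁ C.1 - degC d.V₂ C.1) := by
    intro E
    rw [degN_natCls, degN_natCls, Finsupp.sum, Finsupp.sum, Finsupp.sum, ← Finset.sum_sub_distrib]
    refine Finset.sum_congr rfl fun C _ => ?_
    ring
  have hcc : ∀ C : Curve X, natCls (Finsupp.single C 1) = cc C := by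
    intro C
    rw [natCls_single', Nat.cast_one, one_smul]
  have h2 : ∀ C : Curve X, degN d.surface d.fg₁ d.model₁ (cc C) -
      degN d.surface d.fg₂ d.model₂ (cc C) = degC d.V₁ C.1 - degC d.V₂ C.1 := by
    intro C
    rw [← hcc, h1, Finsupp.sum_single_index]
    · rw [Nat.cast_one, one_mul]
    · simp
  have h3 := h1 E
  rw [hE, map_nsmul, map_nsmul, map_add, map_add, map_smul, map_smul, map_smul, map_smul] at h3
  have h4 := h2 d.C₁
  have h5 := h2 d.D
  rw [d.deg_D, sub_self] at h5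
  set x₁ := degN d.surface d.fg₁ d.model₁ (cc d.C₁)
  set x₂ := degN d.surface d.fg₂ d.model₂ (cc d.C₁)
  set y₁ := degN d.surface d.fg₁ d.model₁ (cc d.D)
  set y₂ := degN d.surface d.fg₂ d.model₂ (cc d.D)
  set δ := degC d.V₂ d.C₁.1 - degC d.V₁ d.C₁.1 with hδ
  have hδ0 : 0 < δ := sub_pos.2 d.deg_C₁
  have h6 : (E.sum fun C n => (n : ℝ) * (degC d.V₁ C.1 - degC d.V₂ C.1)) ≥ -(E d.C₁ : ℝ) * δ := by
    have h7 : E = E.erase d.C₁ + Finsupp.single d.C₁ (E d.C₁) := by
      rw [add_comm, Finsupp.single_add_erase]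
    conv_lhs => rw [h7]
    rw [Finsupp.sum_add_index' (by intro C; simp) (by intro C x y; push_cast; ring),
      Finsupp.sum_single_index (by simp)]
    have h8 : 0 ≤ (E.erase d.C₁).sum fun C n => (n : ℝ) * (degC d.V₁ C.1 - degC d.V₂ C.1) := by
      apply Finset.sum_nonneg
      intro C hC
      have hne : C ≠ d.C₁ := by
        rintro rfl
        rw [Finsupp.mem_support_iff, Finsupp.erase_same] at hC
        exact hC rfl
      apply mul_nonneg (Nat.cast_nonneg _)
      rw [sub_nonneg]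
      exact d.deg_le C hne
    have h9 : (E d.C₁ : ℝ) * (degC d.V₁ d.C₁.1 - degC d.V₂ d.C₁.1) = -(E d.C₁ : ℝ) * δ := by
      rw [hδ]
      ring
    rw [h9]
    linarith
  rw [← h3] at h6
  have h10 : m • ((a : ℝ) • x₁ + (b : ℝ) • y₁) - m • ((a : ℝ) • x₂ + (b : ℝ) • y₂) =
      (m : ℝ) * a * (x₁ - x₂) + m * b * (y₁ - y₂) := by
    simp only [smul_eq_mul, nsmul_eq_mul]
    ring
  rw [h10, h4, h5] at h6
  have h11 : degC d.V₁ d.C₁.1 - degC d.V₂ d.C₁.1 = -δ := by
    rw [hδ]
    ring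
  rw [h11] at h6
  have h12 : ((m * a : ℕ) : ℝ) * δ ≤ (E d.C₁ : ℝ) * δ := by
    push_cast
    linarith
  have h13 := le_of_mul_le_mul_right h12 hδ0
  exact_mod_cast h13

theorem mob_eq_data (j a b : ℕ) :
    mob X ((a : ℝ) • nMap (d.hθ j) (cc d.C₁) + (b : ℝ) • nMap (d.hθ j) (cc d.D)) =
      mob X ((b : ℝ) • nMap (d.hθ j) (cc d.D)) := by
  refine mob_eq d.surface (curveMap (d.hθ j) d.C₁) _ _ a ?_ ?_
  · rw [natCls_single', nMap_cc, add_comm]
  · intro m E hE
    have h1 := congrArg (nMap (d.hθ j).symm) hE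
    have h2 : ∀ γ, nMap (d.hθ j).symm (nMap (d.hθ j) γ) = γ := by
      intro γ
      rw [← nMap_symm_eq (d.hθ j), LinearEquiv.symm_apply_apply]
    rw [nMap_natCls, map_nsmul, map_add, map_smul, map_smul, h2, h2] at h1
    have h3 := contains_C₁ d a b m _ h1
    rw [Finsupp.equivMapDomain_apply] at h3
    exact h3

theorem pair_mem (j a b : ℕ) (ha : 0 < a) (hb : 0 < b) (n : ℕ) (hn : 0 < n) :
    (((a : ℝ) / n) • nMap (d.hθ j) (cc d.C₁) + ((b : ℝ) / n) • nMap (d.hθ j) (cc d.D),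
      ((b : ℝ) / n) • nMap (d.hθ j) (cc d.D)) ∈ RationalPositiveParts X := by
  have hn' : (0 : ℝ) < n := by exact_mod_cast hn
  have ha' : (0 : ℝ) < a := by exact_mod_cast ha
  have hb' : (0 : ℝ) < b := by exact_mod_cast hb
  refine ⟨?_, ?_, ?_, n, Finsupp.single (curveMap (d.hθ j) d.C₁) (a : ℤ) +
    Finsupp.single (curveMap (d.hθ j) d.D) (b : ℤ), Finsupp.single (curveMap (d.hθ j) d.D) (b : ℤ),
    hn, ?_, ?_, ?_⟩
  · have h1 := nMap_IsBig (d.hθ j) (d.big (a / n) (b / n) (by positivity) (by positivity))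
    rw [map_add, map_smul, map_smul] at h1
    exact h1
  · have h1 := nMap_Mov (d.hθ j) (cc_mem_Mov d.pencil (b := b / n) (by positivity))
    rw [map_smul] at h1
    exact h1
  · change (((a : ℝ) / n) • nMap (d.hθ j) (cc d.C₁) + ((b : ℝ) / n) • nMap (d.hθ j) (cc d.D)) -
      ((b : ℝ) / n) • nMap (d.hθ j) (cc d.D) ∈ Eff X
    rw [add_sub_cancel_right]
    apply subset_closure
    exact effCone_smul (by positivity) (nMap_effCone _ (cc_mem_effCone _))
  · have e : ∀ (C : Curve X) (a : ℕ), intCls (Finsupp.single C (a : ℤ)) = (a : ℝ) • cc C := by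
      intro C a
      unfold intCls cc
      rw [Finsupp.mapRange_single, ← cls_smul, Finsupp.smul_single, smul_eq_mul, mul_one]
      simp
    rw [intCls_add, e, e, ← nMap_cc, ← nMap_cc]
    change (n : ℝ) • (((a : ℝ) / n) • nMap (d.hθ j) (cc d.C₁) +
      ((b : ℝ) / n) • nMap (d.hθ j) (cc d.D)) = _
    rw [smul_add, smul_smul, smul_smul, mul_div_cancel₀ _ hn'.ne', mul_div_cancel₀ _ hn'.ne']
  · have e : ∀ (C : Curve X) (a : ℕ), intCls (Finsupp.single C (a : ℤ)) = (a : ℝ) • cc C := by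
      intro C a
      unfold intCls cc
      rw [Finsupp.mapRange_single, ← cls_smul, Finsupp.smul_single, smul_eq_mul, mul_one]
      simp
    rw [e, ← nMap_cc]
    change (n : ℝ) • (((b : ℝ) / n) • nMap (d.hθ j) (cc d.D)) = _
    rw [smul_smul, mul_div_cancel₀ _ hn'.ne']
  · have e : ∀ (C : Curve X) (a : ℕ), intCls (Finsupp.single C (a : ℤ)) = (a : ℝ) • cc C := by
      intro C a
      unfold intCls cc
      rw [Finsupp.mapRange_single, ← cls_smul, Finsupp.smul_single, smul_eq_mul, mul_one]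
      simp
    rw [intCls_add, e, e, ← nMap_cc, ← nMap_cc]
    exact (mob_eq_data d j a b).symm

instance instContinuousSMulN1 : ContinuousSMul ℝ (N1 X) := inferInstance

theorem limit_inner (j : ℕ) :
    (((d.p j : ℝ) / d.q j) • nMap (d.hθ j) (cc d.C₁), (0 : N1 X)) ∈
      closure (RationalPositiveParts X) := by
  set c := nMap (d.hθ j) (cc d.C₁) with hc
  set e := nMap (d.hθ j) (cc d.D) with he
  have hq := d.hq j
  have hp := d.hp j
  have hq' : (0 : ℝ) < d.q j := by exact_mod_cast hq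
  have h0 : Tendsto (fun k : ℕ => (d.p j : ℝ) / ((d.q j : ℝ) * ((k : ℝ) + 1))) atTop (𝓝 0) := by
    have h1 : Tendsto (fun k : ℕ => ((d.p j : ℝ) / d.q j) * (1 / ((k : ℝ) + 1))) atTop
        (𝓝 (((d.p j : ℝ) / d.q j) * 0)) :=
      tendsto_one_div_add_atTop_nhds_zero_nat.const_mul _
    rw [mul_zero] at h1
    refine h1.congr fun k => ?_
    have : (k : ℝ) + 1 ≠ 0 := by positivity
    field_simp
  have h1 : Tendsto (fun k : ℕ => (((d.p j : ℝ) / d.q j) • c +
      ((d.p j : ℝ) / ((d.q j : ℝ) * ((k : ℝ) + 1))) • e,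
      ((d.p j : ℝ) / ((d.q j : ℝ) * ((k : ℝ) + 1))) • e)) atTop
      (𝓝 (((d.p j : ℝ) / d.q j) • c, (0 : N1 X))) := by
    have h2 : Tendsto (fun k : ℕ => ((d.p j : ℝ) / ((d.q j : ℝ) * ((k : ℝ) + 1))) • e) atTop
        (𝓝 (0 : N1 X)) := by
      have := h0.smul_const e
      rwa [zero_smul] at this
    apply Tendsto.prodMk_nhds
    · have := h2.const_add (((d.p j : ℝ) / d.q j) • c)
      rwa [add_zero] at this
    · exact h2
  refine mem_closure_of_tendsto h1 (Eventually.of_forall fun k => ?_)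
  have h2 := pair_mem d j (d.p j * (k + 1)) (d.p j) (by positivity) hp (d.q j * (k + 1))
    (by positivity)
  have e1 : (((d.p j * (k + 1) : ℕ) : ℝ) / ((d.q j * (k + 1) : ℕ) : ℝ)) = (d.p j : ℝ) / d.q j := by
    push_cast
    have : (k : ℝ) + 1 ≠ 0 := by positivity
    field_simp
  have e2 : ((d.p j : ℝ) / ((d.q j * (k + 1) : ℕ) : ℝ)) =
      (d.p j : ℝ) / ((d.q j : ℝ) * ((k : ℝ) + 1)) := by
    push_cast
    rfl
  rw [e1, e2] at h2
  exact h2

theorem limit_pair : (d.α, (0 : N1 X)) ∈ closure (RationalPositiveParts X) := by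
  have h1 : Tendsto (fun j => (((d.p j : ℝ) / d.q j) • nMap (d.hθ j) (cc d.C₁), (0 : N1 X))) atTop
      (𝓝 (d.α, (0 : N1 X))) := d.lim.prodMk_nhds tendsto_const_nhds
  have h2 := mem_closure_of_tendsto h1 (Eventually.of_forall fun j => limit_inner d j)
  rwa [closure_closure] at h2

theorem alpha_mem_Eff : d.α ∈ Eff X := by
  refine mem_closure_of_tendsto d.lim (Eventually.of_forall fun j => ?_)
  have hq := d.hq j
  exact effCone_smul (by positivity) (nMap_effCone _ (cc_mem_effCone _))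

theorem degN_continuous (hX : IsProjectiveSurface X) {V : Submodule K F} (hV : V.FG)
    (hVX : Model V = X) : Continuous (degN hX hV hVX) :=
  IsModuleTopology.continuous_of_linearMap _

theorem degN_cls_apply (hX : IsProjectiveSurface X) {V : Submodule K F} (hV : V.FG)
    (hVX : Model V = X) {θ : F ≃ₐ[K] F} (h : Stable θ X) (Z : Cycles X) :
    degN hX hV hVX (nMap h (cls Z)) = Z.sum fun C a => a * degC V (curveMap h C).1 := by
  rw [nMap_cls, degN_cls, cycMap_sum]

/-- The class `α` is not supported on a proper subscheme. -/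
theorem not_supported : ¬ SupportedOnProper d.α := by
  rintro ⟨S, hS⟩
  -- a bound for the degrees of the curves in `S`
  obtain ⟨M, hM1, hM⟩ : ∃ M : ℝ, 1 ≤ M ∧ ∀ C ∈ S, degC d.V₀ C.1 ≤ M := by
    classical
    induction S using Finset.induction_on with
    | empty => exact ⟨1, le_rfl, by simp⟩
    | insert C S _ ih =>
      clear hS
      have : ∃ M : ℝ, 1 ≤ M ∧ ∀ C ∈ S, degC d.V₀ C.1 ≤ M := by
        refine ⟨1 + ∑ C ∈ S, |degC d.V₀ C.1|, ?_, ?_⟩
        · have : 0 ≤ ∑ C ∈ S, |degC d.V₀ C.1| := Finset.sum_nonneg fun C _ => abs_nonneg _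
          linarith
        · intro C hC
          have h1 := Finset.single_le_sum (f := fun C : Curve X => |degC d.V₀ C.1|)
            (fun C _ => abs_nonneg _) hC
          have h2 := le_abs_self (degC d.V₀ C.1)
          linarith
      obtain ⟨M, h1, h2⟩ := this
      refine ⟨max M (degC d.V₀ C.1), le_trans h1 (le_max_left _ _), ?_⟩
      intro C' hC'
      rcases Finset.mem_insert.1 hC' with rfl | h
      · exact le_max_right _ _
      · exact le_trans (h2 C' h) (le_max_left _ _)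
  have hM0 : 0 < M := by linarith
  have key : ∀ n, degN d.surface d.fg₀ d.model₀ d.α ≤
      M * degN d.surface d.fg₀ d.model₀ (nMap (d.hψ n) d.α) := by
    intro n
    have hclosed : IsClosed {γ : N1 X | degN d.surface d.fg₀ d.model₀ γ ≤
        M * degN d.surface d.fg₀ d.model₀ (nMap (d.hψ n) γ)} := by
      apply isClosed_le
      · exact degN_continuous _ _ _
      · exact continuous_const.mul ((degN_continuous _ _ _).comp (nMap_continuous _))
    have hsub : {γ : N1 X | ∃ Z : Cycles X, (∀ C, 0 ≤ Z C) ∧ (∀ C, C ∉ S → Z C = 0) ∧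
        γ = cls Z} ⊆ {γ : N1 X | degN d.surface d.fg₀ d.model₀ γ ≤
        M * degN d.surface d.fg₀ d.model₀ (nMap (d.hψ n) γ)} := by
      rintro _ ⟨Z, hZ, hZS, rfl⟩
      change degN _ _ _ (cls Z) ≤ M * degN _ _ _ (nMap (d.hψ n) (cls Z))
      rw [degN_cls, degN_cls_apply, Finsupp.sum, Finsupp.sum, Finset.mul_sum]
      apply Finset.sum_le_sum
      intro C hC
      have hCS : C ∈ S := by
        by_contra h
        exact (Finsupp.mem_support_iff.1 hC) (hZS C h)
      have h1 := hM C hCS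
      have h2 := one_le_degC d.surface d.fg₀ d.model₀ (curveMap (d.hψ n) C).2
      have h3 := hZ C
      calc Z C * degC d.V₀ C.1 ≤ Z C * M := mul_le_mul_of_nonneg_left h1 h3
        _ = M * (Z C * 1) := by ring
        _ ≤ M * (Z C * degC d.V₀ (curveMap (d.hψ n) C).1) := by
          apply mul_le_mul_of_nonneg_left _ hM0.le
          exact mul_le_mul_of_nonneg_left h2 h3
    exact closure_minimal hsub hclosed hS
  have h1 : Tendsto (fun n => M * degN d.surface d.fg₀ d.model₀ (nMap (d.hψ n) d.α)) atTop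
      (𝓝 0) := by
    have h2 : Tendsto (fun n => M * (d.s n * degN d.surface d.fg₀ d.model₀ d.α)) atTop
        (𝓝 (M * (0 * degN d.surface d.fg₀ d.model₀ d.α))) :=
      (d.hs.mul_const _).const_mul _
    rw [zero_mul, mul_zero] at h2
    refine h2.congr fun n => ?_
    rw [d.eig, map_smul, smul_eq_mul]
  have h2 := ge_of_tendsto' h1 key
  exact absurd d.deg_pos (not_lt.2 h2)

end Pool.Agent.H90ZD
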