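import Mathlib

/-!
# Numerical curve classes on projective surfaces, in the language of projective models

Throughout, `K` is a field (algebraically closed in the final result) and `F` is an extension field of `K`.
An integral projective variety `X` over `K` with function field `F` is described, in the classical
way, by the set of its local rings, which are subrings of `F`:
a non-zero finite-dimensional `K`-subspace `V` of `F` gives the
projective variety `Proj (K + V + V^2 + ...)`; its standard affine chart `u ≠ 0`, for `u` in `V`,
has coordinate ring `K[V/u]`, and `Model V` is the set of the local rings of all charts.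
Conversely the closed embeddings of `X` in projective spaces are given by the subspaces `V` with
`Model V = X`.
-/

open Filter Topology

namespace Pool.Agent.H90ZD

section Models

variable {K F : Type} [Field K] [Field F] [Algebra K F]

/-- The coordinate ring `K[V/u]` of the affine chart `u ≠ 0` of the projective variety
given by the subspace `V` of `F`. -/
def chart (V : Submodule K F) (u : F) : Subalgebra K F :=
  Algebra.adjoin K {f | ∃ v ∈ V, f = v / u}

/-- `O` is the localisation, inside the field `F`, of its subring `A` at a prime ideal
(namely at the set of elements of `A` that are not invertible in the local ring `O`). -/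
structure IsLocalizationOf (A O : Subalgebra K F) : Prop where
  isLocal : IsLocalRing O
  le : A ≤ O
  frac : ∀ f ∈ O, ∃ a ∈ A, ∃ b ∈ A, b ≠ 0 ∧ b⁻¹ ∈ O ∧ f = a / b

/-- The set of the local rings (at all scheme points) of the projective variety given by `V`. -/
def Model (V : Submodule K F) : Set (Subalgebra K F) :=
  {O | ∃ u ∈ V, u ≠ 0 ∧ IsLocalizationOf (chart V u) O}

/-- The maximal ideal of a local ring `O` (the set of its non-invertible elements),
as a subset of `F`. -/
def mx (O : Subalgebra K F) : Set F := {f | f ∈ O ∧ (f = 0 ∨ f⁻¹ ∉ O)}

/-- `X` is the set of local rings of an integral projective surface over `K` with function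
field `F`: it comes from some finite-dimensional `V`, the generic point has local ring `F`
(so that `F` is the function field) and `F` has transcendence degree two. -/
structure IsProjectiveSurface (X : Set (Subalgebra K F)) : Prop where
  exists_embedding : ∃ V : Submodule K F, V.FG ∧ Model V = X
  generic : (⊤ : Subalgebra K F) ∈ X
  trdeg : Algebra.trdeg K F = 2

/-- Closed points of `X` (for `K` algebraically closed): the points with residue field `K`. -/
structure IsClosedPoint (X : Set (Subalgebra K F)) (O : Subalgebra K F) : Prop where
  mem : O ∈ X
  rational : ∀ f ∈ O, ∃ c : K, f - algebraMap K F c ∈ mx O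

/-- (Generic points of) integral curves on a projective surface `X`: the points that are neither
closed nor generic. -/
structure IsCurve (X : Set (Subalgebra K F)) (O : Subalgebra K F) : Prop where
  mem : O ∈ X
  ne_top : O ≠ ⊤
  not_closed : ¬ IsClosedPoint X O

/-- The type of closed points of `X`. -/
def ClosedPoint (X : Set (Subalgebra K F)) : Type := {O : Subalgebra K F // IsClosedPoint X O}

/-- The type of integral curves on the surface `X`. -/
def Curve (X : Set (Subalgebra K F)) : Type := {O : Subalgebra K F // IsCurve X O}

/-- The closed point `p` lies on the curve `C`: the local ring of `X` at `p` is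
contained in the local ring at the generic point of `C`. -/
def LiesOn {X : Set (Subalgebra K F)} (p : ClosedPoint X) (C : Curve X) : Prop := p.1 ≤ C.1

/-- The space of the forms of degree `m` (elements of `V^m`) that vanish on the curve with local
ring `C`. -/
def vanishing (V : Submodule K F) (C : Subalgebra K F) (m : ℕ) : Submodule K F :=
  Submodule.span K {G | G ∈ V ^ m ∧ ∃ u ∈ V, u ≠ 0 ∧ (∀ v ∈ V, v / u ∈ C) ∧ G / u ^ m ∈ mx C}

/-- The Hilbert function of the curve `C` in the projective embedding of the surface given by `V`:
the dimension of `V^m` modulo the forms vanishing on `C`. For large `m` it equals `d * m + c`,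
with `d` the degree of `C` in this embedding. -/
noncomputable def hilb (V : Submodule K F) (C : Subalgebra K F) (m : ℕ) : ℕ :=
  Module.finrank K (V ^ m : Submodule K F) - Module.finrank K (vanishing V C m)

/-- Real 1-cycles on `X`. -/
abbrev Cycles (X : Set (Subalgebra K F)) : Type := Curve X →₀ ℝ

/-- The numerically trivial 1-cycles: those whose degree is zero in every closed
embedding of `X` in a projective space. (Every line bundle on `X` is a difference of very ample
ones, so this is numerical equivalence.) The degree of a cycle `Σ a_C C` is the limit of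
`(1/m) Σ a_C hilb(C, m)`. -/
noncomputable def numTriv (X : Set (Subalgebra K F)) : Submodule ℝ (Cycles X) where
  carrier := {Z | ∀ V : Submodule K F, V.FG → Model V = X →
    Tendsto (fun m : ℕ => (Z.sum fun C a => a * (hilb V C.1 m : ℝ)) / m) atTop (𝓝 0)}
  zero_mem' := by
    intro V _ _
    simp
  add_mem' := by
    intro Z₁ Z₂ h₁ h₂ V hV hX
    have h := (h₁ V hV hX).add (h₂ V hV hX)
    rw [add_zero] at h
    refine h.congr fun m => ?_
    rw [Finsupp.sum_add_index', add_div]
    · intro C; simp
    · intro C a b; ring
  smul_mem' := by
    intro r Z h V hV hX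
    have h' := (h V hV hX).const_mul r
    rw [mul_zero] at h'
    refine h'.congr fun m => ?_
    rw [Finsupp.sum_smul_index' (fun C => by simp), ← mul_div_assoc, Finsupp.mul_sum]
    congr 1
    refine Finsupp.sum_congr fun C _ => ?_
    rw [smul_eq_mul, mul_assoc]

/-- The real vector space `N_1(X)` of 1-cycles modulo numerical equivalence. -/
abbrev N1 (X : Set (Subalgebra K F)) : Type := Cycles X ⧸ numTriv X

/-- The canonical topology of the (finite-dimensional) real vector space `N_1(X)`. -/
noncomputable instance (X : Set (Subalgebra K F)) : TopologicalSpace (N1 X) :=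
  moduleTopology ℝ (N1 X)

/-- The class of a real 1-cycle in `N_1(X)`. -/
noncomputable def cls {X : Set (Subalgebra K F)} (Z : Cycles X) : N1 X :=
  (numTriv X).mkQ Z

/-- The class in `N_1(X)` of an integral 1-cycle. -/
noncomputable def intCls {X : Set (Subalgebra K F)} (D : Curve X →₀ ℤ) : N1 X :=
  cls (D.mapRange (fun n : ℤ => (n : ℝ)) Int.cast_zero)

/-- The class in `N_1(X)` of an effective integral 1-cycle. -/
noncomputable def natCls {X : Set (Subalgebra K F)} (D : Curve X →₀ ℕ) : N1 X :=
  cls (D.mapRange (fun n : ℕ => (n : ℝ)) Nat.cast_zero)

/-- The cone of the classes of effective real 1-cycles. -/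
def effCone (X : Set (Subalgebra K F)) : Set (N1 X) :=
  {γ | ∃ Z : Cycles X, (∀ C, 0 ≤ Z C) ∧ γ = cls Z}

/-- The pseudo-effective cone. -/
def Eff (X : Set (Subalgebra K F)) : Set (N1 X) := closure (effCone X)

/-- Big classes: the interior of the pseudo-effective cone. -/
def IsBig (X : Set (Subalgebra K F)) (γ : N1 X) : Prop := γ ∈ interior (Eff X)

/-- The curve `C` is (with multiplicity one) the divisor of zeros of a non-constant rational
function `u`. Then it is a member of the family of the divisors of zeros of the functions
`u - c`, for `c` in `K`, and the members of this family cover `X`. -/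
def IsPencilMember {X : Set (Subalgebra K F)} (C : Curve X) : Prop :=
  ∃ u : F, (∀ c : K, u ≠ algebraMap K F c) ∧ (∀ C' : Curve X, u ∈ mx C'.1 ↔ C' = C) ∧
    ∀ f ∈ mx C.1, f / u ∈ C.1

/-- The movable cone: the closure of the cone spanned by the classes of the irreducible curves
that are members of covering families (here: of pencils). -/
def Mov (X : Set (Subalgebra K F)) : Set (N1 X) :=
  closure {γ | ∃ Z : Cycles X, (∀ C, 0 ≤ Z C) ∧ (∀ C, Z C ≠ 0 → IsPencilMember C) ∧ γ = cls Z}

/-- The rational function `f` is regular at the closed point `p` with value `c`. -/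
def HasValue {X : Set (Subalgebra K F)} (p : ClosedPoint X) (f : F) (c : K) : Prop :=
  f - algebraMap K F c ∈ mx p.1

/-- `Q` holds for general `b`-tuples of points of `X`: it holds on a non-empty
(basic) Zariski-open subset of `X^b`, the set of the tuples at which finitely many rational
functions `a_j` are regular and a polynomial in their values is non-zero. -/
def GeneralPoints (X : Set (Subalgebra K F)) (b : ℕ) (Q : (Fin b → ClosedPoint X) → Prop) :
    Prop :=
  ∃ (n : ℕ) (a : Fin n → F) (Θ : MvPolynomial (Fin b × Fin n) K),
    (∃ (p : Fin b → ClosedPoint X) (c : Fin b × Fin n → K),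
      (∀ i j, HasValue (p i) (a j) (c (i, j))) ∧ MvPolynomial.eval c Θ ≠ 0) ∧
    ∀ (p : Fin b → ClosedPoint X) (c : Fin b × Fin n → K),
      (∀ i j, HasValue (p i) (a j) (c (i, j))) → MvPolynomial.eval c Θ ≠ 0 → Q p

/-- The supremum of the numbers `b` such that any `b` general points of `X` lie on an
effective integral cycle of class `γ`. -/
noncomputable def mobCount (X : Set (Subalgebra K F)) (γ : N1 X) : ℕ∞ :=
  ⨆ b : {b : ℕ // GeneralPoints X b fun p => ∃ D : Curve X →₀ ℕ, natCls D = γ ∧
    ∀ i, ∃ C : Curve X, D C ≠ 0 ∧ LiesOn (p i) C}, (b.1 : ℕ∞)

/-- The mobility of an integral class `γ` of curves on the surface `X`. -/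
noncomputable def mob (X : Set (Subalgebra K F)) (γ : N1 X) : ENNReal :=
  limsup (fun m : ℕ => ((mobCount X (m • γ) : ℕ∞) : ENNReal) / ((m : ENNReal) ^ 2 / 2)) atTop

/-- `M` is the extension of the mobility to a homogeneous continuous function on `N_1(X)`
(the degree of homogeneity is `n/(n-k) = 2`). -/
structure IsMobilityFunction (X : Set (Subalgebra K F)) (M : N1 X → ENNReal) : Prop where
  continuous : Continuous M
  homogeneous : ∀ (c : ℝ) (γ : N1 X), 0 < c → M (c • γ) = ENNReal.ofReal c ^ 2 * M γ
  integral : ∀ D : Curve X →₀ ℤ, M (intCls D) = mob X (intCls D)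

/-- The set `𝒫` of the pairs `(β, P)` with `β` big and `P` a positive part of `β`. -/
def PositiveParts (X : Set (Subalgebra K F)) (M : N1 X → ENNReal) : Set (N1 X × N1 X) :=
  {q | IsBig X q.1 ∧ q.2 ∈ Mov X ∧ q.1 - q.2 ∈ Eff X ∧ M q.2 = M q.1}

/-- `α = P + N` is a Zariski decomposition of the pseudo-effective class `α`. -/
structure IsZariskiDecomposition (X : Set (Subalgebra K F)) (M : N1 X → ENNReal)
    (α P N : N1 X) : Prop where
  pseudoeffective : α ∈ Eff X
  sum : α = P + N
  limit : (α, P) ∈ closure (PositiveParts X M)

/-- The pairs `(B/n, Q/n)` in `𝒫`, with `B` and `Q` integral classes. Since the mobility is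
homogeneous, the condition on the mobility is `mob(Q) = mob(B)`, and only mobilities of integral
classes are involved. -/
def RationalPositiveParts (X : Set (Subalgebra K F)) : Set (N1 X × N1 X) :=
  {q | IsBig X q.1 ∧ q.2 ∈ Mov X ∧ q.1 - q.2 ∈ Eff X ∧
    ∃ (n : ℕ) (B Q : Curve X →₀ ℤ), 0 < n ∧ (n : ℝ) • q.1 = intCls B ∧ (n : ℝ) • q.2 = intCls Q ∧
      mob X (intCls Q) = mob X (intCls B)}

/-- `N` is the push-forward of a pseudo-effective class on a proper closed subscheme `W` of the
surface `X`: there are finitely many integral curves (those contained in `W`) such that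
`N` is in the closure of the cone spanned by their classes. -/
def SupportedOnProper {X : Set (Subalgebra K F)} (N : N1 X) : Prop :=
  ∃ S : Finset (Curve X),
    N ∈ closure {γ | ∃ Z : Cycles X, (∀ C, 0 ≤ Z C) ∧ (∀ C, C ∉ S → Z C = 0) ∧ γ = cls Z}

end Models

end Pool.Agent.H90ZD
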