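import Pool.Agent.H90ZD.Ord

open Filter Topology Polynomial

namespace Pool.Agent.H90ZD

variable {K F : Type} [Field K] [Field F] [Algebra K F]

open GrIdeal

variable {V : Submodule K F} {X : Set (Subalgebra K F)}

/-- The degree of a curve. -/
noncomputable def degC (V : Submodule K F) (C : Subalgebra K F) : ℝ :=
  limUnder atTop (fun m : ℕ => (hilb V C m : ℝ) / m)

theorem degC_eq_of_linear {C : Subalgebra K F} {e c : ℤ}
    (h : ∀ᶠ m in atTop, (hilb V C m : ℤ) = e * m + c) :
    Tendsto (fun m : ℕ => (hilb V C m : ℝ) / m) atTop (𝓝 (e : ℝ)) := by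
  have h1 : Tendsto (fun m : ℕ => (e : ℝ) + (c : ℝ) / m) atTop (𝓝 (e + 0 : ℝ)) :=
    tendsto_const_nhds.add (tendsto_const_div_atTop_nhds_zero_nat _)
  rw [add_zero] at h1
  refine h1.congr' ?_
  filter_upwards [h, eventually_gt_atTop 0] with m hm hm0
  have h2 : (hilb V C m : ℝ) = e * m + c := by
    have := congrArg (fun z : ℤ => (z : ℝ)) hm
    push_cast at this
    exact this
  rw [h2]
  have : (m : ℝ) ≠ 0 := by positivity
  field_simp

theorem tendsto_degC [IsAlgClosed K] (hX : IsProjectiveSurface X) (hV : V.FG) (hVX : Model V = X)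
    {C : Subalgebra K F} (hC : IsCurve X C) :
    Tendsto (fun m : ℕ => (hilb V C m : ℝ) / m) atTop (𝓝 (degC V C)) := by
  obtain ⟨e, c, h⟩ := hilb_curve_linear hX hV hVX hC
  have h1 := degC_eq_of_linear h
  have h2 : degC V C = e := h1.limUnder_eq
  rw [h2]
  exact h1

/-- The Hilbert function of a curve is unbounded. -/
theorem hilb_unbounded [IsAlgClosed K] (hV : V.FG) (hVX : Model V = X)
    {C : Subalgebra K F} (hC : IsCurve X C) (n : ℕ) (N : ℕ) :
    ∃ m, N ≤ m ∧ n ≤ hilb V C m := by
  have hCV : C ∈ Model V := by rw [hVX]; exact hC.mem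
  have hP := ptIdeal_isPrime hCV
  obtain ⟨t, ht, ht'⟩ : ∃ t ∈ C, ∀ c : K, t - algebraMap K F c ∉ mx C := by
    by_contra h
    push Not at h
    exact hC.not_closed ⟨hC.mem, h⟩
  obtain ⟨u, hu⟩ := exists_dom hCV
  have hu0 := hu.ne_zero
  obtain ⟨k, a, ha, b, hb, hbP, rfl⟩ := (mem_iff_frac hCV).1 ht
  have hb0 := IsPrime.ne_zero_of_not_mem hbP
  have hb1 := (not_mem_ptIdeal_iff hCV hu hb).1 hbP
  -- the forms `a ^ i * b ^ (l - i) * u ^ N`
  set l := n with hl
  set m := k * l + N with hm
  have hmem : ∀ i : ℕ, i ≤ l → a ^ i * b ^ (l - i) * u ^ N ∈ V ^ m := by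
    intro i hi
    refine mul_mem_pow_add ?_ (pow_mem_pow hu.mem N)
    have h1 : a ^ i ∈ V ^ (k * i) := by
      rw [pow_mul]
      exact pow_mem_pow ha i
    have h2 : b ^ (l - i) ∈ V ^ (k * (l - i)) := by
      rw [pow_mul]
      exact pow_mem_pow hb _
    have h3 := mul_mem_pow_add h1 h2
    have : k * i + k * (l - i) = k * l := by
      rw [← Nat.mul_add]
      congr 1
      omega
    rwa [this] at h3
  have hfd := finiteDimensional_pow hV m
  -- linear map from polynomials of degree at most l
  let Φ : (Fin (l + 1) → K) →ₗ[K] (V ^ m : Submodule K F) :=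
    { toFun := fun c => ⟨∑ i : Fin (l + 1), c i • (a ^ (i : ℕ) * b ^ (l - i) * u ^ N),
        Submodule.sum_mem _ fun i _ => Submodule.smul_mem _ _ (hmem i (by omega))⟩
      map_add' := by
        intro c d
        apply Subtype.ext
        change ∑ i : Fin (l + 1), (c i + d i) • (a ^ (i : ℕ) * b ^ (l - i) * u ^ N) = _
        simp only [add_smul, Finset.sum_add_distrib]
        rfl
      map_smul' := by
        intro r c
        apply Subtype.ext
        change ∑ i : Fin (l + 1), (r * c i) • (a ^ (i : ℕ) * b ^ (l - i) * u ^ N) = _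
        simp only [mul_smul]
        rw [← Finset.smul_sum]
        rfl }
  let P' : Submodule K (V ^ m : Submodule K F) := ((ptIdeal hCV).comp m).comap (V ^ m).subtype
  have hker : ∀ c, Φ c ∈ P' → c = 0 := by
    intro c hc
    have h1 : (Φ c : F) ∈ (ptIdeal hCV).comp m := hc
    rw [mem_ptIdeal hCV hu] at h1
    let G : K[X] := ∑ i : Fin (l + 1), Polynomial.monomial (i : ℕ) (c i)
    have h2 : (Φ c : F) / u ^ m = Polynomial.aeval (a / b) G * (b / u ^ k) ^ l := by
      have e1 : (Φ c : F) = ∑ i : Fin (l + 1), c i • (a ^ (i : ℕ) * b ^ (l - i) * u ^ N) := rfl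
      rw [e1]
      simp only [G, map_sum, Polynomial.aeval_monomial]
      rw [Finset.sum_div, Finset.sum_mul]
      refine Finset.sum_congr rfl fun i _ => ?_
      rw [Algebra.smul_def]
      have e2 : b ^ l = b ^ (i : ℕ) * b ^ (l - i) := by
        rw [← pow_add]
        congr 1
        omega
      rw [hm, pow_add, pow_mul, div_pow, div_pow, e2]
      field_simp
    by_contra hcne
    have hG : G ≠ 0 := by
      intro hG0
      apply hcne
      funext j
      have := congrArg (fun p : K[X] => p.coeff (j : ℕ)) hG0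
      simp only [G, Polynomial.finsetSum_coeff, Polynomial.coeff_monomial, Polynomial.coeff_zero] at this
      rw [Finset.sum_eq_single j] at this
      · simpa using this
      · intro i _ hij
        rw [if_neg]
        intro h
        exact hij (Fin.ext h)
      · intro h
        exact absurd (Finset.mem_univ j) h
    have h3 := aeval_not_mem_mx ht ht' G hG
    rw [h2] at h1
    have hGC : Polynomial.aeval (a / b) G ∈ C := by
      rw [Polynomial.aeval_eq_sum_range]
      exact C.sum_mem fun i _ => C.smul_mem (C.pow_mem ht _) _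
    rcases mem_mx_or_of_mul hGC (C.pow_mem (hu.div_pow_mem hb) l) h1.2 with h4 | h4
    · exact h3 h4
    · exact not_mem_mx_pow (hu.div_pow_mem hb) hb1 l h4
  have hinj : Function.Injective (P'.mkQ ∘ₗ Φ) := by
    rw [injective_iff_map_eq_zero]
    intro c hc
    apply hker
    rw [LinearMap.comp_apply, Submodule.mkQ_apply, Submodule.Quotient.mk_eq_zero] at hc
    exact hc
  have h5 := LinearMap.finrank_le_finrank_of_injective hinj
  rw [Module.finrank_fin_fun] at h5
  have h6 := P'.finrank_quotient_add_finrank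
  have h7 : Module.finrank K P' = Module.finrank K ((ptIdeal hCV).comp m) := by
    refine LinearEquiv.finrank_eq (Submodule.comapSubtypeEquivOfLe ((ptIdeal hCV).le_pow m))
  refine ⟨m, by omega, ?_⟩
  have h8 : hilb V C m = Module.finrank K (V ^ m : Submodule K F) -
    Module.finrank K ((ptIdeal hCV).comp m) := rfl
  omega

theorem one_le_degC [IsAlgClosed K] (hX : IsProjectiveSurface X) (hV : V.FG) (hVX : Model V = X)
    {C : Subalgebra K F} (hC : IsCurve X C) : 1 ≤ degC V C := by
  obtain ⟨e, c, h⟩ := hilb_curve_linear hX hV hVX hC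
  have h1 := degC_eq_of_linear h
  have h2 : degC V C = e := h1.limUnder_eq
  rw [h2]
  have h3 : 1 ≤ e := by
    by_contra hlt
    push Not at hlt
    rw [eventually_atTop] at h
    obtain ⟨N, hN⟩ := h
    obtain ⟨m, hm, hle⟩ := hilb_unbounded hV hVX hC ((|c| + 1).toNat) N
    have h4 := hN m hm
    have h5 : e * (m : ℤ) ≤ 0 := by
      apply mul_nonpos_of_nonpos_of_nonneg <;> omega
    have h6 : c ≤ |c| := le_abs_self c
    omega
  exact_mod_cast h3

/-- The degree of a cycle. -/
noncomputable def degCyc (X : Set (Subalgebra K F)) (V : Submodule K F) : Cycles X →ₗ[ℝ] ℝ :=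
  Finsupp.linearCombination ℝ (fun C : Curve X => degC V C.1)

theorem degCyc_apply (Z : Cycles X) : degCyc X V Z = Z.sum fun C a => a * degC V C.1 := rfl

theorem numTriv_le_ker [IsAlgClosed K] (hX : IsProjectiveSurface X) (hV : V.FG)
    (hVX : Model V = X) : numTriv X ≤ LinearMap.ker (degCyc X V) := by
  intro Z hZ
  have h1 := hZ V hV hVX
  have h2 : Tendsto (fun m : ℕ => (Z.sum fun C a => a * (hilb V C.1 m : ℝ)) / m) atTop
      (𝓝 (Z.sum fun C a => a * degC V C.1)) := by
    have h3 : ∀ m : ℕ, (Z.sum fun C a => a * (hilb V C.1 m : ℝ)) / m =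
        ∑ C ∈ Z.support, Z C * ((hilb V C.1 m : ℝ) / m) := by
      intro m
      rw [Finsupp.sum, Finset.sum_div]
      refine Finset.sum_congr rfl fun C _ => ?_
      rw [mul_div_assoc]
    simp_rw [h3]
    exact tendsto_finsetSum _ fun C _ => (tendsto_degC hX hV hVX C.2).const_mul _
  rw [LinearMap.mem_ker, degCyc_apply]
  exact tendsto_nhds_unique h2 h1

/-- The degree functional on numerical classes. -/
noncomputable def degN [IsAlgClosed K] (hX : IsProjectiveSurface X) (hV : V.FG)
    (hVX : Model V = X) : N1 X →ₗ[ℝ] ℝ :=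
  (numTriv X).liftQ (degCyc X V) (numTriv_le_ker hX hV hVX)

theorem degN_cls [IsAlgClosed K] (hX : IsProjectiveSurface X) (hV : V.FG)
    (hVX : Model V = X) (Z : Cycles X) :
    degN hX hV hVX (cls Z) = Z.sum fun C a => a * degC V C.1 := by
  unfold degN cls
  rw [Submodule.mkQ_apply, Submodule.liftQ_apply, degCyc_apply]

theorem degN_natCls [IsAlgClosed K] (hX : IsProjectiveSurface X) (hV : V.FG)
    (hVX : Model V = X) (E : Curve X →₀ ℕ) :
    degN hX hV hVX (natCls E) = E.sum fun C n => (n : ℝ) * degC V C.1 := by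
  unfold natCls
  rw [degN_cls, Finsupp.sum_mapRange_index (by intro C; simp)]

end Pool.Agent.H90ZD
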