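import Pool.Agent.H90ZD.Points

open Filter Topology Polynomial

namespace Pool.Agent.H90ZD

variable {K F : Type} [Field K] [Field F] [Algebra K F]

/-- If all values of `ψ` at non-zero elements are units of `O'` and `p` is a non-unit of `O'`
which is a unit of `O`, then the values of polynomials at `p` are units of `O`. -/
theorem eval₂_not_mem_mx {R : Type} [CommRing R] (ψ : R →+* F) {O' O : Subalgebra K F}
    (hloc : IsLocalRing O') (hle : O' ≤ O) (hmem : ∀ r, ψ r ∈ O') (hunit : ∀ r, r ≠ 0 → ψ r ∉ mx O')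
    {p : F} (hp : p ∈ mx O') (hp' : p ∉ mx O) (G : R[X]) (hG : G ≠ 0) :
    Polynomial.eval₂ ψ p G ∉ mx O := by
  have hmemG : ∀ G : R[X], Polynomial.eval₂ ψ p G ∈ O' := by
    intro G
    rw [Polynomial.eval₂_eq_sum_range]
    exact O'.sum_mem fun i _ => O'.mul_mem (hmem _) (O'.pow_mem hp.1 _)
  suffices h : ∀ (N : ℕ) (G : R[X]), G.natDegree ≤ N → G ≠ 0 → Polynomial.eval₂ ψ p G ∉ mx O from
    h G.natDegree G le_rfl hG
  intro N
  induction N with
  | zero =>
    intro G hN hG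
    rw [Nat.le_zero] at hN
    rw [Polynomial.natDegree_eq_zero] at hN
    obtain ⟨c, rfl⟩ := hN
    have hc : c ≠ 0 := by
      rintro rfl
      simp at hG
    rw [Polynomial.eval₂_C]
    have h1 := hunit c hc
    exact not_mem_mx (ne_zero_of_not_mem_mx h1) (hle (inv_mem_of_not_mem_mx (hmem c) h1))
  | succ N ih =>
    intro G hN hG
    have hdiv := Polynomial.divX_mul_X_add G
    have hval : Polynomial.eval₂ ψ p G =
        Polynomial.eval₂ ψ p G.divX * p + ψ (G.coeff 0) := by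
      conv_lhs => rw [← hdiv]
      rw [Polynomial.eval₂_add, Polynomial.eval₂_mul, Polynomial.eval₂_X, Polynomial.eval₂_C]
    by_cases h0 : G.coeff 0 = 0
    · have hne : G.divX ≠ 0 := by
        intro h
        rw [h, h0] at hdiv
        simp at hdiv
        exact hG hdiv.symm
      have hdeg : G.divX.natDegree ≤ N := by
        rw [Polynomial.natDegree_divX_eq_natDegree_tsub_one]
        omega
      rw [hval, h0, map_zero, add_zero]
      exact not_mem_mx_mul (hle (hmemG _)) (hle hp.1) (ih _ hdeg hne) hp'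
    · rw [hval, add_comm]
      have h1 : ψ (G.coeff 0) + Polynomial.eval₂ ψ p G.divX * p ∉ mx O' :=
        not_mem_mx_add hloc (hunit _ h0) (mx_mul_left (hmemG _) hp)
      have h2 : ψ (G.coeff 0) + Polynomial.eval₂ ψ p G.divX * p ∈ O' :=
        O'.add_mem (hmem _) (O'.mul_mem (hmemG _) hp.1)
      exact not_mem_mx (ne_zero_of_not_mem_mx h1) (hle (inv_mem_of_not_mem_mx h2 h1))

/-- An element which is not congruent to a constant is transcendental modulo the maximal ideal. -/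
theorem aeval_not_mem_mx [IsAlgClosed K] {O : Subalgebra K F} {t : F} (ht : t ∈ O)
    (h : ∀ c : K, t - algebraMap K F c ∉ mx O) (G : K[X]) (hG : G ≠ 0) :
    Polynomial.aeval t G ∉ mx O := by
  have hmem : ∀ G : K[X], Polynomial.aeval t G ∈ O := by
    intro G
    rw [Polynomial.aeval_eq_sum_range]
    exact O.sum_mem fun i _ => O.smul_mem (O.pow_mem ht _) _
  suffices h : ∀ (N : ℕ) (G : K[X]), G.natDegree ≤ N → G ≠ 0 → Polynomial.aeval t G ∉ mx O from
    h G.natDegree G le_rfl hG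
  intro N
  induction N with
  | zero =>
    intro G hN hG
    rw [Nat.le_zero, Polynomial.natDegree_eq_zero] at hN
    obtain ⟨c, rfl⟩ := hN
    have hc : c ≠ 0 := by
      rintro rfl
      simp at hG
    rw [Polynomial.aeval_C]
    exact algebraMap_not_mem_mx hc
  | succ N ih =>
    intro G hN hG
    by_cases hdeg : G.natDegree = 0
    · exact ih G (by omega) hG
    · have hdeg' : G.degree ≠ 0 := by
        intro h'
        exact hdeg (Polynomial.natDegree_eq_zero_iff_degree_le_zero.2 h'.le)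
      obtain ⟨c, hc⟩ := IsAlgClosed.exists_root G hdeg'
      obtain ⟨G', rfl⟩ := Polynomial.dvd_iff_isRoot.2 hc
      have hG' : G' ≠ 0 := right_ne_zero_of_mul hG
      have hd : G'.natDegree ≤ N := by
        rw [Polynomial.natDegree_mul (Polynomial.X_sub_C_ne_zero c) hG',
          Polynomial.natDegree_X_sub_C] at hN
        omega
      rw [map_mul]
      refine not_mem_mx_mul (hmem _) (hmem _) ?_ (ih G' hd hG')
      simpa using h c

theorem mx_top {f : F} (h : f ∈ mx (⊤ : Subalgebra K F)) : f = 0 := by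
  rcases h.2 with h | h
  · exact h
  · exact absurd Algebra.mem_top h

theorem three_le_trdeg {O' O : Subalgebra K F} (hloc' : IsLocalRing O') (hloc : IsLocalRing O)
    (hle : O' ≤ O) {t₁ t₂ p : F} (ht₁ : t₁ ∈ O') (ht₁' : ∀ G : K[X], G ≠ 0 →
      Polynomial.aeval t₁ G ∉ mx O') (ht₂ : t₂ ∈ mx O') (ht₂' : t₂ ∉ mx O) (hp : p ∈ mx O)
    (hp0 : p ≠ 0) : 3 ≤ Algebra.trdeg K F := by
  let ψ₀ : K[X] →+* F := (Polynomial.aeval t₁ : K[X] →ₐ[K] F).toRingHom
  have hψ₀ : ∀ r, ψ₀ r ∈ O' := by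
    intro G
    change Polynomial.aeval t₁ G ∈ O'
    rw [Polynomial.aeval_eq_sum_range]
    exact O'.sum_mem fun i _ => O'.smul_mem (O'.pow_mem ht₁ _) _
  let ψ₁ : K[X][X] →+* F := Polynomial.eval₂RingHom ψ₀ t₂
  have hψ₁ : ∀ r, r ≠ 0 → ψ₁ r ∉ mx O := fun G hG =>
    eval₂_not_mem_mx ψ₀ hloc' hle hψ₀ ht₁' ht₂ ht₂' G hG
  have hψ₁' : ∀ r, ψ₁ r ∈ O := by
    intro G
    change Polynomial.eval₂ ψ₀ t₂ G ∈ O
    rw [Polynomial.eval₂_eq_sum_range]
    exact O.sum_mem fun i _ => O.mul_mem (hle (hψ₀ _)) (O.pow_mem (hle ht₂.1) _)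
  let ψ₂ : K[X][X][X] →+* F := Polynomial.eval₂RingHom ψ₁ p
  have hψ₂ : ∀ r, r ≠ 0 → ψ₂ r ∉ mx (⊤ : Subalgebra K F) := fun G hG =>
    eval₂_not_mem_mx ψ₁ hloc le_top hψ₁' hψ₁ hp (fun h => hp0 (mx_top h)) G hG
  let Ψ : K[X][X][X] →ₐ[K] F :=
    { ψ₂ with
      commutes' := by
        intro r
        change Polynomial.eval₂ ψ₁ p (Polynomial.C (Polynomial.C (Polynomial.C r))) = _
        rw [Polynomial.eval₂_C]
        change Polynomial.eval₂ ψ₀ t₂ (Polynomial.C (Polynomial.C r)) = _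
        rw [Polynomial.eval₂_C]
        change Polynomial.aeval t₁ (Polynomial.C r) = _
        rw [Polynomial.aeval_C] }
  have hinj : Function.Injective Ψ := by
    rw [injective_iff_map_eq_zero]
    intro G hG
    by_contra hne
    apply hψ₂ G hne
    change Ψ G ∈ _
    rw [hG]
    exact zero_mem_mx
  have h1 : Algebra.trdeg K K[X][X][X] ≤ Algebra.trdeg K F := trdeg_le_of_injective Ψ hinj
  refine le_trans (le_of_eq ?_) h1
  rw [← trdeg_add_eq (R := K) (S := K[X]) (A := K[X][X][X]),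
    ← trdeg_add_eq (R := K[X]) (S := K[X][X]) (A := K[X][X][X])]
  simp only [Polynomial.trdeg_of_isDomain]
  norm_num

/-- On a surface, a point strictly below a non-generic point is closed. -/
theorem closed_of_lt [IsAlgClosed K] {X : Set (Subalgebra K F)} (hX : IsProjectiveSurface X)
    {O' O : Subalgebra K F} (hO' : O' ∈ X) (hO : O ∈ X) (hle : O' ≤ O) (hne : O' ≠ O)
    (htop : O ≠ ⊤) : IsClosedPoint X O' := by
  obtain ⟨V, hV, hVX⟩ := hX.exists_embedding
  have hO'V : O' ∈ Model V := by rw [hVX]; exact hO'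
  have hOV : O ∈ Model V := by rw [hVX]; exact hO
  have htV : (⊤ : Subalgebra K F) ∈ Model V := by rw [hVX]; exact hX.generic
  have hloc' := isLocalRing_of_mem hO'V
  have hloc := isLocalRing_of_mem hOV
  obtain ⟨u, hu⟩ := exists_dom hO'V
  have hu0 := hu.ne_zero
  refine ⟨hO', ?_⟩
  by_contra hcon
  push Not at hcon
  obtain ⟨t₁, ht₁, ht₁'⟩ := hcon
  -- the element `t₂`
  obtain ⟨t₂, ht₂, ht₂'⟩ : ∃ t₂, t₂ ∈ mx O' ∧ t₂ ∉ mx O := by
    have : ∃ f, f ∈ O ∧ f ∉ O' := by
      by_contra h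
      push Not at h
      exact hne (le_antisymm hle h)
    obtain ⟨f, hfO, hfO'⟩ := this
    obtain ⟨m, a, ha, b, hb, hb0, hbO, rfl⟩ := exists_frac hOV (hu.mono hle) hfO
    refine ⟨b / u ^ m, ?_, ?_⟩
    · by_contra h
      apply hfO'
      have h1 := inv_mem_of_not_mem_mx (hu.div_pow_mem hb) h
      have h2 : a / b = (a / u ^ m) * (b / u ^ m)⁻¹ := by field_simp
      rw [h2]
      exact O'.mul_mem (hu.div_pow_mem ha) h1
    · apply not_mem_mx (div_ne_zero hb0 (pow_ne_zero _ hu0))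
      rwa [inv_div]
  obtain ⟨p, hp, hp0⟩ : ∃ p, p ∈ mx O ∧ p ≠ 0 := by
    have : ∃ f, f ∉ O := by
      by_contra h
      push Not at h
      exact htop (top_le_iff.1 fun f _ => h f)
    obtain ⟨f, hfO⟩ := this
    obtain ⟨m, a, ha, b, hb, hb0, -, rfl⟩ :=
      exists_frac htV (hu.mono le_top) (f := f) Algebra.mem_top
    refine ⟨b / u ^ m, ?_, div_ne_zero hb0 (pow_ne_zero _ hu0)⟩
    by_contra h
    apply hfO
    have h1 := inv_mem_of_not_mem_mx (hle (hu.div_pow_mem hb)) h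
    have h2 : a / b = (a / u ^ m) * (b / u ^ m)⁻¹ := by field_simp
    rw [h2]
    exact O.mul_mem (hle (hu.div_pow_mem ha)) h1
  have h3 := three_le_trdeg hloc' hloc hle ht₁ (aeval_not_mem_mx ht₁ ht₁') ht₂ ht₂' hp hp0
  rw [hX.trdeg] at h3
  have : (3 : Cardinal) ≤ 2 := h3
  exact absurd this (by norm_num)

end Pool.Agent.H90ZD
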