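import Pool.Agent.H90ZD.Assoc

open Filter Topology Polynomial

namespace Pool.Agent.H90ZD

variable {K F : Type} [Field K] [Field F] [Algebra K F]

open GrIdeal

variable {V : Submodule K F}

theorem le_of_ptIdeal_le {O O' : Subalgebra K F} (hO : O ∈ Model V) (hO' : O' ∈ Model V)
    (h : ptIdeal hO' ≤ ptIdeal hO) : O ≤ O' := by
  have := locPt_le (ptIdeal_isPrime hO') (ptIdeal_isPrime hO) h
  rwa [locPt_ptIdeal, locPt_ptIdeal] at this

/-- A point whose local ring is contained in that of a closed point is closed. -/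
theorem closed_of_le {X : Set (Subalgebra K F)} (hVX : Model V = X) {O C : Subalgebra K F}
    (hO : IsClosedPoint X O) (hC : C ∈ X) (hle : C ≤ O) : IsClosedPoint X C := by
  refine ⟨hC, fun f hf => ?_⟩
  have hCV : C ∈ Model V := by rw [hVX]; exact hC
  have hOV : O ∈ Model V := by rw [hVX]; exact hO.mem
  obtain ⟨u, hu⟩ := exists_dom hCV
  have hu0 := hu.ne_zero
  have hloc := isLocalRing_of_mem hCV
  have key : ∀ m, ∀ G ∈ V ^ m, ∃ c : K, G / u ^ m - algebraMap K F c ∈ mx C := by
    intro m G hG
    have huO := hu.mono hle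
    obtain ⟨c, hc⟩ := hO.rational _ (huO.div_pow_mem hG)
    refine ⟨c, ?_⟩
    have hmem : G - algebraMap K F c * u ^ m ∈ V ^ m := by
      apply Submodule.sub_mem _ hG
      rw [← Algebra.smul_def]
      exact Submodule.smul_mem _ _ (pow_mem_pow hu.mem m)
    have e : G / u ^ m - algebraMap K F c = (G - algebraMap K F c * u ^ m) / u ^ m := by
      field_simp
    have h1 : G - algebraMap K F c * u ^ m ∈ (ptIdeal hOV).comp m := by
      rw [mem_ptIdeal hOV huO]
      refine ⟨hmem, ?_⟩
      rw [← e]
      exact hc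
    have h2 := ptIdeal_le hCV hOV hle m h1
    rw [mem_ptIdeal hCV hu] at h2
    rw [e]
    exact h2.2
  obtain ⟨m, a, ha, b, hb, hbP, rfl⟩ := (mem_iff_frac hCV).1 hf
  have hb0 := IsPrime.ne_zero_of_not_mem hbP
  have hb1 := (not_mem_ptIdeal_iff hCV hu hb).1 hbP
  obtain ⟨c, hc⟩ := key m a ha
  obtain ⟨d, hd⟩ := key m b hb
  have hd0 : d ≠ 0 := by
    rintro rfl
    rw [map_zero, sub_zero] at hd
    exact hb1 hd
  refine ⟨c / d, ?_⟩
  have hinv := inv_mem_of_not_mem_mx (hu.div_pow_mem hb) hb1
  have hd0' : algebraMap K F d ≠ 0 := by simpa using hd0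
  have e : a / b - algebraMap K F (c / d) =
      (b / u ^ m)⁻¹ * ((a / u ^ m - algebraMap K F c) -
        algebraMap K F (c / d) * (b / u ^ m - algebraMap K F d)) := by
    rw [map_div₀]
    field_simp
    ring
  rw [e]
  exact mx_mul_left hinv (mx_sub hloc hc (mx_mul_left (C.algebraMap_mem _) hd))

theorem eq_of_curve_le [IsAlgClosed K] {X : Set (Subalgebra K F)} (hX : IsProjectiveSurface X)
    {C O : Subalgebra K F} (hC : IsCurve X C) (hO : O ∈ X) (hO' : O ≠ ⊤) (hle : C ≤ O) :
    C = O := by
  by_contra hne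
  exact hC.not_closed (closed_of_lt hX hC.mem hO hle hne hO')

variable {X : Set (Subalgebra K F)}

/-- The cycle of codimension one of a homogeneous ideal. -/
theorem exists_div_ideal [IsAlgClosed K] (hX : IsProjectiveSurface X) (hV : V.FG)
    (hVX : Model V = X) (I : GrIdeal V) (hI : ∃ k, ∃ G ∈ I.comp k, G ≠ 0) :
    ∃ ν : Curve X →₀ ℕ,
      (∀ (C : Curve X) (hC : C.1 ∈ Model V), qlen (locIdeal hC I) = (ν C : ℕ∞)) ∧
      ∃ e : ℤ, ∀ᶠ m in atTop, I.codim m = (ν.sum fun C n => (n : ℤ) * (hilb V C.1 m : ℤ)) + e := by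
  classical
  induction I using filtration_induction hV with
  | top I h1 =>
    refine ⟨0, fun C hC => ?_, 0, Eventually.of_forall fun m => ?_⟩
    · rw [locIdeal_eq_top, qlen_top]
      · simp
      · intro h
        exact (ptIdeal_isPrime hC).one_not_mem (h 0 h1)
    · rw [codim_eq_zero (by rw [comp_eq_pow h1])]
      simp
  | step I n x hx hxI hP ih =>
    have hx0 : x ≠ 0 := by
      rintro rfl
      exact hxI (Submodule.zero_mem _)
    obtain ⟨ν, hν, e, he⟩ := ih (by
      obtain ⟨k, G, hG, hG0⟩ := hI
      exact ⟨k, G, I.le_addGen n x hx k hG, hG0⟩)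
    -- the case when the prime is not a curve
    have hsmall : (∃ e' : ℤ, ∀ᶠ m in atTop, (I.colon n x hx).codim m = e') →
        (∀ (C : Curve X) (hC : C.1 ∈ Model V), ¬ I.colon n x hx ≤ ptIdeal hC) →
        ∃ ν : Curve X →₀ ℕ,
      (∀ (C : Curve X) (hC : C.1 ∈ Model V), qlen (locIdeal hC I) = (ν C : ℕ∞)) ∧
      ∃ e : ℤ, ∀ᶠ m in atTop, I.codim m =
        (ν.sum fun C n => (n : ℤ) * (hilb V C.1 m : ℤ)) + e := by
      rintro ⟨e', he'⟩ hnot
      refine ⟨ν, fun C hC => ?_, e + e', ?_⟩
      · rw [qlen_locIdeal_step hC I hx, locIdeal_eq_top (hnot C hC), qlen_top, zero_add, hν C hC]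
      · have he'' : ∀ᶠ m in atTop, (I.colon n x hx).codim (m - n) = e' :=
          (tendsto_sub_atTop_nat n).eventually he'
        filter_upwards [he, he'', eventually_ge_atTop n] with m h1 h2 h3
        rw [codim_step hV I n x hx hx0 h3, h1, h2]
        ring
    rcases prime_cases hP with h | ⟨O, hO, h⟩
    · apply hsmall
      · refine ⟨0, ?_⟩
        filter_upwards [eventually_ge_atTop 1] with m hm
        exact codim_irrelevant h hm
      · intro C hC hle
        obtain ⟨u, hu⟩ := exists_dom hC
        exact hu.not_mem_ptIdeal hC (hle 1 (h hu.mem))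
    · have hOX : O ∈ X := by rw [← hVX]; exact hO
      have hOtop : O ≠ ⊤ := by
        rintro rfl
        obtain ⟨k, G, hG, hG0⟩ := hI
        have h1 := I.le_colon n x hx k hG
        rw [← h] at h1
        obtain ⟨u, hu⟩ := exists_dom hO
        have h2 := mx_top ((mem_ptIdeal hO hu).1 h1).2
        rw [div_eq_zero_iff] at h2
        rcases h2 with h2 | h2
        · exact hG0 h2
        · exact pow_ne_zero _ hu.ne_zero h2
      by_cases hcl : IsClosedPoint X O
      · apply hsmall
        · refine ⟨1, Eventually.of_forall fun m => ?_⟩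
          rw [← h]
          exact codim_closedPoint hV hO hcl m
        · intro C hC hle
          rw [← h] at hle
          exact C.2.not_closed (closed_of_le hVX hcl C.2.mem (le_of_ptIdeal_le hC hO hle))
      · let C₀ : Curve X := ⟨O, hOX, hOtop, hcl⟩
        obtain ⟨eC, cC, hlin⟩ := hilb_curve_linear hX hV hVX C₀.2
        have hlin' : ∀ᶠ m in atTop, (hilb V O (m - n) : ℤ) = eC * (m - n : ℕ) + cC :=
          (tendsto_sub_atTop_nat n).eventually hlin
        refine ⟨ν + Finsupp.single C₀ 1, fun C hC => ?_, e - eC * n, ?_⟩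
        · rw [qlen_locIdeal_step hC I hx, hν C hC, Finsupp.add_apply, ← h]
          by_cases hCC : C = C₀
          · subst hCC
            rw [qlen_locIdeal_ptIdeal, Finsupp.single_eq_same]
            push_cast
            ring
          · have hnot : ¬ ptIdeal hO ≤ ptIdeal hC := by
              intro hle
              apply hCC
              apply Subtype.ext
              exact eq_of_curve_le hX C.2 hOX hOtop (le_of_ptIdeal_le hC hO hle)
            rw [locIdeal_eq_top hnot, qlen_top, Finsupp.single_eq_of_ne hCC]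
            simp
        · filter_upwards [he, hlin, hlin', eventually_ge_atTop n] with m h1 h2 h3 h4
          rw [codim_step hV I n x hx hx0 h4, h1, ← h, ← hilb_eq_codim hV hO, h3]
          rw [Finsupp.sum_add_index' (by intro C; simp) (by intro C a b; push_cast; ring)]
          rw [Finsupp.sum_single_index (by simp)]
          change _ = _ + (((1 : ℕ) : ℤ) * (hilb V O m : ℤ)) + _
          change (hilb V O m : ℤ) = _ at h2
          rw [h2]
          rw [Nat.cast_sub h4]
          push_cast
          ring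

end Pool.Agent.H90ZD
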