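import Pool.Agent.H90ZD.Local

open Filter Topology Polynomial

namespace Pool.Agent.H90ZD

variable {K F : Type} [Field K] [Field F] [Algebra K F]

/-- Homogeneous ideals of the graded ring `K + V + V^2 + ...`. -/
@[ext]
structure GrIdeal (V : Submodule K F) where
  comp : ℕ → Submodule K F
  le_pow : ∀ m, comp m ≤ V ^ m
  mul_le : ∀ m, V * comp m ≤ comp (m + 1)

namespace GrIdeal

variable {V : Submodule K F}

instance : PartialOrder (GrIdeal V) :=
  PartialOrder.lift GrIdeal.comp (fun _ _ h => GrIdeal.ext h)

theorem le_def {I J : GrIdeal V} : I ≤ J ↔ ∀ m, I.comp m ≤ J.comp m := Iff.rfl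

theorem pow_mul_le (I : GrIdeal V) (k m : ℕ) : V ^ k * I.comp m ≤ I.comp (k + m) := by
  induction k with
  | zero => simp
  | succ k ih =>
    rw [pow_succ', mul_assoc]
    calc V * (V ^ k * I.comp m) ≤ V * I.comp (k + m) := mul_le_mul' le_rfl ih
      _ ≤ I.comp (k + m + 1) := I.mul_le _
      _ = I.comp (k + 1 + m) := by congr 1; ring

theorem mul_mem (I : GrIdeal V) {k m : ℕ} {a b : F} (ha : a ∈ V ^ k) (hb : b ∈ I.comp m) :
    a * b ∈ I.comp (k + m) :=
  I.pow_mul_le k m (Submodule.mul_mem_mul ha hb)

theorem mul_mem' (I : GrIdeal V) {k m : ℕ} {a b : F} (ha : a ∈ I.comp m) (hb : b ∈ V ^ k) :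
    a * b ∈ I.comp (m + k) := by
  rw [mul_comm, add_comm]
  exact I.mul_mem hb ha

/-- The graded ring. -/
def sring (V : Submodule K F) : Subalgebra K F[X] where
  carrier := {f | ∀ m, f.coeff m ∈ V ^ m}
  mul_mem' := by
    intro f g hf hg m
    rw [Polynomial.coeff_mul]
    refine Submodule.sum_mem _ fun p hp => ?_
    rw [Finset.HasAntidiagonal.mem_antidiagonal] at hp
    rw [← hp]
    exact mul_mem_pow_add (hf _) (hg _)
  add_mem' := by
    intro f g hf hg m
    rw [Polynomial.coeff_add]
    exact Submodule.add_mem _ (hf m) (hg m)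
  algebraMap_mem' := by
    intro r m
    rw [Polynomial.algebraMap_apply, Polynomial.coeff_C]
    split_ifs with h
    · subst h
      rw [pow_zero, Submodule.mem_one]
      exact ⟨r, rfl⟩
    · exact Submodule.zero_mem _

theorem mem_sring {f : F[X]} : f ∈ sring V ↔ ∀ m, f.coeff m ∈ V ^ m := Iff.rfl

theorem sring_fg (hV : V.FG) : (sring V).FG := by
  obtain ⟨s, hs⟩ := hV
  classical
  refine ⟨s.image (fun v => Polynomial.monomial 1 v), ?_⟩
  apply le_antisymm
  · apply Algebra.adjoin_le
    intro f hf
    rw [Finset.coe_image, Set.mem_image] at hf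
    obtain ⟨v, hv, rfl⟩ := hf
    intro m
    rw [Polynomial.coeff_monomial]
    split_ifs with h
    · subst h
      rw [pow_one, ← hs]
      exact Submodule.subset_span hv
    · exact Submodule.zero_mem _
  · set A := Algebra.adjoin K ((s.image (fun v => (Polynomial.monomial 1 v : F[X])) : Finset F[X]) :
      Set F[X]) with hA
    have hone : ∀ v ∈ V, (Polynomial.monomial 1 v : F[X]) ∈ A := by
      intro v hv
      rw [← hs] at hv
      induction hv using Submodule.span_induction with
      | mem x hx =>
        apply Algebra.subset_adjoin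
        rw [Finset.coe_image]
        exact ⟨x, hx, rfl⟩
      | zero => simp
      | add x y _ _ hx hy =>
        rw [map_add]
        exact A.add_mem hx hy
      | smul a x _ hx =>
        rw [← Polynomial.smul_monomial]
        exact A.smul_mem hx a
    have hmon : ∀ m, ∀ a ∈ V ^ m, (Polynomial.monomial m a : F[X]) ∈ A := by
      intro m
      induction m with
      | zero =>
        intro a ha
        rw [pow_zero, Submodule.mem_one] at ha
        obtain ⟨c, rfl⟩ := ha
        have : (Polynomial.monomial 0 (algebraMap K F c) : F[X]) = algebraMap K F[X] c := by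
          rw [Polynomial.algebraMap_apply, Polynomial.monomial_zero_left]
        rw [this]
        exact A.algebraMap_mem c
      | succ m ih =>
        intro a ha
        rw [pow_succ] at ha
        induction ha using Submodule.mul_induction_on' with
        | mem_mul_mem v hv b hb =>
          have : (Polynomial.monomial (m + 1) (v * b) : F[X]) =
              Polynomial.monomial m v * Polynomial.monomial 1 b := by
            rw [Polynomial.monomial_mul_monomial]
          rw [this]
          exact A.mul_mem (ih v hv) (hone b hb)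
        | add x _ y _ hx hy =>
          rw [map_add]
          exact A.add_mem hx hy
    intro f hf
    rw [f.as_sum_range]
    exact A.sum_mem fun i _ => hmon i _ (hf i)

theorem isNoetherianRing_sring (hV : V.FG) : IsNoetherianRing (sring V) := by
  have : Algebra.FiniteType K (sring V) := (sring V).fg_iff_finiteType.1 (sring_fg hV)
  exact Algebra.FiniteType.isNoetherianRing K _

/-- The ideal of the graded ring given by a homogeneous ideal. -/
def toIdeal (I : GrIdeal V) : Ideal (sring V) where
  carrier := {f | ∀ m, (f : F[X]).coeff m ∈ I.comp m}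
  add_mem' := by
    intro f g hf hg m
    have : ((f + g : sring V) : F[X]) = f + g := rfl
    rw [this, Polynomial.coeff_add]
    exact Submodule.add_mem _ (hf m) (hg m)
  zero_mem' := by
    intro m
    simp
  smul_mem' := by
    intro f g hg m
    have : ((f • g : sring V) : F[X]) = (f : F[X]) * g := rfl
    rw [this, Polynomial.coeff_mul]
    refine Submodule.sum_mem _ fun p hp => ?_
    rw [Finset.HasAntidiagonal.mem_antidiagonal] at hp
    rw [← hp]
    exact I.mul_mem (f.2 _) (hg _)

theorem monomial_mem_sring {m : ℕ} {a : F} (ha : a ∈ V ^ m) :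
    (Polynomial.monomial m a : F[X]) ∈ sring V := by
  intro k
  rw [Polynomial.coeff_monomial]
  split_ifs with h
  · rwa [← h]
  · exact Submodule.zero_mem _

theorem monomial_mem_toIdeal {I : GrIdeal V} {m : ℕ} {a : F} (ha : a ∈ V ^ m) :
    (⟨Polynomial.monomial m a, monomial_mem_sring ha⟩ : sring V) ∈ I.toIdeal ↔ a ∈ I.comp m := by
  constructor
  · intro h
    have := h m
    simpa using this
  · intro h k
    change (Polynomial.monomial m a : F[X]).coeff k ∈ I.comp k
    rw [Polynomial.coeff_monomial]
    split_ifs with h'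
    · rwa [← h']
    · exact Submodule.zero_mem _

theorem toIdeal_le_iff {I J : GrIdeal V} : I.toIdeal ≤ J.toIdeal ↔ I ≤ J := by
  constructor
  · intro h m a ha
    have ha' := I.le_pow m ha
    exact (monomial_mem_toIdeal ha').1 (h ((monomial_mem_toIdeal ha').2 ha))
  · intro h f hf m
    exact h m (hf m)

theorem wellFoundedGT (hV : V.FG) : WellFoundedGT (GrIdeal V) := by
  have := isNoetherianRing_sring hV
  have h2 : WellFoundedGT (Ideal (sring V)) := inferInstance
  let e : GrIdeal V ↪o Ideal (sring V) :=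
    { toFun := toIdeal
      inj' := by
        intro I J h
        apply le_antisymm
        · exact toIdeal_le_iff.1 (le_of_eq h)
        · exact toIdeal_le_iff.1 (le_of_eq h.symm)
      map_rel_iff' := toIdeal_le_iff }
  exact e.dual.wellFoundedLT

/-- The colon ideal `(I : x)`. -/
def colon (I : GrIdeal V) (n : ℕ) (x : F) (hx : x ∈ V ^ n) : GrIdeal V where
  comp m := V ^ m ⊓ (I.comp (m + n)).comap (LinearMap.mulRight K x)
  le_pow m := inf_le_left
  mul_le m := by
    rw [Submodule.mul_le]
    intro v hv a ha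
    refine ⟨?_, ?_⟩
    · rw [add_comm]
      have := mul_mem_pow_add (m := 1) (n := m) (by simpa using hv) ha.1
      exact this
    · have h2 : a * x ∈ I.comp (m + n) := ha.2
      change v * a * x ∈ I.comp (m + 1 + n)
      have h3 := I.mul_mem (k := 1) (by simpa using hv) h2
      have : 1 + (m + n) = m + 1 + n := by ring
      rw [this] at h3
      rwa [mul_assoc]

theorem mem_colon {I : GrIdeal V} {n : ℕ} {x : F} {hx : x ∈ V ^ n} {m : ℕ} {a : F} :
    a ∈ (I.colon n x hx).comp m ↔ a ∈ V ^ m ∧ a * x ∈ I.comp (m + n) := by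
  rfl

theorem le_colon (I : GrIdeal V) (n : ℕ) (x : F) (hx : x ∈ V ^ n) : I ≤ I.colon n x hx := by
  intro m a ha
  rw [mem_colon]
  exact ⟨I.le_pow m ha, I.mul_mem' ha hx⟩

/-- Homogeneous prime ideals. -/
structure IsPrime (P : GrIdeal V) : Prop where
  one_not_mem : (1 : F) ∉ P.comp 0
  mem_or_mem : ∀ {m n : ℕ} {a b : F}, a ∈ V ^ m → b ∈ V ^ n → a * b ∈ P.comp (m + n) →
    a ∈ P.comp m ∨ b ∈ P.comp n

theorem exists_colon_isPrime (hV : V.FG) (I : GrIdeal V) (h1 : (1 : F) ∉ I.comp 0) :
    ∃ (n : ℕ) (x : F) (hx : x ∈ V ^ n), x ∉ I.comp n ∧ (I.colon n x hx).IsPrime := by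
  have hwf := wellFoundedGT hV
  let S : Set (GrIdeal V) := {J | ∃ (n : ℕ) (x : F) (hx : x ∈ V ^ n), x ∉ I.comp n ∧
    J = I.colon n x hx}
  have hS : S.Nonempty := ⟨_, 0, 1, by simp, h1, rfl⟩
  obtain ⟨J, ⟨n, x, hx, hxI, rfl⟩, hmax⟩ := hwf.wf.has_min S hS
  refine ⟨n, x, hx, hxI, ?_, ?_⟩
  · rw [mem_colon]
    rintro ⟨_, h⟩
    rw [one_mul, zero_add] at h
    exact hxI h
  · intro m k a b ha hb hab
    by_contra hcon
    rw [not_or] at hcon
    obtain ⟨hna, hnb⟩ := hcon
    have hbx : b * x ∈ V ^ (k + n) := mul_mem_pow_add hb hx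
    have hbx' : b * x ∉ I.comp (k + n) := fun h => hnb (mem_colon.2 ⟨hb, h⟩)
    have hle : I.colon n x hx ≤ I.colon (k + n) (b * x) hbx := by
      intro l c hc
      rw [mem_colon] at hc ⊢
      refine ⟨hc.1, ?_⟩
      have := I.mul_mem hb hc.2
      have e1 : k + (l + n) = l + (k + n) := by ring
      have e2 : b * (c * x) = c * (b * x) := by ring
      rwa [e1, e2] at this
    have hnlt := hmax _ ⟨k + n, b * x, hbx, hbx', rfl⟩
    have heq : I.colon (k + n) (b * x) hbx = I.colon n x hx := by
      by_contra hne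
      exact hnlt (lt_of_le_of_ne hle (Ne.symm hne))
    apply hna
    rw [← heq, mem_colon]
    refine ⟨ha, ?_⟩
    rw [mem_colon] at hab
    have := hab.2
    have e1 : m + k + n = m + (k + n) := by ring
    have e2 : a * b * x = a * (b * x) := by ring
    rwa [e1, e2] at this

/-- The ideal `I + (x)`. -/
def addGen (I : GrIdeal V) (n : ℕ) (x : F) (hx : x ∈ V ^ n) : GrIdeal V where
  comp m := I.comp m ⊔ (if n ≤ m then (V ^ (m - n)).map (LinearMap.mulRight K x) else ⊥)
  le_pow m := by
    apply sup_le (I.le_pow m)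
    split_ifs with h
    · rw [Submodule.map_le_iff_le_comap]
      intro a ha
      change a * x ∈ V ^ m
      have := mul_mem_pow_add ha hx
      rwa [Nat.sub_add_cancel h] at this
    · exact bot_le
  mul_le m := by
    rw [Submodule.mul_le]
    intro v hv a ha
    rw [Submodule.mem_sup] at ha
    obtain ⟨b, hb, c, hc, rfl⟩ := ha
    rw [mul_add]
    refine Submodule.add_mem _ (Submodule.mem_sup_left (I.mul_le m (Submodule.mul_mem_mul hv hb))) ?_
    split_ifs at hc with h
    · obtain ⟨d, hd, rfl⟩ := hc
      apply Submodule.mem_sup_right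
      rw [if_pos (by omega)]
      refine ⟨v * d, ?_, ?_⟩
      · have := mul_mem_pow_add (m := 1) (n := m - n) (by simpa using hv) hd
        have e : 1 + (m - n) = m + 1 - n := by omega
        rwa [e] at this
      · simp [mul_assoc]
    · rw [Submodule.mem_bot] at hc
      rw [hc, mul_zero]
      exact Submodule.zero_mem _

theorem le_addGen (I : GrIdeal V) (n : ℕ) (x : F) (hx : x ∈ V ^ n) : I ≤ I.addGen n x hx :=
  fun _ => le_sup_left

theorem gen_mem_addGen (I : GrIdeal V) (n : ℕ) (x : F) (hx : x ∈ V ^ n) :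
    x ∈ (I.addGen n x hx).comp n := by
  apply Submodule.mem_sup_right
  rw [if_pos le_rfl]
  exact ⟨1, by simp, by simp⟩

theorem lt_addGen (I : GrIdeal V) (n : ℕ) (x : F) (hx : x ∈ V ^ n) (hxI : x ∉ I.comp n) :
    I < I.addGen n x hx := by
  refine lt_of_le_of_ne (I.le_addGen n x hx) ?_
  intro h
  apply hxI
  rw [h]
  exact I.gen_mem_addGen n x hx

/-- Noetherian induction along a filtration with quotients `S/P`, `P` homogeneous prime. -/
theorem filtration_induction (hV : V.FG) {motive : GrIdeal V → Prop}
    (top : ∀ I : GrIdeal V, (1 : F) ∈ I.comp 0 → motive I)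
    (step : ∀ (I : GrIdeal V) (n : ℕ) (x : F) (hx : x ∈ V ^ n), x ∉ I.comp n →
      (I.colon n x hx).IsPrime → motive (I.addGen n x hx) → motive I) (I : GrIdeal V) :
    motive I := by
  have hwf := wellFoundedGT hV
  induction I using hwf.wf.induction with
  | h I ih =>
    by_cases h1 : (1 : F) ∈ I.comp 0
    · exact top I h1
    · obtain ⟨n, x, hx, hxI, hP⟩ := exists_colon_isPrime hV I h1
      exact step I n x hx hxI hP (ih _ (I.lt_addGen n x hx hxI))

theorem comp_eq_pow {I : GrIdeal V} (h1 : (1 : F) ∈ I.comp 0) (m : ℕ) : I.comp m = V ^ m := by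
  apply le_antisymm (I.le_pow m)
  intro a ha
  have := I.mul_mem ha h1
  simpa using this

end GrIdeal

end Pool.Agent.H90ZD
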