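import Pool.Agent.H90ZD.Dim

open Filter Topology Polynomial

namespace Pool.Agent.H90ZD

variable {K F : Type} [Field K] [Field F] [Algebra K F]

theorem finiteDimensional_pow {V : Submodule K F} (hV : V.FG) (m : ℕ) :
    FiniteDimensional K (V ^ m : Submodule K F) :=
  Module.Finite.iff_fg.2 (hV.pow m)

theorem finiteDimensional_of_le {V W : Submodule K F} (hV : FiniteDimensional K V) (h : W ≤ V) :
    FiniteDimensional K W :=
  Submodule.finiteDimensional_of_le h

namespace GrIdeal

variable {V : Submodule K F}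

/-- The Hilbert function of `S/I`. -/
noncomputable def codim (I : GrIdeal V) (m : ℕ) : ℤ :=
  (Module.finrank K (V ^ m : Submodule K F) : ℤ) - Module.finrank K (I.comp m)

theorem finiteDimensional_comp (hV : V.FG) (I : GrIdeal V) (m : ℕ) :
    FiniteDimensional K (I.comp m) := by
  have := finiteDimensional_pow hV m
  exact Submodule.finiteDimensional_of_le (I.le_pow m)

theorem codim_nonneg (hV : V.FG) (I : GrIdeal V) (m : ℕ) : 0 ≤ I.codim m := by
  have := finiteDimensional_pow hV m
  have h := Submodule.finrank_mono (I.le_pow m)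
  unfold codim
  omega

theorem codim_eq_zero {I : GrIdeal V} {m : ℕ} (h : V ^ m ≤ I.comp m) : I.codim m = 0 := by
  unfold codim
  rw [le_antisymm h (I.le_pow m)]
  ring

theorem finrank_map_mulRight {W : Submodule K F} {x : F} (hx : x ≠ 0) :
    Module.finrank K (W.map (LinearMap.mulRight K x)) = Module.finrank K W := by
  have hinj : Function.Injective (LinearMap.mulRight K x) := by
    intro a b h
    exact mul_right_cancel₀ hx h
  exact (Submodule.equivMapOfInjective _ hinj W).finrank_eq.symm

theorem codim_step (hV : V.FG) (I : GrIdeal V) (n : ℕ) (x : F) (hx : x ∈ V ^ n) (hx0 : x ≠ 0)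
    {m : ℕ} (hm : n ≤ m) :
    I.codim m = (I.addGen n x hx).codim m + (I.colon n x hx).codim (m - n) := by
  have h1 := finiteDimensional_pow hV m
  have h2 := finiteDimensional_pow hV (m - n)
  have h3 := finiteDimensional_comp hV I m
  set W₂ := (V ^ (m - n)).map (LinearMap.mulRight K x) with hW₂
  have h4 : FiniteDimensional K W₂ := inferInstance
  have key := Submodule.finrank_sup_add_finrank_inf_eq (I.comp m) W₂
  have e1 : (I.addGen n x hx).comp m = I.comp m ⊔ W₂ := by
    change I.comp m ⊔ (if n ≤ m then (V ^ (m - n)).map (LinearMap.mulRight K x) else ⊥) = _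
    rw [if_pos hm]
  have e2 : I.comp m ⊓ W₂ = ((I.colon n x hx).comp (m - n)).map (LinearMap.mulRight K x) := by
    ext y
    constructor
    · rintro ⟨hy, a, ha, rfl⟩
      refine ⟨a, ?_, rfl⟩
      rw [SetLike.mem_coe, mem_colon]
      refine ⟨ha, ?_⟩
      rw [Nat.sub_add_cancel hm]
      exact hy
    · rintro ⟨a, ha, rfl⟩
      rw [SetLike.mem_coe, mem_colon, Nat.sub_add_cancel hm] at ha
      exact ⟨ha.2, a, ha.1, rfl⟩
  rw [e2, finrank_map_mulRight hx0, hW₂, finrank_map_mulRight hx0, ← hW₂] at key
  unfold codim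
  rw [e1]
  have hle : Module.finrank K ((I.colon n x hx).comp (m - n)) ≤
      Module.finrank K (V ^ (m - n) : Submodule K F) :=
    Submodule.finrank_mono ((I.colon n x hx).le_pow _)
  omega

theorem codim_irrelevant {Q : GrIdeal V} (h : V ≤ Q.comp 1) {m : ℕ} (hm : 1 ≤ m) :
    Q.codim m = 0 := by
  apply codim_eq_zero
  obtain ⟨k, rfl⟩ : ∃ k, m = k + 1 := ⟨m - 1, by omega⟩
  rw [pow_succ]
  exact le_trans (mul_le_mul' le_rfl h) (Q.pow_mul_le k 1)

end GrIdeal

open GrIdeal

variable {V : Submodule K F}

theorem hilb_eq_codim (hV : V.FG) {O : Subalgebra K F} (hO : O ∈ Model V) (m : ℕ) :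
    (hilb V O m : ℤ) = (ptIdeal hO).codim m := by
  have := finiteDimensional_pow hV m
  have h : Module.finrank K ((ptIdeal hO).comp m) ≤ Module.finrank K (V ^ m : Submodule K F) :=
    Submodule.finrank_mono ((ptIdeal hO).le_pow m)
  unfold hilb codim
  have e : (ptIdeal hO).comp m = vanishing V O m := rfl
  rw [e] at h ⊢
  omega

theorem codim_closedPoint (hV : V.FG) {X : Set (Subalgebra K F)} {O : Subalgebra K F}
    (hO : O ∈ Model V) (hcl : IsClosedPoint X O) (m : ℕ) : (ptIdeal hO).codim m = 1 := by
  have := finiteDimensional_pow hV m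
  obtain ⟨u, hu⟩ := exists_dom hO
  have hu0 := hu.ne_zero
  have hP := ptIdeal_isPrime hO
  have hum : u ^ m ∉ (ptIdeal hO).comp m :=
    hP.pow_not_mem hu.mem (hu.not_mem_ptIdeal hO) m
  have hfd := finiteDimensional_comp hV (ptIdeal hO) m
  have e : (V ^ m : Submodule K F) = (ptIdeal hO).comp m ⊔ Submodule.span K {u ^ m} := by
    apply le_antisymm
    · intro G hG
      obtain ⟨c, hc⟩ := hcl.rational _ (hu.div_pow_mem hG)
      rw [Submodule.mem_sup]
      refine ⟨G - algebraMap K F c * u ^ m, ?_, algebraMap K F c * u ^ m, ?_, by ring⟩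
      · rw [mem_ptIdeal hO hu]
        refine ⟨?_, ?_⟩
        · apply Submodule.sub_mem _ hG
          rw [← Algebra.smul_def]
          exact Submodule.smul_mem _ _ (pow_mem_pow hu.mem m)
        · have : (G - algebraMap K F c * u ^ m) / u ^ m = G / u ^ m - algebraMap K F c := by
            field_simp
          rw [this]
          exact hc
      · rw [← Algebra.smul_def]
        exact Submodule.smul_mem _ _ (Submodule.mem_span_singleton_self _)
    · apply sup_le ((ptIdeal hO).le_pow m)
      rw [Submodule.span_singleton_le_iff_mem]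
      exact pow_mem_pow hu.mem m
  have hinf : (ptIdeal hO).comp m ⊓ Submodule.span K {u ^ m} = ⊥ := by
    rw [eq_bot_iff]
    rintro y ⟨hy1, hy2⟩
    rw [SetLike.mem_coe, Submodule.mem_span_singleton] at hy2
    obtain ⟨c, rfl⟩ := hy2
    by_cases hc : c = 0
    · simp [hc]
    · exfalso
      apply hum
      have := Submodule.smul_mem _ c⁻¹ hy1
      rwa [smul_smul, inv_mul_cancel₀ hc, one_smul] at this
  have key := Submodule.finrank_sup_add_finrank_inf_eq ((ptIdeal hO).comp m)
    (Submodule.span K {u ^ m})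
  rw [hinf, finrank_bot, add_zero, finrank_span_singleton (pow_ne_zero _ hu0), ← e] at key
  unfold codim
  omega

/-- A homogeneous prime ideal is irrelevant or comes from a point. -/
theorem prime_cases {Q : GrIdeal V} (hQ : Q.IsPrime) :
    V ≤ Q.comp 1 ∨ ∃ (O : Subalgebra K F) (hO : O ∈ Model V), ptIdeal hO = Q := by
  by_cases h : V ≤ Q.comp 1
  · exact Or.inl h
  · right
    have hrel : ∃ u ∈ V, u ∉ Q.comp 1 := by
      by_contra h'
      push Not at h'
      exact h h'
    exact ⟨_, locPt_mem_model hQ hrel, ptIdeal_locPt hQ hrel⟩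

/-- If all homogeneous primes containing `I` are irrelevant or closed points, then the Hilbert
function of `S/I` is eventually constant. -/
theorem codim_eventually_const (hV : V.FG) {X : Set (Subalgebra K F)} (I : GrIdeal V)
    (hI : ∀ (O : Subalgebra K F) (hO : O ∈ Model V), I ≤ ptIdeal hO → IsClosedPoint X O) :
    ∃ e : ℤ, ∀ᶠ m in atTop, I.codim m = e := by
  induction I using filtration_induction hV with
  | top I h1 =>
    exact ⟨0, Eventually.of_forall fun m => codim_eq_zero (by rw [comp_eq_pow h1])⟩
  | step I n x hx hxI hP ih =>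
    have hx0 : x ≠ 0 := by
      rintro rfl
      exact hxI (Submodule.zero_mem _)
    obtain ⟨e, he⟩ := ih fun O hO h => hI O hO (le_trans (I.le_addGen n x hx) h)
    obtain ⟨e', he'⟩ : ∃ e' : ℤ, ∀ᶠ m in atTop, (I.colon n x hx).codim m = e' := by
      rcases prime_cases hP with h | ⟨O, hO, h⟩
      · refine ⟨0, ?_⟩
        filter_upwards [eventually_ge_atTop 1] with m hm
        exact codim_irrelevant h hm
      · refine ⟨1, Eventually.of_forall fun m => ?_⟩
        rw [← h]
        refine codim_closedPoint hV (X := X) hO (hI O hO ?_) m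
        rw [h]
        exact I.le_colon n x hx
    refine ⟨e + e', ?_⟩
    have he'' : ∀ᶠ m in atTop, (I.colon n x hx).codim (m - n) = e' :=
      (tendsto_sub_atTop_nat n).eventually he'
    filter_upwards [he, he'', eventually_ge_atTop n] with m h1 h2 h3
    rw [codim_step hV I n x hx hx0 h3, h1, h2]

theorem codim_addGen_of_prime (hV : V.FG) {P : GrIdeal V} (hP : P.IsPrime) {u : F} (hu : u ∈ V)
    (hu' : u ∉ P.comp 1) {m : ℕ} (hm : 1 ≤ m) :
    P.codim m = (P.addGen 1 u (by simpa using hu)).codim m + P.codim (m - 1) := by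
  have hu0 := IsPrime.ne_zero_of_not_mem hu'
  rw [codim_step hV P 1 u (by simpa using hu) hu0 hm]
  congr 1
  have : P.colon 1 u (by simpa using hu) = P := by
    apply le_antisymm
    · intro k a ha
      rw [mem_colon] at ha
      rcases hP.mem_or_mem ha.1 (by simpa using hu) ha.2 with h | h
      · exact h
      · exact absurd h hu'
    · exact P.le_colon 1 u _
  rw [this]

/-- The Hilbert function of a curve is eventually linear. -/
theorem hilb_curve_linear [IsAlgClosed K] {X : Set (Subalgebra K F)} (hX : IsProjectiveSurface X)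
    (hV : V.FG) (hVX : Model V = X) {C : Subalgebra K F} (hC : IsCurve X C) :
    ∃ e c : ℤ, ∀ᶠ m in atTop, (hilb V C m : ℤ) = e * m + c := by
  have hCV : C ∈ Model V := by rw [hVX]; exact hC.mem
  obtain ⟨u, hu⟩ := exists_dom hCV
  have hP := ptIdeal_isPrime hCV
  have hu' := hu.not_mem_ptIdeal hCV
  obtain ⟨e, he⟩ := codim_eventually_const (X := X) hV ((ptIdeal hCV).addGen 1 u (by simpa using hu.mem))
    (by
      intro O hO hle
      have hle' : ptIdeal hCV ≤ ptIdeal hO := le_trans (le_addGen _ _ _ _) hle
      have h1 : O ≤ C := by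
        have := locPt_le (ptIdeal_isPrime hCV) (ptIdeal_isPrime hO) hle'
        rwa [locPt_ptIdeal, locPt_ptIdeal] at this
      refine closed_of_lt hX (by rw [← hVX]; exact hO) hC.mem h1 ?_ hC.ne_top
      rintro rfl
      exact hu' (hle 1 (gen_mem_addGen _ _ _ _)))
  rw [eventually_atTop] at he
  obtain ⟨N, hN⟩ := he
  refine ⟨e, (hilb V C N : ℤ) - e * N, ?_⟩
  rw [eventually_atTop]
  refine ⟨N, fun m hm => ?_⟩
  induction m, hm using Nat.le_induction with
  | base => ring
  | succ m hm ih =>
    rw [hilb_eq_codim hV hCV] at ih ⊢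
    rw [codim_addGen_of_prime hV hP hu.mem hu' (by omega), hN (m + 1) (by omega)]
    have : m + 1 - 1 = m := by omega
    rw [this, ih]
    push_cast
    ring

end Pool.Agent.H90ZD
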