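import Pool.Agent.H90ZD.Aut

open Filter Topology Polynomial

namespace Pool.Agent.H90ZD

variable {K F : Type} [Field K] [Field F] [Algebra K F]

open GrIdeal

section LocHom

variable {A : Subalgebra K F} {E : Type} [CommRing E] [IsDomain E] [Algebra K E] (ε : A →ₐ[K] E)

/-- The localisation of `A` at the kernel of `ε`. -/
def locHom : Subalgebra K F where
  carrier := {f | ∃ a b : A, ε b ≠ 0 ∧ f = a / b}
  mul_mem' := by
    rintro f g ⟨a, b, hb, rfl⟩ ⟨c, d, hd, rfl⟩
    refine ⟨a * c, b * d, ?_, ?_⟩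
    · rw [map_mul]
      exact mul_ne_zero hb hd
    · push_cast
      rw [div_mul_div_comm]
  add_mem' := by
    rintro f g ⟨a, b, hb, rfl⟩ ⟨c, d, hd, rfl⟩
    refine ⟨a * d + b * c, b * d, ?_, ?_⟩
    · rw [map_mul]
      exact mul_ne_zero hb hd
    · have hb0 : (b : F) ≠ 0 := by
        intro h
        apply hb
        have : b = 0 := Subtype.ext h
        rw [this, map_zero]
      have hd0 : (d : F) ≠ 0 := by
        intro h
        apply hd
        have : d = 0 := Subtype.ext h
        rw [this, map_zero]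
      push_cast
      rw [div_add_div _ _ hb0 hd0]
  algebraMap_mem' := by
    intro r
    exact ⟨algebraMap K A r, 1, by simp, by simp⟩

theorem mem_locHom {f : F} : f ∈ locHom ε ↔ ∃ a b : A, ε b ≠ 0 ∧ f = a / b := Iff.rfl

variable {ε}

theorem ne_zero_of_hom {b : A} (hb : ε b ≠ 0) : (b : F) ≠ 0 := by
  intro h
  apply hb
  have : b = 0 := Subtype.ext h
  rw [this, map_zero]

theorem coe_mem_locHom (a : A) : (a : F) ∈ locHom ε := ⟨a, 1, by simp, by simp⟩

theorem div_mem_locHom {a b : A} (hb : ε b ≠ 0) : (a : F) / b ∈ locHom ε := ⟨a, b, hb, rfl⟩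

theorem div_mem_mx_locHom {a b : A} (hb : ε b ≠ 0) : (a : F) / b ∈ mx (locHom ε) ↔ ε a = 0 := by
  have hb0 := ne_zero_of_hom hb
  constructor
  · rintro ⟨_, h⟩
    by_contra ha
    have ha0 := ne_zero_of_hom ha
    rcases h with h | h
    · exact div_ne_zero ha0 hb0 h
    · apply h
      rw [inv_div]
      exact ⟨b, a, ha, rfl⟩
  · intro ha
    refine ⟨⟨a, b, hb, rfl⟩, ?_⟩
    by_cases ha0 : (a : F) = 0
    · left
      rw [ha0, zero_div]
    · right
      rw [inv_div]
      rintro ⟨c, d, hd, hcd⟩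
      have hd0 := ne_zero_of_hom hd
      rw [div_eq_div_iff ha0 hd0] at hcd
      have h1 : b * d = c * a := by
        apply Subtype.ext
        push_cast
        exact hcd
      have h2 := congrArg ε h1
      rw [map_mul, map_mul, ha, mul_zero] at h2
      exact mul_ne_zero hb hd h2

theorem coe_mem_mx_locHom {a : A} : (a : F) ∈ mx (locHom ε) ↔ ε a = 0 := by
  have := div_mem_mx_locHom (ε := ε) (a := a) (b := 1) (by simp)
  simpa using this

theorem isLocalizationOf_locHom : IsLocalizationOf A (locHom ε) := by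
  refine ⟨?_, fun a ha => coe_mem_locHom ⟨a, ha⟩, ?_⟩
  · refine IsLocalRing.of_isUnit_or_isUnit_one_sub_self ?_
    rintro ⟨f, a, b, hb, rfl⟩
    by_cases ha : ε a = 0
    · right
      have hba : ε (b - a) ≠ 0 := by
        rw [map_sub, ha, sub_zero]
        exact hb
      have hb0 := ne_zero_of_hom hb
      have hba0 := ne_zero_of_hom hba
      have e : 1 - (a : F) / b = ((b - a : A) : F) / b := by
        push_cast
        field_simp
      have h1 : 1 - (a : F) / b ∈ locHom ε := by
        rw [e]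
        exact ⟨_, b, hb, rfl⟩
      have h2 := (isUnit_iff h1).2 ⟨?_, ?_⟩
      · exact h2
      · rw [e]
        exact div_ne_zero hba0 hb0
      · rw [e, inv_div]
        exact ⟨b, _, hba, rfl⟩
    · left
      have hb0 := ne_zero_of_hom hb
      have ha0 := ne_zero_of_hom ha
      exact (isUnit_iff (div_mem_locHom hb)).2 ⟨div_ne_zero ha0 hb0, by
        rw [inv_div]
        exact ⟨b, a, ha, rfl⟩⟩
  · rintro f ⟨a, b, hb, rfl⟩
    refine ⟨a, a.2, b, b.2, ne_zero_of_hom hb, ?_, rfl⟩
    have h1 : (b : F) ∉ mx (locHom ε) := fun h => hb (coe_mem_mx_locHom.1 h)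
    exact inv_mem_of_not_mem_mx (coe_mem_locHom b) h1

end LocHom

theorem chart_fg {V : Submodule K F} (hV : V.FG) (u : F) : (chart V u).FG := by
  obtain ⟨s, hs⟩ := hV
  classical
  refine ⟨s.image (fun v => v / u), ?_⟩
  apply le_antisymm
  · apply Algebra.adjoin_mono
    rintro f hf
    rw [Finset.coe_image] at hf
    obtain ⟨v, hv, rfl⟩ := hf
    exact ⟨v, by rw [← hs]; exact Submodule.subset_span hv, rfl⟩
  · apply Algebra.adjoin_le
    rintro f ⟨v, hv, rfl⟩
    rw [← hs] at hv
    rw [SetLike.mem_coe]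
    induction hv using Submodule.span_induction with
    | mem x hx =>
      apply Algebra.subset_adjoin
      rw [Finset.coe_image]
      exact ⟨x, hx, rfl⟩
    | zero =>
      rw [zero_div]
      exact Subalgebra.zero_mem _
    | add x y _ _ hx hy =>
      rw [add_div]
      exact Subalgebra.add_mem _ hx hy
    | smul a x _ hx =>
      rw [Algebra.smul_def, mul_div_assoc]
      exact Subalgebra.mul_mem _ (Subalgebra.algebraMap_mem _ a) hx

/-- Points over an algebraically closed field. -/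
theorem exists_algHom_field [IsAlgClosed K] (L : Type) [Field L] [Algebra K L]
    [Algebra.FiniteType K L] : Nonempty (L →ₐ[K] K) := by
  have hfin : Module.Finite K L := finite_of_finite_type_of_isJacobsonRing K L
  have hbij : Function.Bijective (algebraMap K L) :=
    IsAlgClosed.algebraMap_bijective_of_isIntegral
  let e : K ≃ₐ[K] L := AlgEquiv.ofBijective (Algebra.ofId K L) hbij
  exact ⟨e.symm.toAlgHom⟩

theorem exists_algHom_ring [IsAlgClosed K] (A : Type) [CommRing A] [Nontrivial A] [Algebra K A]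
    [Algebra.FiniteType K A] : Nonempty (A →ₐ[K] K) := by
  obtain ⟨M, hM⟩ := Ideal.exists_maximal A
  let _ : Field (A ⧸ M) := Ideal.Quotient.field M
  have hft' : Algebra.FiniteType K (A ⧸ M) :=
    Algebra.FiniteType.of_surjective (Ideal.Quotient.mkₐ K M) (Ideal.Quotient.mkₐ_surjective K M)
  obtain ⟨e⟩ := exists_algHom_field (K := K) (A ⧸ M)
  exact ⟨e.comp (Ideal.Quotient.mkₐ K M)⟩

theorem exists_algHom [IsAlgClosed K] (A : Subalgebra K F) (hA : A.FG) :
    Nonempty (A →ₐ[K] K) := by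
  have hft : Algebra.FiniteType K A := A.fg_iff_finiteType.1 hA
  exact exists_algHom_ring A

theorem exists_algHom_ne_zero [IsAlgClosed K] (A : Subalgebra K F) (hA : A.FG) (β : A)
    (hβ : (β : F) ≠ 0) : ∃ ε : A →ₐ[K] K, ε β ≠ 0 := by
  classical
  obtain ⟨g, hg⟩ := hA
  obtain ⟨A', hA'⟩ : ∃ A' : Subalgebra K F, A' = Algebra.adjoin K (insert ((β : F)⁻¹) (g : Set F)) :=
    ⟨_, rfl⟩
  have hfg : A'.FG := by
    refine ⟨insert ((β : F)⁻¹) g, ?_⟩
    rw [hA', Finset.coe_insert]
  have hAA' : A ≤ A' := by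
    rw [← hg, hA']
    exact Algebra.adjoin_mono (Set.subset_insert _ _)
  have hβ' : (β : F)⁻¹ ∈ A' := by
    rw [hA']
    exact Algebra.subset_adjoin (Set.mem_insert _ _)
  obtain ⟨ε'⟩ := exists_algHom A' hfg
  refine ⟨ε'.comp (Subalgebra.inclusion hAA'), ?_⟩
  intro h
  have h1 : (Subalgebra.inclusion hAA' β) * ⟨(β : F)⁻¹, hβ'⟩ = 1 := by
    apply Subtype.ext
    exact mul_inv_cancel₀ hβ
  have h2 := congrArg ε' h1
  rw [map_mul, map_one] at h2
  rw [AlgHom.comp_apply] at h
  rw [h, zero_mul] at h2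
  exact zero_ne_one h2

theorem rational_locHom {A : Subalgebra K F} (ε : A →ₐ[K] K) {f : F} (hf : f ∈ locHom ε) :
    ∃ c : K, f - algebraMap K F c ∈ mx (locHom ε) := by
  obtain ⟨a, b, hb, rfl⟩ := hf
  refine ⟨ε a / ε b, ?_⟩
  have hb0 := ne_zero_of_hom hb
  have hcoe : (((a - algebraMap K A (ε a / ε b) * b : A)) : F) =
      a - algebraMap K F (ε a / ε b) * b := rfl
  have e : (a : F) / b - algebraMap K F (ε a / ε b) =
      ((a - algebraMap K A (ε a / ε b) * b : A) : F) / b := by
    rw [hcoe]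
    field_simp
  rw [e, div_mem_mx_locHom hb, map_sub, map_mul, AlgHom.commutes]
  change ε a - ε a / ε b * ε b = 0
  rw [div_mul_cancel₀ _ hb, sub_self]

variable {X : Set (Subalgebra K F)}

/-- There are closed points where finitely many functions are regular and a given
non-zero function is invertible. -/
theorem exists_closedPoint [IsAlgClosed K] (hX : IsProjectiveSurface X) (s : Finset F) {t : F}
    (ht : t ≠ 0) :
    ∃ p : ClosedPoint X, (∀ f ∈ s, f ∈ p.1) ∧ t ∈ p.1 ∧ t ∉ mx p.1 := by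
  classical
  obtain ⟨V, hV, hVX⟩ := hX.exists_embedding
  have htop : (⊤ : Subalgebra K F) ∈ Model V := by rw [hVX]; exact hX.generic
  obtain ⟨u, hu⟩ := exists_dom htop
  have hu0 := hu.ne_zero
  have hfr : ∀ f : F, ∃ a b : chart V u, (b : F) ≠ 0 ∧ f = a / b := by
    intro f
    obtain ⟨m, a, ha, b, hb, hb0, -, rfl⟩ := exists_frac htop hu (f := f) Algebra.mem_top
    refine ⟨⟨a / u ^ m, (mem_chart_iff hu.mem hu0).2 ⟨m, a, ha, rfl⟩⟩,
      ⟨b / u ^ m, (mem_chart_iff hu.mem hu0).2 ⟨m, b, hb, rfl⟩⟩,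
      div_ne_zero hb0 (pow_ne_zero _ hu0), ?_⟩
    change a / b = (a / u ^ m) / (b / u ^ m)
    field_simp
  choose num den hden hnd using hfr
  have hβ : ((∏ f ∈ insert t (insert t⁻¹ s), den f : chart V u) : F) ≠ 0 := by
    intro h
    have h1 : (∏ f ∈ insert t (insert t⁻¹ s), den f : chart V u) = 0 := Subtype.ext h
    rw [Finset.prod_eq_zero_iff] at h1
    obtain ⟨f, _, hf⟩ := h1
    exact hden f (congrArg Subtype.val hf)
  obtain ⟨ε, hεβ⟩ := exists_algHom_ne_zero _ (chart_fg hV u) _ hβ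
  have hεd : ∀ f ∈ insert t (insert t⁻¹ s), ε (den f) ≠ 0 := by
    intro f hf h
    apply hεβ
    rw [map_prod]
    exact Finset.prod_eq_zero hf h
  have hmem : ∀ f ∈ insert t (insert t⁻¹ s), f ∈ locHom ε := by
    intro f hf
    rw [hnd f]
    exact div_mem_locHom (hεd f hf)
  have hX' : locHom ε ∈ X := by
    rw [← hVX]
    exact ⟨u, hu.mem, hu0, isLocalizationOf_locHom⟩
  refine ⟨⟨locHom ε, hX', fun f hf => rational_locHom ε hf⟩, ?_, ?_, ?_⟩
  · intro f hf
    exact hmem f (Finset.mem_insert_of_mem (Finset.mem_insert_of_mem hf))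
  · exact hmem t (Finset.mem_insert_self _ _)
  · exact not_mem_mx ht (hmem _ (Finset.mem_insert_of_mem (Finset.mem_insert_self _ _)))

end Pool.Agent.H90ZD
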