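import Pool.Agent.H90ZD.Defs

open Filter Topology

namespace Pool.Agent.H90ZD

variable {K F : Type} [Field K] [Field F] [Algebra K F]

section LocalRing

variable {O : Subalgebra K F}

theorem isUnit_iff {f : F} (hf : f ∈ O) : IsUnit (⟨f, hf⟩ : O) ↔ f ≠ 0 ∧ f⁻¹ ∈ O := by
  constructor
  · intro h
    obtain ⟨g, hg⟩ := h.exists_right_inv
    have hg' : f * (g : F) = 1 := congrArg Subtype.val hg
    have hf0 : f ≠ 0 := by
      rintro rfl
      simp at hg'
    refine ⟨hf0, ?_⟩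
    have : f⁻¹ = (g : F) := by
      field_simp
      rw [hg']
    rw [this]
    exact g.2
  · rintro ⟨h0, h1⟩
    refine isUnit_iff_exists_inv.mpr ⟨⟨f⁻¹, h1⟩, ?_⟩
    apply Subtype.ext
    simp [h0]

theorem mem_mx_iff {f : F} (hf : f ∈ O) : f ∈ mx O ↔ ¬ IsUnit (⟨f, hf⟩ : O) := by
  rw [isUnit_iff hf]
  constructor
  · rintro ⟨_, h⟩ ⟨h0, h1⟩
    rcases h with h | h
    · exact h0 h
    · exact h h1
  · intro h
    refine ⟨hf, ?_⟩
    by_contra h'
    rw [not_or, not_not] at h'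
    exact h ⟨h'.1, h'.2⟩

theorem mx_subset {f : F} (hf : f ∈ mx O) : f ∈ O := hf.1

theorem zero_mem_mx : (0 : F) ∈ mx O := ⟨O.zero_mem, Or.inl rfl⟩

theorem inv_mem_of_not_mem_mx {f : F} (hf : f ∈ O) (h : f ∉ mx O) : f⁻¹ ∈ O := by
  by_contra h'
  exact h ⟨hf, Or.inr h'⟩

theorem ne_zero_of_not_mem_mx {f : F} (h : f ∉ mx O) : f ≠ 0 := by
  rintro rfl
  exact h zero_mem_mx

theorem not_mem_mx {f : F} (h0 : f ≠ 0) (h : f⁻¹ ∈ O) : f ∉ mx O := by
  rintro ⟨_, h' | h'⟩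
  · exact h0 h'
  · exact h' h

theorem one_not_mem_mx : (1 : F) ∉ mx O := not_mem_mx one_ne_zero (by simp)

variable (hO : IsLocalRing O)
include hO

theorem mx_add {f g : F} (hf : f ∈ mx O) (hg : g ∈ mx O) : f + g ∈ mx O := by
  have hf' := (mem_mx_iff hf.1).1 hf
  have hg' := (mem_mx_iff hg.1).1 hg
  rw [mem_mx_iff (O.add_mem hf.1 hg.1)]
  have := IsLocalRing.nonunits_add (R := O) hf' hg'
  exact this

omit hO in
theorem mx_mul_left {f g : F} (hf : f ∈ O) (hg : g ∈ mx O) : f * g ∈ mx O := by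
  refine ⟨O.mul_mem hf hg.1, ?_⟩
  by_cases h : f * g = 0
  · exact Or.inl h
  · right
    intro h'
    have hf0 : f ≠ 0 := left_ne_zero_of_mul h
    have hg0 : g ≠ 0 := right_ne_zero_of_mul h
    have : g⁻¹ = f * (f * g)⁻¹ := by field_simp
    have h2 : g⁻¹ ∈ O := by
      rw [this]
      exact O.mul_mem hf h'
    rcases hg.2 with h3 | h3
    · exact hg0 h3
    · exact h3 h2

omit hO in
theorem mx_mul_right {f g : F} (hf : f ∈ mx O) (hg : g ∈ O) : f * g ∈ mx O := by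
  rw [mul_comm]
  exact mx_mul_left hg hf

omit hO in
theorem mx_neg {f : F} (hf : f ∈ mx O) : -f ∈ mx O := by
  have := mx_mul_left (O := O) (f := -1) (by simpa using O.neg_mem O.one_mem) hf
  simpa using this

theorem mx_sub {f g : F} (hf : f ∈ mx O) (hg : g ∈ mx O) : f - g ∈ mx O := by
  rw [sub_eq_add_neg]
  exact mx_add hO hf (mx_neg hg)

theorem not_mem_mx_add {f g : F} (hf : f ∉ mx O) (hg : g ∈ mx O) : f + g ∉ mx O := by
  intro h
  apply hf
  have := mx_sub hO h hg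
  simpa using this

omit hO in
theorem not_mem_mx_mul {f g : F} (hfO : f ∈ O) (hgO : g ∈ O) (hf : f ∉ mx O) (hg : g ∉ mx O) :
    f * g ∉ mx O := by
  apply not_mem_mx (mul_ne_zero (ne_zero_of_not_mem_mx hf) (ne_zero_of_not_mem_mx hg))
  rw [mul_inv]
  exact O.mul_mem (inv_mem_of_not_mem_mx hfO hf) (inv_mem_of_not_mem_mx hgO hg)

omit hO in
theorem mem_mx_or_of_mul {f g : F} (hfO : f ∈ O) (hgO : g ∈ O) (h : f * g ∈ mx O) :
    f ∈ mx O ∨ g ∈ mx O := by
  by_contra h'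
  rw [not_or] at h'
  exact not_mem_mx_mul hfO hgO h'.1 h'.2 h

omit hO in
theorem not_mem_mx_pow {f : F} (hfO : f ∈ O) (hf : f ∉ mx O) (n : ℕ) : f ^ n ∉ mx O := by
  induction n with
  | zero => simpa using one_not_mem_mx
  | succ n ih =>
    rw [pow_succ]
    exact not_mem_mx_mul (O.pow_mem hfO n) hfO ih hf

omit hO in
theorem algebraMap_not_mem_mx {c : K} (hc : c ≠ 0) : algebraMap K F c ∉ mx O := by
  apply not_mem_mx
  · simpa using hc
  · rw [← map_inv₀]
    exact O.algebraMap_mem _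

end LocalRing

section Charts

variable {V : Submodule K F} {u : F}

theorem pow_mem_pow {u : F} (hu : u ∈ V) (m : ℕ) : u ^ m ∈ V ^ m :=
  Submodule.pow_mem_pow V hu m

theorem mul_mem_pow_add {m n : ℕ} {a b : F} (ha : a ∈ V ^ m) (hb : b ∈ V ^ n) :
    a * b ∈ V ^ (m + n) := by
  rw [pow_add]
  exact Submodule.mul_mem_mul ha hb

theorem mem_chart_iff (hu : u ∈ V) (hu0 : u ≠ 0) {f : F} :
    f ∈ chart V u ↔ ∃ m : ℕ, ∃ a ∈ V ^ m, f = a / u ^ m := by
  constructor
  · intro h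
    induction h using Algebra.adjoin_induction with
    | mem x hx =>
      obtain ⟨v, hv, rfl⟩ := hx
      exact ⟨1, v, by simpa using hv, by simp⟩
    | algebraMap r =>
      refine ⟨0, algebraMap K F r, ?_, by simp⟩
      rw [pow_zero, Submodule.mem_one]
      exact ⟨r, rfl⟩
    | add x y _ _ hx hy =>
      obtain ⟨m, a, ha, rfl⟩ := hx
      obtain ⟨n, b, hb, rfl⟩ := hy
      refine ⟨m + n, a * u ^ n + u ^ m * b, ?_, ?_⟩
      · exact Submodule.add_mem _ (mul_mem_pow_add ha (pow_mem_pow hu n))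
          (mul_mem_pow_add (pow_mem_pow hu m) hb)
      · rw [pow_add]
        field_simp
    | mul x y _ _ hx hy =>
      obtain ⟨m, a, ha, rfl⟩ := hx
      obtain ⟨n, b, hb, rfl⟩ := hy
      refine ⟨m + n, a * b, mul_mem_pow_add ha hb, ?_⟩
      rw [pow_add]
      field_simp
  · rintro ⟨m, a, ha, rfl⟩
    induction m generalizing a with
    | zero =>
      rw [pow_zero, Submodule.mem_one] at ha
      obtain ⟨c, rfl⟩ := ha
      simpa using Subalgebra.algebraMap_mem _ c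
    | succ m ih =>
      rw [pow_succ'] at ha
      induction ha using Submodule.mul_induction_on' with
      | mem_mul_mem v hv b hb =>
        have h1 : v / u ∈ chart V u := Algebra.subset_adjoin ⟨v, hv, rfl⟩
        have h2 := ih b hb
        have : v * b / u ^ (m + 1) = (v / u) * (b / u ^ m) := by
          rw [pow_succ]
          field_simp
        rw [this]
        exact Subalgebra.mul_mem _ h1 h2
      | add x _ y _ hx hy =>
        rw [add_div]
        exact Subalgebra.add_mem _ hx hy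

/-- `u` is a section that generates the line bundle at `O`. -/
structure Dom (V : Submodule K F) (O : Subalgebra K F) (u : F) : Prop where
  mem : u ∈ V
  ne_zero : u ≠ 0
  div_mem : ∀ v ∈ V, v / u ∈ O

theorem Dom.chart_le {O : Subalgebra K F} (h : Dom V O u) : chart V u ≤ O := by
  apply Algebra.adjoin_le
  rintro f ⟨v, hv, rfl⟩
  exact h.div_mem v hv

theorem dom_of_chart_le {O : Subalgebra K F} (hu : u ∈ V) (hu0 : u ≠ 0) (h : chart V u ≤ O) :
    Dom V O u :=
  ⟨hu, hu0, fun v hv => h (Algebra.subset_adjoin ⟨v, hv, rfl⟩)⟩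

theorem Dom.div_pow_mem {O : Subalgebra K F} (h : Dom V O u) {m : ℕ} {a : F} (ha : a ∈ V ^ m) :
    a / u ^ m ∈ O :=
  h.chart_le ((mem_chart_iff h.mem h.ne_zero).2 ⟨m, a, ha, rfl⟩)

theorem Dom.mono {O O' : Subalgebra K F} (h : Dom V O u) (hle : O ≤ O') : Dom V O' u :=
  ⟨h.mem, h.ne_zero, fun v hv => hle (h.div_mem v hv)⟩

theorem mem_model_iff {O : Subalgebra K F} : O ∈ Model V ↔ ∃ u, Dom V O u ∧ IsLocalRing O ∧
    ∀ f ∈ O, ∃ m : ℕ, ∃ a ∈ V ^ m, ∃ b ∈ V ^ m, b ≠ 0 ∧ u ^ m / b ∈ O ∧ f = a / b := by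
  constructor
  · rintro ⟨u, hu, hu0, hloc, hle, hfrac⟩
    have hdom := dom_of_chart_le hu hu0 hle
    refine ⟨u, hdom, hloc, fun f hf => ?_⟩
    obtain ⟨a, ha, b, hb, hb0, hbO, rfl⟩ := hfrac f hf
    obtain ⟨m, α, hα, rfl⟩ := (mem_chart_iff hu hu0).1 ha
    obtain ⟨n, β, hβ, rfl⟩ := (mem_chart_iff hu hu0).1 hb
    have hβ0 : β ≠ 0 := by
      rintro rfl
      simp at hb0
    refine ⟨m + n, α * u ^ n, mul_mem_pow_add hα (pow_mem_pow hu n), u ^ m * β,
      mul_mem_pow_add (pow_mem_pow hu m) hβ, mul_ne_zero (pow_ne_zero _ hu0) hβ0, ?_, ?_⟩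
    · have : u ^ (m + n) / (u ^ m * β) = (β / u ^ n)⁻¹ := by
        rw [pow_add]
        field_simp
      rw [this]
      exact hbO
    · field_simp
  · rintro ⟨u, hdom, hloc, hfrac⟩
    refine ⟨u, hdom.mem, hdom.ne_zero, hloc, hdom.chart_le, fun f hf => ?_⟩
    obtain ⟨m, a, ha, b, hb, hb0, hbO, rfl⟩ := hfrac f hf
    have hu0 := hdom.ne_zero
    refine ⟨a / u ^ m, (mem_chart_iff hdom.mem hdom.ne_zero).2 ⟨m, a, ha, rfl⟩, b / u ^ m,
      (mem_chart_iff hdom.mem hdom.ne_zero).2 ⟨m, b, hb, rfl⟩, ?_, ?_, ?_⟩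
    · exact div_ne_zero hb0 (pow_ne_zero _ hu0)
    · rw [inv_div]
      exact hbO
    · field_simp

theorem Dom.unit {O : Subalgebra K F} {u' : F} (h : Dom V O u) (h' : Dom V O u') : u / u' ∉ mx O := by
  apply not_mem_mx (div_ne_zero h.ne_zero h'.ne_zero)
  rw [inv_div]
  exact h.div_mem _ h'.mem

/-- In a point of the model, fractions can be written with respect to any dominating section. -/
theorem exists_frac {O : Subalgebra K F} (hO : O ∈ Model V) (h' : Dom V O u) {f : F} (hf : f ∈ O) :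
    ∃ m : ℕ, ∃ a ∈ V ^ m, ∃ b ∈ V ^ m, b ≠ 0 ∧ u ^ m / b ∈ O ∧ f = a / b := by
  obtain ⟨w, hdom, hloc, hfrac⟩ := mem_model_iff.1 hO
  obtain ⟨m, a, ha, b, hb, hb0, hbO, rfl⟩ := hfrac f hf
  refine ⟨m, a, ha, b, hb, hb0, ?_, rfl⟩
  have hw0 := hdom.ne_zero
  have : u ^ m / b = (u / w) ^ m * (w ^ m / b) := by
    rw [div_pow]
    field_simp
  rw [this]
  exact O.mul_mem (O.pow_mem (hdom.div_mem _ h'.mem) m) hbO

theorem isLocalRing_of_mem {O : Subalgebra K F} (hO : O ∈ Model V) : IsLocalRing O :=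
  (mem_model_iff.1 hO).choose_spec.2.1

theorem exists_dom {O : Subalgebra K F} (hO : O ∈ Model V) : ∃ u, Dom V O u := by
  obtain ⟨u, h, _⟩ := mem_model_iff.1 hO
  exact ⟨u, h⟩

theorem mem_vanishing_iff {O : Subalgebra K F} (hO : IsLocalRing O) (hu : Dom V O u) {m : ℕ}
    {G : F} : G ∈ vanishing V O m ↔ G ∈ V ^ m ∧ G / u ^ m ∈ mx O := by
  have hset : ∀ G, (G ∈ V ^ m ∧ ∃ u ∈ V, u ≠ 0 ∧ (∀ v ∈ V, v / u ∈ O) ∧ G / u ^ m ∈ mx O) ↔
      (G ∈ V ^ m ∧ G / u ^ m ∈ mx O) := by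
    intro G
    constructor
    · rintro ⟨hG, w, hw, hw0, hdom, hmx⟩
      refine ⟨hG, ?_⟩
      have hu0 := hu.ne_zero
      have : G / u ^ m = (w / u) ^ m * (G / w ^ m) := by
        rw [div_pow]
        field_simp
      rw [this]
      exact mx_mul_left (O.pow_mem (hu.div_mem _ hw) m) hmx
    · rintro ⟨hG, h⟩
      exact ⟨hG, u, hu.mem, hu.ne_zero, hu.div_mem, h⟩
  constructor
  · intro h
    unfold vanishing at h
    induction h using Submodule.span_induction with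
    | mem x hx => exact (hset x).1 hx
    | zero => exact ⟨Submodule.zero_mem _, by simpa using zero_mem_mx⟩
    | add x y _ _ hx hy =>
      refine ⟨Submodule.add_mem _ hx.1 hy.1, ?_⟩
      rw [add_div]
      exact mx_add hO hx.2 hy.2
    | smul a x _ hx =>
      refine ⟨Submodule.smul_mem _ a hx.1, ?_⟩
      rw [Algebra.smul_def, mul_div_assoc]
      exact mx_mul_left (O.algebraMap_mem a) hx.2
  · intro h
    exact Submodule.subset_span ((hset G).2 h)

end Charts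

end Pool.Agent.H90ZD
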