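import Pool.Agent.H90ZD.SurfData

open Filter Topology

namespace Pool.Agent.H90ZD

section Instance

variable (K : Type) [Field K] [CharZero K]

/-- The coordinate ring of the affine surface. -/
abbrev Coo : Type := MvPolynomial (Fin 3) K ⧸ Ideal.span {fp K}

instance instIsDomainCoo : IsDomain (Coo K) := by
  have hp := prime_fp (K := K)
  have : (Ideal.span {fp K}).IsPrime := (Ideal.span_singleton_prime hp.ne_zero).2 hp
  exact Ideal.Quotient.isDomain _

/-- The function field. -/
abbrev FF : Type := FractionRing (Coo K)

/-- The surface. -/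
noncomputable def surf : Surf K (FF K) where
  c := fun i => algebraMap (Coo K) (FF K) (Ideal.Quotient.mk _ (MvPolynomial.X i))
  ker := by
    intro p
    have h1 : MvPolynomial.aeval (fun i => algebraMap (Coo K) (FF K)
        (Ideal.Quotient.mk _ (MvPolynomial.X i))) p =
        algebraMap (Coo K) (FF K) (Ideal.Quotient.mk _ p) := by
      have h2 : (MvPolynomial.aeval (fun i => algebraMap (Coo K) (FF K)
          (Ideal.Quotient.mk _ (MvPolynomial.X i))) : MvPolynomial (Fin 3) K →ₐ[K] FF K) =
          (IsScalarTower.toAlgHom K (Coo K) (FF K)).comp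
            (Ideal.Quotient.mkₐ K (Ideal.span {fp K})) := by
        apply MvPolynomial.algHom_ext
        intro i
        rw [MvPolynomial.aeval_X]
        rfl
      rw [h2]
      rfl
    rw [h1, map_eq_zero_iff _ (IsFractionRing.injective (Coo K) (FF K)),
      Ideal.Quotient.eq_zero_iff_mem, Ideal.mem_span_singleton]
  frac := by
    intro g
    have h1 : ∀ p : MvPolynomial (Fin 3) K, MvPolynomial.aeval (fun i =>
        algebraMap (Coo K) (FF K) (Ideal.Quotient.mk _ (MvPolynomial.X i))) p =
        algebraMap (Coo K) (FF K) (Ideal.Quotient.mk _ p) := by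
      intro p
      have h2 : (MvPolynomial.aeval (fun i => algebraMap (Coo K) (FF K)
          (Ideal.Quotient.mk _ (MvPolynomial.X i))) : MvPolynomial (Fin 3) K →ₐ[K] FF K) =
          (IsScalarTower.toAlgHom K (Coo K) (FF K)).comp
            (Ideal.Quotient.mkₐ K (Ideal.span {fp K})) := by
        apply MvPolynomial.algHom_ext
        intro i
        rw [MvPolynomial.aeval_X]
        rfl
      rw [h2]
      rfl
    obtain ⟨a, b, hb, rfl⟩ := IsFractionRing.div_surjective (A := Coo K) g
    obtain ⟨p, rfl⟩ := Ideal.Quotient.mk_surjective a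
    obtain ⟨q, rfl⟩ := Ideal.Quotient.mk_surjective b
    refine ⟨p, q, ?_, ?_⟩
    · rw [h1]
      rw [Ne, map_eq_zero_iff _ (IsFractionRing.injective (Coo K) (FF K))]
      exact nonZeroDivisors.ne_zero hb
    · rw [h1, h1]

end Instance

/-- The main result. -/
theorem main (K : Type) [Field K] [IsAlgClosed K] [CharZero K] :
    ∃ (F : Type) (_ : Field F) (_ : Algebra K F) (X : Set (Subalgebra K F)),
      IsProjectiveSurface X ∧ ∃ α P N : N1 X,
        α ∈ Eff X ∧ α = P + N ∧ (α, P) ∈ closure (RationalPositiveParts X) ∧
        (∀ M, IsMobilityFunction X M → IsZariskiDecomposition X M α P N) ∧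
        ¬ SupportedOnProper N := by
  have d := (surf K).data
  refine ⟨FF K, inferInstance, inferInstance, (surf K).X, (surf K).surface, d.α, 0, d.α,
    alpha_mem_Eff d, (zero_add _).symm, limit_pair d, fun M hM => ?_, not_supported d⟩
  exact ⟨alpha_mem_Eff d, (zero_add _).symm, closure_mono (rational_subset M hM) (limit_pair d)⟩

end Pool.Agent.H90ZD
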