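import Pool.Agent.H90ZD.LocHom

open Filter Topology

namespace Pool.Agent.H90ZD

variable {K F : Type} [Field K] [Field F] [Algebra K F]

open GrIdeal

variable {X : Set (Subalgebra K F)}

theorem isLocalRing_point (hX : IsProjectiveSurface X) {O : Subalgebra K F} (hO : O ∈ X) :
    IsLocalRing O := by
  obtain ⟨V, hV, hVX⟩ := hX.exists_embedding
  exact isLocalRing_of_mem (V := V) (by rw [hVX]; exact hO)

section Value

variable {p : ClosedPoint X}

theorem HasValue.mem {f : F} {c : K} (h : HasValue p f c) : f ∈ p.1 := by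
  have h1 : f - algebraMap K F c ∈ p.1 := h.1
  have := p.1.add_mem h1 (p.1.algebraMap_mem c)
  simpa using this

theorem exists_value {f : F} (hf : f ∈ p.1) : ∃ c, HasValue p f c := p.2.rational f hf

theorem hasValue_algebraMap (c : K) : HasValue p (algebraMap K F c) c := by
  unfold HasValue
  rw [sub_self]
  exact zero_mem_mx

theorem HasValue.add (hloc : IsLocalRing p.1) {f g : F} {c d : K} (h : HasValue p f c)
    (h' : HasValue p g d) : HasValue p (f + g) (c + d) := by
  unfold HasValue at *
  have e : f + g - algebraMap K F (c + d) = (f - algebraMap K F c) + (g - algebraMap K F d) := by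
    rw [map_add]
    ring
  rw [e]
  exact mx_add hloc h h'

theorem HasValue.mul (hloc : IsLocalRing p.1) {f g : F} {c d : K} (h : HasValue p f c)
    (h' : HasValue p g d) : HasValue p (f * g) (c * d) := by
  have hg := h'.mem
  unfold HasValue at *
  have e : f * g - algebraMap K F (c * d) =
      (f - algebraMap K F c) * g + algebraMap K F c * (g - algebraMap K F d) := by
    rw [map_mul]
    ring
  rw [e]
  exact mx_add hloc (mx_mul_right h hg) (mx_mul_left (p.1.algebraMap_mem c) h')

theorem HasValue.aeval (hloc : IsLocalRing p.1) {σ : Type} {a : σ → F} {c : σ → K}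
    (h : ∀ j, HasValue p (a j) (c j)) (P : MvPolynomial σ K) :
    HasValue p (MvPolynomial.aeval a P) (MvPolynomial.eval c P) := by
  induction P using MvPolynomial.induction_on with
  | C r =>
    rw [MvPolynomial.aeval_C, MvPolynomial.eval_C]
    exact hasValue_algebraMap r
  | add P Q hP hQ =>
    rw [map_add, map_add]
    exact hP.add hloc hQ
  | mul_X P j hP =>
    rw [map_mul, map_mul, MvPolynomial.aeval_X, MvPolynomial.eval_X]
    exact hP.mul hloc (h j)

theorem HasValue.ne_zero_iff (hloc : IsLocalRing p.1) {f : F} {c : K} (h : HasValue p f c) :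
    c ≠ 0 ↔ f ∉ mx p.1 := by
  constructor
  · intro hc hf
    have h1 : algebraMap K F c ∈ mx p.1 := by
      have := mx_sub hloc hf h
      simpa using this
    exact algebraMap_not_mem_mx hc h1
  · rintro hf rfl
    apply hf
    unfold HasValue at h
    simpa using h

end Value

theorem GeneralPoints.mono {b : ℕ} {P Q : (Fin b → ClosedPoint X) → Prop}
    (h : GeneralPoints X b P) (hPQ : ∀ p, P p → Q p) : GeneralPoints X b Q := by
  obtain ⟨n, a, Θ, h1, h2⟩ := h
  exact ⟨n, a, Θ, h1, fun p c h3 h4 => hPQ p (h2 p c h3 h4)⟩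

/-- Moving points to general position. -/
theorem exists_general [IsAlgClosed K] (hX : IsProjectiveSurface X) {b n : ℕ} (a : Fin n → F)
    (Θ : MvPolynomial (Fin b × Fin n) K) {t : F} (ht : t ≠ 0)
    (h : ∃ (p : Fin b → ClosedPoint X) (c : Fin b × Fin n → K),
      (∀ i j, HasValue (p i) (a j) (c (i, j))) ∧ MvPolynomial.eval c Θ ≠ 0)
    (S : Finset (Fin b)) :
    ∃ (p : Fin b → ClosedPoint X) (c : Fin b × Fin n → K),
      ((∀ i j, HasValue (p i) (a j) (c (i, j))) ∧ MvPolynomial.eval c Θ ≠ 0) ∧
      ∀ i ∈ S, t ∈ (p i).1 ∧ t⁻¹ ∈ (p i).1 := by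
  classical
  induction S using Finset.induction_on with
  | empty =>
    obtain ⟨p, c, h1⟩ := h
    exact ⟨p, c, h1, by simp⟩
  | insert k S hk ih =>
    obtain ⟨p, c, ⟨h1, h2⟩, h3⟩ := ih
    let g : Fin b × Fin n → F := fun ij => if ij.1 = k then a ij.2 else algebraMap K F (c ij)
    have hg : ∀ ij, HasValue (p k) (g ij) (c ij) := by
      rintro ⟨i, j⟩
      simp only [g]
      split_ifs with hik
      · subst hik
        exact h1 i j
      · exact hasValue_algebraMap _
    have hθ := HasValue.aeval (isLocalRing_point hX (p k).2.mem) hg Θ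
    have hθ0 : MvPolynomial.aeval g Θ ≠ 0 := by
      intro h0
      rw [h0] at hθ
      exact ((hθ.ne_zero_iff (isLocalRing_point hX (p k).2.mem)).1 h2) zero_mem_mx
    obtain ⟨q, hq1, hq2, hq3⟩ := exists_closedPoint hX
      (insert t (insert t⁻¹ (Finset.univ.image a))) hθ0
    have hqa : ∀ j, a j ∈ q.1 := fun j => hq1 _ (Finset.mem_insert_of_mem
      (Finset.mem_insert_of_mem (Finset.mem_image_of_mem a (Finset.mem_univ j))))
    choose v hv using fun j => exists_value (hqa j)
    let c' : Fin b × Fin n → K := fun ij => if ij.1 = k then v ij.2 else c ij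
    have hg' : ∀ ij, HasValue q (g ij) (c' ij) := by
      rintro ⟨i, j⟩
      simp only [g, c']
      split_ifs with hik
      · exact hv j
      · exact hasValue_algebraMap _
    have hθ' := HasValue.aeval (isLocalRing_point hX q.2.mem) hg' Θ
    refine ⟨Function.update p k q, c', ⟨?_, ?_⟩, ?_⟩
    · intro i j
      by_cases hik : i = k
      · subst hik
        rw [Function.update_self]
        simp only [c', if_pos]
        exact hv j
      · rw [Function.update_of_ne hik]
        simp only [c', if_neg hik]
        exact h1 i j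
    · exact (hθ'.ne_zero_iff (isLocalRing_point hX q.2.mem)).2 hq3
    · intro i hi
      by_cases hik : i = k
      · subst hik
        rw [Function.update_self]
        exact ⟨hq1 _ (Finset.mem_insert_self _ _),
          hq1 _ (Finset.mem_insert_of_mem (Finset.mem_insert_self _ _))⟩
      · rw [Function.update_of_ne hik]
        exact h3 i (Finset.mem_of_mem_insert_of_ne hi hik)

/-- General points avoid the zeros and poles of a given function. -/
theorem GeneralPoints.avoid [IsAlgClosed K] (hX : IsProjectiveSurface X) {b : ℕ}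
    {P : (Fin b → ClosedPoint X) → Prop} (h : GeneralPoints X b P) {t : F} (ht : t ≠ 0) :
    GeneralPoints X b fun p => P p ∧ ∀ i, t⁻¹ ∈ (p i).1 := by
  obtain ⟨n, a, Θ, h1, h2⟩ := h
  let a' : Fin (n + 1) → F := Fin.snoc a t
  let ι : Fin b × Fin n → Fin b × Fin (n + 1) := fun ij => (ij.1, Fin.castSucc ij.2)
  refine ⟨n + 1, a', MvPolynomial.rename ι Θ * ∏ i, MvPolynomial.X (i, Fin.last n), ?_, ?_⟩
  · obtain ⟨p, c, ⟨h3, h4⟩, h5⟩ := exists_general hX a Θ ht h1 Finset.univ
    choose v hv using fun i => exists_value (h5 i (Finset.mem_univ i)).1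
    let c' : Fin b × Fin (n + 1) → K := fun ij =>
      Fin.lastCases (motive := fun _ => K) (v ij.1) (fun j => c (ij.1, j)) ij.2
    have hc1 : ∀ i, c' (i, Fin.last n) = v i := by
      intro i
      simp only [c', Fin.lastCases_last]
    have hc2 : ∀ i (j : Fin n), c' (i, Fin.castSucc j) = c (i, j) := by
      intro i j
      simp only [c', Fin.lastCases_castSucc]
    refine ⟨p, c', ?_, ?_⟩
    · intro i j
      induction j using Fin.lastCases with
      | last =>
        rw [hc1]
        simp only [a', Fin.snoc_last]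
        exact hv i
      | cast j =>
        rw [hc2]
        simp only [a', Fin.snoc_castSucc]
        exact h3 i j
    · rw [map_mul, MvPolynomial.eval_rename, map_prod]
      have hc3 : c' ∘ ι = c := by
        funext ij
        exact hc2 ij.1 ij.2
      rw [hc3]
      refine mul_ne_zero h4 (Finset.prod_ne_zero_iff.2 fun i _ => ?_)
      rw [MvPolynomial.eval_X, hc1]
      rw [(hv i).ne_zero_iff (isLocalRing_point hX (p i).2.mem)]
      exact not_mem_mx ht (h5 i (Finset.mem_univ i)).2
  · intro p c h3 h4
    rw [map_mul, MvPolynomial.eval_rename, map_prod] at h4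
    have h5 := left_ne_zero_of_mul h4
    have h6 := right_ne_zero_of_mul h4
    rw [Finset.prod_ne_zero_iff] at h6
    refine ⟨h2 p (c ∘ ι) ?_ h5, ?_⟩
    · intro i j
      have := h3 i (Fin.castSucc j)
      simp only [a', Fin.snoc_castSucc] at this
      exact this
    · intro i
      have h7 := h3 i (Fin.last n)
      simp only [a', Fin.snoc_last] at h7
      have h8 := h6 i (Finset.mem_univ i)
      rw [MvPolynomial.eval_X] at h8
      have h9 := (h7.ne_zero_iff (isLocalRing_point hX (p i).2.mem)).1 h8
      exact inv_mem_of_not_mem_mx h7.mem h9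

theorem curve_exists_mx (hX : IsProjectiveSurface X) (C : Curve X) : ∃ t ∈ mx C.1, t ≠ 0 := by
  have : ∃ f, f ∉ C.1 := by
    by_contra h
    push Not at h
    exact C.2.ne_top (top_le_iff.1 fun f _ => h f)
  obtain ⟨f, hf⟩ := this
  obtain ⟨a, ha, b, hb, hb0, rfl⟩ := fracOf_curve hX C.2.mem f
  refine ⟨b, ?_, hb0⟩
  by_contra h
  apply hf
  rw [div_eq_mul_inv]
  exact C.1.mul_mem ha (inv_mem_of_not_mem_mx hb h)

/-- If every effective cycle of class `γ + a C` contains `a C`, then removing `a C` does not
change the mobility count. -/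
theorem mobCount_eq [IsAlgClosed K] (hX : IsProjectiveSurface X) (C : Curve X) (γ β : N1 X) (a : ℕ)
    (hβ : β = γ + natCls (Finsupp.single C a))
    (h : ∀ E : Curve X →₀ ℕ, natCls E = β → a ≤ E C) :
    mobCount X β = mobCount X γ := by
  classical
  have key : ∀ b, (GeneralPoints X b fun p => ∃ D : Curve X →₀ ℕ, natCls D = β ∧
        ∀ i, ∃ C : Curve X, D C ≠ 0 ∧ LiesOn (p i) C) ↔
      (GeneralPoints X b fun p => ∃ D : Curve X →₀ ℕ, natCls D = γ ∧
        ∀ i, ∃ C : Curve X, D C ≠ 0 ∧ LiesOn (p i) C) := by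
    intro b
    constructor
    · intro hb
      obtain ⟨t, ht, ht0⟩ := curve_exists_mx hX C
      refine (hb.avoid hX ht0).mono ?_
      rintro p ⟨⟨E, hE, hp⟩, hav⟩
      have haE := h E hE
      let E' : Curve X →₀ ℕ := E - Finsupp.single C a
      have hEE' : E = E' + Finsupp.single C a := by
        ext C'
        simp only [E', Finsupp.add_apply, Finsupp.tsub_apply]
        by_cases hC : C' = C
        · subst hC
          rw [Finsupp.single_eq_same]
          omega
        · rw [Finsupp.single_eq_of_ne hC]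
          omega
      refine ⟨E', ?_, ?_⟩
      · rw [hβ, hEE', natCls_add] at hE
        exact add_right_cancel hE
      · intro i
        obtain ⟨C', hC', hlie⟩ := hp i
        refine ⟨C', ?_, hlie⟩
        have hne : C' ≠ C := by
          rintro rfl
          exact not_mem_mx ht0 (hlie (hav i)) ht
        simp only [E', Finsupp.tsub_apply]
        rw [Finsupp.single_eq_of_ne hne]
        simpa using hC'
    · intro hb
      refine hb.mono ?_
      rintro p ⟨E, hE, hp⟩
      refine ⟨E + Finsupp.single C a, ?_, ?_⟩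
      · rw [natCls_add, hE, hβ]
      · intro i
        obtain ⟨C', hC', hlie⟩ := hp i
        refine ⟨C', ?_, hlie⟩
        rw [Finsupp.add_apply]
        omega
  unfold mobCount
  apply le_antisymm
  · refine iSup_le ?_
    rintro ⟨b, hb⟩
    exact le_iSup (fun b : {b : ℕ // GeneralPoints X b fun p => ∃ D : Curve X →₀ ℕ,
      natCls D = γ ∧ ∀ i, ∃ C : Curve X, D C ≠ 0 ∧ LiesOn (p i) C} => (b.1 : ℕ∞))
      ⟨b, (key b).1 hb⟩
  · refine iSup_le ?_
    rintro ⟨b, hb⟩
    exact le_iSup (fun b : {b : ℕ // GeneralPoints X b fun p => ∃ D : Curve X →₀ ℕ,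
      natCls D = β ∧ ∀ i, ∃ C : Curve X, D C ≠ 0 ∧ LiesOn (p i) C} => (b.1 : ℕ∞))
      ⟨b, (key b).2 hb⟩

theorem natCls_nsmul (m : ℕ) (E : Curve X →₀ ℕ) : natCls (m • E) = m • natCls E := by
  induction m with
  | zero =>
    rw [zero_smul, zero_smul]
    unfold natCls cls
    rw [Finsupp.mapRange_zero, map_zero]
  | succ m ih => rw [succ_nsmul, natCls_add, ih, succ_nsmul]

theorem mob_eq [IsAlgClosed K] (hX : IsProjectiveSurface X) (C : Curve X) (γ β : N1 X) (a : ℕ)
    (hβ : β = γ + natCls (Finsupp.single C a))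
    (h : ∀ (m : ℕ) (E : Curve X →₀ ℕ), natCls E = m • β → m * a ≤ E C) :
    mob X β = mob X γ := by
  have key : ∀ m : ℕ, mobCount X (m • β) = mobCount X (m • γ) := by
    intro m
    refine mobCount_eq hX C _ _ (m * a) ?_ (h m)
    rw [hβ, smul_add, ← natCls_nsmul, Finsupp.smul_single, smul_eq_mul]
  unfold mob
  simp only [key]

end Pool.Agent.H90ZD
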