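import Pool.Agent.H90ZD.Deg

open Filter Topology Polynomial

namespace Pool.Agent.H90ZD

variable {K F : Type} [Field K] [Field F] [Algebra K F]

open GrIdeal

/-- Valuation rings of `F` containing `K`. -/
def IsVal (B : Subalgebra K F) : Prop := ∀ f : F, f ∈ B ∨ f⁻¹ ∈ B

theorem IsVal.isLocalRing {B : Subalgebra K F} (hB : IsVal B) : IsLocalRing B := by
  refine IsLocalRing.of_isUnit_or_isUnit_one_sub_self ?_
  rintro ⟨f, hf⟩
  by_cases h0 : f = 0
  · right
    subst h0
    have : (1 : B) - ⟨0, hf⟩ = 1 := by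
      apply Subtype.ext
      change (1 : F) - 0 = 1
      ring
    rw [this]
    exact isUnit_one
  by_cases h1 : f = 1
  · left
    subst h1
    exact isUnit_one
  have h1' : (1 : F) - f ≠ 0 := sub_ne_zero.2 (Ne.symm h1)
  rcases hB ((1 - f) / f) with h | h
  · left
    rw [isUnit_iff hf]
    refine ⟨h0, ?_⟩
    have : f⁻¹ = (1 - f) / f + 1 := by field_simp; ring
    rw [this]
    exact B.add_mem h B.one_mem
  · right
    have hmem : (1 : F) - f ∈ B := B.sub_mem B.one_mem hf
    have := (isUnit_iff hmem).2 ⟨h1', ?_⟩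
    · exact this
    · have e : (1 - f)⁻¹ = ((1 - f) / f)⁻¹ + 1 := by field_simp; ring
      rw [e]
      exact B.add_mem h B.one_mem

/-- `B` dominates `O`. -/
def Dominates (B O : Subalgebra K F) : Prop := O ≤ B ∧ ∀ f ∈ mx O, f ∈ mx B

theorem exists_val {O : Subalgebra K F} (hloc : IsLocalRing O) :
    ∃ B : Subalgebra K F, IsVal B ∧ Dominates B O := by
  let L : LocalSubring F :=
    { toSubring := O.toSubring
      isLocalRing := hloc }
  obtain ⟨A, hA⟩ := LocalSubring.exists_le_valuationSubring L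
  obtain ⟨hle, hlh⟩ := hA
  have hle' : ∀ f ∈ O, f ∈ A := fun f hf => hle hf
  let B : Subalgebra K F :=
    { A.toSubring with
      algebraMap_mem' := fun r => hle' _ (O.algebraMap_mem r) }
  refine ⟨B, fun f => A.mem_or_inv_mem f, fun f hf => hle' f hf, ?_⟩
  intro f hf
  refine ⟨hle' f hf.1, ?_⟩
  by_contra hcon
  rw [not_or, not_not] at hcon
  have hfA : f ∈ A := hle' f hf.1
  have h1 : IsUnit (⟨f, hfA⟩ : A.toLocalSubring.toSubring) := by
    refine isUnit_iff_exists_inv.mpr ⟨⟨f⁻¹, hcon.2⟩, ?_⟩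
    apply Subtype.ext
    exact mul_inv_cancel₀ hcon.1
  have h2 : IsUnit (⟨f, hf.1⟩ : L.toSubring) := by
    apply hlh.map_nonunit
    exact h1
  exact (mem_mx_iff hf.1).1 hf h2

variable {V : Submodule K F}

theorem exists_max {B : Subalgebra K F} (hB : IsVal B) (s : Finset F) (hs : ∃ v ∈ s, v ≠ 0) :
    ∃ u ∈ s, u ≠ 0 ∧ ∀ v ∈ s, v / u ∈ B := by
  classical
  induction s using Finset.induction_on with
  | empty =>
    obtain ⟨v, hv, _⟩ := hs
    simp at hv
  | insert a s has ih =>
    by_cases hs' : ∃ v ∈ s, v ≠ 0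
    · obtain ⟨u, hu, hu0, hmax⟩ := ih hs'
      rcases hB (a / u) with h | h
      · refine ⟨u, Finset.mem_insert_of_mem hu, hu0, ?_⟩
        intro v hv
        rcases Finset.mem_insert.1 hv with rfl | hv
        · exact h
        · exact hmax v hv
      · by_cases ha0 : a = 0
        · refine ⟨u, Finset.mem_insert_of_mem hu, hu0, ?_⟩
          intro v hv
          rcases Finset.mem_insert.1 hv with rfl | hv
          · rw [ha0, zero_div]
            exact B.zero_mem
          · exact hmax v hv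
        · refine ⟨a, Finset.mem_insert_self _ _, ha0, ?_⟩
          intro v hv
          rcases Finset.mem_insert.1 hv with rfl | hv
          · rw [div_self ha0]
            exact B.one_mem
          · have e : v / a = v / u * (a / u)⁻¹ := by field_simp
            rw [e]
            exact B.mul_mem (hmax v hv) h
    · push Not at hs'
      obtain ⟨v, hv, hv0⟩ := hs
      rcases Finset.mem_insert.1 hv with rfl | hv
      · refine ⟨v, Finset.mem_insert_self _ _, hv0, ?_⟩
        intro w hw
        rcases Finset.mem_insert.1 hw with rfl | hw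
        · rw [div_self hv0]
          exact B.one_mem
        · rw [hs' w hw, zero_div]
          exact B.zero_mem
      · exact absurd (hs' v hv) hv0

theorem exists_dom_val {B : Subalgebra K F} (hB : IsVal B) (hV : V.FG) (hV0 : V ≠ ⊥) :
    ∃ u, Dom V B u := by
  obtain ⟨s, hs⟩ := hV
  have hs' : ∃ v ∈ s, v ≠ 0 := by
    by_contra h
    push Not at h
    apply hV0
    rw [← hs, Submodule.span_eq_bot]
    exact h
  obtain ⟨u, hu, hu0, hmax⟩ := exists_max hB s hs'
  refine ⟨u, ?_, hu0, ?_⟩
  · rw [← hs]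
    exact Submodule.subset_span hu
  · intro v hv
    rw [← hs] at hv
    induction hv using Submodule.span_induction with
    | mem x hx => exact hmax x hx
    | zero => simp
    | add x y _ _ hx hy =>
      rw [add_div]
      exact B.add_mem hx hy
    | smul a x _ hx =>
      rw [Algebra.smul_def, mul_div_assoc]
      exact B.mul_mem (B.algebraMap_mem a) hx

/-- The homogeneous prime ideal of the centre of a local ring `B` on the model given by `V`. -/
def centreIdeal {B : Subalgebra K F} (hloc : IsLocalRing B) {u : F} (hu : Dom V B u) :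
    GrIdeal V where
  comp m := Submodule.span K {G | G ∈ V ^ m ∧ G / u ^ m ∈ mx B}
  le_pow m := by
    rw [Submodule.span_le]
    exact fun G hG => hG.1
  mul_le m := by
    have hu0 := hu.ne_zero
    rw [Submodule.mul_le]
    intro v hv G hG
    induction hG using Submodule.span_induction with
    | mem x hx =>
      apply Submodule.subset_span
      refine ⟨?_, ?_⟩
      · have := mul_mem_pow_add (m := 1) (n := m) (by simpa using hv) hx.1
        rwa [add_comm] at this
      · have : v * x / u ^ (m + 1) = (v / u) * (x / u ^ m) := by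
          rw [pow_succ]
          field_simp
        rw [this]
        exact mx_mul_left (hu.div_mem v hv) hx.2
    | zero => simp
    | add x y _ _ hx hy =>
      rw [mul_add]
      exact Submodule.add_mem _ hx hy
    | smul a x _ hx =>
      rw [mul_smul_comm]
      exact Submodule.smul_mem _ a hx

theorem mem_centreIdeal {B : Subalgebra K F} (hloc : IsLocalRing B) {u : F} (hu : Dom V B u)
    {m : ℕ} {G : F} : G ∈ (centreIdeal hloc hu).comp m ↔ G ∈ V ^ m ∧ G / u ^ m ∈ mx B := by
  constructor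
  · intro hG
    induction hG using Submodule.span_induction with
    | mem x hx => exact hx
    | zero => exact ⟨Submodule.zero_mem _, by simpa using zero_mem_mx⟩
    | add x y _ _ hx hy =>
      refine ⟨Submodule.add_mem _ hx.1 hy.1, ?_⟩
      rw [add_div]
      exact mx_add hloc hx.2 hy.2
    | smul a x _ hx =>
      refine ⟨Submodule.smul_mem _ a hx.1, ?_⟩
      rw [Algebra.smul_def, mul_div_assoc]
      exact mx_mul_left (B.algebraMap_mem a) hx.2
  · exact fun h => Submodule.subset_span h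

theorem centreIdeal_isPrime {B : Subalgebra K F} (hloc : IsLocalRing B) {u : F}
    (hu : Dom V B u) : (centreIdeal hloc hu).IsPrime := by
  have hu0 := hu.ne_zero
  constructor
  · rw [mem_centreIdeal]
    rintro ⟨_, h⟩
    rw [pow_zero, div_one] at h
    exact one_not_mem_mx h
  · intro m n a b ha hb hab
    rw [mem_centreIdeal] at hab ⊢
    rw [mem_centreIdeal]
    have : a * b / u ^ (m + n) = (a / u ^ m) * (b / u ^ n) := by
      rw [pow_add]
      field_simp
    rw [this] at hab
    rcases mem_mx_or_of_mul (hu.div_pow_mem ha) (hu.div_pow_mem hb) hab.2 with h | h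
    · exact Or.inl ⟨ha, h⟩
    · exact Or.inr ⟨hb, h⟩

/-- Existence of the centre. -/
theorem exists_centre {B : Subalgebra K F} (hloc : IsLocalRing B) {u : F} (hu : Dom V B u) :
    ∃ O ∈ Model V, Dominates B O := by
  have hu0 := hu.ne_zero
  have hQ := centreIdeal_isPrime hloc hu
  have huQ : u ∉ (centreIdeal hloc hu).comp 1 := by
    rw [mem_centreIdeal]
    rintro ⟨_, h⟩
    rw [pow_one, div_self hu0] at h
    exact one_not_mem_mx h
  have hunit : ∀ m, ∀ b ∈ V ^ m, b ∉ (centreIdeal hloc hu).comp m → (b / u ^ m)⁻¹ ∈ B := by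
    intro m b hb hbQ
    apply inv_mem_of_not_mem_mx (hu.div_pow_mem hb)
    intro h
    exact hbQ ((mem_centreIdeal hloc hu).2 ⟨hb, h⟩)
  refine ⟨_, locPt_mem_model hQ ⟨u, hu.mem, huQ⟩, ?_, ?_⟩
  · rintro f ⟨m, a, ha, b, hb, hbQ, rfl⟩
    have e : a / b = (a / u ^ m) * (b / u ^ m)⁻¹ := by
      have := IsPrime.ne_zero_of_not_mem hbQ
      field_simp
    rw [e]
    exact B.mul_mem (hu.div_pow_mem ha) (hunit m b hb hbQ)
  · intro f hf
    obtain ⟨m, a, ha, b, hb, hbQ, rfl⟩ := hf.1
    have hb0 := IsPrime.ne_zero_of_not_mem hbQ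
    by_cases haQ : a ∈ (centreIdeal hloc hu).comp m
    · have e : a / b = (a / u ^ m) * (b / u ^ m)⁻¹ := by field_simp
      rw [e]
      exact mx_mul_right ((mem_centreIdeal hloc hu).1 haQ).2 (hunit m b hb hbQ)
    · exfalso
      refine not_mem_mx (div_ne_zero (IsPrime.ne_zero_of_not_mem haQ) hb0) ?_ hf
      rw [inv_div]
      exact ⟨m, b, hb, a, ha, haQ, rfl⟩

theorem centre_le {B O₁ O₂ : Subalgebra K F} (h₁ : O₁ ∈ Model V)
    (h₂ : O₂ ∈ Model V) (hB₁ : Dominates B O₁) (hB₂ : Dominates B O₂) : O₁ ≤ O₂ := by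
  obtain ⟨u₁, hu₁⟩ := exists_dom h₁
  obtain ⟨u₂, hu₂⟩ := exists_dom h₂
  have h10 := hu₁.ne_zero
  have h20 := hu₂.ne_zero
  intro f hf
  obtain ⟨m, a, ha, b, hb, hbP, rfl⟩ := (mem_iff_frac h₁).1 hf
  have hb0 := IsPrime.ne_zero_of_not_mem hbP
  have hb1 := (not_mem_ptIdeal_iff h₁ hu₁ hb).1 hbP
  have hb2 : b / u₂ ^ m ∉ mx O₂ := by
    intro h
    have h3 := hB₂.2 _ h
    have e : (b / u₂ ^ m)⁻¹ = (b / u₁ ^ m)⁻¹ * (u₂ / u₁) ^ m := by
      rw [div_pow]
      field_simp
    refine not_mem_mx (div_ne_zero hb0 (pow_ne_zero _ h20)) ?_ h3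
    rw [e]
    exact B.mul_mem (hB₁.1 (inv_mem_of_not_mem_mx (hu₁.div_pow_mem hb) hb1))
      (B.pow_mem (hB₁.1 (hu₁.div_mem _ hu₂.mem)) m)
  have h4 := inv_mem_of_not_mem_mx (hu₂.div_pow_mem hb) hb2
  have e : a / b = (a / u₂ ^ m) * (b / u₂ ^ m)⁻¹ := by field_simp
  rw [e]
  exact O₂.mul_mem (hu₂.div_pow_mem ha) h4

theorem centre_unique {B O₁ O₂ : Subalgebra K F} (h₁ : O₁ ∈ Model V)
    (h₂ : O₂ ∈ Model V) (hB₁ : Dominates B O₁) (hB₂ : Dominates B O₂) : O₁ = O₂ :=
  le_antisymm (centre_le h₁ h₂ hB₁ hB₂) (centre_le h₂ h₁ hB₂ hB₁)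

/-- If a model contains another (proper) model then they agree. -/
theorem model_eq_of_subset {V' : Submodule K F} (hV : V.FG) (hV0 : V ≠ ⊥)
    (h : Model V ⊆ Model V') : Model V = Model V' := by
  apply Set.Subset.antisymm h
  intro O hO
  obtain ⟨B, hB, hdom⟩ := exists_val (isLocalRing_of_mem hO)
  obtain ⟨u, hu⟩ := exists_dom_val hB hV hV0
  obtain ⟨O', hO', hdom'⟩ := exists_centre hB.isLocalRing hu
  rw [centre_unique hO (h hO') hdom hdom']
  exact hO'

theorem mul_div_mul_mem {W : Submodule K F} {O : Subalgebra K F} {u w : F} (hu : Dom V O u)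
    (hw : Dom W O w) : Dom (V * W) O (u * w) := by
  have hu0 := hu.ne_zero
  have hw0 := hw.ne_zero
  refine ⟨Submodule.mul_mem_mul hu.mem hw.mem, mul_ne_zero hu0 hw0, ?_⟩
  intro y hy
  induction hy using Submodule.mul_induction_on' with
  | mem_mul_mem a ha b hb =>
    have e : a * b / (u * w) = (a / u) * (b / w) := by field_simp
    rw [e]
    exact O.mul_mem (hu.div_mem a ha) (hw.div_mem b hb)
  | add x _ y _ hx hy =>
    rw [add_div]
    exact O.add_mem hx hy

/-- Multiplication by a linear system without base points does not change the model. -/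
theorem model_mul {W : Submodule K F} (hV : V.FG) (hV0 : V ≠ ⊥)
    (hbpf : ∀ O ∈ Model V, ∃ w, Dom W O w) : Model (V * W) = Model V := by
  symm
  apply model_eq_of_subset hV hV0
  intro O hO
  obtain ⟨u, hu⟩ := exists_dom hO
  obtain ⟨w, hw⟩ := hbpf O hO
  have hu0 := hu.ne_zero
  have hw0 := hw.ne_zero
  rw [mem_model_iff]
  refine ⟨u * w, mul_div_mul_mem hu hw, isLocalRing_of_mem hO, ?_⟩
  intro f hf
  obtain ⟨m, a, ha, b, hb, hb0, hbO, rfl⟩ := exists_frac hO hu hf
  refine ⟨m, a * w ^ m, ?_, b * w ^ m, ?_, mul_ne_zero hb0 (pow_ne_zero _ hw0), ?_, ?_⟩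
  · rw [mul_pow]
    exact Submodule.mul_mem_mul ha (pow_mem_pow hw.mem m)
  · rw [mul_pow]
    exact Submodule.mul_mem_mul hb (pow_mem_pow hw.mem m)
  · rw [mul_pow]
    have e : u ^ m * w ^ m / (b * w ^ m) = u ^ m / b := by field_simp
    rw [e]
    exact hbO
  · field_simp

end Pool.Agent.H90ZD
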