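import Pool.Agent.H90ZD.Div

open Filter Topology Polynomial

namespace Pool.Agent.H90ZD

variable {K F : Type} [Field K] [Field F] [Algebra K F]

open GrIdeal

variable {V : Submodule K F}

/-- The zero ideal. -/
def GrIdeal.zeroIdeal (V : Submodule K F) : GrIdeal V where
  comp _ := ⊥
  le_pow _ := bot_le
  mul_le _ := by
    rw [Submodule.mul_bot]

theorem locIdeal_zeroIdeal {O : Subalgebra K F} (hO : O ∈ Model V) :
    locIdeal hO (zeroIdeal V) = ⊥ := by
  rw [eq_bot_iff]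
  rintro f ⟨m, b, hb, hbP, hfb⟩
  have hb0 := IsPrime.ne_zero_of_not_mem hbP
  change (f : F) * b ∈ (⊥ : Submodule K F) at hfb
  rw [Submodule.mem_bot] at hfb
  rw [Submodule.mem_bot]
  apply Subtype.ext
  rcases mul_eq_zero.1 hfb with h | h
  · exact h
  · exact absurd h hb0

variable {X : Set (Subalgebra K F)}

/-- The divisor of a form. -/
theorem exists_div_form [IsAlgClosed K] (hX : IsProjectiveSurface X) (hV : V.FG)
    (hVX : Model V = X) {d : ℕ} {G : F} (hG : G ∈ V ^ d) (hG0 : G ≠ 0) :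
    ∃ ν : Curve X →₀ ℕ,
      (∀ (C : Curve X) (u : F) (hu : Dom V C.1 u),
        Ring.ord C.1 (⟨G / u ^ d, hu.div_pow_mem hG⟩ : C.1) = (ν C : ℕ∞)) ∧
      ∃ e : ℤ, ∀ᶠ m in atTop, (Module.finrank K (V ^ m : Submodule K F) : ℤ) -
        Module.finrank K (V ^ (m - d) : Submodule K F) =
          (ν.sum fun C n => (n : ℤ) * (hilb V C.1 m : ℤ)) + e := by
  obtain ⟨ν, hν, e, he⟩ := exists_div_ideal hX hV hVX ((zeroIdeal V).addGen d G hG)
    ⟨d, G, gen_mem_addGen _ _ _ _, hG0⟩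
  refine ⟨ν, fun C u hu => ?_, e, ?_⟩
  · have hC : C.1 ∈ Model V := by rw [hVX]; exact C.2.mem
    rw [← hν C hC, locIdeal_addGen hu, locIdeal_zeroIdeal, bot_sup_eq]
    rfl
  · filter_upwards [he, eventually_ge_atTop d] with m h1 h2
    rw [← h1]
    have h3 := codim_step hV (zeroIdeal V) d G hG hG0 h2
    have h4 : (zeroIdeal V).codim m = Module.finrank K (V ^ m : Submodule K F) := by
      unfold codim
      change (_ : ℤ) - (Module.finrank K (⊥ : Submodule K F) : ℤ) = _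
      rw [finrank_bot]
      simp
    have h5 : ((zeroIdeal V).colon d G hG).codim (m - d) =
        Module.finrank K (V ^ (m - d) : Submodule K F) := by
      have : ((zeroIdeal V).colon d G hG).comp (m - d) = ⊥ := by
        rw [eq_bot_iff]
        intro a ha
        rw [mem_colon] at ha
        have h6 : a * G ∈ (⊥ : Submodule K F) := ha.2
        rw [Submodule.mem_bot] at h6 ⊢
        rcases mul_eq_zero.1 h6 with h | h
        · exact h
        · exact absurd h hG0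
      unfold codim
      rw [this, finrank_bot]
      simp
    rw [h4, h5] at h3
    rw [h3]
    ring

/-- All non-zero elements of `O` have finite order. -/
def FinOrd (O : Subalgebra K F) : Prop :=
  ∀ f : O, f ≠ 0 → Ring.ord O f ≠ ⊤

theorem finOrd_curve [IsAlgClosed K] (hX : IsProjectiveSurface X) (C : Curve X) : FinOrd C.1 := by
  obtain ⟨V, hV, hVX⟩ := hX.exists_embedding
  have hC : C.1 ∈ Model V := by rw [hVX]; exact C.2.mem
  rintro ⟨f, hf⟩ hf0
  obtain ⟨u, hu⟩ := exists_dom hC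
  have hu0 := hu.ne_zero
  obtain ⟨m, a, ha, b, hb, hbP, hfab⟩ := (mem_iff_frac hC).1 hf
  have hb0 := IsPrime.ne_zero_of_not_mem hbP
  have hb1 := (not_mem_ptIdeal_iff hC hu hb).1 hbP
  have ha0 : a ≠ 0 := by
    rintro rfl
    apply hf0
    apply Subtype.ext
    change f = 0
    rw [hfab]
    simp
  obtain ⟨ν, hν, -⟩ := exists_div_form hX hV hVX ha ha0
  have h1 := hν C u hu
  have hunit : IsUnit (⟨b / u ^ m, hu.div_pow_mem hb⟩ : C.1) := by
    by_contra h
    exact hb1 ((mem_mx_iff _).2 h)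
  have h2 : (⟨a / u ^ m, hu.div_pow_mem ha⟩ : C.1) = ⟨f, hf⟩ * ⟨b / u ^ m, hu.div_pow_mem hb⟩ := by
    apply Subtype.ext
    change a / u ^ m = f * (b / u ^ m)
    rw [hfab]
    field_simp
  rw [h2, Ring.ord_mul_of_isUnit_right hunit] at h1
  rw [h1]
  exact ENat.natCast_ne_top _

open Classical in
/-- The order of an element of the local ring `O`. -/
noncomputable def oz (O : Subalgebra K F) (f : F) : ℕ :=
  if h : f ∈ O then (Ring.ord O (⟨f, h⟩ : O)).toNat else 0

theorem oz_eq {O : Subalgebra K F} {f : F} (h : f ∈ O) :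
    oz O f = (Ring.ord O (⟨f, h⟩ : O)).toNat := dif_pos h

theorem oz_mul {O : Subalgebra K F} (hO : FinOrd O) {f g : F} (hf : f ∈ O) (hg : g ∈ O)
    (hf0 : f ≠ 0) (hg0 : g ≠ 0) : oz O (f * g) = oz O f + oz O g := by
  rw [oz_eq hf, oz_eq hg, oz_eq (O.mul_mem hf hg)]
  have h1 : (⟨f * g, O.mul_mem hf hg⟩ : O) = ⟨f, hf⟩ * ⟨g, hg⟩ := rfl
  have h2 : (⟨g, hg⟩ : O) ≠ 0 := fun h => hg0 (congrArg Subtype.val h)
  have h3 : (⟨f, hf⟩ : O) ≠ 0 := fun h => hf0 (congrArg Subtype.val h)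
  rw [h1, Ring.ord_mul O (mem_nonZeroDivisors_of_ne_zero h2)]
  exact ENat.toNat_add (hO _ h3) (hO _ h2)

theorem oz_unit {O : Subalgebra K F} {f : F} (hf : f ∈ O) (h : f ∉ mx O) : oz O f = 0 := by
  rw [oz_eq hf]
  have : IsUnit (⟨f, hf⟩ : O) := by
    by_contra h'
    exact h ((mem_mx_iff hf).2 h')
  rw [Ring.ord_of_isUnit this]
  rfl

theorem oz_pos {O : Subalgebra K F} (hO : FinOrd O) {f : F} (hf : f ∈ mx O) (hf0 : f ≠ 0) :
    1 ≤ oz O f := by
  rw [oz_eq hf.1]
  have hne : (⟨f, hf.1⟩ : O) ≠ 0 := fun h => hf0 (congrArg Subtype.val h)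
  have h1 := hO _ hne
  have h2 : Ring.ord O (⟨f, hf.1⟩ : O) ≠ 0 := by
    intro h
    rw [← qlen_span, qlen, Module.length_eq_zero_iff] at h
    have h3 := Ideal.Quotient.subsingleton_iff.1 h
    rw [Ideal.span_singleton_eq_top] at h3
    exact ((mem_mx_iff hf.1).1 hf) h3
  have h4 : (Ring.ord O (⟨f, hf.1⟩ : O)).toNat ≠ 0 := by
    intro h
    rw [ENat.toNat_eq_zero] at h
    rcases h with h | h
    · exact h2 h
    · exact h1 h
  omega

theorem oz_uniformizer {O : Subalgebra K F} (hloc : IsLocalRing O) {f : F} (hf : f ∈ mx O)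
    (hgen : ∀ g ∈ mx O, g / f ∈ O) (hf0 : f ≠ 0) : oz O f = 1 := by
  rw [oz_eq hf.1]
  have h1 : Ideal.span {(⟨f, hf.1⟩ : O)} = IsLocalRing.maximalIdeal O := by
    apply le_antisymm
    · rw [Ideal.span_singleton_le_iff_mem, IsLocalRing.mem_maximalIdeal, mem_nonunits_iff]
      exact (mem_mx_iff hf.1).1 hf
    · rintro ⟨g, hg⟩ hgm
      rw [IsLocalRing.mem_maximalIdeal, mem_nonunits_iff, ← mem_mx_iff hg] at hgm
      rw [Ideal.mem_span_singleton']
      refine ⟨⟨g / f, hgen g hgm⟩, ?_⟩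
      apply Subtype.ext
      change g / f * f = g
      field_simp
  rw [← qlen_span, h1, qlen_maximalIdeal]
  rfl

open Classical in
/-- The order of a rational function along `O`. -/
noncomputable def zord (O : Subalgebra K F) (f : F) : ℤ :=
  if h : ∃ p : F × F, p.1 ∈ O ∧ p.2 ∈ O ∧ p.2 ≠ 0 ∧ f = p.1 / p.2 then
    (oz O h.choose.1 : ℤ) - oz O h.choose.2 else 0

theorem zord_div {O : Subalgebra K F} (hO : FinOrd O) {a b : F} (ha : a ∈ O) (hb : b ∈ O)
    (ha0 : a ≠ 0) (hb0 : b ≠ 0) : zord O (a / b) = oz O a - oz O b := by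
  have h : ∃ p : F × F, p.1 ∈ O ∧ p.2 ∈ O ∧ p.2 ≠ 0 ∧ a / b = p.1 / p.2 :=
    ⟨(a, b), ha, hb, hb0, rfl⟩
  unfold zord
  rw [dif_pos h]
  obtain ⟨hc, hd, hd0, hcd⟩ := h.choose_spec
  set c := h.choose.1
  set d := h.choose.2
  have hc0 : c ≠ 0 := by
    intro hc0
    rw [hc0, zero_div, div_eq_zero_iff] at hcd
    rcases hcd with h | h
    · exact ha0 h
    · exact hb0 h
  rw [div_eq_div_iff hb0 hd0] at hcd
  have h1 := oz_mul hO ha hd ha0 hd0
  have h2 := oz_mul hO hc hb hc0 hb0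
  rw [hcd] at h1
  omega

theorem zord_of_mem {O : Subalgebra K F} (hO : FinOrd O) {a : F} (ha : a ∈ O)
    (ha0 : a ≠ 0) : zord O a = oz O a := by
  have h := zord_div hO ha O.one_mem ha0 one_ne_zero
  rw [div_one] at h
  rw [h, oz_unit O.one_mem one_not_mem_mx]
  simp

/-- Every element of `F` is a fraction of elements of `O`. -/
def FracOf (O : Subalgebra K F) : Prop := ∀ f : F, ∃ a ∈ O, ∃ b ∈ O, b ≠ 0 ∧ f = a / b

theorem zord_mul {O : Subalgebra K F} (hO : FinOrd O) (hfr : FracOf O) {f g : F}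
    (hf0 : f ≠ 0) (hg0 : g ≠ 0) : zord O (f * g) = zord O f + zord O g := by
  obtain ⟨a, ha, b, hb, hb0, rfl⟩ := hfr f
  obtain ⟨c, hc, d, hd, hd0, rfl⟩ := hfr g
  have ha0 : a ≠ 0 := by
    rintro rfl
    simp at hf0
  have hc0 : c ≠ 0 := by
    rintro rfl
    simp at hg0
  rw [div_mul_div_comm, zord_div hO ha hb ha0 hb0, zord_div hO hc hd hc0 hd0,
    zord_div hO (O.mul_mem ha hc) (O.mul_mem hb hd) (mul_ne_zero ha0 hc0) (mul_ne_zero hb0 hd0),
    oz_mul hO ha hc ha0 hc0, oz_mul hO hb hd hb0 hd0]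
  push_cast
  ring

theorem zord_inv {O : Subalgebra K F} (hO : FinOrd O) (hfr : FracOf O) {f : F}
    (hf0 : f ≠ 0) : zord O f⁻¹ = - zord O f := by
  obtain ⟨a, ha, b, hb, hb0, rfl⟩ := hfr f
  have ha0 : a ≠ 0 := by
    rintro rfl
    simp at hf0
  rw [inv_div, zord_div hO ha hb ha0 hb0, zord_div hO hb ha hb0 ha0]
  ring

theorem zord_div' {O : Subalgebra K F} (hO : FinOrd O) (hfr : FracOf O) {f g : F}
    (hf0 : f ≠ 0) (hg0 : g ≠ 0) : zord O (f / g) = zord O f - zord O g := by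
  rw [div_eq_mul_inv, zord_mul hO hfr hf0 (inv_ne_zero hg0), zord_inv hO hfr hg0]
  ring

theorem zord_unit {O : Subalgebra K F} (hO : FinOrd O) {f : F} (hf : f ∈ O) (h : f ∉ mx O) :
    zord O f = 0 := by
  rw [zord_of_mem hO hf (ne_zero_of_not_mem_mx h), oz_unit hf h]
  rfl

theorem zord_pos {O : Subalgebra K F} (hO : FinOrd O) {f : F} (hf : f ∈ mx O) (hf0 : f ≠ 0) :
    1 ≤ zord O f := by
  rw [zord_of_mem hO hf.1 hf0]
  have := oz_pos hO hf hf0
  omega

theorem zord_nonneg {O : Subalgebra K F} (hO : FinOrd O) {f : F} (hf : f ∈ O) (hf0 : f ≠ 0) :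
    0 ≤ zord O f := by
  rw [zord_of_mem hO hf hf0]
  omega

theorem fracOf_of_mem {O : Subalgebra K F} (hO : O ∈ Model V) (htop : (⊤ : Subalgebra K F) ∈ Model V) :
    FracOf O := by
  intro f
  obtain ⟨u, hu⟩ := exists_dom hO
  have hu0 := hu.ne_zero
  obtain ⟨m, a, ha, b, hb, hb0, -, rfl⟩ :=
    exists_frac htop (hu.mono le_top) (f := f) Algebra.mem_top
  refine ⟨a / u ^ m, hu.div_pow_mem ha, b / u ^ m, hu.div_pow_mem hb,
    div_ne_zero hb0 (pow_ne_zero _ hu0), ?_⟩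
  field_simp

theorem fracOf_curve (hX : IsProjectiveSurface X) {O : Subalgebra K F} (hO : O ∈ X) : FracOf O := by
  obtain ⟨V, hV, hVX⟩ := hX.exists_embedding
  exact fracOf_of_mem (V := V) (by rw [hVX]; exact hO) (by rw [hVX]; exact hX.generic)

/-- The degree of a cycle with respect to an embedding stabilises after division by `m`;
principal divisors have bounded Hilbert functions. -/
theorem principal_bounded [IsAlgClosed K] (hX : IsProjectiveSurface X) (hV : V.FG)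
    (hVX : Model V = X) {h : F} (hh : h ≠ 0) :
    ∃ ν : Curve X →₀ ℤ, (∀ C : Curve X, ν C = zord C.1 h) ∧
      ∃ e : ℤ, ∀ᶠ m in atTop, (ν.sum fun C n => n * (hilb V C.1 m : ℤ)) = e := by
  have htop : (⊤ : Subalgebra K F) ∈ Model V := by rw [hVX]; exact hX.generic
  obtain ⟨u₀, hu₀⟩ := exists_dom htop
  obtain ⟨d, a, ha, b, hb, hb0, -, rfl⟩ := exists_frac htop hu₀ (f := h) Algebra.mem_top
  have ha0 : a ≠ 0 := by
    rintro rfl
    simp at hh
  obtain ⟨ν₁, hν₁, e₁, he₁⟩ := exists_div_form hX hV hVX ha ha0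
  obtain ⟨ν₂, hν₂, e₂, he₂⟩ := exists_div_form hX hV hVX hb hb0
  let ι : (Curve X →₀ ℕ) → (Curve X →₀ ℤ) := fun ν => ν.mapRange (fun n : ℕ => (n : ℤ)) Nat.cast_zero
  refine ⟨ι ν₁ - ι ν₂, fun C => ?_, e₂ - e₁, ?_⟩
  · have hC : C.1 ∈ Model V := by rw [hVX]; exact C.2.mem
    obtain ⟨u, hu⟩ := exists_dom hC
    have hu0 := hu.ne_zero
    have h1 := hν₁ C u hu
    have h2 := hν₂ C u hu
    have hfin := finOrd_curve hX C
    have e : a / b = (a / u ^ d) / (b / u ^ d) := by field_simp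
    rw [e, zord_div hfin (hu.div_pow_mem ha) (hu.div_pow_mem hb)
      (div_ne_zero ha0 (pow_ne_zero _ hu0)) (div_ne_zero hb0 (pow_ne_zero _ hu0)),
      oz_eq (hu.div_pow_mem ha), oz_eq (hu.div_pow_mem hb), h1, h2]
    rfl
  · filter_upwards [he₁, he₂] with m h1 h2
    have hs : ∀ ν : Curve X →₀ ℕ, ((ι ν).sum fun C n => n * (hilb V C.1 m : ℤ)) =
        (ν.sum fun C n => (n : ℤ) * (hilb V C.1 m : ℤ)) := by
      intro ν
      rw [Finsupp.sum_mapRange_index (by intro C; simp)]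
    rw [Finsupp.sum_sub_index (by intro C a b; ring), hs, hs]
    rw [h1] at h2
    linarith

/-- Principal divisors are numerically trivial. -/
theorem principal_cls [IsAlgClosed K] (hX : IsProjectiveSurface X) {h : F} (hh : h ≠ 0) :
    ∃ ν : Curve X →₀ ℤ, (∀ C : Curve X, ν C = zord C.1 h) ∧ intCls ν = 0 := by
  obtain ⟨V₀, hV₀, hVX₀⟩ := hX.exists_embedding
  obtain ⟨ν, hν, -⟩ := principal_bounded hX hV₀ hVX₀ hh
  refine ⟨ν, hν, ?_⟩
  unfold intCls cls
  rw [Submodule.mkQ_apply, Submodule.Quotient.mk_eq_zero]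
  intro V hV hVX
  obtain ⟨ν', hν', e, he⟩ := principal_bounded hX hV hVX hh
  have hνν : ν = ν' := by
    ext C
    rw [hν, hν']
  subst hνν
  have h1 : Tendsto (fun m : ℕ => (e : ℝ) / m) atTop (𝓝 0) := tendsto_const_div_atTop_nhds_zero_nat _
  refine h1.congr' ?_
  filter_upwards [he] with m hm
  rw [← hm, Finsupp.sum_mapRange_index (by intro C; simp)]
  congr 1
  push_cast [Finsupp.sum]
  rfl

theorem intCls_add (a b : Curve X →₀ ℤ) : intCls (a + b) = intCls a + intCls b := by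
  unfold intCls cls
  rw [← map_add, Finsupp.mapRange_add]
  intro x y
  push_cast
  ring

theorem intCls_sub (a b : Curve X →₀ ℤ) : intCls (a - b) = intCls a - intCls b := by
  rw [eq_sub_iff_add_eq, ← intCls_add, sub_add_cancel]

theorem natCls_add (a b : Curve X →₀ ℕ) : natCls (a + b) = natCls a + natCls b := by
  unfold natCls cls
  rw [← map_add, Finsupp.mapRange_add]
  intro x y
  push_cast
  ring

theorem natCls_eq_intCls (a : Curve X →₀ ℕ) :
    natCls a = intCls (a.mapRange (fun n : ℕ => (n : ℤ)) Nat.cast_zero) := by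
  unfold natCls intCls
  congr 1
  ext C
  simp

/-- Cycles that differ by a principal divisor have the same class. -/
theorem natCls_eq_of_zord [IsAlgClosed K] (hX : IsProjectiveSurface X) {h : F} (hh : h ≠ 0)
    (E₁ E₂ : Curve X →₀ ℕ) (hE : ∀ C : Curve X, (E₁ C : ℤ) - E₂ C = zord C.1 h) :
    natCls E₁ = natCls E₂ := by
  obtain ⟨ν, hν, h0⟩ := principal_cls hX hh
  rw [natCls_eq_intCls, natCls_eq_intCls, ← sub_eq_zero, ← intCls_sub, ← h0]
  congr 1
  ext C
  rw [hν, ← hE]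
  simp

end Pool.Agent.H90ZD
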