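import Pool.Agent.H90ZD.GrIdeal

open Filter Topology Polynomial

namespace Pool.Agent.H90ZD

variable {K F : Type} [Field K] [Field F] [Algebra K F]

namespace GrIdeal

variable {V : Submodule K F}

theorem IsPrime.ne_zero_of_not_mem {P : GrIdeal V} {m : ℕ} {a : F} (h : a ∉ P.comp m) : a ≠ 0 := by
  rintro rfl
  exact h (Submodule.zero_mem _)

theorem IsPrime.mul_not_mem {P : GrIdeal V} (hP : P.IsPrime) {m n : ℕ} {a b : F}
    (ha : a ∈ V ^ m) (hb : b ∈ V ^ n) (ha' : a ∉ P.comp m) (hb' : b ∉ P.comp n) :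
    a * b ∉ P.comp (m + n) := by
  intro h
  rcases hP.mem_or_mem ha hb h with h | h
  · exact ha' h
  · exact hb' h

theorem IsPrime.pow_not_mem {P : GrIdeal V} (hP : P.IsPrime) {u : F} (hu : u ∈ V)
    (hu' : u ∉ P.comp 1) (m : ℕ) : u ^ m ∉ P.comp m := by
  induction m with
  | zero => simpa using hP.one_not_mem
  | succ m ih =>
    rw [pow_succ]
    exact hP.mul_not_mem (pow_mem_pow hu m) (by simpa using hu) ih hu'

/-- The local ring of the point given by a homogeneous prime ideal. -/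
def locPt (Q : GrIdeal V) (hQ : Q.IsPrime) : Subalgebra K F where
  carrier := {f | ∃ m : ℕ, ∃ a ∈ V ^ m, ∃ b ∈ V ^ m, b ∉ Q.comp m ∧ f = a / b}
  mul_mem' := by
    rintro f g ⟨m, a, ha, b, hb, hbQ, rfl⟩ ⟨n, c, hc, d, hd, hdQ, rfl⟩
    refine ⟨m + n, a * c, mul_mem_pow_add ha hc, b * d, mul_mem_pow_add hb hd,
      hQ.mul_not_mem hb hd hbQ hdQ, ?_⟩
    rw [div_mul_div_comm]
  add_mem' := by
    rintro f g ⟨m, a, ha, b, hb, hbQ, rfl⟩ ⟨n, c, hc, d, hd, hdQ, rfl⟩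
    refine ⟨m + n, a * d + b * c, Submodule.add_mem _ (mul_mem_pow_add ha hd)
      (mul_mem_pow_add hb hc), b * d, mul_mem_pow_add hb hd,
      hQ.mul_not_mem hb hd hbQ hdQ, ?_⟩
    rw [div_add_div _ _ (IsPrime.ne_zero_of_not_mem hbQ) (IsPrime.ne_zero_of_not_mem hdQ)]
  algebraMap_mem' := by
    intro r
    refine ⟨0, algebraMap K F r, ?_, 1, by simp, hQ.one_not_mem, by simp⟩
    rw [pow_zero, Submodule.mem_one]
    exact ⟨r, rfl⟩

theorem mem_locPt {Q : GrIdeal V} {hQ : Q.IsPrime} {f : F} : f ∈ Q.locPt hQ ↔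
    ∃ m : ℕ, ∃ a ∈ V ^ m, ∃ b ∈ V ^ m, b ∉ Q.comp m ∧ f = a / b := Iff.rfl

theorem isLocalRing_locPt (Q : GrIdeal V) (hQ : Q.IsPrime) : IsLocalRing (Q.locPt hQ) := by
  refine IsLocalRing.of_isUnit_or_isUnit_one_sub_self ?_
  rintro ⟨f, hf⟩
  obtain ⟨m, a, ha, b, hb, hbQ, rfl⟩ := hf
  have hb0 := IsPrime.ne_zero_of_not_mem hbQ
  by_cases haQ : a ∈ Q.comp m
  · right
    have hbaQ : b - a ∉ Q.comp m := by
      intro h
      apply hbQ
      have := Submodule.add_mem _ h haQ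
      simpa using this
    have hba0 := IsPrime.ne_zero_of_not_mem hbaQ
    have h1 : 1 - a / b ∈ Q.locPt hQ := ⟨m, b - a, Submodule.sub_mem _ hb ha, b, hb, hbQ, by
      field_simp⟩
    have h2 := (isUnit_iff h1).2 ⟨?_, m, b, hb, b - a, Submodule.sub_mem _ hb ha, hbaQ, ?_⟩
    · exact h2
    · have : 1 - a / b = (b - a) / b := by field_simp
      rw [this]
      exact div_ne_zero hba0 hb0
    · have : 1 - a / b = (b - a) / b := by field_simp
      rw [this, inv_div]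
  · left
    have ha0 := IsPrime.ne_zero_of_not_mem haQ
    have h1 : a / b ∈ Q.locPt hQ := ⟨m, a, ha, b, hb, hbQ, rfl⟩
    exact (isUnit_iff h1).2 ⟨div_ne_zero ha0 hb0, m, b, hb, a, ha, haQ, inv_div a b⟩

theorem dom_locPt {Q : GrIdeal V} (hQ : Q.IsPrime) {u : F} (hu : u ∈ V) (huQ : u ∉ Q.comp 1) :
    Dom V (Q.locPt hQ) u :=
  ⟨hu, IsPrime.ne_zero_of_not_mem huQ, fun v hv => ⟨1, v, by simpa using hv, u, by simpa using hu,
    huQ, rfl⟩⟩

theorem locPt_mem_model {Q : GrIdeal V} (hQ : Q.IsPrime) (hrel : ∃ u ∈ V, u ∉ Q.comp 1) :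
    Q.locPt hQ ∈ Model V := by
  obtain ⟨u, hu, huQ⟩ := hrel
  rw [mem_model_iff]
  refine ⟨u, dom_locPt hQ hu huQ, isLocalRing_locPt Q hQ, ?_⟩
  rintro f ⟨m, a, ha, b, hb, hbQ, rfl⟩
  exact ⟨m, a, ha, b, hb, IsPrime.ne_zero_of_not_mem hbQ, ⟨m, u ^ m, pow_mem_pow hu m, b, hb, hbQ,
    rfl⟩, rfl⟩

theorem vanishing_locPt {Q : GrIdeal V} (hQ : Q.IsPrime) (hrel : ∃ u ∈ V, u ∉ Q.comp 1) (m : ℕ) :
    vanishing V (Q.locPt hQ) m = Q.comp m := by
  obtain ⟨u, hu, huQ⟩ := hrel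
  have hdom := dom_locPt hQ hu huQ
  have hu0 := hdom.ne_zero
  ext G
  rw [mem_vanishing_iff (isLocalRing_locPt Q hQ) hdom]
  constructor
  · rintro ⟨hG, hmx⟩
    by_contra hGQ
    have hG0 := IsPrime.ne_zero_of_not_mem hGQ
    refine not_mem_mx (div_ne_zero hG0 (pow_ne_zero _ hu0)) ?_ hmx
    rw [inv_div]
    exact ⟨m, u ^ m, pow_mem_pow hu m, G, hG, hGQ, rfl⟩
  · intro hG
    have hGV := Q.le_pow m hG
    refine ⟨hGV, hdom.div_pow_mem hGV, ?_⟩
    by_cases hG0 : G = 0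
    · left
      rw [hG0, zero_div]
    · right
      rw [inv_div]
      rintro ⟨k, a, ha, b, hb, hbQ, heq⟩
      have hb0 := IsPrime.ne_zero_of_not_mem hbQ
      rw [div_eq_div_iff hG0 hb0] at heq
      have h1 : a * G ∈ Q.comp (k + m) := Q.mul_mem ha hG
      rw [← heq] at h1
      have h2 : b * u ^ m ∉ Q.comp (k + m) :=
        hQ.mul_not_mem hb (pow_mem_pow hu m) hbQ (hQ.pow_not_mem hu huQ m)
      rw [mul_comm] at h1
      exact h2 h1

end GrIdeal

open GrIdeal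

variable {V : Submodule K F}

/-- The homogeneous prime ideal of a point of the model. -/
def ptIdeal {O : Subalgebra K F} (hO : O ∈ Model V) : GrIdeal V where
  comp m := vanishing V O m
  le_pow m := by
    obtain ⟨u, hu⟩ := exists_dom hO
    intro G hG
    exact ((mem_vanishing_iff (isLocalRing_of_mem hO) hu).1 hG).1
  mul_le m := by
    obtain ⟨u, hu⟩ := exists_dom hO
    have hu0 := hu.ne_zero
    rw [Submodule.mul_le]
    intro v hv G hG
    rw [mem_vanishing_iff (isLocalRing_of_mem hO) hu] at hG ⊢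
    refine ⟨?_, ?_⟩
    · have := mul_mem_pow_add (m := 1) (n := m) (by simpa using hv) hG.1
      rwa [add_comm] at this
    · have : v * G / u ^ (m + 1) = (v / u) * (G / u ^ m) := by
        rw [pow_succ]
        field_simp
      rw [this]
      exact mx_mul_left (hu.div_mem v hv) hG.2

theorem mem_ptIdeal {O : Subalgebra K F} (hO : O ∈ Model V) {u : F} (hu : Dom V O u) {m : ℕ}
    {G : F} : G ∈ (ptIdeal hO).comp m ↔ G ∈ V ^ m ∧ G / u ^ m ∈ mx O :=
  mem_vanishing_iff (isLocalRing_of_mem hO) hu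

theorem ptIdeal_isPrime {O : Subalgebra K F} (hO : O ∈ Model V) : (ptIdeal hO).IsPrime := by
  obtain ⟨u, hu⟩ := exists_dom hO
  have hu0 := hu.ne_zero
  constructor
  · rw [mem_ptIdeal hO hu]
    rintro ⟨_, h⟩
    rw [pow_zero, div_one] at h
    exact one_not_mem_mx h
  · intro m n a b ha hb hab
    rw [mem_ptIdeal hO hu] at hab ⊢
    rw [mem_ptIdeal hO hu]
    have : a * b / u ^ (m + n) = (a / u ^ m) * (b / u ^ n) := by
      rw [pow_add]
      field_simp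
    rw [this] at hab
    rcases mem_mx_or_of_mul (hu.div_pow_mem ha) (hu.div_pow_mem hb) hab.2 with h | h
    · exact Or.inl ⟨ha, h⟩
    · exact Or.inr ⟨hb, h⟩

theorem Dom.not_mem_ptIdeal {O : Subalgebra K F} (hO : O ∈ Model V) {u : F} (hu : Dom V O u) :
    u ∉ (ptIdeal hO).comp 1 := by
  rw [mem_ptIdeal hO hu]
  rintro ⟨_, h⟩
  rw [pow_one, div_self hu.ne_zero] at h
  exact one_not_mem_mx h

theorem ptIdeal_relevant {O : Subalgebra K F} (hO : O ∈ Model V) :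
    ∃ u ∈ V, u ∉ (ptIdeal hO).comp 1 := by
  obtain ⟨u, hu⟩ := exists_dom hO
  exact ⟨u, hu.mem, hu.not_mem_ptIdeal hO⟩

theorem locPt_ptIdeal {O : Subalgebra K F} (hO : O ∈ Model V) :
    (ptIdeal hO).locPt (ptIdeal_isPrime hO) = O := by
  obtain ⟨u, hu⟩ := exists_dom hO
  have hu0 := hu.ne_zero
  ext f
  rw [mem_locPt]
  constructor
  · rintro ⟨m, a, ha, b, hb, hbP, rfl⟩
    have hb0 := IsPrime.ne_zero_of_not_mem hbP
    have h1 : b / u ^ m ∉ mx O := fun h => hbP ((mem_ptIdeal hO hu).2 ⟨hb, h⟩)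
    have h2 := inv_mem_of_not_mem_mx (hu.div_pow_mem hb) h1
    have : a / b = (a / u ^ m) * (b / u ^ m)⁻¹ := by
      field_simp
    rw [this]
    exact O.mul_mem (hu.div_pow_mem ha) h2
  · intro hf
    obtain ⟨m, a, ha, b, hb, hb0, hbO, rfl⟩ := exists_frac hO hu hf
    refine ⟨m, a, ha, b, hb, ?_, rfl⟩
    rw [mem_ptIdeal hO hu]
    rintro ⟨_, h⟩
    refine not_mem_mx (div_ne_zero hb0 (pow_ne_zero _ hu0)) ?_ h
    rw [inv_div]
    exact hbO

theorem not_mem_ptIdeal_iff {O : Subalgebra K F} (hO : O ∈ Model V) {u : F} (hu : Dom V O u)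
    {m : ℕ} {b : F} (hb : b ∈ V ^ m) :
    b ∉ (ptIdeal hO).comp m ↔ b / u ^ m ∉ mx O := by
  rw [mem_ptIdeal hO hu]
  constructor
  · intro h h'
    exact h ⟨hb, h'⟩
  · rintro h ⟨_, h'⟩
    exact h h'

/-- Specialisation reverses the inclusion of homogeneous ideals. -/
theorem ptIdeal_le {O O' : Subalgebra K F} (hO : O ∈ Model V) (hO' : O' ∈ Model V) (h : O ≤ O') :
    ptIdeal hO' ≤ ptIdeal hO := by
  obtain ⟨u, hu⟩ := exists_dom hO
  intro m G hG
  rw [mem_ptIdeal hO' (hu.mono h)] at hG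
  rw [mem_ptIdeal hO hu]
  refine ⟨hG.1, ?_⟩
  by_contra hcon
  have h1 := inv_mem_of_not_mem_mx (hu.div_pow_mem hG.1) hcon
  exact not_mem_mx (ne_zero_of_not_mem_mx hcon) (h h1) hG.2

theorem locPt_le {P Q : GrIdeal V} (hP : P.IsPrime) (hQ : Q.IsPrime) (h : P ≤ Q) :
    Q.locPt hQ ≤ P.locPt hP := by
  rintro f ⟨m, a, ha, b, hb, hbQ, rfl⟩
  exact ⟨m, a, ha, b, hb, fun hb' => hbQ (h m hb'), rfl⟩

theorem ptIdeal_congr {O O' : Subalgebra K F} (hO : O ∈ Model V) (hO' : O' ∈ Model V)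
    (h : O = O') : ptIdeal hO = ptIdeal hO' := by
  subst h
  rfl

theorem ptIdeal_locPt {Q : GrIdeal V} (hQ : Q.IsPrime) (hrel : ∃ u ∈ V, u ∉ Q.comp 1) :
    ptIdeal (locPt_mem_model hQ hrel) = Q := by
  apply GrIdeal.ext
  funext m
  exact vanishing_locPt hQ hrel m

theorem ptIdeal_injective {O O' : Subalgebra K F} (hO : O ∈ Model V) (hO' : O' ∈ Model V)
    (h : ptIdeal hO = ptIdeal hO') : O = O' := by
  rw [← locPt_ptIdeal hO, ← locPt_ptIdeal hO']
  congr 1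

end Pool.Agent.H90ZD
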