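import Mathlib

open MvPolynomial

namespace Pool.Agent.H90ZD

variable (K : Type) [Field K]

/-- The equation of the surface. -/
noncomputable def fp : MvPolynomial (Fin 3) K :=
  (X 0 + X 1 + X 2) ^ 2 - 1 + X 0 * X 1 * X 2 * (X 0 * X 1 + X 1 * X 2 + X 2 * X 0)

noncomputable def qa : MvPolynomial (Fin 2) K := 1 + X 0 * X 1 * (X 0 + X 1)

noncomputable def qb : MvPolynomial (Fin 2) K := 2 * (X 0 + X 1) + (X 0 * X 1) ^ 2

noncomputable def qc : MvPolynomial (Fin 2) K := (X 0 + X 1) ^ 2 - 1

theorem finSucc_fp : finSuccEquiv K 2 (fp K) =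
    Polynomial.C (qa K) * Polynomial.X ^ 2 + Polynomial.C (qb K) * Polynomial.X +
      Polynomial.C (qc K) := by
  have h1 : (1 : Fin 3) = Fin.succ 0 := rfl
  have h2 : (2 : Fin 3) = Fin.succ 1 := rfl
  unfold fp qa qb qc
  simp only [map_add, map_sub, map_mul, map_pow, map_one, map_ofNat, finSuccEquiv_X_zero, h1, h2,
    finSuccEquiv_X_succ]
  ring

theorem bezout : 3 = (2 * (X 0 + X 1) - 1) * (1 - (X 0 + X 1) * (X 0 * X 1)) * qa K +
    (2 * (X 0 + X 1) - 1) * (X 0 + X 1) ^ 2 * qb K -
      (4 * (X 0 + X 1) ^ 2 - 2 * (X 0 + X 1) + 4) * qc K := by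
  unfold qa qb qc
  ring

/-- The specialisation `y = T`, `z = -T`. -/
noncomputable def spec : MvPolynomial (Fin 2) K →ₐ[K] Polynomial K :=
  aeval ![Polynomial.X, -Polynomial.X]

theorem spec_qa : spec K (qa K) = 1 := by
  unfold spec qa
  simp

theorem spec_qb : spec K (qb K) = Polynomial.X ^ 4 := by
  unfold spec qb
  simp
  ring

theorem spec_qc : spec K (qc K) = -1 := by
  unfold spec qc
  simp

theorem qa_ne_zero : qa K ≠ 0 := by
  intro h
  have := spec_qa K
  rw [h, map_zero] at this
  exact zero_ne_one this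

theorem natDegree_quad {R : Type} [CommRing R] {a b c : R} (ha : a ≠ 0) :
    (Polynomial.C a * Polynomial.X ^ 2 + Polynomial.C b * Polynomial.X +
      Polynomial.C c).natDegree = 2 := Polynomial.natDegree_quadratic ha

theorem quad_coeff_zero {R : Type} [CommRing R] (a b c : R) :
    (Polynomial.C a * Polynomial.X ^ 2 + Polynomial.C b * Polynomial.X +
      Polynomial.C c).coeff 0 = c := by simp

theorem quad_coeff_one {R : Type} [CommRing R] (a b c : R) :
    (Polynomial.C a * Polynomial.X ^ 2 + Polynomial.C b * Polynomial.X +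
      Polynomial.C c).coeff 1 = b := by simp [Polynomial.coeff_C]

theorem quad_coeff_two {R : Type} [CommRing R] (a b c : R) :
    (Polynomial.C a * Polynomial.X ^ 2 + Polynomial.C b * Polynomial.X +
      Polynomial.C c).coeff 2 = a := by simp [Polynomial.coeff_X]

theorem isUnit_of_dvd_coeffs [CharZero K] {r : MvPolynomial (Fin 2) K} (ha : r ∣ qa K)
    (hb : r ∣ qb K) (hc : r ∣ qc K) : IsUnit r := by
  have h3 : r ∣ 3 := by
    rw [bezout K]
    exact dvd_sub (dvd_add (ha.mul_left _) (hb.mul_left _)) (hc.mul_left _)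
  refine isUnit_of_dvd_unit h3 ?_
  have e : (3 : MvPolynomial (Fin 2) K) = C 3 := by
    rw [map_ofNat]
  rw [e]
  exact (isUnit_iff_ne_zero.2 (by norm_num : (3 : K) ≠ 0)).map C

theorem irreducible_quad [CharZero K] : Irreducible (Polynomial.C (qa K) * Polynomial.X ^ 2 +
    Polynomial.C (qb K) * Polynomial.X + Polynomial.C (qc K)) := by
  set q := Polynomial.C (qa K) * Polynomial.X ^ 2 +
    Polynomial.C (qb K) * Polynomial.X + Polynomial.C (qc K) with hq
  have hdeg : q.natDegree = 2 := natDegree_quad (qa_ne_zero K)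
  have hq0 : q ≠ 0 := by
    intro h
    rw [h, Polynomial.natDegree_zero] at hdeg
    omega
  have hcoef0 : q.coeff 0 = qc K := quad_coeff_zero _ _ _
  have hcoef1 : q.coeff 1 = qb K := quad_coeff_one _ _ _
  have hcoef2 : q.coeff 2 = qa K := quad_coeff_two _ _ _
  have hconst : ∀ g h : Polynomial (MvPolynomial (Fin 2) K), q = g * h → g.natDegree = 0 →
      IsUnit g := by
    intro g h hgh hg
    rw [Polynomial.natDegree_eq_zero] at hg
    obtain ⟨r, rfl⟩ := hg
    apply Polynomial.isUnit_C.2
    apply isUnit_of_dvd_coeffs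
    · rw [← hcoef2, hgh, Polynomial.coeff_C_mul]
      exact dvd_mul_right _ _
    · rw [← hcoef1, hgh, Polynomial.coeff_C_mul]
      exact dvd_mul_right _ _
    · rw [← hcoef0, hgh, Polynomial.coeff_C_mul]
      exact dvd_mul_right _ _
  constructor
  · intro h
    have := Polynomial.natDegree_eq_zero_of_isUnit h
    omega
  · intro g h hgh
    have hg0 : g ≠ 0 := by
      rintro rfl
      rw [zero_mul] at hgh
      exact hq0 hgh
    have hh0 : h ≠ 0 := by
      rintro rfl
      rw [mul_zero] at hgh
      exact hq0 hgh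
    have hd : g.natDegree + h.natDegree = 2 := by
      rw [← Polynomial.natDegree_mul hg0 hh0, ← hgh, hdeg]
    by_cases hg : g.natDegree = 0
    · exact Or.inl (hconst g h hgh hg)
    by_cases hh : h.natDegree = 0
    · exact Or.inr (hconst h g (by rw [hgh, mul_comm]) hh)
    exfalso
    have hg1 : g.natDegree ≤ 1 := by omega
    have hh1 : h.natDegree ≤ 1 := by omega
    obtain ⟨a₁, b₁, rfl⟩ : ∃ a b, g = Polynomial.C a * Polynomial.X + Polynomial.C b :=
      ⟨_, _, Polynomial.eq_X_add_C_of_natDegree_le_one hg1⟩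
    obtain ⟨a₂, b₂, rfl⟩ : ∃ a b, h = Polynomial.C a * Polynomial.X + Polynomial.C b :=
      ⟨_, _, Polynomial.eq_X_add_C_of_natDegree_le_one hh1⟩
    have hexp : q = Polynomial.C (a₁ * a₂) * Polynomial.X ^ 2 +
        Polynomial.C (a₁ * b₂ + a₂ * b₁) * Polynomial.X + Polynomial.C (b₁ * b₂) := by
      rw [hgh]
      simp only [map_add, map_mul]
      ring
    have e2 : qa K = a₁ * a₂ := by
      rw [← hcoef2, hexp, quad_coeff_two]
    have e1 : qb K = a₁ * b₂ + a₂ * b₁ := by
      rw [← hcoef1, hexp, quad_coeff_one]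
    have e0 : qc K = b₁ * b₂ := by
      rw [← hcoef0, hexp, quad_coeff_zero]
    have s2 := congrArg (spec K) e2
    have s1 := congrArg (spec K) e1
    have s0 := congrArg (spec K) e0
    rw [spec_qa, map_mul] at s2
    rw [spec_qb, map_add, map_mul, map_mul] at s1
    rw [spec_qc, map_mul] at s0
    have u1 : IsUnit (spec K a₁) := IsUnit.of_mul_eq_one _ s2.symm
    have u2 : IsUnit (spec K a₂) := IsUnit.of_mul_eq_one _ (by rw [mul_comm]; exact s2.symm)
    have u3 : IsUnit (spec K b₁) := IsUnit.of_mul_eq_one (-spec K b₂) (by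
      rw [mul_neg, ← s0, neg_neg])
    have u4 : IsUnit (spec K b₂) := IsUnit.of_mul_eq_one (-spec K b₁) (by
      rw [mul_neg, mul_comm, ← s0, neg_neg])
    have d1 := Polynomial.natDegree_eq_zero_of_isUnit u1
    have d2 := Polynomial.natDegree_eq_zero_of_isUnit u2
    have d3 := Polynomial.natDegree_eq_zero_of_isUnit u3
    have d4 := Polynomial.natDegree_eq_zero_of_isUnit u4
    have d5 : (spec K a₁ * spec K b₂ + spec K a₂ * spec K b₁).natDegree ≤ 0 := by
      refine (Polynomial.natDegree_add_le _ _).trans ?_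
      rw [max_le_iff]
      constructor
      · refine Polynomial.natDegree_mul_le.trans ?_
        omega
      · refine Polynomial.natDegree_mul_le.trans ?_
        omega
    rw [← s1, Polynomial.natDegree_X_pow] at d5
    omega

theorem prime_fp [CharZero K] : Prime (fp K) := by
  have h1 : Irreducible (fp K) := by
    rw [← MulEquiv.irreducible_iff (finSuccEquiv K 2), finSucc_fp]
    exact irreducible_quad K
  exact h1.prime

/-- A polynomial of degree at most one in the first variable that is divisible by the equation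
is zero. -/
theorem eq_zero_of_dvd {p : MvPolynomial (Fin 3) K} (h : fp K ∣ p)
    (hd : (finSuccEquiv K 2 p).natDegree ≤ 1) : p = 0 := by
  by_contra hp
  have h1 : finSuccEquiv K 2 (fp K) ∣ finSuccEquiv K 2 p := map_dvd _ h
  have h2 : finSuccEquiv K 2 p ≠ 0 := by
    intro h0
    apply hp
    exact (finSuccEquiv K 2).injective (by rw [h0, map_zero])
  have h3 := Polynomial.natDegree_le_of_dvd h1 h2
  rw [finSucc_fp, natDegree_quad (qa_ne_zero K)] at h3
  omega

end Pool.Agent.H90ZD
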