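import Pool.Agent.H90ZD.Poly

open Polynomial

namespace Pool.Agent.H90ZD

variable (K : Type) [Field K]

/-- The equation of the image of the curve `D`, as a polynomial in `y` over `K[z]`. -/
noncomputable def pD : Polynomial (Polynomial K) :=
  Polynomial.C Polynomial.X * Polynomial.X ^ 3 +
    Polynomial.C (3 * Polynomial.X ^ 2 + Polynomial.X) * Polynomial.X ^ 2 +
    Polynomial.C (Polynomial.X ^ 3 + Polynomial.X ^ 2 + 4) * Polynomial.X +
    Polynomial.C (4 * Polynomial.X)

theorem pD_natDegree : (pD K).natDegree = 3 := by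
  unfold pD
  apply Polynomial.natDegree_cubic
  exact Polynomial.X_ne_zero

theorem cubic_coeffs {R : Type} [CommRing R] (a b c d : R) :
    (Polynomial.C a * Polynomial.X ^ 3 + Polynomial.C b * Polynomial.X ^ 2 +
      Polynomial.C c * Polynomial.X + Polynomial.C d).coeff 0 = d ∧
    (Polynomial.C a * Polynomial.X ^ 3 + Polynomial.C b * Polynomial.X ^ 2 +
      Polynomial.C c * Polynomial.X + Polynomial.C d).coeff 1 = c ∧
    (Polynomial.C a * Polynomial.X ^ 3 + Polynomial.C b * Polynomial.X ^ 2 +
      Polynomial.C c * Polynomial.X + Polynomial.C d).coeff 2 = b ∧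
    (Polynomial.C a * Polynomial.X ^ 3 + Polynomial.C b * Polynomial.X ^ 2 +
      Polynomial.C c * Polynomial.X + Polynomial.C d).coeff 3 = a := by
  refine ⟨?_, ?_, ?_, ?_⟩
  · simp
  · simp [Polynomial.coeff_X_pow, Polynomial.coeff_C]
  · simp [Polynomial.coeff_X_pow, Polynomial.coeff_C, Polynomial.coeff_X]
  · simp [Polynomial.coeff_X_pow, Polynomial.coeff_C, Polynomial.coeff_X]

/-- A product of two polynomials in one variable that is a multiple of the variable by a
constant. -/
theorem mul_eq_C_mul_X {a c : K[X]} {k : K} (hk : k ≠ 0) (h : a * c = C k * X) :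
    (∃ r s : K, r ≠ 0 ∧ s ≠ 0 ∧ r * s = k ∧ a = C r ∧ c = C s * X) ∨
    (∃ r s : K, r ≠ 0 ∧ s ≠ 0 ∧ r * s = k ∧ a = C r * X ∧ c = C s) := by
  have hne : a * c ≠ 0 := by
    rw [h]
    exact mul_ne_zero (C_ne_zero.2 hk) X_ne_zero
  have ha0 : a ≠ 0 := left_ne_zero_of_mul hne
  have hc0 : c ≠ 0 := right_ne_zero_of_mul hne
  have hd : a.natDegree + c.natDegree = 1 := by
    rw [← natDegree_mul ha0 hc0, h, natDegree_C_mul_X k hk]
  have key : ∀ a c : K[X], a * c = C k * X → a ≠ 0 → a.natDegree = 0 →
      ∃ r s : K, r ≠ 0 ∧ s ≠ 0 ∧ r * s = k ∧ a = C r ∧ c = C s * X := by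
    intro a c h ha0 ha
    rw [natDegree_eq_zero] at ha
    obtain ⟨r, rfl⟩ := ha
    have hr : r ≠ 0 := by
      rintro rfl
      exact ha0 (map_zero C)
    refine ⟨r, k / r, hr, div_ne_zero hk hr, by field_simp, rfl, ?_⟩
    have : C r * c = C r * (C (k / r) * X) := by
      rw [h, ← mul_assoc, ← C_mul, mul_div_cancel₀ _ hr]
    exact mul_left_cancel₀ ha0 this
  rcases Nat.eq_zero_or_pos a.natDegree with h1 | h1
  · left
    exact key a c h ha0 h1
  · right
    have h2 : c.natDegree = 0 := by omega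
    obtain ⟨r, s, hr, hs, hrs, h3, h4⟩ := key c a (by rw [mul_comm, h]) hc0 h2
    exact ⟨s, r, hs, hr, by rw [mul_comm, hrs], h4, h3⟩

theorem irreducible_pD [CharZero K] : Irreducible (pD K) := by
  have hdeg := pD_natDegree K
  have hp0 : pD K ≠ 0 := by
    intro h
    rw [h, natDegree_zero] at hdeg
    omega
  obtain ⟨c0, c1, c2, c3⟩ := cubic_coeffs (X : K[X]) (3 * X ^ 2 + X) (X ^ 3 + X ^ 2 + 4) (4 * X)
  change (pD K).coeff 0 = _ at c0
  change (pD K).coeff 1 = _ at c1
  change (pD K).coeff 2 = _ at c2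
  change (pD K).coeff 3 = _ at c3
  have h4 : (4 : K) ≠ 0 := by norm_num
  have hconst : ∀ g h : K[X][X], pD K = g * h → g.natDegree = 0 → IsUnit g := by
    intro g h hgh hg
    rw [natDegree_eq_zero] at hg
    obtain ⟨r, rfl⟩ := hg
    apply isUnit_C.2
    have d3 : r ∣ X := by
      rw [← c3, hgh, coeff_C_mul]
      exact dvd_mul_right _ _
    have d1 : r ∣ X ^ 3 + X ^ 2 + 4 := by
      rw [← c1, hgh, coeff_C_mul]
      exact dvd_mul_right _ _
    have d5 : r ∣ (4 : K[X]) := by
      have e : (4 : K[X]) = (X ^ 3 + X ^ 2 + 4) - (X ^ 2 + X) * X := by ring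
      rw [e]
      exact dvd_sub d1 (d3.mul_left _)
    refine isUnit_of_dvd_unit d5 ?_
    have e : (4 : K[X]) = C 4 := by rw [map_ofNat]
    rw [e]
    exact isUnit_C.2 (isUnit_iff_ne_zero.2 h4)
  -- a linear factor is impossible
  have hlin : ∀ g h : K[X][X], pD K = g * h → g.natDegree ≤ 1 → h.natDegree ≤ 2 → False := by
    intro g h hgh hg hh
    obtain ⟨a, b, rfl⟩ : ∃ a b, g = C a * X + C b := ⟨_, _, eq_X_add_C_of_natDegree_le_one hg⟩
    obtain ⟨c, d, e, rfl⟩ : ∃ c d e, h = C c * X ^ 2 + C d * X + C e :=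
      ⟨_, _, _, eq_quadratic_of_degree_le_two (natDegree_le_iff_degree_le.1 hh)⟩
    have hexp : pD K = C (a * c) * X ^ 3 + C (a * d + b * c) * X ^ 2 + C (a * e + b * d) * X +
        C (b * e) := by
      rw [hgh]
      simp only [map_add, map_mul]
      ring
    obtain ⟨f0, f1, f2, f3⟩ := cubic_coeffs (a * c) (a * d + b * c) (a * e + b * d) (b * e)
    rw [← hexp] at f0 f1 f2 f3
    rw [c0] at f0
    rw [c1] at f1
    rw [c2] at f2
    rw [c3] at f3
    have g3 : a * c = C 1 * X := by rw [map_one, one_mul, f3]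
    have g0 : b * e = C 4 * X := by rw [← f0, map_ofNat]
    rcases mul_eq_C_mul_X K one_ne_zero g3 with ⟨r, s, hr, hs, hrs, rfl, rfl⟩ |
      ⟨r, s, hr, hs, hrs, rfl, rfl⟩
    · rcases mul_eq_C_mul_X K h4 g0 with ⟨t, v, ht, hv, htv, rfl, rfl⟩ |
        ⟨t, v, ht, hv, htv, rfl, rfl⟩
      · -- `e` and `c` vanish at `0`
        have e1 := congrArg (eval 0) f1
        have e2 := congrArg (eval 0) f2
        simp at e1 e2
        rcases e2 with e2 | e2
        · exact hr e2
        · rw [e2, mul_zero] at e1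
          exact h4 e1
      · have e1 := congrArg (eval 0) f1
        simp at e1
        -- compare coefficients
        have e2 : C r * d = 3 * X ^ 2 + X - C (t * s) * X ^ 2 := by
          rw [f2]
          simp only [map_mul]
          ring
        have e3 : C r * (C r * C v + C t * X * d) = C r * (X ^ 3 + X ^ 2 + 4) := by rw [f1]
        have e4 : C (r * r * v) + C t * X * (3 * X ^ 2 + X - C (t * s) * X ^ 2) =
            C r * (X ^ 3 + X ^ 2 + 4) := by
          rw [← e3, ← e2]
          simp only [map_mul]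
          ring
        have k2 := congrArg (fun p : K[X] => p.coeff 2) e4
        have k3 := congrArg (fun p : K[X] => p.coeff 3) e4
        have m1 : C (r * r * v) + C t * X * (3 * X ^ 2 + X - C (t * s) * X ^ 2) =
            C (3 * t - t * (t * s)) * X ^ 3 + C t * X ^ 2 + C 0 * X + C (r * r * v) := by
          simp only [map_sub, map_mul, map_ofNat, map_zero]
          ring
        have m2 : C r * (X ^ 3 + X ^ 2 + 4) = C r * X ^ 3 + C r * X ^ 2 + C 0 * X + C (4 * r) := by
          simp only [map_mul, map_ofNat, map_zero]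
          ring
        rw [m1, m2] at k2 k3
        obtain ⟨-, -, q2, q3⟩ := cubic_coeffs (3 * t - t * (t * s)) t 0 (r * r * v)
        obtain ⟨-, -, q2', q3'⟩ := cubic_coeffs r r 0 (4 * r)
        rw [q2, q2'] at k2
        rw [q3, q3'] at k3
        -- t = r, and r * s = 1, so 3 r - r = r
        rw [k2] at k3
        have : r * (r * s) = r := by rw [hrs, mul_one]
        rw [this] at k3
        apply hr
        linear_combination k3
    · have e1 := congrArg (eval 0) f1
      have e2 := congrArg (eval 0) f2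
      simp at e1 e2
      rcases e2 with e2 | e2
      · rw [e2, zero_mul] at e1
        exact h4 e1
      · exact hs e2
  constructor
  · intro h
    have := natDegree_eq_zero_of_isUnit h
    omega
  · intro g h hgh
    have hg0 : g ≠ 0 := by
      rintro rfl
      rw [zero_mul] at hgh
      exact hp0 hgh
    have hh0 : h ≠ 0 := by
      rintro rfl
      rw [mul_zero] at hgh
      exact hp0 hgh
    have hd : g.natDegree + h.natDegree = 3 := by
      rw [← natDegree_mul hg0 hh0, ← hgh, hdeg]
    by_cases hg : g.natDegree = 0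
    · exact Or.inl (hconst g h hgh hg)
    by_cases hh : h.natDegree = 0
    · exact Or.inr (hconst h g (by rw [hgh, mul_comm]) hh)
    exfalso
    by_cases hg1 : g.natDegree ≤ 1
    · exact hlin g h hgh hg1 (by omega)
    · exact hlin h g (by rw [hgh, mul_comm]) (by omega) (by omega)

theorem prime_pD [CharZero K] : Prime (pD K) := (irreducible_pD K).prime

end Pool.Agent.H90ZD
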