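import Pool.Agent.H90ZD.Mob

open Filter Topology Polynomial

namespace Pool.Agent.H90ZD

variable {K F : Type} [Field K] [Field F] [Algebra K F]

open GrIdeal

section Res

variable (O : Subalgebra K F) [IsLocalRing O]

/-- The residue field. -/
abbrev Kap : Type := IsLocalRing.ResidueField O

/-- The residue map, as a homomorphism of algebras. -/
noncomputable def rsd : O →ₐ[K] Kap O :=
  { IsLocalRing.residue O with
    commutes' := fun _ => rfl }

variable {O}

theorem rsd_eq_zero {f : F} (hf : f ∈ O) : rsd O ⟨f, hf⟩ = 0 ↔ f ∈ mx O := by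
  change IsLocalRing.residue O ⟨f, hf⟩ = 0 ↔ _
  rw [IsLocalRing.residue_eq_zero_iff, IsLocalRing.mem_maximalIdeal, mem_nonunits_iff,
    mem_mx_iff hf]

theorem rsd_eq_iff {f g : F} (hf : f ∈ O) (hg : g ∈ O) :
    rsd O ⟨f, hf⟩ = rsd O ⟨g, hg⟩ ↔ f - g ∈ mx O := by
  rw [← sub_eq_zero, ← map_sub, ← rsd_eq_zero (O.sub_mem hf hg)]
  rfl

variable (O) in
/-- The reduction of a subspace of `F` to the residue field of `O`. -/
noncomputable def red (A : Submodule K F) : Submodule K (Kap O) :=
  (A.comap O.val.toLinearMap).map (rsd O).toLinearMap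

theorem mem_red {A : Submodule K F} {k : Kap O} :
    k ∈ red O A ↔ ∃ f, ∃ hf : f ∈ O, f ∈ A ∧ rsd O ⟨f, hf⟩ = k := by
  constructor
  · rintro ⟨⟨f, hf⟩, hfA, rfl⟩
    exact ⟨f, hf, hfA, rfl⟩
  · rintro ⟨f, hf, hfA, rfl⟩
    exact ⟨⟨f, hf⟩, hfA, rfl⟩

theorem red_mono {A B : Submodule K F} (h : A ≤ B) : red O A ≤ red O B := by
  intro k hk
  rw [mem_red] at hk ⊢
  obtain ⟨f, hf, hfA, rfl⟩ := hk
  exact ⟨f, hf, h hfA, rfl⟩

theorem red_mul {A B : Submodule K F} (hA : ∀ f ∈ A, f ∈ O) (hB : ∀ f ∈ B, f ∈ O) :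
    red O (A * B) = red O A * red O B := by
  apply le_antisymm
  · intro k hk
    rw [mem_red] at hk
    obtain ⟨f, hf, hfA, rfl⟩ := hk
    have key : ∀ f ∈ A * B, ∃ hf : f ∈ O, rsd O ⟨f, hf⟩ ∈ red O A * red O B := by
      intro f hf
      induction hf using Submodule.mul_induction_on' with
      | mem_mul_mem a ha b hb =>
        refine ⟨O.mul_mem (hA a ha) (hB b hb), ?_⟩
        have e : rsd O ⟨a * b, O.mul_mem (hA a ha) (hB b hb)⟩ =
            rsd O ⟨a, hA a ha⟩ * rsd O ⟨b, hB b hb⟩ := by
          rw [← map_mul]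
          rfl
        rw [e]
        exact Submodule.mul_mem_mul (mem_red.2 ⟨a, _, ha, rfl⟩) (mem_red.2 ⟨b, _, hb, rfl⟩)
      | add x _ y _ hx hy =>
        obtain ⟨hx1, hx2⟩ := hx
        obtain ⟨hy1, hy2⟩ := hy
        refine ⟨O.add_mem hx1 hy1, ?_⟩
        have e : rsd O ⟨x + y, O.add_mem hx1 hy1⟩ = rsd O ⟨x, hx1⟩ + rsd O ⟨y, hy1⟩ := by
          rw [← map_add]
          rfl
        rw [e]
        exact Submodule.add_mem _ hx2 hy2
    exact (key f hfA).2
  · rw [Submodule.mul_le]
    intro k hk l hl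
    rw [mem_red] at hk hl ⊢
    obtain ⟨f, hf, hfA, rfl⟩ := hk
    obtain ⟨g, hg, hgB, rfl⟩ := hl
    refine ⟨f * g, O.mul_mem hf hg, Submodule.mul_mem_mul hfA hgB, ?_⟩
    rw [← map_mul]
    rfl

theorem red_one : red O (1 : Submodule K F) = 1 := by
  ext k
  rw [mem_red, Submodule.mem_one]
  constructor
  · rintro ⟨f, hf, hf1, rfl⟩
    rw [Submodule.mem_one] at hf1
    obtain ⟨c, rfl⟩ := hf1
    refine ⟨c, ?_⟩
    exact ((rsd O).commutes c).symm
  · rintro ⟨c, rfl⟩
    refine ⟨algebraMap K F c, O.algebraMap_mem c, ?_, ?_⟩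
    · rw [Submodule.mem_one]
      exact ⟨c, rfl⟩
    · exact (rsd O).commutes c

theorem pow_le_of_le {A : Submodule K F} (hA : ∀ f ∈ A, f ∈ O) (m : ℕ) : ∀ f ∈ A ^ m, f ∈ O := by
  induction m with
  | zero =>
    intro f hf
    rw [pow_zero, Submodule.mem_one] at hf
    obtain ⟨c, rfl⟩ := hf
    exact O.algebraMap_mem c
  | succ m ih =>
    intro f hf
    rw [pow_succ] at hf
    induction hf using Submodule.mul_induction_on' with
    | mem_mul_mem a ha b hb => exact O.mul_mem (ih a ha) (hA b hb)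
    | add x _ y _ hx hy => exact O.add_mem hx hy

theorem red_pow {A : Submodule K F} (hA : ∀ f ∈ A, f ∈ O) (m : ℕ) :
    red O (A ^ m) = red O A ^ m := by
  induction m with
  | zero => rw [pow_zero, pow_zero, red_one]
  | succ m ih => rw [pow_succ, pow_succ, red_mul (pow_le_of_le hA m) hA, ih]

theorem finite_red {A : Submodule K F} (hA : A.FG) : FiniteDimensional K (red O A) := by
  have h1 : FiniteDimensional K A := Module.Finite.iff_fg.2 hA
  have h2 : FiniteDimensional K (A.comap O.val.toLinearMap) := by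
    have hinj : Function.Injective O.val.toLinearMap := Subtype.val_injective
    let g : (A.comap O.val.toLinearMap) →ₗ[K] A :=
      (O.val.toLinearMap).restrict (fun x hx => hx)
    refine Module.Finite.of_injective g ?_
    intro a b hab
    apply Subtype.ext
    apply hinj
    exact congrArg (fun z : A => (z : F)) hab
  unfold red
  infer_instance

end Res

variable {V : Submodule K F}

/-- The subspace `V/u` of `F`. -/
def dv (V : Submodule K F) (u : F) : Submodule K F := V * Submodule.span K {u⁻¹}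

theorem mem_dv {u f : F} (hu : u ≠ 0) : f ∈ dv V u ↔ f * u ∈ V := by
  unfold dv
  rw [Submodule.mem_mul_span_singleton]
  constructor
  · rintro ⟨v, hv, rfl⟩
    rwa [mul_assoc, inv_mul_cancel₀ hu, mul_one]
  · intro h
    exact ⟨f * u, h, by field_simp⟩

theorem dv_pow (u : F) (m : ℕ) : dv V u ^ m = dv (V ^ m) (u ^ m) := by
  unfold dv
  rw [mul_pow, Submodule.span_pow, Set.singleton_pow, inv_pow]

theorem dv_mul {W : Submodule K F} (u w : F) : dv (V * W) (u * w) = dv V u * dv W w := by
  unfold dv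
  rw [mul_inv, ← Set.singleton_mul_singleton, ← Submodule.span_mul_span]
  rw [mul_mul_mul_comm]

theorem dv_fg (hV : V.FG) (u : F) : (dv V u).FG :=
  hV.mul (Submodule.fg_span_singleton _)

theorem Dom.dv_le {O : Subalgebra K F} {u : F} (hu : Dom V O u) : ∀ f ∈ dv V u, f ∈ O := by
  intro f hf
  rw [mem_dv hu.ne_zero] at hf
  have := hu.div_mem _ hf
  rwa [mul_div_cancel_right₀ _ hu.ne_zero] at this

/-- The Hilbert function in terms of the reduction to the residue field. -/
theorem hilb_eq_red {O : Subalgebra K F} [hloc : IsLocalRing O] (hV : V.FG) {u : F}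
    (hu : Dom V O u) (m : ℕ) :
    hilb V O m = Module.finrank K (red O (dv V u) ^ m : Submodule K (Kap O)) := by
  have hu0 := hu.ne_zero
  have hfd := finiteDimensional_pow hV m
  let ψ : (V ^ m : Submodule K F) →ₗ[K] Kap O :=
    { toFun := fun G => rsd O ⟨G / u ^ m, hu.div_pow_mem G.2⟩
      map_add' := by
        intro G H
        rw [← map_add]
        congr 1
        apply Subtype.ext
        change ((G + H : (V ^ m : Submodule K F)) : F) / u ^ m = G / u ^ m + H / u ^ m
        rw [← add_div]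
        rfl
      map_smul' := by
        intro c G
        rw [RingHom.id_apply, ← map_smul]
        congr 1
        apply Subtype.ext
        change ((c • G : (V ^ m : Submodule K F)) : F) / u ^ m = c • (G / u ^ m)
        rw [Submodule.coe_smul, smul_div_assoc] }
  have hψ : ∀ G : (V ^ m : Submodule K F), ψ G = rsd O ⟨G / u ^ m, hu.div_pow_mem G.2⟩ :=
    fun _ => rfl
  have hrange : LinearMap.range ψ = red O (dv V u) ^ m := by
    rw [← red_pow hu.dv_le, dv_pow]
    ext k
    rw [mem_red, LinearMap.mem_range]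
    constructor
    · rintro ⟨G, rfl⟩
      refine ⟨G / u ^ m, hu.div_pow_mem G.2, ?_, rfl⟩
      rw [mem_dv (pow_ne_zero _ hu0), div_mul_cancel₀ _ (pow_ne_zero _ hu0)]
      exact G.2
    · rintro ⟨f, hf, hfd, rfl⟩
      rw [mem_dv (pow_ne_zero _ hu0)] at hfd
      refine ⟨⟨f * u ^ m, hfd⟩, ?_⟩
      rw [hψ]
      congr 1
      apply Subtype.ext
      change f * u ^ m / u ^ m = f
      field_simp
  have hker : Module.finrank K (LinearMap.ker ψ) = Module.finrank K (vanishing V O m) := by
    have e : LinearMap.ker ψ = (vanishing V O m).comap (V ^ m).subtype := by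
      ext G
      rw [LinearMap.mem_ker, hψ, rsd_eq_zero, Submodule.mem_comap, mem_vanishing_iff hloc hu]
      exact ⟨fun h => ⟨G.2, h⟩, fun h => h.2⟩
    rw [e]
    refine LinearEquiv.finrank_eq (Submodule.comapSubtypeEquivOfLe ?_)
    intro G hG
    exact ((mem_vanishing_iff hloc hu).1 hG).1
  have h1 := LinearMap.finrank_range_add_finrank_ker ψ
  unfold hilb
  rw [← hrange, ← h1, hker]
  omega

/-- Comparison of Hilbert functions. -/
theorem hilb_mono {O : Subalgebra K F} (hloc : IsLocalRing O) {V' : Submodule K F} (hV : V.FG)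
    (hV' : V'.FG) {u u' : F} (hu : Dom V O u) (hu' : Dom V' O u')
    (h : ∀ v ∈ V, ∃ v' ∈ V', v / u - v' / u' ∈ mx O) (m : ℕ) : hilb V O m ≤ hilb V' O m := by
  rw [hilb_eq_red hV hu, hilb_eq_red hV' hu']
  have h1 : red O (dv V u) ≤ red O (dv V' u') := by
    intro k hk
    rw [mem_red] at hk ⊢
    obtain ⟨f, hf, hfd, rfl⟩ := hk
    rw [mem_dv hu.ne_zero] at hfd
    obtain ⟨v', hv', hmx⟩ := h _ hfd
    rw [mul_div_cancel_right₀ _ hu.ne_zero] at hmx
    refine ⟨v' / u', hu'.div_mem _ hv', ?_, ?_⟩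
    · rw [mem_dv hu'.ne_zero, div_mul_cancel₀ _ hu'.ne_zero]
      exact hv'
    · exact ((rsd_eq_iff hf (hu'.div_mem _ hv')).2 hmx).symm
  have h2 : FiniteDimensional K (red O (dv V' u') ^ m : Submodule K (Kap O)) := by
    rw [← red_pow hu'.dv_le]
    exact finite_red ((dv_fg hV' u').pow m)
  exact Submodule.finrank_mono (pow_le_pow_left' h1 m)

/-- Comparison of Hilbert functions for products. -/
theorem hilb_mul_mono {O : Subalgebra K F} (hloc : IsLocalRing O) {W W' : Submodule K F}
    (hV : V.FG) (hW : W.FG) (hW' : W'.FG) {u w w' : F} (hu : Dom V O u) (hw : Dom W O w)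
    (hw' : Dom W' O w') (h : ∀ v ∈ W, ∃ v' ∈ W', v / w - v' / w' ∈ mx O) (m : ℕ) :
    hilb (V * W) O m ≤ hilb (V * W') O m := by
  refine hilb_mono hloc (hV.mul hW) (hV.mul hW') (mul_div_mul_mem hu hw)
    (mul_div_mul_mem hu hw') ?_ m
  intro v hv
  have hu0 := hu.ne_zero
  have hw0 := hw.ne_zero
  have hw0' := hw'.ne_zero
  induction hv using Submodule.mul_induction_on' with
  | mem_mul_mem a ha b hb =>
    obtain ⟨b', hb', hmx⟩ := h b hb
    refine ⟨a * b', Submodule.mul_mem_mul ha hb', ?_⟩
    have e : a * b / (u * w) - a * b' / (u * w') = (a / u) * (b / w - b' / w') := by field_simp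
    rw [e]
    exact mx_mul_left (hu.div_mem a ha) hmx
  | add x _ y _ hx hy =>
    obtain ⟨x', hx', hx2⟩ := hx
    obtain ⟨y', hy', hy2⟩ := hy
    refine ⟨x' + y', Submodule.add_mem _ hx' hy', ?_⟩
    have e : (x + y) / (u * w) - (x' + y') / (u * w') =
        (x / (u * w) - x' / (u * w')) + (y / (u * w) - y' / (u * w')) := by ring
    rw [e]
    exact mx_add hloc hx2 hy2

/-- In a field extension, multiplication by `⟨1, y⟩` with `y` transcendental increases the
dimension. -/
theorem finrank_lt_mul {L : Type} [Field L] [Algebra K L] {A B : Submodule K L}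
    (hA : FiniteDimensional K A) (hB : FiniteDimensional K (A * B : Submodule K L)) (hA0 : A ≠ ⊥)
    (h1 : (1 : L) ∈ B) {y : L} (hy : y ∈ B) (hyt : ∀ G : K[X], G ≠ 0 → Polynomial.aeval y G ≠ 0) :
    Module.finrank K A < Module.finrank K (A * B : Submodule K L) := by
  have hle : A ≤ A * B := by
    intro a ha
    have := Submodule.mul_mem_mul ha h1
    rwa [mul_one] at this
  rcases lt_or_eq_of_le hle with hlt | heq
  · exact Submodule.finrank_lt_finrank_of_lt hlt
  · exfalso
    have hstab : ∀ a ∈ A, y * a ∈ A := by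
      intro a ha
      have := Submodule.mul_mem_mul ha hy
      rw [← heq] at this
      rwa [mul_comm]
    let T : A →ₗ[K] A := (LinearMap.mulLeft K y).restrict hstab
    have hT : ∀ (G : K[X]) (a : A), ((Polynomial.aeval T G a : A) : L) =
        Polynomial.aeval y G * a := by
      intro G a
      induction G using Polynomial.induction_on' with
      | add p q hp hq =>
        rw [map_add, map_add, LinearMap.add_apply, add_mul, ← hp, ← hq]
        rfl
      | monomial n c =>
        rw [Polynomial.aeval_monomial, Polynomial.aeval_monomial]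
        have hTn : ∀ n : ℕ, (((T ^ n) a : A) : L) = y ^ n * a := by
          intro n
          induction n with
          | zero => simp
          | succ n ih =>
            rw [pow_succ', Module.End.mul_apply, pow_succ', mul_assoc, ← ih]
            rfl
        have e : (algebraMap K (Module.End K A) c * T ^ n) a = c • ((T ^ n) a) := rfl
        rw [e, Submodule.coe_smul, hTn, Algebra.smul_def, mul_assoc]
    obtain ⟨a, ha, ha0⟩ := (Submodule.ne_bot_iff A).1 hA0
    have h3 : Polynomial.aeval T (minpoly K T) = 0 := minpoly.aeval K T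
    have h4 := hT (minpoly K T) ⟨a, ha⟩
    rw [h3, LinearMap.zero_apply, Submodule.coe_zero] at h4
    have h5 : minpoly K T ≠ 0 := minpoly.ne_zero (Algebra.IsIntegral.isIntegral T)
    rcases mul_eq_zero.1 h4.symm with h | h
    · exact hyt _ h5 h
    · exact ha0 h

/-- Multiplication by a linear system which is not constant on `O` increases the Hilbert
function. -/
theorem hilb_mul_ge [IsAlgClosed K] {O : Subalgebra K F} (hloc : IsLocalRing O)
    {W : Submodule K F} (hV : V.FG) (hW : W.FG) {u w : F} (hu : Dom V O u) (hw : Dom W O w)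
    {b : F} (hb : b ∈ W) (hbt : ∀ c : K, b / w - algebraMap K F c ∉ mx O) (m : ℕ) :
    hilb V O m + m ≤ hilb (V * W) O m := by
  rw [hilb_eq_red hV hu, hilb_eq_red (hV.mul hW) (mul_div_mul_mem hu hw), dv_mul,
    red_mul hu.dv_le hw.dv_le, mul_pow]
  set A := red O (dv V u) with hA
  set B := red O (dv W w) with hB
  have h1 : (1 : Kap O) ∈ B := by
    rw [hB, mem_red]
    refine ⟨1, O.one_mem, ?_, ?_⟩
    · rw [mem_dv hw.ne_zero, one_mul]
      exact hw.mem
    · exact map_one (rsd O)
  have hbO : b / w ∈ O := hw.div_mem b hb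
  have hy : rsd O ⟨b / w, hbO⟩ ∈ B := by
    rw [hB, mem_red]
    refine ⟨b / w, hbO, ?_, rfl⟩
    rw [mem_dv hw.ne_zero, div_mul_cancel₀ _ hw.ne_zero]
    exact hb
  have hyt : ∀ G : K[X], G ≠ 0 → Polynomial.aeval (rsd O ⟨b / w, hbO⟩) G ≠ 0 := by
    intro G hG h0
    have h2 : Polynomial.aeval (rsd O ⟨b / w, hbO⟩) G =
        rsd O (Polynomial.aeval (⟨b / w, hbO⟩ : O) G) := Polynomial.aeval_algHom_apply _ _ _
    rw [h2] at h0
    have h3 : ((Polynomial.aeval (⟨b / w, hbO⟩ : O) G : O) : F) = Polynomial.aeval (b / w) G :=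
      (Polynomial.aeval_algHom_apply O.val (⟨b / w, hbO⟩ : O) G).symm
    have h4 := (rsd_eq_zero (O := O) (Polynomial.aeval (⟨b / w, hbO⟩ : O) G).2).1 h0
    rw [h3] at h4
    exact aeval_not_mem_mx hbO hbt G hG h4
  have hfin : ∀ k, FiniteDimensional K (A ^ m * B ^ k : Submodule K (Kap O)) := by
    intro k
    rw [hA, hB, ← red_pow hu.dv_le, ← red_pow hw.dv_le, ← red_mul (pow_le_of_le hu.dv_le m)
      (pow_le_of_le hw.dv_le k)]
    exact finite_red (((dv_fg hV u).pow m).mul ((dv_fg hW w).pow k))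
  have h1A : (1 : Kap O) ∈ A := by
    rw [hA, mem_red]
    refine ⟨1, O.one_mem, ?_, ?_⟩
    · rw [mem_dv hu.ne_zero, one_mul]
      exact hu.mem
    · exact map_one (rsd O)
  have hne : ∀ k, (A ^ m * B ^ k : Submodule K (Kap O)) ≠ ⊥ := by
    intro k h
    have h2 : (1 : Kap O) * 1 ∈ (A ^ m * B ^ k : Submodule K (Kap O)) := by
      apply Submodule.mul_mem_mul
      · simpa using Submodule.pow_mem_pow A h1A m
      · simpa using Submodule.pow_mem_pow B h1 k
    rw [h, Submodule.mem_bot, mul_one] at h2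
    exact one_ne_zero h2
  have key : ∀ k, Module.finrank K (A ^ m : Submodule K (Kap O)) + k ≤
      Module.finrank K (A ^ m * B ^ k : Submodule K (Kap O)) := by
    intro k
    induction k with
    | zero => rw [pow_zero, mul_one, add_zero]
    | succ k ih =>
      have h2 : A ^ m * B ^ (k + 1) = A ^ m * B ^ k * B := by rw [pow_succ, mul_assoc]
      have h3 := finrank_lt_mul (hfin k) (by rw [← h2]; exact hfin (k + 1)) (hne k) h1 hy hyt
      rw [h2]
      omega
  exact key m

end Pool.Agent.H90ZD
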