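import Pool.Agent.H90ZD.Criterion
import Pool.Agent.H90ZD.PolyD

open Filter Topology Pointwise

namespace Pool.Agent.H90ZD

variable {K F : Type} [Field K] [Field F] [Algebra K F]

/-- `F` is the field of fractions of `K[X₀, X₁, X₂]/(f)`, with `c i` the class of `X i`. -/
structure Surf (K F : Type) [Field K] [Field F] [Algebra K F] where
  c : Fin 3 → F
  ker : ∀ p : MvPolynomial (Fin 3) K, MvPolynomial.aeval c p = 0 ↔ fp K ∣ p
  frac : ∀ g : F, ∃ p q : MvPolynomial (Fin 3) K, MvPolynomial.aeval c q ≠ 0 ∧
    g = MvPolynomial.aeval c p / MvPolynomial.aeval c q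

namespace Surf

variable (S : Surf K F)

/-- The evaluation map. -/
noncomputable def π : MvPolynomial (Fin 3) K →ₐ[K] F := MvPolynomial.aeval S.c

theorem π_X (i : Fin 3) : S.π (MvPolynomial.X i) = S.c i := MvPolynomial.aeval_X _ _

theorem π_eq_zero {p : MvPolynomial (Fin 3) K} : S.π p = 0 ↔ fp K ∣ p := S.ker p

/-- The linear system of forms of multidegree `(1,1,1)`. -/
def V₀ : Submodule K F :=
  Submodule.span K {1, S.c 0} * Submodule.span K {1, S.c 1} * Submodule.span K {1, S.c 2}

/-- The surface. -/
def X : Set (Subalgebra K F) := Model S.V₀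

theorem fg_pair (a b : F) : (Submodule.span K {a, b} : Submodule K F).FG :=
  Submodule.fg_span (Set.toFinite _)

theorem fg₀ : S.V₀.FG := ((fg_pair _ _).mul (fg_pair _ _)).mul (fg_pair _ _)

theorem one_mem_pair (a : F) : (1 : F) ∈ Submodule.span K {1, a} :=
  Submodule.subset_span (Set.mem_insert _ _)

theorem mem_pair (a : F) : a ∈ Submodule.span K {1, a} :=
  Submodule.subset_span (Set.mem_insert_of_mem _ rfl)

theorem one_mem_V₀ : (1 : F) ∈ S.V₀ := by
  have h := Submodule.mul_mem_mul (Submodule.mul_mem_mul (one_mem_pair (K := K) (S.c 0))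
    (one_mem_pair (K := K) (S.c 1))) (one_mem_pair (K := K) (S.c 2))
  rw [one_mul, one_mul] at h
  exact h

theorem c_mem_V₀ (i : Fin 3) : S.c i ∈ S.V₀ := by
  fin_cases i
  · have h := Submodule.mul_mem_mul (Submodule.mul_mem_mul (mem_pair (K := K) (S.c 0))
      (one_mem_pair (K := K) (S.c 1))) (one_mem_pair (K := K) (S.c 2))
    rw [mul_one, mul_one] at h
    exact h
  · have h := Submodule.mul_mem_mul (Submodule.mul_mem_mul (one_mem_pair (K := K) (S.c 0))
      (mem_pair (K := K) (S.c 1))) (one_mem_pair (K := K) (S.c 2))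
    rw [mul_one, one_mul] at h
    exact h
  · have h := Submodule.mul_mem_mul (Submodule.mul_mem_mul (one_mem_pair (K := K) (S.c 0))
      (one_mem_pair (K := K) (S.c 1))) (mem_pair (K := K) (S.c 2))
    rw [one_mul, one_mul] at h
    exact h

theorem pair_le_range (i : Fin 3) : Submodule.span K {1, S.c i} ≤ S.π.range.toSubmodule := by
  rw [Submodule.span_le]
  rintro f (rfl | rfl)
  · exact S.π.range.one_mem
  · exact ⟨MvPolynomial.X i, S.π_X i⟩

theorem V₀_le_range : S.V₀ ≤ S.π.range.toSubmodule := by
  unfold V₀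
  have h : ∀ A B : Submodule K F, A ≤ S.π.range.toSubmodule → B ≤ S.π.range.toSubmodule →
      A * B ≤ S.π.range.toSubmodule := by
    intro A B hA hB
    rw [Submodule.mul_le]
    intro a ha b hb
    exact S.π.range.mul_mem (hA ha) (hB hb)
  exact h _ _ (h _ _ (S.pair_le_range 0) (S.pair_le_range 1)) (S.pair_le_range 2)

theorem chart_one : chart S.V₀ 1 = S.π.range := by
  apply le_antisymm
  · apply Algebra.adjoin_le
    rintro f ⟨v, hv, rfl⟩
    rw [div_one]
    exact S.V₀_le_range hv
  · rintro _ ⟨p, rfl⟩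
    induction p using MvPolynomial.induction_on with
    | C a =>
      change S.π (MvPolynomial.C a) ∈ _
      unfold π
      rw [MvPolynomial.aeval_C]
      exact Subalgebra.algebraMap_mem _ a
    | add p q hp hq =>
      have e : (S.π : MvPolynomial (Fin 3) K →+* F) (p + q) = S.π p + S.π q := map_add S.π p q
      change S.π (p + q) ∈ _
      rw [map_add]
      exact Subalgebra.add_mem _ hp hq
    | mul_X p i hp =>
      change S.π (p * MvPolynomial.X i) ∈ _
      rw [map_mul, S.π_X]
      refine Subalgebra.mul_mem _ hp (Algebra.subset_adjoin ⟨S.c i, S.c_mem_V₀ i, ?_⟩)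
      rw [div_one]

theorem top_mem : (⊤ : Subalgebra K F) ∈ S.X := by
  refine ⟨1, S.one_mem_V₀, one_ne_zero, ?_, le_top, ?_⟩
  · have h : IsVal (⊤ : Subalgebra K F) := fun f => Or.inl Algebra.mem_top
    exact h.isLocalRing
  · intro g _
    obtain ⟨p, q, hq, hg⟩ := S.frac g
    refine ⟨S.π p, ?_, S.π q, ?_, hq, Algebra.mem_top, hg⟩
    · rw [S.chart_one]
      exact ⟨p, rfl⟩
    · rw [S.chart_one]
      exact ⟨q, rfl⟩

theorem dom_of_span {s : Set F} {O : Subalgebra K F} (hloc : IsLocalRing O) {u : F}
    (hu : Dom (Submodule.span K s) O u) : ∃ e ∈ s, Dom (Submodule.span K s) O e := by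
  have hu0 := hu.ne_zero
  by_contra hcon
  push Not at hcon
  have hall : ∀ e ∈ s, e / u ∈ mx O := by
    intro e he
    by_contra h
    have hmem := hu.div_mem e (Submodule.subset_span he)
    have hinv := inv_mem_of_not_mem_mx hmem h
    have he0 : e ≠ 0 := by
      rintro rfl
      rw [zero_div] at h
      exact h zero_mem_mx
    refine hcon e he ⟨Submodule.subset_span he, he0, fun v hv => ?_⟩
    have e1 : v / e = (v / u) * (e / u)⁻¹ := by field_simp
    rw [e1]
    exact O.mul_mem (hu.div_mem v hv) hinv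
  have hall' : ∀ v ∈ Submodule.span K s, v / u ∈ mx O := by
    intro v hv
    induction hv using Submodule.span_induction with
    | mem x hx => exact hall x hx
    | zero =>
      rw [zero_div]
      exact zero_mem_mx
    | add x y _ _ hx hy =>
      rw [add_div]
      exact mx_add hloc hx hy
    | smul a x _ hx =>
      rw [Algebra.smul_def, mul_div_assoc]
      exact mx_mul_left (O.algebraMap_mem a) hx
  have h1 := hall' u hu.mem
  rw [div_self hu0] at h1
  exact one_not_mem_mx h1

/-- At every point each coordinate function or its inverse is regular. -/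
theorem coord {O : Subalgebra K F} (hO : O ∈ S.X) (i : Fin 3) : S.c i ∈ O ∨ (S.c i)⁻¹ ∈ O := by
  obtain ⟨u, hu⟩ := exists_dom hO
  have hloc := isLocalRing_of_mem hO
  have e : S.V₀ = Submodule.span K
      (({1, S.c 0} : Set F) * ({1, S.c 1} : Set F) * ({1, S.c 2} : Set F)) := by
    unfold V₀
    rw [Submodule.span_mul_span, Submodule.span_mul_span]
  have hu' := hu
  rw [e] at hu'
  obtain ⟨v, hv, hdom⟩ := dom_of_span hloc hu'
  rw [← e] at hdom
  obtain ⟨_, ⟨a, ha, b, hb, rfl⟩, d, hd, rfl⟩ := hv
  have hv0 := hdom.ne_zero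
  simp only at hv0
  have ha0 : a ≠ 0 := left_ne_zero_of_mul (left_ne_zero_of_mul hv0)
  have hb0 : b ≠ 0 := right_ne_zero_of_mul (left_ne_zero_of_mul hv0)
  have hd0 : d ≠ 0 := right_ne_zero_of_mul hv0
  have key : ∀ a' b' d' : F, a' ∈ ({1, S.c 0} : Set F) → b' ∈ ({1, S.c 1} : Set F) →
      d' ∈ ({1, S.c 2} : Set F) → a' * b' * d' / (a * b * d) ∈ O := by
    intro a' b' d' ha' hb' hd'
    apply hdom.div_mem
    exact Submodule.mul_mem_mul (Submodule.mul_mem_mul (Submodule.subset_span ha')
      (Submodule.subset_span hb')) (Submodule.subset_span hd')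
  have m1 : ∀ x : F, (1 : F) ∈ ({1, x} : Set F) := fun x => Set.mem_insert _ _
  have m2 : ∀ x : F, x ∈ ({1, x} : Set F) := fun x => Set.mem_insert_of_mem _ rfl
  fin_cases i
  · rcases ha with rfl | ha
    · left
      have := key (S.c 0) b d (m2 _) hb hd
      have e1 : S.c 0 * b * d / (1 * b * d) = S.c 0 := by field_simp
      rw [e1] at this
      exact this
    · right
      rw [Set.mem_singleton_iff] at ha
      subst ha
      have := key 1 b d (m1 _) hb hd
      have e1 : 1 * b * d / (S.c 0 * b * d) = (S.c 0)⁻¹ := by field_simp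
      rw [e1] at this
      exact this
  · rcases hb with rfl | hb
    · left
      have := key a (S.c 1) d ha (m2 _) hd
      have e1 : a * S.c 1 * d / (a * 1 * d) = S.c 1 := by field_simp
      rw [e1] at this
      exact this
    · right
      rw [Set.mem_singleton_iff] at hb
      subst hb
      have := key a 1 d ha (m1 _) hd
      have e1 : a * 1 * d / (a * S.c 1 * d) = (S.c 1)⁻¹ := by field_simp
      rw [e1] at this
      exact this
  · rcases hd with rfl | hd
    · left
      have := key a b (S.c 2) ha hb (m2 _)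
      have e1 : a * b * S.c 2 / (a * b * 1) = S.c 2 := by field_simp
      rw [e1] at this
      exact this
    · right
      rw [Set.mem_singleton_iff] at hd
      subst hd
      have := key a b 1 ha hb (m1 _)
      have e1 : a * b * 1 / (a * b * S.c 2) = (S.c 2)⁻¹ := by field_simp
      rw [e1] at this
      exact this

/-- A non-zero polynomial of degree at most one in the first variable does not vanish. -/
theorem π_ne_zero {p : MvPolynomial (Fin 3) K} (hp : p ≠ 0)
    (hd : (MvPolynomial.finSuccEquiv K 2 p).natDegree ≤ 1) : S.π p ≠ 0 := by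
  intro h
  exact hp (eq_zero_of_dvd K (S.π_eq_zero.1 h) hd)

theorem finSucc_rename (p : MvPolynomial (Fin 2) K) :
    MvPolynomial.finSuccEquiv K 2 (MvPolynomial.rename Fin.succ p) = Polynomial.C p := by
  have h : ((MvPolynomial.finSuccEquiv K 2 : _ →ₐ[K] _).comp (MvPolynomial.rename Fin.succ)) =
      (Polynomial.CAlgHom : MvPolynomial (Fin 2) K →ₐ[K] Polynomial (MvPolynomial (Fin 2) K)) := by
    apply MvPolynomial.algHom_ext
    intro i
    rw [AlgHom.comp_apply, MvPolynomial.rename_X]
    exact MvPolynomial.finSuccEquiv_X_succ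
  exact congrArg (fun g : MvPolynomial (Fin 2) K →ₐ[K] Polynomial (MvPolynomial (Fin 2) K) => g p) h

/-- `y` and `z` are algebraically independent. -/
theorem indep (p : MvPolynomial (Fin 2) K)
    (h : S.π (MvPolynomial.rename Fin.succ p) = 0) : p = 0 := by
  have h1 := eq_zero_of_dvd K (S.π_eq_zero.1 h) (by
    rw [finSucc_rename, Polynomial.natDegree_C]
    omega)
  exact MvPolynomial.rename_injective _ (Fin.succ_injective _) (by rw [h1, map_zero])

/-- The coordinates. -/
def x : F := S.c 0

def y : F := S.c 1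

def z : F := S.c 2

theorem equation : (S.x + S.y + S.z) ^ 2 - 1 + S.x * S.y * S.z *
    (S.x * S.y + S.y * S.z + S.z * S.x) = 0 := by
  have h : S.π (fp K) = 0 := S.π_eq_zero.2 dvd_rfl
  unfold fp at h
  simp only [map_add, map_sub, map_mul, map_pow, map_one, S.π_X] at h
  exact h

end Surf

end Pool.Agent.H90ZD
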