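import Pool.Agent.H90ZD.SurfRel

open Filter Topology

namespace Pool.Agent.H90ZD

variable {K F : Type} [Field K] [Field F] [Algebra K F]

namespace Surf

variable (S : Surf K F)

theorem neg_sq_one {e : K} (he : e ^ 2 = 1) : (-e) ^ 2 = 1 := by
  rw [neg_sq, he]

variable [IsAlgClosed K] [CharZero K]

theorem τ_mem {C : Curve S.X} {f : F} : S.τ f ∈ (curveMap S.stable_τ C).1 ↔ f ∈ C.1 :=
  apply_mem_mp

theorem τ_mem_mx {C : Curve S.X} {f : F} : S.τ f ∈ mx (curveMap S.stable_τ C).1 ↔ f ∈ mx C.1 :=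
  apply_mem_mx

theorem σ_mem {C : Curve S.X} {f : F} : f ∈ (curveMap S.stable_σ C).1 ↔ S.σ f ∈ C.1 := by
  rw [curveMap_val, mem_mp, S.σ_symm]

theorem σ_mem_mx {C : Curve S.X} {f : F} :
    f ∈ mx (curveMap S.stable_σ C).1 ↔ S.σ f ∈ mx C.1 := by
  rw [curveMap_val, mem_mx_mp, S.σ_symm]

variable {e : K} (he : e ^ 2 = 1)

/-- The first translate of the line. -/
noncomputable def L2 : Curve S.X := curveMap S.stable_τ (S.L he)

/-- The second translate of the line. -/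
noncomputable def L3 : Curve S.X := curveMap S.stable_τ (S.L2 he)

theorem L2_facts : S.y ∈ mx (S.L2 he).1 ∧ S.z + S.x - algebraMap K F e ∈ mx (S.L2 he).1 ∧
    S.x ∈ (S.L2 he).1 ∧ S.z ∈ (S.L2 he).1 := by
  have hmem : ∀ i, S.c i ∈ (S.L he).1 := S.L_coords he
  refine ⟨?_, ?_, ?_, ?_⟩
  · rw [← S.τ_x]
    exact S.τ_mem_mx.2 (S.x_mem_L he)
  · have h := S.τ_mem_mx.2 (S.s_mem_L he)
    rw [map_sub, map_add, S.τ_y, S.τ_z, AlgEquiv.commutes] at h
    exact h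
  · rw [← S.τ_z]
    exact S.τ_mem.2 (hmem 2)
  · rw [← S.τ_y]
    exact S.τ_mem.2 (hmem 1)

theorem L3_facts : S.z ∈ mx (S.L3 he).1 ∧ S.x + S.y - algebraMap K F e ∈ mx (S.L3 he).1 ∧
    S.x ∈ (S.L3 he).1 ∧ S.y ∈ (S.L3 he).1 := by
  obtain ⟨h1, h2, h3, h4⟩ := S.L2_facts he
  refine ⟨?_, ?_, ?_, ?_⟩
  · rw [← S.τ_y]
    exact S.τ_mem_mx.2 h1
  · have h := S.τ_mem_mx.2 h2
    rw [map_sub, map_add, S.τ_z, S.τ_x, AlgEquiv.commutes] at h
    exact h
  · rw [← S.τ_z]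
    exact S.τ_mem.2 h4
  · rw [← S.τ_x]
    exact S.τ_mem.2 h3

theorem τ_symm_facts : S.τ.symm S.y = S.x ∧ S.τ.symm S.z = S.y ∧ S.τ.symm S.x = S.z := by
  refine ⟨?_, ?_, ?_⟩
  · rw [← S.τ_x, AlgEquiv.symm_apply_apply]
  · rw [← S.τ_y, AlgEquiv.symm_apply_apply]
  · rw [← S.τ_z, AlgEquiv.symm_apply_apply]

theorem eq_L2 {C : Curve S.X} (h1 : S.y ∈ mx C.1) (h2 : S.z + S.x - algebraMap K F e ∈ mx C.1) :
    C = S.L2 he := by
  obtain ⟨t1, t2, t3⟩ := S.τ_symm_facts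
  have e1 : C = curveMap S.stable_τ ((curveMap S.stable_τ).symm C) :=
    ((curveMap S.stable_τ).apply_symm_apply C).symm
  have h3 : (curveMap S.stable_τ).symm C = S.L he := by
    apply S.eq_L he
    · rw [← S.τ_mem_mx, ← e1, S.τ_x]
      exact h1
    · rw [← S.τ_mem_mx, ← e1, map_sub, map_add, S.τ_y, S.τ_z, AlgEquiv.commutes]
      exact h2
  rw [e1, h3]
  rfl

theorem eq_L3 {C : Curve S.X} (h1 : S.z ∈ mx C.1) (h2 : S.x + S.y - algebraMap K F e ∈ mx C.1) :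
    C = S.L3 he := by
  have e1 : C = curveMap S.stable_τ ((curveMap S.stable_τ).symm C) :=
    ((curveMap S.stable_τ).apply_symm_apply C).symm
  have h3 : (curveMap S.stable_τ).symm C = S.L2 he := by
    apply S.eq_L2 he
    · rw [← S.τ_mem_mx, ← e1, S.τ_y]
      exact h1
    · rw [← S.τ_mem_mx, ← e1, map_sub, map_add, S.τ_z, S.τ_x, AlgEquiv.commutes]
      exact h2
  rw [e1, h3]
  rfl

theorem τ_L3 : curveMap S.stable_τ (S.L3 he) = S.L he := by
  obtain ⟨h1, h2, h3, h4⟩ := S.L3_facts he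
  apply S.eq_L he
  · rw [← S.τ_z]
    exact S.τ_mem_mx.2 h1
  · have h := S.τ_mem_mx.2 h2
    rw [map_sub, map_add, S.τ_x, S.τ_y, AlgEquiv.commutes] at h
    exact h

/-- A criterion for `x' + t` to lie in the maximal ideal. -/
theorem x'_add_mem {C : Curve S.X} {t : F} (ha : S.a ∈ C.1) (hamx : S.a ∉ mx C.1)
    (h : -S.b + S.a * (-S.x + t) ∈ mx C.1) : S.x' + t ∈ mx C.1 := by
  have ha0 := S.a_ne_zero
  have e1 : S.x' + t = (-S.b + S.a * (-S.x + t)) * S.a⁻¹ := by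
    unfold x'
    field_simp
    ring
  rw [e1]
  exact mx_mul_right h (inv_mem_of_not_mem_mx ha hamx)

theorem a_not_mem {C : Curve S.X} (h : S.a - 1 ∈ mx C.1) : S.a ∉ mx C.1 := by
  intro h1
  have h2 := mx_sub (isLocalRing_of_mem C.2.mem) h1 h
  rw [sub_sub_cancel] at h2
  exact one_not_mem_mx h2

theorem σ_L2 : curveMap S.stable_σ (S.L2 he) = S.L2 (neg_sq_one he) := by
  obtain ⟨h1, h2, h3, h4⟩ := S.L2_facts he
  have hloc := isLocalRing_of_mem (S.L2 he).2.mem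
  have hy := h1.1
  have he2 : algebraMap K F e ∈ (S.L2 he).1 := Subalgebra.algebraMap_mem _ e
  apply S.eq_L2
  · rw [S.σ_mem_mx, S.σ_y]
    exact h1
  · rw [S.σ_mem_mx, map_sub, map_add, S.σ_z, S.σ_x, AlgEquiv.commutes]
    have e1 : S.z + S.x' - algebraMap K F (-e) = S.x' + (S.z + algebraMap K F e) := by
      rw [map_neg]
      ring
    rw [e1]
    apply S.x'_add_mem (S.a_mem hy h4)
    · apply S.a_not_mem
      have e2 : S.a - 1 = S.y * (S.z * (S.y + S.z)) := by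
        unfold a
        ring
      rw [e2]
      exact mx_mul_right h1 (Subalgebra.mul_mem _ h4 (Subalgebra.add_mem _ hy h4))
    · have e2 : -S.b + S.a * (-S.x + (S.z + algebraMap K F e)) =
          S.y * (-2 - S.y * S.z ^ 2 + S.z * (S.y + S.z) * (-S.x + (S.z + algebraMap K F e))) -
            (S.z + S.x - algebraMap K F e) := by
        unfold a b
        ring
      rw [e2]
      refine mx_sub hloc (mx_mul_right h1 ?_) h2
      refine Subalgebra.add_mem _ (Subalgebra.sub_mem _ (Subalgebra.neg_mem _ two_mem)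
        (Subalgebra.mul_mem _ hy (Subalgebra.pow_mem _ h4 2))) (Subalgebra.mul_mem _
        (Subalgebra.mul_mem _ h4 (Subalgebra.add_mem _ hy h4)) (Subalgebra.add_mem _
        (Subalgebra.neg_mem _ h3) (Subalgebra.add_mem _ h4 he2)))

theorem σ_L3 : curveMap S.stable_σ (S.L3 he) = S.L3 (neg_sq_one he) := by
  obtain ⟨h1, h2, h3, h4⟩ := S.L3_facts he
  have hloc := isLocalRing_of_mem (S.L3 he).2.mem
  have hz := h1.1
  have he2 : algebraMap K F e ∈ (S.L3 he).1 := Subalgebra.algebraMap_mem _ e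
  apply S.eq_L3
  · rw [S.σ_mem_mx, S.σ_z]
    exact h1
  · rw [S.σ_mem_mx, map_sub, map_add, S.σ_y, S.σ_x, AlgEquiv.commutes]
    have e1 : S.x' + S.y - algebraMap K F (-e) = S.x' + (S.y + algebraMap K F e) := by
      rw [map_neg]
      ring
    rw [e1]
    apply S.x'_add_mem (S.a_mem h4 hz)
    · apply S.a_not_mem
      have e2 : S.a - 1 = S.z * (S.y * (S.y + S.z)) := by
        unfold a
        ring
      rw [e2]
      exact mx_mul_right h1 (Subalgebra.mul_mem _ h4 (Subalgebra.add_mem _ h4 hz))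
    · have e2 : -S.b + S.a * (-S.x + (S.y + algebraMap K F e)) =
          S.z * (-2 - S.z * S.y ^ 2 + S.y * (S.y + S.z) * (-S.x + (S.y + algebraMap K F e))) -
            (S.x + S.y - algebraMap K F e) := by
        unfold a b
        ring
      rw [e2]
      refine mx_sub hloc (mx_mul_right h1 ?_) h2
      refine Subalgebra.add_mem _ (Subalgebra.sub_mem _ (Subalgebra.neg_mem _ two_mem)
        (Subalgebra.mul_mem _ hz (Subalgebra.pow_mem _ h4 2))) (Subalgebra.mul_mem _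
        (Subalgebra.mul_mem _ h4 (Subalgebra.add_mem _ h4 hz)) (Subalgebra.add_mem _
        (Subalgebra.neg_mem _ h3) (Subalgebra.add_mem _ h4 he2)))

omit [IsAlgClosed K] [CharZero K] in
theorem one_sq : (1 : K) ^ 2 = 1 := one_pow 2

omit [IsAlgClosed K] [CharZero K] in
theorem neg_one_sq' : (-1 : K) ^ 2 = 1 := by norm_num

/-- The classes of the fibrations. -/
noncomputable def h₁ : N1 S.X := cc S.L₁ + cc S.L₁'

noncomputable def h₂ : N1 S.X := nMap S.stable_τ S.h₁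

noncomputable def h₃ : N1 S.X := nMap S.stable_τ S.h₂

/-- The classes of the lines. -/
noncomputable def c₁ : N1 S.X := cc S.L₁

noncomputable def c₂ : N1 S.X := nMap S.stable_τ S.c₁

noncomputable def c₃ : N1 S.X := nMap S.stable_τ S.c₂

theorem h₁_eq : S.h₁ = natCls (polar S.surface S.x_ne_zero) := by
  rw [← S.zeroData_x.cls_eq S.surface (fun C => S.coord_C C 0), natCls_two]
  rfl

theorem h₂_eq : S.h₂ = natCls (polar S.surface S.y_ne_zero) := by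
  rw [← S.zeroData_y.cls_eq S.surface (fun C => S.coord_C C 1), natCls_two]
  unfold h₂ h₁
  rw [map_add, nMap_cc, nMap_cc]

theorem h₃_eq : S.h₃ = natCls (polar S.surface S.z_ne_zero) := by
  rw [← S.zeroData_z.cls_eq S.surface (fun C => S.coord_C C 2), natCls_two]
  unfold h₃ h₂ h₁
  rw [map_add, nMap_cc, nMap_cc, map_add, nMap_cc, nMap_cc]

theorem c₂_eq : S.c₂ = cc (S.L2 (one_sq (K := K))) := by
  unfold c₂ c₁ L₁
  rw [nMap_cc]
  rfl

theorem c₃_eq : S.c₃ = cc (S.L3 (one_sq (K := K))) := by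
  unfold c₃
  rw [c₂_eq, nMap_cc]
  rfl

theorem h₂_eq' : S.h₂ = cc (S.L2 (one_sq (K := K))) + cc (S.L2 (neg_one_sq' (K := K))) := by
  unfold h₂ h₁ L₁ L₁'
  rw [map_add, nMap_cc, nMap_cc]
  rfl

theorem h₃_eq' : S.h₃ = cc (S.L3 (one_sq (K := K))) + cc (S.L3 (neg_one_sq' (K := K))) := by
  unfold h₃
  rw [h₂_eq', map_add, nMap_cc, nMap_cc]
  rfl

theorem T_c₃ : nMap S.stable_τ S.c₃ = S.c₁ := by
  rw [c₃_eq, nMap_cc, τ_L3]
  rfl

theorem T_h₃ : nMap S.stable_τ S.h₃ = S.h₁ := by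
  rw [h₃_eq', map_add, nMap_cc, nMap_cc, τ_L3, τ_L3]
  rfl

theorem σ_c₁ : nMap S.stable_σ S.c₁ = S.h₂ + S.h₃ - S.c₁ := by
  have h := S.cls_s (one_sq (K := K))
  rw [natCls_two, natCls_add, ← S.h₂_eq, ← S.h₃_eq, ← nMap_cc] at h
  rw [← h]
  unfold c₁ L₁
  abel

theorem σ_h₁ : nMap S.stable_σ S.h₁ = (2 : ℝ) • S.h₂ + (2 : ℝ) • S.h₃ - S.h₁ := by
  have h := S.cls_s (one_sq (K := K))
  have h' := S.cls_s (neg_one_sq' (K := K))
  rw [natCls_two, natCls_add, ← S.h₂_eq, ← S.h₃_eq, ← nMap_cc] at h h'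
  have e1 : S.h₁ = cc (S.L (one_sq (K := K))) + cc (S.L (neg_one_sq' (K := K))) := rfl
  have e2 : nMap S.stable_σ S.h₁ = (cc (S.L (one_sq (K := K))) +
      nMap S.stable_σ (cc (S.L (one_sq (K := K))))) + (cc (S.L (neg_one_sq' (K := K))) +
      nMap S.stable_σ (cc (S.L (neg_one_sq' (K := K))))) - S.h₁ := by
    rw [e1, map_add]
    abel
  rw [e2, h, h', two_smul, two_smul]
  abel

theorem L_congr {e e' : K} (he : e ^ 2 = 1) (he' : e' ^ 2 = 1) (h : e = e') :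
    S.L2 he = S.L2 he' ∧ S.L3 he = S.L3 he' := by
  subst h
  exact ⟨rfl, rfl⟩

theorem σ_cc_L2 : nMap S.stable_σ (cc (S.L2 (one_sq (K := K)))) =
    cc (S.L2 (neg_one_sq' (K := K))) ∧ nMap S.stable_σ (cc (S.L2 (neg_one_sq' (K := K)))) =
    cc (S.L2 (one_sq (K := K))) := by
  constructor
  · rw [nMap_cc, σ_L2]
  · rw [nMap_cc, σ_L2]
    congr 1
    exact (S.L_congr _ _ (neg_neg _)).1

theorem σ_cc_L3 : nMap S.stable_σ (cc (S.L3 (one_sq (K := K)))) =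
    cc (S.L3 (neg_one_sq' (K := K))) ∧ nMap S.stable_σ (cc (S.L3 (neg_one_sq' (K := K)))) =
    cc (S.L3 (one_sq (K := K))) := by
  constructor
  · rw [nMap_cc, σ_L3]
  · rw [nMap_cc, σ_L3]
    congr 1
    exact (S.L_congr _ _ (neg_neg _)).2

theorem σ_h₂ : nMap S.stable_σ S.h₂ = S.h₂ := by
  rw [h₂_eq', map_add, S.σ_cc_L2.1, S.σ_cc_L2.2]
  abel

theorem σ_h₃ : nMap S.stable_σ S.h₃ = S.h₃ := by
  rw [h₃_eq', map_add, S.σ_cc_L3.1, S.σ_cc_L3.2]
  abel

theorem σ_c₂ : nMap S.stable_σ S.c₂ = S.h₂ - S.c₂ := by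
  rw [h₂_eq', c₂_eq, S.σ_cc_L2.1]
  abel

theorem σ_c₃ : nMap S.stable_σ S.c₃ = S.h₃ - S.c₃ := by
  rw [h₃_eq', c₃_eq, S.σ_cc_L3.1]
  abel

theorem cc_D' : cc S.D = S.c₁ + S.h₂ + S.h₃ := by
  rw [S.cc_D, ← S.h₂_eq, ← S.h₃_eq]
  rfl

theorem dominating' : Dominating S.X (S.h₁ + S.h₂ + S.h₃) := by
  have h := S.dominating_H
  rwa [natCls_add, natCls_add, ← S.h₁_eq, ← S.h₂_eq, ← S.h₃_eq] at h

theorem h_mem : S.h₁ ∈ effCone S.X ∧ S.h₂ ∈ effCone S.X ∧ S.h₃ ∈ effCone S.X := by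
  rw [S.h₁_eq, S.h₂_eq, S.h₃_eq]
  exact ⟨natCls_mem_effCone _, natCls_mem_effCone _, natCls_mem_effCone _⟩

theorem isBig_ab {a b : ℝ} (ha : 0 < a) (hb : 0 < b) :
    IsBig S.X (a • cc S.L₁ + b • cc S.D) := by
  obtain ⟨hh1, hh2, hh3⟩ := S.h_mem
  refine isBig_of_sub S.dominating' (ε := b / 4) (by positivity) ?_
  have h1 : nMap S.stable_σ S.h₁ ∈ effCone S.X := nMap_effCone _ hh1
  have e1 : a • cc S.L₁ + b • cc S.D - (b / 4) • (S.h₁ + S.h₂ + S.h₃) =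
      (a + b) • cc S.L₁ + (b / 4) • (S.h₂ + S.h₃) + (b / 4) • nMap S.stable_σ S.h₁ := by
    rw [S.cc_D', S.σ_h₁]
    unfold c₁
    module
  rw [e1]
  refine effCone_add (effCone_add (effCone_smul (by positivity) (cc_mem_effCone _))
    (effCone_smul (by positivity) (effCone_add hh2 hh3))) (effCone_smul (by positivity) h1)

end Surf

end Pool.Agent.H90ZD
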