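import Pool.Agent.H90ZD.Surf

open Filter Topology

namespace Pool.Agent.H90ZD

variable {K F : Type} [Field K] [Field F] [Algebra K F]

namespace Surf

variable (S : Surf K F)

/-- Admissible substitutions. -/
structure Subst (v : Fin 3 → F) : Prop where
  eqn : MvPolynomial.aeval v (fp K) = 0
  inj : ∀ p : MvPolynomial (Fin 3) K, MvPolynomial.aeval v p = 0 → S.π p = 0

variable {S}

theorem Subst.zero {v : Fin 3 → F} (h : S.Subst v) {p : MvPolynomial (Fin 3) K}
    (hp : S.π p = 0) : MvPolynomial.aeval v p = 0 := by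
  obtain ⟨q, rfl⟩ := S.π_eq_zero.1 hp
  rw [map_mul, h.eqn, zero_mul]

theorem Subst.wd {v : Fin 3 → F} (h : S.Subst v) {p q p' q' : MvPolynomial (Fin 3) K}
    (hq : S.π q ≠ 0) (hq' : S.π q' ≠ 0) (e : S.π p / S.π q = S.π p' / S.π q') :
    (MvPolynomial.aeval v p : F) / MvPolynomial.aeval v q =
      MvPolynomial.aeval v p' / MvPolynomial.aeval v q' := by
  rw [div_eq_div_iff hq hq', ← map_mul, ← map_mul, ← sub_eq_zero, ← map_sub] at e
  have h1 := h.zero e
  rw [map_sub, map_mul, map_mul, sub_eq_zero] at h1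
  rw [div_eq_div_iff (fun h0 => hq (h.inj _ h0)) (fun h0 => hq' (h.inj _ h0))]
  exact h1

/-- The homomorphism given by an admissible substitution. -/
noncomputable def hom {v : Fin 3 → F} (h : S.Subst v) (g : F) : F :=
  MvPolynomial.aeval v (S.frac g).choose /
    MvPolynomial.aeval v (S.frac g).choose_spec.choose

theorem hom_eq {v : Fin 3 → F} (h : S.Subst v) {p q : MvPolynomial (Fin 3) K}
    (hq : S.π q ≠ 0) : hom h (S.π p / S.π q) =
      MvPolynomial.aeval v p / MvPolynomial.aeval v q := by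
  obtain ⟨h1, h2⟩ := (S.frac (S.π p / S.π q)).choose_spec.choose_spec
  exact h.wd h1 hq h2.symm

theorem hom_π {v : Fin 3 → F} (h : S.Subst v) (p : MvPolynomial (Fin 3) K) :
    hom h (S.π p) = MvPolynomial.aeval v p := by
  have h1 : S.π 1 ≠ 0 := by
    rw [map_one]
    exact one_ne_zero
  have h2 := hom_eq h (p := p) h1
  rwa [map_one, map_one, div_one, div_one] at h2

theorem exists_frac' (g : F) : ∃ p q : MvPolynomial (Fin 3) K, S.π q ≠ 0 ∧ g = S.π p / S.π q :=
  S.frac g

/-- The homomorphism of algebras given by an admissible substitution. -/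
noncomputable def homA {v : Fin 3 → F} (h : S.Subst v) : F →ₐ[K] F where
  toFun := hom h
  map_one' := by
    have := hom_π h 1
    rwa [map_one, map_one] at this
  map_mul' := by
    intro g g'
    obtain ⟨p, q, hq, rfl⟩ := exists_frac' (S := S) g
    obtain ⟨p', q', hq', rfl⟩ := exists_frac' (S := S) g'
    have e : S.π p / S.π q * (S.π p' / S.π q') = S.π (p * p') / S.π (q * q') := by
      rw [map_mul, map_mul, div_mul_div_comm]
    rw [e, hom_eq h hq, hom_eq h hq', hom_eq h (by rw [map_mul]; exact mul_ne_zero hq hq'),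
      map_mul, map_mul, div_mul_div_comm]
  map_zero' := by
    have := hom_π h 0
    rwa [map_zero, map_zero] at this
  map_add' := by
    intro g g'
    obtain ⟨p, q, hq, rfl⟩ := exists_frac' (S := S) g
    obtain ⟨p', q', hq', rfl⟩ := exists_frac' (S := S) g'
    have e : S.π p / S.π q + S.π p' / S.π q' = S.π (p * q' + q * p') / S.π (q * q') := by
      rw [map_add, map_mul, map_mul, map_mul, div_add_div _ _ hq hq']
    rw [e, hom_eq h hq, hom_eq h hq', hom_eq h (by rw [map_mul]; exact mul_ne_zero hq hq'),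
      map_add, map_mul, map_mul, map_mul, div_add_div]
    · exact fun h0 => hq (h.inj _ h0)
    · exact fun h0 => hq' (h.inj _ h0)
  commutes' := by
    intro r
    have := hom_π h (MvPolynomial.C r)
    unfold π at this
    rwa [MvPolynomial.aeval_C, MvPolynomial.aeval_C] at this

theorem homA_c {v : Fin 3 → F} (h : S.Subst v) (i : Fin 3) : homA h (S.c i) = v i := by
  have := hom_π h (MvPolynomial.X i)
  rw [S.π_X, MvPolynomial.aeval_X] at this
  exact this

theorem hom_ext {g g' : F →ₐ[K] F} (h : ∀ i, g (S.c i) = g' (S.c i)) : g = g' := by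
  have h1 : g.comp S.π = g'.comp S.π := by
    apply MvPolynomial.algHom_ext
    intro i
    rw [AlgHom.comp_apply, AlgHom.comp_apply, S.π_X]
    exact h i
  have h2 : ∀ p, g (S.π p) = g' (S.π p) := fun p =>
    congrArg (fun k : MvPolynomial (Fin 3) K →ₐ[K] F => k p) h1
  apply AlgHom.ext
  intro f
  obtain ⟨p, q, hq, rfl⟩ := exists_frac' (S := S) f
  rw [map_div₀, map_div₀, h2, h2]

/-- The automorphism given by mutually inverse substitutions. -/
noncomputable def autOf {v w : Fin 3 → F} (hv : S.Subst v) (hw : S.Subst w)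
    (h1 : ∀ i, homA hv (w i) = S.c i) (h2 : ∀ i, homA hw (v i) = S.c i) : F ≃ₐ[K] F :=
  AlgEquiv.ofAlgHom (homA hv) (homA hw)
    (by
      apply hom_ext (S := S)
      intro i
      rw [AlgHom.comp_apply, homA_c, h1]
      rfl)
    (by
      apply hom_ext (S := S)
      intro i
      rw [AlgHom.comp_apply, homA_c, h2]
      rfl)

theorem autOf_c {v w : Fin 3 → F} (hv : S.Subst v) (hw : S.Subst w)
    (h1 : ∀ i, homA hv (w i) = S.c i) (h2 : ∀ i, homA hw (v i) = S.c i) (i : Fin 3) :
    autOf hv hw h1 h2 (S.c i) = v i := homA_c hv i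

variable (S)

/-- The coefficients of the equation as a polynomial in `x`. -/
def a : F := 1 + S.y * S.z * (S.y + S.z)

def b : F := 2 * (S.y + S.z) + (S.y * S.z) ^ 2

def d : F := (S.y + S.z) ^ 2 - 1

theorem quad : S.a * S.x ^ 2 + S.b * S.x + S.d = 0 := by
  have := S.equation
  unfold a b d
  linear_combination this

theorem π_quad {p : MvPolynomial (Fin 2) K} : S.π (MvPolynomial.rename Fin.succ p) =
    MvPolynomial.aeval ![S.y, S.z] p := by
  have h : S.π.comp (MvPolynomial.rename Fin.succ) = MvPolynomial.aeval ![S.y, S.z] := by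
    apply MvPolynomial.algHom_ext
    intro i
    rw [AlgHom.comp_apply, MvPolynomial.rename_X, S.π_X, MvPolynomial.aeval_X]
    fin_cases i <;> rfl
  exact congrArg (fun k : MvPolynomial (Fin 2) K →ₐ[K] F => k p) h

/-- Non-zero polynomials in `y` and `z` do not vanish. -/
theorem aeval_yz_ne_zero {p : MvPolynomial (Fin 2) K} (hp : p ≠ 0) :
    MvPolynomial.aeval ![S.y, S.z] p ≠ 0 := by
  intro h
  rw [← S.π_quad] at h
  exact hp (S.indep p h)

theorem a_ne_zero : S.a ≠ 0 := by
  have h := S.aeval_yz_ne_zero (qa_ne_zero K)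
  unfold qa at h
  simp only [map_add, map_mul, map_one, MvPolynomial.aeval_X] at h
  exact h

/-- The conjugate of `x`. -/
def x' : F := -S.b / S.a - S.x

theorem quad' : S.a * S.x' ^ 2 + S.b * S.x' + S.d = 0 := by
  have h := S.quad
  have ha := S.a_ne_zero
  unfold x'
  field_simp
  linear_combination S.a * h

theorem vieta : S.a * (S.x * S.x') = S.d := by
  have h := S.quad
  have ha := S.a_ne_zero
  unfold x'
  field_simp
  linear_combination -h

theorem vieta_add : S.a * (S.x + S.x') = -S.b := by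
  have ha := S.a_ne_zero
  unfold x'
  field_simp
  ring

theorem equation_of_quad {t : F} (h : S.a * t ^ 2 + S.b * t + S.d = 0) :
    MvPolynomial.aeval ![t, S.y, S.z] (fp K) = 0 := by
  unfold fp
  simp only [map_add, map_sub, map_mul, map_pow, map_one, MvPolynomial.aeval_X]
  change (t + S.y + S.z) ^ 2 - 1 + t * S.y * S.z * (t * S.y + S.y * S.z + S.z * t) = 0
  unfold a b d at h
  linear_combination h

/-- Clearing denominators. -/
theorem exists_conj (p : MvPolynomial (Fin 3) K) : ∃ (N : ℕ) (q : MvPolynomial (Fin 3) K),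
    S.a ^ N * MvPolynomial.aeval ![S.x', S.y, S.z] p = MvPolynomial.aeval ![S.x, S.y, S.z] q ∧
    S.a ^ N * MvPolynomial.aeval ![S.x, S.y, S.z] p = MvPolynomial.aeval ![S.x', S.y, S.z] q := by
  induction p using MvPolynomial.induction_on with
  | C r =>
    refine ⟨0, MvPolynomial.C r, ?_, ?_⟩ <;>
    rw [pow_zero, one_mul, MvPolynomial.aeval_C, MvPolynomial.aeval_C]
  | add p p' hp hp' =>
    obtain ⟨N, q, h1, h2⟩ := hp
    obtain ⟨N', q', h1', h2'⟩ := hp'
    -- the polynomial `a`
    let A : MvPolynomial (Fin 3) K := MvPolynomial.rename Fin.succ (qa K)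
    have hA : ∀ t : F, MvPolynomial.aeval ![t, S.y, S.z] A = S.a := by
      intro t
      change MvPolynomial.aeval ![t, S.y, S.z] (MvPolynomial.rename Fin.succ (qa K)) = S.a
      rw [MvPolynomial.aeval_rename]
      unfold qa a
      simp only [map_add, map_mul, map_one, MvPolynomial.aeval_X]
      rfl
    refine ⟨N + N', A ^ N' * q + A ^ N * q', ?_, ?_⟩
    · simp only [map_add, map_mul, map_pow, hA]
      rw [← h1, ← h1']
      ring
    · simp only [map_add, map_mul, map_pow, hA]
      rw [← h2, ← h2']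
      ring
  | mul_X p i hp =>
    obtain ⟨N, q, h1, h2⟩ := hp
    let A : MvPolynomial (Fin 3) K := MvPolynomial.rename Fin.succ (qa K)
    have hA : ∀ t : F, MvPolynomial.aeval ![t, S.y, S.z] A = S.a := by
      intro t
      change MvPolynomial.aeval ![t, S.y, S.z] (MvPolynomial.rename Fin.succ (qa K)) = S.a
      rw [MvPolynomial.aeval_rename]
      unfold qa a
      simp only [map_add, map_mul, map_one, MvPolynomial.aeval_X]
      rfl
    let B : MvPolynomial (Fin 3) K := MvPolynomial.rename Fin.succ (qb K)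
    have hB : ∀ t : F, MvPolynomial.aeval ![t, S.y, S.z] B = S.b := by
      intro t
      change MvPolynomial.aeval ![t, S.y, S.z] (MvPolynomial.rename Fin.succ (qb K)) = S.b
      rw [MvPolynomial.aeval_rename]
      unfold qb b
      simp only [map_add, map_mul, map_pow, map_ofNat, MvPolynomial.aeval_X]
      rfl
    have hX0 : ∀ t : F, MvPolynomial.aeval ![t, S.y, S.z] (MvPolynomial.X 0 : MvPolynomial (Fin 3) K) = t := by
      intro t
      rw [MvPolynomial.aeval_X]
      rfl
    have hva := S.vieta_add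
    fin_cases i
    · refine ⟨N + 1, q * (-B - A * MvPolynomial.X 0), ?_, ?_⟩
      · simp only [map_sub, map_neg, map_mul, hA, hB]
        change S.a ^ (N + 1) * (_ * MvPolynomial.aeval ![S.x', S.y, S.z] (MvPolynomial.X 0 : MvPolynomial (Fin 3) K)) = _
        rw [hX0, hX0, ← h1]
        linear_combination (MvPolynomial.aeval ![S.x', S.y, S.z] p * S.a ^ N) * hva
      · simp only [map_sub, map_neg, map_mul, hA, hB]
        change S.a ^ (N + 1) * (_ * MvPolynomial.aeval ![S.x, S.y, S.z] (MvPolynomial.X 0 : MvPolynomial (Fin 3) K)) = _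
        rw [hX0, hX0, ← h2]
        linear_combination (MvPolynomial.aeval ![S.x, S.y, S.z] p * S.a ^ N) * hva
    · refine ⟨N, q * MvPolynomial.X 1, ?_, ?_⟩
      · rw [map_mul, map_mul, ← h1]
        change S.a ^ N * (_ * MvPolynomial.aeval ![S.x', S.y, S.z] (MvPolynomial.X 1 : MvPolynomial (Fin 3) K)) = _
        rw [MvPolynomial.aeval_X, MvPolynomial.aeval_X]
        change S.a ^ N * (_ * S.y) = _ * S.y
        ring
      · rw [map_mul, map_mul, ← h2]
        change S.a ^ N * (_ * MvPolynomial.aeval ![S.x, S.y, S.z] (MvPolynomial.X 1 : MvPolynomial (Fin 3) K)) = _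
        rw [MvPolynomial.aeval_X, MvPolynomial.aeval_X]
        change S.a ^ N * (_ * S.y) = _ * S.y
        ring
    · refine ⟨N, q * MvPolynomial.X 2, ?_, ?_⟩
      · rw [map_mul, map_mul, ← h1]
        change S.a ^ N * (_ * MvPolynomial.aeval ![S.x', S.y, S.z] (MvPolynomial.X 2 : MvPolynomial (Fin 3) K)) = _
        rw [MvPolynomial.aeval_X, MvPolynomial.aeval_X]
        change S.a ^ N * (_ * S.z) = _ * S.z
        ring
      · rw [map_mul, map_mul, ← h2]
        change S.a ^ N * (_ * MvPolynomial.aeval ![S.x, S.y, S.z] (MvPolynomial.X 2 : MvPolynomial (Fin 3) K)) = _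
        rw [MvPolynomial.aeval_X, MvPolynomial.aeval_X]
        change S.a ^ N * (_ * S.z) = _ * S.z
        ring

theorem c_eq : S.c = ![S.x, S.y, S.z] := by
  funext i
  fin_cases i <;> rfl

theorem π_eq (p : MvPolynomial (Fin 3) K) : S.π p = MvPolynomial.aeval ![S.x, S.y, S.z] p := by
  rw [← c_eq]
  rfl

theorem subst_σ : S.Subst ![S.x', S.y, S.z] := by
  refine ⟨S.equation_of_quad S.quad', ?_⟩
  intro p hp
  obtain ⟨N, q, h1, h2⟩ := S.exists_conj p
  rw [hp, mul_zero, ← S.π_eq] at h1
  obtain ⟨r, rfl⟩ := S.π_eq_zero.1 h1.symm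
  rw [map_mul, S.equation_of_quad S.quad', zero_mul] at h2
  rw [S.π_eq]
  rcases mul_eq_zero.1 h2 with h | h
  · exact absurd h (pow_ne_zero _ S.a_ne_zero)
  · exact h

theorem homσ_fix : homA S.subst_σ S.y = S.y ∧ homA S.subst_σ S.z = S.z :=
  ⟨homA_c S.subst_σ 1, homA_c S.subst_σ 2⟩

theorem homσ_x : homA S.subst_σ S.x = S.x' := homA_c S.subst_σ 0

theorem homσ_a : homA S.subst_σ S.a = S.a := by
  unfold a
  simp only [map_add, map_mul, map_one, S.homσ_fix.1, S.homσ_fix.2]

theorem homσ_b : homA S.subst_σ S.b = S.b := by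
  unfold b
  simp only [map_add, map_mul, map_pow, map_ofNat, S.homσ_fix.1, S.homσ_fix.2]

theorem homσ_x' : homA S.subst_σ S.x' = S.x := by
  have h1 : homA S.subst_σ S.x' = homA S.subst_σ (-S.b / S.a - S.x) := rfl
  have h2 : S.x' = -S.b / S.a - S.x := rfl
  rw [h1, map_sub, map_div₀, map_neg, S.homσ_a, S.homσ_b, S.homσ_x, h2]
  ring

/-- The covering involution `σ`. -/
noncomputable def σ : F ≃ₐ[K] F :=
  autOf S.subst_σ S.subst_σ
    (by
      intro i
      fin_cases i
      · exact S.homσ_x'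
      · exact S.homσ_fix.1
      · exact S.homσ_fix.2)
    (by
      intro i
      fin_cases i
      · exact S.homσ_x'
      · exact S.homσ_fix.1
      · exact S.homσ_fix.2)

theorem σ_x : S.σ S.x = S.x' := S.homσ_x

theorem σ_y : S.σ S.y = S.y := S.homσ_fix.1

theorem σ_z : S.σ S.z = S.z := S.homσ_fix.2

theorem σ_x' : S.σ S.x' = S.x := S.homσ_x'

theorem σ_a : S.σ S.a = S.a := S.homσ_a

theorem σ_b : S.σ S.b = S.b := S.homσ_b

theorem σ_symm_apply (f : F) : S.σ.symm f = S.σ f := rfl

theorem subst_perm (e : Fin 3 ≃ Fin 3) (he : MvPolynomial.rename e (fp K) = fp K) :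
    S.Subst (fun i => S.c (e i)) := by
  have h1 : ∀ p : MvPolynomial (Fin 3) K,
      MvPolynomial.aeval (fun i => S.c (e i)) p = S.π (MvPolynomial.rename e p) := by
    intro p
    unfold π
    rw [MvPolynomial.aeval_rename]
    rfl
  refine ⟨?_, ?_⟩
  · rw [h1, he]
    exact S.π_eq_zero.2 dvd_rfl
  · intro p hp
    rw [h1, S.π_eq_zero] at hp
    rw [S.π_eq_zero]
    rw [← he] at hp
    exact (map_dvd_iff (MvPolynomial.renameEquiv K e)).1 hp

/-- The cyclic permutation of the indices. -/
def cyc : Fin 3 ≃ Fin 3 := finRotate 3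

theorem rename_cyc : MvPolynomial.rename cyc (fp K) = fp K := by
  unfold fp
  simp only [map_add, map_sub, map_mul, map_pow, map_one, MvPolynomial.rename_X]
  have h0 : cyc 0 = 1 := rfl
  have h1 : cyc 1 = 2 := rfl
  have h2 : cyc 2 = 0 := rfl
  rw [h0, h1, h2]
  ring

theorem rename_cyc_symm : MvPolynomial.rename cyc.symm (fp K) = fp K := by
  unfold fp
  simp only [map_add, map_sub, map_mul, map_pow, map_one, MvPolynomial.rename_X]
  have h0 : cyc.symm 0 = 2 := rfl
  have h1 : cyc.symm 1 = 0 := rfl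
  have h2 : cyc.symm 2 = 1 := rfl
  rw [h0, h1, h2]
  ring

/-- The cyclic automorphism `τ`, with `x → y → z → x`. -/
noncomputable def τ : F ≃ₐ[K] F :=
  autOf (S.subst_perm cyc rename_cyc) (S.subst_perm cyc.symm rename_cyc_symm)
    (by
      intro i
      rw [homA_c]
      simp)
    (by
      intro i
      rw [homA_c]
      simp)

theorem τ_x : S.τ S.x = S.y := autOf_c _ _ _ _ 0

theorem τ_y : S.τ S.y = S.z := autOf_c _ _ _ _ 1

theorem τ_z : S.τ S.z = S.x := autOf_c _ _ _ _ 2

end Surf

end Pool.Agent.H90ZD
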