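import Pool.Agent.H90ZD.SurfLine

open Filter Topology

namespace Pool.Agent.H90ZD

variable {K F : Type} [Field K] [Field F] [Algebra K F]

namespace Surf

variable (S : Surf K F)

theorem d_mem {O : Subalgebra K F} (hy : S.y ∈ O) (hz : S.z ∈ O) : S.d ∈ O :=
  O.sub_mem (O.pow_mem (O.add_mem hy hz) 2) O.one_mem

theorem abd_unimod [CharZero K] {O : Subalgebra K F} (hloc : IsLocalRing O) (hy : S.y ∈ O)
    (hz : S.z ∈ O) (ha : S.a ∈ mx O) (hb : S.b ∈ mx O) (hd : S.d ∈ mx O) : False := by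
  have h₁ : Coord O S.y ⟨S.y, hy⟩ 1 := ⟨one_ne_zero, by simp, Or.inl rfl⟩
  have h₂ : Coord O S.z ⟨S.z, hz⟩ 1 := ⟨one_ne_zero, by simp, Or.inl rfl⟩
  refine local_unimod hloc (p₁ := ⟨S.y, hy⟩) (q₁ := 1) (p₂ := ⟨S.z, hz⟩) (q₂ := 1)
    (Or.inl rfl) (Or.inl rfl) ?_ ?_ ?_
  · rw [lA_eq h₁ h₂]
    simpa using ha
  · rw [lB_eq h₁ h₂]
    simpa using hb
  · rw [lD_eq h₁ h₂]
    simpa using hd

theorem σ_symm : S.σ.symm = S.σ := rfl

theorem curveMap_σσ [CharZero K] (C : Curve S.X) :
    curveMap S.stable_σ (curveMap S.stable_σ C) = C := by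
  apply Subtype.ext
  rw [curveMap_val, curveMap_val]
  have h := mp_symm_mp S.σ C.1
  rwa [S.σ_symm] at h

/-- If `x'` and `y + z - e` vanish on `C` then `C` is the conjugate line. -/
theorem eq_σL [IsAlgClosed K] [CharZero K] {e : K} (he : e ^ 2 = 1) {C : Curve S.X}
    (hx : S.x' ∈ mx C.1) (hs : S.y + S.z - algebraMap K F e ∈ mx C.1) :
    C = curveMap S.stable_σ (S.L he) := by
  have h1 : curveMap S.stable_σ C = S.L he := by
    apply S.eq_L he
    · rw [curveMap_val, mem_mx_mp, S.σ_symm, S.σ_x]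
      exact hx
    · rw [curveMap_val, mem_mx_mp, S.σ_symm, map_sub, map_add, S.σ_y, S.σ_z, AlgEquiv.commutes]
      exact hs
  rw [← h1, S.curveMap_σσ]

/-- The zeros of `y + z - e`. -/
theorem s_zero [IsAlgClosed K] [CharZero K] {e : K} (he : e ^ 2 = 1) {C : Curve S.X}
    (hy : S.y ∈ C.1) (hz : S.z ∈ C.1) (hs : S.y + S.z - algebraMap K F e ∈ mx C.1) :
    C = S.L he ∨ C = curveMap S.stable_σ (S.L he) := by
  have hloc := isLocalRing_of_mem C.2.mem
  have ha := S.a_mem hy hz
  have hb := S.b_mem hy hz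
  have he2 : (algebraMap K F e) ^ 2 = 1 := by rw [← map_pow, he, map_one]
  have hd : S.d ∈ mx C.1 := by
    have e1 : S.d = (S.y + S.z - algebraMap K F e) * (S.y + S.z + algebraMap K F e) := by
      unfold d
      linear_combination he2
    rw [e1]
    exact mx_mul_right hs (C.1.add_mem (C.1.add_mem hy hz) (C.1.algebraMap_mem e))
  have hxc : S.x ∈ C.1 ∨ S.x⁻¹ ∈ C.1 := S.coord C.2.mem 0
  by_cases hx : S.x ∈ C.1
  · have hp : S.a * S.x + S.b ∈ C.1 := C.1.add_mem (C.1.mul_mem ha hx) hb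
    have h1 : S.x * (S.a * S.x + S.b) ∈ mx C.1 := by
      have e1 : S.x * (S.a * S.x + S.b) = -S.d := by linear_combination S.quad
      rw [e1]
      exact mx_neg hd
    rcases mem_mx_or_of_mul hx hp h1 with h | h
    · left
      exact S.eq_L he h hs
    · right
      by_cases hamx : S.a ∈ mx C.1
      · exfalso
        have hbmx : S.b ∈ mx C.1 := by
          have := mx_sub hloc h (mx_mul_right hamx hx)
          rwa [add_sub_cancel_left] at this
        exact S.abd_unimod hloc hy hz hamx hbmx hd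
      · have hinv := inv_mem_of_not_mem_mx ha hamx
        have ha0 := S.a_ne_zero
        apply S.eq_σL he _ hs
        have e1 : S.x' = -((S.a * S.x + S.b) * S.a⁻¹) := by
          unfold x'
          field_simp
          ring
        rw [e1]
        exact mx_neg (mx_mul_right h hinv)
  · right
    have hq : S.x⁻¹ ∈ C.1 := by
      rcases hxc with h | h
      · exact absurd h hx
      · exact h
    have hqmx : S.x⁻¹ ∈ mx C.1 := ⟨hq, Or.inr (by rwa [inv_inv])⟩
    have hx0 := S.x_ne_zero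
    have hdm := S.d_mem hy hz
    have hw : S.b + S.d * S.x⁻¹ ∈ C.1 := C.1.add_mem hb (C.1.mul_mem hdm hq)
    have hamx : S.a ∈ mx C.1 := by
      have e1 : S.a = -(S.x⁻¹ * (S.b + S.d * S.x⁻¹)) := by
        field_simp
        linear_combination S.quad
      rw [e1]
      exact mx_neg (mx_mul_right hqmx hw)
    have hwmx : S.b + S.d * S.x⁻¹ ∉ mx C.1 := by
      intro h
      have hbmx : S.b ∈ mx C.1 := by
        have := mx_sub hloc h (mx_mul_left hdm hqmx)
        rwa [add_sub_cancel_right] at this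
      exact S.abd_unimod hloc hy hz hamx hbmx hd
    have hw0 := ne_zero_of_not_mem_mx hwmx
    apply S.eq_σL he _ hs
    have e1 : S.x' = -(S.d * (S.b + S.d * S.x⁻¹)⁻¹) := by
      have e2 : (S.b + S.d * S.x⁻¹) * S.x' = -S.d := by
        have h3 := S.vieta
        have h4 := S.vieta_add
        have h5 : S.b = -(S.a * (S.x + S.x')) := by rw [h4, neg_neg]
        rw [h5, ← h3]
        field_simp
        ring
      generalize S.b + S.d * S.x⁻¹ = w at hw0 e2 ⊢
      have e3 : S.x' = (w * S.x') * w⁻¹ := by field_simp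
      rw [e3, e2]
      ring
    rw [e1]
    exact mx_neg (mx_mul_right hd (inv_mem_of_not_mem_mx hw hwmx))

theorem oz_s_σL [CharZero K] {e : K} (he : e ^ 2 = 1) :
    oz (curveMap S.stable_σ (S.L he)).1 (S.y + S.z - algebraMap K F e) = 1 := by
  have hfix : S.σ (S.y + S.z - algebraMap K F e) = S.y + S.z - algebraMap K F e := by
    rw [map_sub, map_add, S.σ_y, S.σ_z, AlgEquiv.commutes]
  refine oz_uniformizer (isLocalRing_of_mem (curveMap S.stable_σ (S.L he)).2.mem) ?_ ?_
    (S.s_ne_zero e)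
  · rw [curveMap_val, mem_mx_mp, S.σ_symm, hfix]
    exact S.s_mem_L he
  · intro g hg
    rw [curveMap_val, mem_mx_mp] at hg
    rw [curveMap_val, mem_mp, map_div₀, S.σ_symm, hfix]
    exact S.uniformizer_L' he _ hg

theorem L_ne [CharZero K] {e e' : K} (he : e ^ 2 = 1) (he' : e' ^ 2 = 1) (hne : e ≠ e') :
    S.L he ≠ S.L he' := by
  intro h
  have h1 := S.s_mem_L he
  have h2 := S.s_mem_L he'
  rw [← h] at h2
  have h3 := mx_sub (isLocalRing_of_mem (S.L he).2.mem) h1 h2
  have e1 : S.y + S.z - algebraMap K F e - (S.y + S.z - algebraMap K F e') =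
      algebraMap K F (e' - e) := by
    rw [map_sub]
    ring
  rw [e1] at h3
  exact algebraMap_not_mem_mx (sub_ne_zero.2 (Ne.symm hne)) h3

/-- The line and its conjugate are different. -/
theorem L_ne_σL [CharZero K] {e : K} (he : e ^ 2 = 1) :
    S.L he ≠ curveMap S.stable_σ (S.L he) := by
  intro h
  have h1 : S.x ∈ mx (curveMap S.stable_σ (S.L he)).1 := by
    rw [← h]
    exact S.x_mem_L he
  rw [curveMap_val, mem_mx_mp, S.σ_symm, S.σ_x] at h1
  -- then `a * (x + x') = -b` lies in the maximal ideal, as well as `x`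
  have hloc := isLocalRing_of_mem (S.L he).2.mem
  have hmem : ∀ i, S.c i ∈ (S.L he).1 := S.L_coords he
  have hy : S.y ∈ (S.L he).1 := hmem 1
  have hz : S.z ∈ (S.L he).1 := hmem 2
  have h2 := mx_add hloc (S.x_mem_L he) h1
  have h3 := mx_mul_left (S.a_mem hy hz) h2
  rw [S.vieta_add] at h3
  have h4 := mx_neg h3
  rw [neg_neg] at h4
  have h5 := mx_add hloc (mx_mul_left (S.a_mem hy hz) (S.x_mem_L he)) h4
  exact S.ax_b_not_mem_L he h5

end Surf

end Pool.Agent.H90ZD
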