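import Pool.Agent.H90ZD.SurfConj

open Filter Topology

namespace Pool.Agent.H90ZD

variable {K F : Type} [Field K] [Field F] [Algebra K F]

namespace Surf

variable (S : Surf K F)

variable (K) in
/-- The substitution `x = y + z + 1`. -/
noncomputable def ρD : MvPolynomial (Fin 3) K →ₐ[K] Polynomial (Polynomial K) :=
  MvPolynomial.aeval ![Polynomial.X + Polynomial.C Polynomial.X + 1, Polynomial.X,
    Polynomial.C Polynomial.X]

theorem ρD_X0 : ρD K (MvPolynomial.X 0) = Polynomial.X + Polynomial.C Polynomial.X + 1 :=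
  MvPolynomial.aeval_X _ _

theorem ρD_X1 : ρD K (MvPolynomial.X 1) = Polynomial.X := MvPolynomial.aeval_X _ _

theorem ρD_X2 : ρD K (MvPolynomial.X 2) = Polynomial.C Polynomial.X := MvPolynomial.aeval_X _ _

theorem ρD_fp : ρD K (fp K) = (Polynomial.X + Polynomial.C Polynomial.X + 1) * pD K := by
  unfold fp pD
  simp only [map_add, map_sub, map_mul, map_pow, map_one, map_ofNat, ρD_X0, ρD_X1, ρD_X2]
  ring

variable (K) in
/-- The coordinate ring of the affine curve `D`. -/
abbrev ED : Type := Polynomial (Polynomial K) ⧸ Ideal.span {pD K}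

instance instIsDomainED [CharZero K] : IsDomain (ED K) := by
  have hp := prime_pD K
  have : (Ideal.span {pD K}).IsPrime := (Ideal.span_singleton_prime hp.ne_zero).2 hp
  exact Ideal.Quotient.isDomain _

variable (K) in
noncomputable def εD : MvPolynomial (Fin 3) K →ₐ[K] ED K :=
  (Ideal.Quotient.mkₐ K (Ideal.span {pD K})).comp (ρD K)

theorem εD_eq_zero {p : MvPolynomial (Fin 3) K} : εD K p = 0 ↔ pD K ∣ ρD K p := by
  change Ideal.Quotient.mk (Ideal.span {pD K}) (ρD K p) = 0 ↔ _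
  rw [Ideal.Quotient.eq_zero_iff_mem, Ideal.mem_span_singleton]

variable (K) in
theorem εD_fp : εD K (fp K) = 0 := by
  rw [εD_eq_zero, ρD_fp]
  exact dvd_mul_left _ _

variable (K) in
/-- The section of `ρD`. -/
noncomputable def ιD : Polynomial (Polynomial K) →ₐ[K] MvPolynomial (Fin 3) K :=
  Polynomial.eval₂AlgHom (Polynomial.aeval (MvPolynomial.X 2)) (MvPolynomial.X 1)
    (fun _ => Commute.all _ _)

theorem ιD_X : ιD K Polynomial.X = MvPolynomial.X 1 := by
  unfold ιD
  simp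

theorem ιD_CX : ιD K (Polynomial.C Polynomial.X) = MvPolynomial.X 2 := by
  unfold ιD
  simp

theorem exists_of_εD {p : MvPolynomial (Fin 3) K} (hp : εD K p = 0) :
    ∃ α β, p = α * (MvPolynomial.X 0 - MvPolynomial.X 1 - MvPolynomial.X 2 - 1) +
      β * ιD K (pD K) := by
  have h := sub_mem_of_gens ((ιD K).comp (ρD K)) (Ideal.span
    {MvPolynomial.X 0 - MvPolynomial.X 1 - MvPolynomial.X 2 - 1}) (by
      intro i
      fin_cases i
      · change MvPolynomial.X 0 - ιD K (ρD K (MvPolynomial.X 0)) ∈ _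
        rw [ρD_X0, map_add, map_add, ιD_X, ιD_CX, map_one]
        have e1 : (MvPolynomial.X 0 - (MvPolynomial.X 1 + MvPolynomial.X 2 + 1) :
          MvPolynomial (Fin 3) K) = MvPolynomial.X 0 - MvPolynomial.X 1 - MvPolynomial.X 2 - 1 := by
            ring
        rw [e1]
        exact Ideal.subset_span rfl
      · change MvPolynomial.X 1 - ιD K (ρD K (MvPolynomial.X 1)) ∈ _
        rw [ρD_X1, ιD_X, sub_self]
        exact Ideal.zero_mem _
      · change MvPolynomial.X 2 - ιD K (ρD K (MvPolynomial.X 2)) ∈ _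
        rw [ρD_X2, ιD_CX, sub_self]
        exact Ideal.zero_mem _) p
  rw [AlgHom.comp_apply, Ideal.mem_span_singleton'] at h
  obtain ⟨α, h⟩ := h
  rw [εD_eq_zero] at hp
  obtain ⟨g, hg⟩ := hp
  refine ⟨α, ιD K g, ?_⟩
  rw [hg, map_mul] at h
  linear_combination -h

/-- The equation of `D`. -/
def P : F := S.z * S.y ^ 3 + (3 * S.z ^ 2 + S.z) * S.y ^ 2 + (S.z ^ 3 + S.z ^ 2 + 4) * S.y +
  4 * S.z

theorem π_ιD : S.π (ιD K (pD K)) = S.P := by
  have h : (S.π.comp (ιD K)) (pD K) = S.P := by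
    have h1 : (S.π.comp (ιD K)) Polynomial.X = S.y := by
      rw [AlgHom.comp_apply, ιD_X, S.π_X]
      rfl
    have h2 : (S.π.comp (ιD K)) (Polynomial.C Polynomial.X) = S.z := by
      rw [AlgHom.comp_apply, ιD_CX, S.π_X]
      rfl
    unfold pD P
    simp only [map_add, map_mul, map_pow, map_ofNat]
    simp only [h1, h2]
  exact h

/-- The function `x * (w - 1)`. -/
def en : F := S.y + S.z + 1 - S.x

theorem π_en : S.π (MvPolynomial.X 0 - MvPolynomial.X 1 - MvPolynomial.X 2 - 1) = -S.en := by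
  simp only [map_sub, map_one, S.π_X]
  unfold en
  change S.x - S.y - S.z - 1 = _
  ring

/-- The key relation. -/
theorem key_rel : (S.y + S.z + 1) * S.P =
    S.en * (S.a * (S.x + (S.y + S.z + 1)) + S.b) := by
  have h := S.quad
  unfold en P a b
  unfold a b d at h
  linear_combination h

theorem en_ne_zero : S.en ≠ 0 := by
  intro h
  have h1 := S.π_en
  rw [h, neg_zero] at h1
  refine S.π_ne_zero (p := MvPolynomial.X 0 - MvPolynomial.X 1 - MvPolynomial.X 2 - 1) ?_ ?_ h1
  · intro h0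
    have := congrArg (MvPolynomial.eval ![0, 0, 0]) h0
    simp at this
  · have h2 : (2 : Fin 3) = Fin.succ 1 := rfl
    have h3 : (1 : Fin 3) = Fin.succ 0 := rfl
    rw [map_sub, map_sub, map_sub, map_one, MvPolynomial.finSuccEquiv_X_zero, h2, h3,
      MvPolynomial.finSuccEquiv_X_succ, MvPolynomial.finSuccEquiv_X_succ]
    compute_degree

theorem not_dvd_of_degree [CharZero K] {q : Polynomial (Polynomial K)} (hq : q ≠ 0)
    (hd : q.natDegree ≤ 1) : ¬ pD K ∣ q := by
  intro h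
  have := Polynomial.natDegree_le_of_dvd h hq
  rw [pD_natDegree] at this
  omega

variable [CharZero K]

/-- The curve `D`. -/
noncomputable def Dpt : Subalgebra K F := S.pt (E := ED K) (εD K) (εD_fp K)

noncomputable def D : Curve S.X := ⟨S.Dpt, by
  apply S.isCurve_pt (E := ED K) (εD_fp K)
  · refine ⟨MvPolynomial.X 0 - MvPolynomial.X 1 - MvPolynomial.X 2 - 1, ?_, ?_⟩
    · rw [εD_eq_zero, map_sub, map_sub, map_sub, map_one, ρD_X0, ρD_X1, ρD_X2]
      have : (Polynomial.X + Polynomial.C Polynomial.X + 1 - Polynomial.X -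
        Polynomial.C Polynomial.X - 1 : Polynomial (Polynomial K)) = 0 := by ring
      rw [this]
      exact dvd_zero _
    · rw [S.π_en]
      exact neg_ne_zero.2 S.en_ne_zero
  · refine ⟨MvPolynomial.X 1, fun c h => ?_⟩
    have h1 : εD K (MvPolynomial.X 1 - MvPolynomial.C c) = 0 := by
      rw [map_sub, h, sub_eq_zero]
      exact ((εD K).commutes c).symm
    rw [εD_eq_zero, map_sub, ρD_X1] at h1
    have h2 : ρD K (MvPolynomial.C c) = Polynomial.C (Polynomial.C c) := (ρD K).commutes c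
    rw [h2] at h1
    refine not_dvd_of_degree (Polynomial.X_sub_C_ne_zero _) ?_ h1
    rw [Polynomial.natDegree_X_sub_C]⟩

theorem π_mem_mx_D {p : MvPolynomial (Fin 3) K} : S.π p ∈ mx S.D.1 ↔ εD K p = 0 :=
  S.π_mem_mx_pt (E := ED K) (εD_fp K)

theorem π_mem_D (p : MvPolynomial (Fin 3) K) : S.π p ∈ S.D.1 :=
  S.π_mem_pt (E := ED K) (εD_fp K) p

theorem D_coords (i : Fin 3) : S.c i ∈ S.D.1 := by
  rw [← S.π_X]
  exact S.π_mem_D _

theorem en_mem_D : S.en ∈ mx S.D.1 := by
  have h : S.π (MvPolynomial.X 0 - MvPolynomial.X 1 - MvPolynomial.X 2 - 1) ∈ mx S.D.1 := by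
    rw [S.π_mem_mx_D, εD_eq_zero, map_sub, map_sub, map_sub, map_one, ρD_X0, ρD_X1, ρD_X2]
    have : (Polynomial.X + Polynomial.C Polynomial.X + 1 - Polynomial.X -
      Polynomial.C Polynomial.X - 1 : Polynomial (Polynomial K)) = 0 := by ring
    rw [this]
    exact dvd_zero _
  rw [S.π_en] at h
  have := mx_neg h
  rwa [neg_neg] at this

theorem s1_not_mem_D : S.y + S.z + 1 ∉ mx S.D.1 := by
  intro h
  have e1 : S.y + S.z + 1 = S.π (MvPolynomial.X 1 + MvPolynomial.X 2 + 1) := by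
    simp only [map_add, map_one, S.π_X]
    rfl
  rw [e1, S.π_mem_mx_D, εD_eq_zero] at h
  simp only [map_add, map_one, ρD_X1, ρD_X2] at h
  have e2 : (Polynomial.X + Polynomial.C Polynomial.X + 1 : Polynomial (Polynomial K)) =
      Polynomial.X + Polynomial.C (Polynomial.X + 1) := by
    rw [map_add, map_one]
    ring
  rw [e2] at h
  refine not_dvd_of_degree (Polynomial.X_add_C_ne_zero _) ?_ h
  rw [Polynomial.natDegree_X_add_C]

theorem x_not_mem_D : S.x ∉ mx S.D.1 := by
  intro h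
  apply S.s1_not_mem_D
  have h1 := mx_add (isLocalRing_of_mem S.D.2.mem) h S.en_mem_D
  have e1 : S.x + S.en = S.y + S.z + 1 := by
    unfold en
    ring
  rwa [e1] at h1

theorem P_div_en_mem_D : S.P / S.en ∈ S.D.1 := by
  have hen := S.en_ne_zero
  have hs := S.s1_not_mem_D
  have hs0 := ne_zero_of_not_mem_mx hs
  have hmem : ∀ i, S.c i ∈ S.D.1 := S.D_coords
  have hx : S.x ∈ S.D.1 := hmem 0
  have hy : S.y ∈ S.D.1 := hmem 1
  have hz : S.z ∈ S.D.1 := hmem 2
  have hs1 : S.y + S.z + 1 ∈ S.D.1 :=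
    Subalgebra.add_mem _ (Subalgebra.add_mem _ hy hz) (Subalgebra.one_mem _)
  have e1 : S.P / S.en = (S.a * (S.x + (S.y + S.z + 1)) + S.b) * (S.y + S.z + 1)⁻¹ := by
    have := S.key_rel
    field_simp
    linear_combination this
  rw [e1]
  exact Subalgebra.mul_mem _ (Subalgebra.add_mem _ (Subalgebra.mul_mem _ (S.a_mem hy hz)
    (Subalgebra.add_mem _ hx hs1)) (S.b_mem hy hz)) (inv_mem_of_not_mem_mx hs1 hs)

theorem uniformizer_D : ∀ g ∈ mx S.D.1, g / S.en ∈ S.D.1 := by
  apply S.div_mem_pt (E := ED K) (εD_fp K)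
  intro p hp
  obtain ⟨α, β, rfl⟩ := exists_of_εD hp
  have hen := S.en_ne_zero
  rw [map_add, map_mul, map_mul, S.π_en, S.π_ιD]
  have e1 : (S.π α * -S.en + S.π β * S.P) / S.en = -S.π α + S.π β * (S.P / S.en) := by
    field_simp
  rw [e1]
  exact Subalgebra.add_mem _ (Subalgebra.neg_mem _ (S.π_mem_D _))
    (Subalgebra.mul_mem _ (S.π_mem_D _) S.P_div_en_mem_D)

theorem oz_en_D : oz S.D.1 S.en = 1 :=
  oz_uniformizer (isLocalRing_of_mem S.D.2.mem) S.en_mem_D S.uniformizer_D S.en_ne_zero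

variable [IsAlgClosed K]

theorem eq_D {C : Curve S.X} (hc : ∀ i, S.c i ∈ C.1) (h1 : S.en ∈ mx C.1) (h2 : S.P ∈ mx C.1) :
    C = S.D := by
  have hloc := isLocalRing_of_mem C.2.mem
  apply Subtype.ext
  refine eq_of_curve_le S.surface C.2 S.D.2.mem S.D.2.ne_top ?_
  refine S.le_pt (E := ED K) (εD_fp K) C.2.mem hc ?_
  intro p hp
  obtain ⟨α, β, rfl⟩ := exists_of_εD hp
  rw [map_add, map_mul, map_mul, S.π_en, S.π_ιD]
  exact mx_add hloc (mx_mul_left (π_mem_of_coords hc α) (mx_neg h1))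
    (mx_mul_left (π_mem_of_coords hc β) h2)

/-- The zeros of `y + z + 1 - x` in the affine part. -/
theorem en_zero {C : Curve S.X} (hc : ∀ i, S.c i ∈ C.1) (h : S.en ∈ mx C.1) :
    C = S.D ∨ C = S.L (e := (-1 : K)) (by norm_num) := by
  have hloc := isLocalRing_of_mem C.2.mem
  have hx : S.x ∈ C.1 := hc 0
  have hy : S.y ∈ C.1 := hc 1
  have hz : S.z ∈ C.1 := hc 2
  have hs1 : S.y + S.z + 1 ∈ C.1 := C.1.add_mem (C.1.add_mem hy hz) C.1.one_mem
  have hP : S.P ∈ C.1 := by
    rw [← S.π_ιD]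
    exact π_mem_of_coords hc _
  have h1 : (S.y + S.z + 1) * S.P ∈ mx C.1 := by
    rw [S.key_rel]
    exact mx_mul_right h (C.1.add_mem (C.1.mul_mem (S.a_mem hy hz) (C.1.add_mem hx hs1))
      (S.b_mem hy hz))
  rcases mem_mx_or_of_mul hs1 hP h1 with h2 | h2
  · right
    have hxmx : S.x ∈ mx C.1 := by
      have e1 : S.x = (S.y + S.z + 1) - S.en := by
        unfold en
        ring
      rw [e1]
      exact mx_sub hloc h2 h
    apply S.eq_L (e := (-1 : K)) (by norm_num) hxmx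
    rw [map_neg, map_one, sub_neg_eq_add]
    exact h2
  · left
    exact S.eq_D hc h h2

end Surf

end Pool.Agent.H90ZD
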