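import Pool.Agent.H90ZD.SurfFib

open Filter Topology

namespace Pool.Agent.H90ZD

variable {K F : Type} [Field K] [Field F] [Algebra K F]

namespace Surf

variable (S : Surf K F)

theorem model₀ : Model S.V₀ = S.X := rfl

variable [IsAlgClosed K] [CharZero K]

theorem deg_T (γ : N1 S.X) : degN S.surface S.fg₀ S.model₀ (nMap S.stable_τ γ) =
    degN S.surface S.fg₀ S.model₀ γ := by
  obtain ⟨Z, rfl⟩ := Submodule.Quotient.mk_surjective _ γ
  change degN S.surface S.fg₀ S.model₀ (nMap S.stable_τ (cls Z)) = degN S.surface S.fg₀ S.model₀ (cls Z)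
  rw [degN_cls_apply, degN_cls]
  refine Finsupp.sum_congr fun C _ => ?_
  congr 1
  have h := degC_mp (θ := S.τ) (V := S.V₀) (C := C.1)
  rw [S.ms_τ_V₀] at h
  exact h

theorem deg_cc (C : Curve S.X) : degN S.surface S.fg₀ S.model₀ (cc C) = degC S.V₀ C.1 := by
  unfold cc
  rw [degN_cls, Finsupp.sum_single_index (by simp), one_mul]

theorem deg_h₁ : 0 < degN S.surface S.fg₀ S.model₀ S.h₁ := by
  unfold h₁
  rw [map_add, deg_cc, deg_cc]
  have h1 := one_le_degC S.surface S.fg₀ S.model₀ S.L₁.2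
  have h2 := one_le_degC S.surface S.fg₀ S.model₀ S.L₁'.2
  linarith

theorem deg_α : 0 < degN S.surface S.fg₀ S.model₀ S.α := by
  have h1 := S.deg_T S.h₁
  have h2 := S.deg_T S.h₂
  rw [T_h₁] at h1
  rw [T_h₂, h1] at h2
  have h3 := S.deg_h₁
  unfold α
  rw [map_add, map_sub, map_smul, map_smul, h1, h2, smul_eq_mul, smul_eq_mul]
  have h4 := Real.goldenRatio_sq
  have h5 := Real.goldenRatio_pos
  have e : Real.goldenRatio ^ 2 * degN S.surface S.fg₀ S.model₀ S.h₁ -
      degN S.surface S.fg₀ S.model₀ S.h₁ + Real.goldenRatio * degN S.surface S.fg₀ S.model₀ S.h₁ =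
      2 * Real.goldenRatio * degN S.surface S.fg₀ S.model₀ S.h₁ := by
    rw [h4]
    ring
  rw [e]
  positivity

/-- The surface satisfies all the hypotheses of the criterion. -/
noncomputable def data : Data S.X where
  surface := S.surface
  V₀ := S.V₀
  V₁ := S.V₀ * S.Φ
  V₂ := S.V₀ * S.Ψ
  fg₀ := S.fg₀
  fg₁ := S.fg₀.mul S.fgΦ
  fg₂ := S.fg₀.mul S.fgΨ
  model₀ := S.model₀
  model₁ := S.modelΦ
  model₂ := S.modelΨ
  C₁ := S.L₁
  D := S.D
  deg_C₁ := S.deg_lt_L
  deg_D := S.deg_eq_D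
  deg_le := fun _ hC => S.deg_le_other hC
  pencil := S.pencil_D
  big := fun _ _ ha hb => S.isBig_ab ha hb
  α := S.α
  θ := fun i => S.gp (6 * (i + 1))
  hθ := fun _ => S.stable_gp _
  p := fun _ => 2
  q := fun i => Nat.fib (6 * (i + 1)) * Nat.fib (6 * (i + 1) + 1)
  hp := fun _ => two_pos
  hq := fun i => Nat.mul_pos (Nat.fib_pos.2 (by omega)) (Nat.fib_pos.2 (by omega))
  lim := S.lim_α
  ψ := fun n => (S.gp n).symm
  hψ := fun n => (S.stable_gp n).symm
  s := fun n => (Real.goldenRatio ^ (2 * n))⁻¹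
  eig := S.gp_symm_α
  hs := tendsto_s
  deg_pos := S.deg_α

end Surf

end Pool.Agent.H90ZD
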