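import Pool.Agent.H90ZD.SurfD

open Filter Topology

namespace Pool.Agent.H90ZD

variable {K F : Type} [Field K] [Field F] [Algebra K F]

/-- The cycle of poles of a rational function. -/
noncomputable def polar [IsAlgClosed K] {X : Set (Subalgebra K F)} (hX : IsProjectiveSurface X)
    {h : F} (hh : h ≠ 0) : Curve X →₀ ℕ :=
  (principal_cls hX hh).choose.mapRange (fun n : ℤ => (-n).toNat) (by simp)

theorem polar_apply [IsAlgClosed K] {X : Set (Subalgebra K F)} (hX : IsProjectiveSurface X)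
    {h : F} (hh : h ≠ 0) (C : Curve X) : polar hX hh C = (-zord C.1 h).toNat := by
  unfold polar
  rw [Finsupp.mapRange_apply, (principal_cls hX hh).choose_spec.1 C]

/-- `t` generates the maximal ideal of `O`. -/
structure IsUnif (O : Subalgebra K F) (t : F) : Prop where
  mem : t ∈ mx O
  div_mem : ∀ g ∈ mx O, g / t ∈ O

theorem IsUnif.map {O : Subalgebra K F} {t : F} (h : IsUnif O t) (θ : F ≃ₐ[K] F) :
    IsUnif (mp θ O) (θ t) := by
  refine ⟨apply_mem_mx.2 h.mem, fun g hg => ?_⟩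
  rw [mem_mx_mp] at hg
  rw [mem_mp, map_div₀]
  simpa using h.div_mem _ hg

theorem IsUnif.oz {O : Subalgebra K F} {t : F} (hloc : IsLocalRing O) (h : IsUnif O t)
    (ht : t ≠ 0) : oz O t = 1 := oz_uniformizer hloc h.mem h.div_mem ht

theorem zord_coord {O : Subalgebra K F} (hO : FinOrd O) {t : F} {p q : O}
    (h : Surf.Coord O t p q) (ht : t ≠ 0) : zord O t = (oz O p : ℤ) - oz O q := by
  have hp0 : (p : F) ≠ 0 := by
    rw [← h.eq]
    exact mul_ne_zero ht h.ne
  conv_lhs => rw [h.eq_div]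
  exact zord_div hO p.2 q.2 hp0 h.ne

theorem oz_one {O : Subalgebra K F} : oz O ((1 : O) : F) = 0 := oz_unit O.one_mem one_not_mem_mx

theorem polar_coord [IsAlgClosed K] {X : Set (Subalgebra K F)} (hX : IsProjectiveSurface X)
    {t : F} (ht : t ≠ 0) {C : Curve X} {p q : C.1} (h : Surf.Coord C.1 t p q) :
    polar hX ht C = oz C.1 q := by
  rw [polar_apply, zord_coord (finOrd_curve hX C) h ht]
  rcases h.one with h1 | h1
  · rw [h1, oz_one]
    simp
  · rw [h1, oz_one]
    simp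

/-- `t` vanishes exactly on the curves `Z₁` and `Z₂`, with multiplicity one. -/
structure ZeroData {X : Set (Subalgebra K F)} (t : F) (Z₁ Z₂ : Curve X) : Prop where
  ne_zero : t ≠ 0
  ne : Z₁ ≠ Z₂
  unif₁ : IsUnif Z₁.1 t
  unif₂ : IsUnif Z₂.1 t
  zero : ∀ C : Curve X, t ∈ mx C.1 → C = Z₁ ∨ C = Z₂

theorem ZeroData.map {X : Set (Subalgebra K F)} {t : F} {Z₁ Z₂ : Curve X} (h : ZeroData t Z₁ Z₂)
    {θ : F ≃ₐ[K] F} (hθ : Stable θ X) : ZeroData (θ t) (curveMap hθ Z₁) (curveMap hθ Z₂) := by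
  refine ⟨?_, ?_, h.unif₁.map θ, h.unif₂.map θ, fun C hC => ?_⟩
  · rw [Ne, map_eq_zero_iff θ θ.injective]
    exact h.ne_zero
  · exact fun h1 => h.ne ((curveMap hθ).injective h1)
  · have e : C = curveMap hθ ((curveMap hθ).symm C) := ((curveMap hθ).apply_symm_apply C).symm
    rw [e, curveMap_val, apply_mem_mx] at hC
    rcases h.zero _ hC with h1 | h1
    · left
      rw [e, h1]
    · right
      rw [e, h1]

theorem ZeroData.oz_eq {X : Set (Subalgebra K F)} (hX : IsProjectiveSurface X) {t : F}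
    {Z₁ Z₂ : Curve X} (h : ZeroData t Z₁ Z₂) {C : Curve X} {p q : C.1}
    (hc : Surf.Coord C.1 t p q) :
    oz C.1 p = (Finsupp.single Z₁ 1 + Finsupp.single Z₂ 1 : Curve X →₀ ℕ) C := by
  classical
  rw [Finsupp.add_apply]
  have key : ∀ Z : Curve X, IsUnif Z.1 t → ∀ (p q : Z.1), Surf.Coord Z.1 t p q → oz Z.1 p = 1 := by
    intro Z hZ p q hc
    have hp := hc.p_mem_mx hZ.mem
    have hq := Surf.Coord.q_one hc hp
    have e := hc.eq
    rw [hq] at e
    have e2 : (p : F) = t := by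
      rw [← e]
      change t * 1 = t
      rw [mul_one]
    rw [e2]
    exact hZ.oz (isLocalRing_point hX Z.2.mem) h.ne_zero
  by_cases h1 : C = Z₁
  · subst h1
    rw [Finsupp.single_eq_same, Finsupp.single_eq_of_ne h.ne, key _ h.unif₁ p q hc, add_zero]
  · by_cases h2 : C = Z₂
    · subst h2
      rw [Finsupp.single_eq_same, Finsupp.single_eq_of_ne (Ne.symm h.ne), key _ h.unif₂ p q hc]
    · rw [Finsupp.single_eq_of_ne h1, Finsupp.single_eq_of_ne h2]
      apply oz_unit p.2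
      intro hp
      have hq := Surf.Coord.q_one hc hp
      have e := hc.eq
      rw [hq] at e
      have e2 : (p : F) = t := by
        rw [← e]
        change t * 1 = t
        rw [mul_one]
      rw [e2] at hp
      rcases h.zero C hp with h3 | h3
      · exact h1 h3
      · exact h2 h3

theorem ZeroData.cls_eq [IsAlgClosed K] {X : Set (Subalgebra K F)} (hX : IsProjectiveSurface X)
    {t : F} {Z₁ Z₂ : Curve X} (h : ZeroData t Z₁ Z₂)
    (hc : ∀ C : Curve X, ∃ p q : C.1, Surf.Coord C.1 t p q) :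
    natCls (Finsupp.single Z₁ 1 + Finsupp.single Z₂ 1) = natCls (polar hX h.ne_zero) := by
  apply natCls_eq_of_zord hX h.ne_zero
  intro C
  obtain ⟨p, q, hpq⟩ := hc C
  rw [← h.oz_eq hX hpq, polar_coord hX h.ne_zero hpq, zord_coord (finOrd_curve hX C) hpq h.ne_zero]

namespace Surf

variable (S : Surf K F) [IsAlgClosed K] [CharZero K]

/-- The line `x = 0`, `y + z = 1`. -/
noncomputable def L₁ : Curve S.X := S.L (e := (1 : K)) (one_pow 2)

/-- The line `x = 0`, `y + z = -1`. -/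
noncomputable def L₁' : Curve S.X := S.L (e := (-1 : K)) (by norm_num)

theorem zeroData_x : ZeroData S.x S.L₁ S.L₁' := by
  refine ⟨S.x_ne_zero, ?_, ⟨S.x_mem_L _, S.uniformizer_L _⟩, ⟨S.x_mem_L _, S.uniformizer_L _⟩,
    fun C hC => S.x_zero hC⟩
  apply S.L_ne
  intro h
  have h2 : (2 : K) = 0 := by linear_combination h
  exact two_ne_zero h2

theorem coord_C (C : Curve S.X) (i : Fin 3) : ∃ p q : C.1, Coord C.1 (S.c i) p q := by
  apply exists_coord _ (S.coord C.2.mem i)
  fin_cases i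
  · exact S.x_ne_zero
  · exact S.y_ne_zero
  · exact S.z_ne_zero

theorem zeroData_y : ZeroData S.y (curveMap S.stable_τ S.L₁) (curveMap S.stable_τ S.L₁') := by
  have h := S.zeroData_x.map S.stable_τ
  rwa [S.τ_x] at h

theorem zeroData_z : ZeroData S.z (curveMap S.stable_τ (curveMap S.stable_τ S.L₁))
    (curveMap S.stable_τ (curveMap S.stable_τ S.L₁')) := by
  have h := S.zeroData_y.map S.stable_τ
  rwa [S.τ_y] at h

/-- The cycle of zeros of `y + z - e`. -/
theorem oz_s {e : K} (he : e ^ 2 = 1) {C : Curve S.X} {p₁ q₁ p₂ q₂ : C.1}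
    (h₁ : Coord C.1 S.y p₁ q₁) (h₂ : Coord C.1 S.z p₂ q₂) :
    oz C.1 ((p₁ * q₂ + p₂ * q₁ - algebraMap K C.1 e * (q₁ * q₂) : C.1) : F) =
      (Finsupp.single (S.L he) 1 + Finsupp.single (curveMap S.stable_σ (S.L he)) 1 :
        Curve S.X →₀ ℕ) C := by
  classical
  have hloc := isLocalRing_of_mem C.2.mem
  have hfin := finOrd_curve S.surface C
  obtain ⟨p₀, q₀, h₀⟩ := S.coord_C C 0
  set N : C.1 := p₁ * q₂ + p₂ * q₁ - algebraMap K C.1 e * (q₁ * q₂) with hN
  have hN' : (N : F) = (S.y + S.z - algebraMap K F e) * (q₁ * q₂) := by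
    rw [hN]
    push_cast
    rw [← h₁.eq, ← h₂.eq]
    ring
  have hs0 := S.s_ne_zero e
  -- if the form vanishes on `C`, then `y` and `z` are finite on `C`
  have hfinite : (N : F) ∈ mx C.1 → (q₁ : F) ∉ mx C.1 ∧ (q₂ : F) ∉ mx C.1 := by
    intro hNmx
    constructor
    · intro hq1
      have hp1 := h₁.p_one hq1
      have hq2 : (q₂ : F) ∈ mx C.1 := by
        rw [← residue_eq_zero] at hNmx hq1 ⊢
        rw [hN, hp1] at hNmx
        simp only [map_add, map_sub, map_mul, map_one, hq1] at hNmx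
        linear_combination hNmx
      exact S.two_inf_12 C.2 h₀ h₁ h₂ hq1 hq2
    · intro hq2
      have hp2 := h₂.p_one hq2
      have hq1 : (q₁ : F) ∈ mx C.1 := by
        rw [← residue_eq_zero] at hNmx hq2 ⊢
        rw [hN, hp2] at hNmx
        simp only [map_add, map_sub, map_mul, map_one, hq2] at hNmx
        linear_combination hNmx
      exact S.two_inf_12 C.2 h₀ h₁ h₂ hq1 hq2
  have hunitcase : ∀ Z : Curve S.X, S.y + S.z - algebraMap K F e ∈ mx Z.1 → S.y ∈ Z.1 →
      S.z ∈ Z.1 → oz Z.1 (S.y + S.z - algebraMap K F e) = 1 → Z = C → oz C.1 (N : F) = 1 := by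
    rintro Z h1 hy hz h2 rfl
    have hq1 : (q₁ : F) ∉ mx Z.1 := by
      intro hq
      have hp := h₁.p_one hq
      have e1 := h₁.eq
      rw [hp] at e1
      have e2 : S.y * (q₁ : F) ∈ mx Z.1 := mx_mul_left hy hq
      rw [e1] at e2
      exact one_not_mem_mx e2
    have hq2 : (q₂ : F) ∉ mx Z.1 := by
      intro hq
      have hp := h₂.p_one hq
      have e1 := h₂.eq
      rw [hp] at e1
      have e2 : S.z * (q₂ : F) ∈ mx Z.1 := mx_mul_left hz hq
      rw [e1] at e2
      exact one_not_mem_mx e2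
    rw [hN', oz_mul hfin h1.1 (Z.1.mul_mem q₁.2 q₂.2) hs0 (mul_ne_zero h₁.ne h₂.ne), h2,
      oz_unit (Z.1.mul_mem q₁.2 q₂.2) (not_mem_mx_mul q₁.2 q₂.2 hq1 hq2)]
  have hmemL : ∀ i, S.c i ∈ (S.L he).1 := S.L_coords he
  have hσy : S.y ∈ (curveMap S.stable_σ (S.L he)).1 := by
    rw [curveMap_val, mem_mp, S.σ_symm, S.σ_y]
    exact hmemL 1
  have hσz : S.z ∈ (curveMap S.stable_σ (S.L he)).1 := by
    rw [curveMap_val, mem_mp, S.σ_symm, S.σ_z]
    exact hmemL 2
  have hσs : S.y + S.z - algebraMap K F e ∈ mx (curveMap S.stable_σ (S.L he)).1 := by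
    rw [curveMap_val, mem_mx_mp, S.σ_symm, map_sub, map_add, S.σ_y, S.σ_z, AlgEquiv.commutes]
    exact S.s_mem_L he
  rw [Finsupp.add_apply]
  by_cases c1 : C = S.L he
  · rw [hunitcase (S.L he) (S.s_mem_L he) (hmemL 1) (hmemL 2) (S.oz_s_L he) c1.symm, c1,
      Finsupp.single_eq_same, Finsupp.single_eq_of_ne (S.L_ne_σL he), add_zero]
  · by_cases c2 : C = curveMap S.stable_σ (S.L he)
    · rw [hunitcase _ hσs hσy hσz (S.oz_s_σL he) c2.symm, c2,
        Finsupp.single_eq_same, Finsupp.single_eq_of_ne (Ne.symm (S.L_ne_σL he))]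
    · rw [Finsupp.single_eq_of_ne c1, Finsupp.single_eq_of_ne c2]
      apply oz_unit N.2
      intro hNmx
      obtain ⟨hq1, hq2⟩ := hfinite hNmx
      have hy := h₁.mem hq1
      have hz := h₂.mem hq2
      have hs : S.y + S.z - algebraMap K F e ∈ mx C.1 := by
        rw [hN'] at hNmx
        rcases mem_mx_or_of_mul (C.1.sub_mem (C.1.add_mem hy hz) (C.1.algebraMap_mem e))
          (C.1.mul_mem q₁.2 q₂.2) hNmx with h | h
        · exact h
        · exact absurd h (not_mem_mx_mul q₁.2 q₂.2 hq1 hq2)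
      rcases S.s_zero he hy hz hs with h | h
      · exact c1 h
      · exact c2 h

/-- The linear equivalence given by `y + z - e`. -/
theorem cls_s {e : K} (he : e ^ 2 = 1) :
    natCls (Finsupp.single (S.L he) 1 + Finsupp.single (curveMap S.stable_σ (S.L he)) 1) =
      natCls (polar S.surface S.y_ne_zero + polar S.surface S.z_ne_zero) := by
  have hs0 := S.s_ne_zero e
  apply natCls_eq_of_zord S.surface hs0
  intro C
  have hfin := finOrd_curve S.surface C
  obtain ⟨p₁, q₁, h₁⟩ : ∃ p q : C.1, Coord C.1 S.y p q := S.coord_C C 1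
  obtain ⟨p₂, q₂, h₂⟩ : ∃ p q : C.1, Coord C.1 S.z p q := S.coord_C C 2
  rw [← S.oz_s he h₁ h₂, Finsupp.add_apply, polar_coord S.surface S.y_ne_zero h₁,
    polar_coord S.surface S.z_ne_zero h₂]
  set N : C.1 := p₁ * q₂ + p₂ * q₁ - algebraMap K C.1 e * (q₁ * q₂) with hN
  have hN' : (N : F) = (S.y + S.z - algebraMap K F e) * (q₁ * q₂) := by
    rw [hN]
    push_cast
    rw [← h₁.eq, ← h₂.eq]
    ring
  have hq1 := h₁.ne
  have hq2 := h₂.ne
  have hN0 : (N : F) ≠ 0 := by
    rw [hN']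
    exact mul_ne_zero hs0 (mul_ne_zero hq1 hq2)
  have e2 : S.y + S.z - algebraMap K F e = (N : F) / ((q₁ : F) * q₂) := by
    rw [hN']
    field_simp
  rw [e2, zord_div hfin N.2 (C.1.mul_mem q₁.2 q₂.2) hN0 (mul_ne_zero hq1 hq2),
    oz_mul hfin q₁.2 q₂.2 hq1 hq2]

end Surf

end Pool.Agent.H90ZD
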