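import Pool.Agent.H90ZD.SurfAct

open Filter Topology

namespace Pool.Agent.H90ZD

variable {K F : Type} [Field K] [Field F] [Algebra K F]

variable {X : Set (Subalgebra K F)}

theorem nMap_trans {θ₁ θ₂ : F ≃ₐ[K] F} (h₁ : Stable θ₁ X) (h₂ : Stable θ₂ X) (γ : N1 X) :
    nMap (h₁.trans h₂) γ = nMap h₂ (nMap h₁ γ) := by
  obtain ⟨Z, rfl⟩ := Submodule.Quotient.mk_surjective _ γ
  change nMap (h₁.trans h₂) (cls Z) = nMap h₂ (nMap h₁ (cls Z))
  rw [nMap_cls, nMap_cls, nMap_cls]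
  congr 1
  ext C
  rw [cycMap_apply, cycMap_apply, cycMap_apply]
  congr 1
  apply Subtype.ext
  change mp (θ₁.trans θ₂).symm C.1 = mp θ₁.symm (mp θ₂.symm C.1)
  rw [mp_mp]
  rfl

theorem stable_refl : Stable (AlgEquiv.refl : F ≃ₐ[K] F) X := by
  intro O
  have : mp (AlgEquiv.refl : F ≃ₐ[K] F) O = O := by
    ext f
    rw [mem_mp]
    rfl
  rw [this]

theorem nMap_refl (γ : N1 X) : nMap (stable_refl (X := X)) γ = γ := by
  obtain ⟨Z, rfl⟩ := Submodule.Quotient.mk_surjective _ γ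
  change nMap _ (cls Z) = cls Z
  rw [nMap_cls]
  congr 1
  ext C
  rw [cycMap_apply]
  congr 1
  apply Subtype.ext
  change mp (AlgEquiv.refl : F ≃ₐ[K] F).symm C.1 = C.1
  ext f
  rw [mem_mp]
  rfl

namespace Surf

variable (S : Surf K F)

/-- The powers of the automorphism. -/
noncomputable def gp : ℕ → (F ≃ₐ[K] F)
  | 0 => AlgEquiv.refl
  | n + 1 => (gp n).trans (S.σ.trans S.τ)

variable [IsAlgClosed K] [CharZero K]

omit [IsAlgClosed K] in
theorem stable_g : Stable (S.σ.trans S.τ) S.X := S.stable_σ.trans S.stable_τ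

omit [IsAlgClosed K] in
theorem stable_gp : ∀ n, Stable (S.gp n) S.X
  | 0 => stable_refl
  | n + 1 => (stable_gp n).trans S.stable_g

theorem G_apply (γ : N1 S.X) : nMap S.stable_g γ = nMap S.stable_τ (nMap S.stable_σ γ) :=
  nMap_trans S.stable_σ S.stable_τ γ

theorem gp_succ (n : ℕ) (γ : N1 S.X) :
    nMap (S.stable_gp (n + 1)) γ = nMap S.stable_g (nMap (S.stable_gp n) γ) :=
  nMap_trans (S.stable_gp n) S.stable_g γ

theorem gp_zero (γ : N1 S.X) : nMap (S.stable_gp 0) γ = γ := nMap_refl γ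

theorem T_h₁ : nMap S.stable_τ S.h₁ = S.h₂ := rfl

theorem T_h₂ : nMap S.stable_τ S.h₂ = S.h₃ := rfl

theorem T_c₁ : nMap S.stable_τ S.c₁ = S.c₂ := rfl

theorem T_c₂ : nMap S.stable_τ S.c₂ = S.c₃ := rfl

theorem G_h₁ : nMap S.stable_g S.h₁ = (2 : ℝ) • S.h₁ - S.h₂ + (2 : ℝ) • S.h₃ := by
  rw [G_apply, σ_h₁, map_sub, map_add, map_smul, map_smul, T_h₁, T_h₂, T_h₃]
  module

theorem G_h₂ : nMap S.stable_g S.h₂ = S.h₃ := by
  rw [G_apply, σ_h₂, T_h₂]

theorem G_h₃ : nMap S.stable_g S.h₃ = S.h₁ := by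
  rw [G_apply, σ_h₃, T_h₃]

theorem G_c₁ : nMap S.stable_g S.c₁ = S.h₃ + S.h₁ - S.c₂ := by
  rw [G_apply, σ_c₁, map_sub, map_add, T_h₂, T_h₃, T_c₁]

theorem G_c₂ : nMap S.stable_g S.c₂ = S.h₃ - S.c₃ := by
  rw [G_apply, σ_c₂, map_sub, T_h₂, T_c₂]

theorem G_c₃ : nMap S.stable_g S.c₃ = S.h₁ - S.c₁ := by
  rw [G_apply, σ_c₃, map_sub, T_h₃, T_c₃]

/-- The part of `c₁` on which the automorphism has finite order. -/
noncomputable def r : N1 S.X := S.c₁ - (1 / 2 : ℝ) • S.h₁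

theorem G_three : nMap S.stable_g (nMap S.stable_g (nMap S.stable_g S.r)) = -S.r := by
  unfold r
  simp only [map_sub, map_add, map_smul, G_h₃, G_h₁, G_h₂, G_c₁, G_c₂, G_c₃]
  module

theorem gp_six (i : ℕ) : nMap (S.stable_gp (6 * i)) S.r = S.r := by
  induction i with
  | zero => exact S.gp_zero _
  | succ i ih =>
    have e : 6 * (i + 1) = 6 * i + 1 + 1 + 1 + 1 + 1 + 1 := by ring
    have h : nMap (S.stable_gp (6 * i + 1 + 1 + 1 + 1 + 1 + 1)) S.r = S.r := by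
      rw [gp_succ, gp_succ, gp_succ, gp_succ, gp_succ, gp_succ, ih, G_three, map_neg, map_neg,
        map_neg, G_three, neg_neg]
    have key : ∀ n m : ℕ, n = m → nMap (S.stable_gp m) S.r = S.r →
        nMap (S.stable_gp n) S.r = S.r := by
      rintro n m rfl h
      exact h
    exact key _ _ e h

theorem gp_h₁ (n : ℕ) : nMap (S.stable_gp n) S.h₁ =
    ((Nat.fib (n + 1) : ℝ) * Nat.fib (n + 2)) • S.h₁ -
      ((Nat.fib n : ℝ) * Nat.fib (n + 1)) • S.h₂ +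
      ((Nat.fib n : ℝ) * Nat.fib (n + 2)) • S.h₃ := by
  induction n with
  | zero =>
    rw [gp_zero]
    simp
  | succ n ih =>
    have h2 : (Nat.fib (n + 2) : ℝ) = Nat.fib n + Nat.fib (n + 1) := by
      exact_mod_cast Nat.fib_add_two
    have h3 : (Nat.fib (n + 1 + 2) : ℝ) = Nat.fib (n + 1) + Nat.fib (n + 2) := by
      exact_mod_cast Nat.fib_add_two (n := n + 1)
    have h4 : n + 1 + 1 = n + 2 := rfl
    rw [gp_succ, ih, map_add, map_sub, map_smul, map_smul, map_smul, G_h₁, G_h₂, G_h₃, h4, h3, h2]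
    module

/-- The limit class. -/
noncomputable def α : N1 S.X :=
  (Real.goldenRatio ^ 2) • S.h₁ - S.h₂ + Real.goldenRatio • S.h₃

theorem G_α : nMap S.stable_g S.α = (Real.goldenRatio ^ 2) • S.α := by
  unfold α
  have h := Real.goldenRatio_sq
  rw [map_add, map_sub, map_smul, map_smul, G_h₁, G_h₂, G_h₃]
  have e1 : Real.goldenRatio ^ 2 * Real.goldenRatio ^ 2 = 3 * Real.goldenRatio + 2 := by
    linear_combination (Real.goldenRatio ^ 2 + Real.goldenRatio + 2) * h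
  have e2 : Real.goldenRatio ^ 2 * Real.goldenRatio = 2 * Real.goldenRatio + 1 := by
    linear_combination (Real.goldenRatio + 1) * h
  have e3 : (Real.goldenRatio ^ 2) • ((Real.goldenRatio ^ 2) • S.h₁ - S.h₂ +
      Real.goldenRatio • S.h₃) = (Real.goldenRatio ^ 2 * Real.goldenRatio ^ 2) • S.h₁ -
      (Real.goldenRatio ^ 2) • S.h₂ + (Real.goldenRatio ^ 2 * Real.goldenRatio) • S.h₃ := by
    module
  rw [e3, e1, e2, h]
  module

theorem gp_α (n : ℕ) : nMap (S.stable_gp n) S.α = (Real.goldenRatio ^ (2 * n)) • S.α := by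
  induction n with
  | zero =>
    rw [gp_zero]
    simp
  | succ n ih =>
    rw [gp_succ, ih, map_smul, G_α, smul_smul]
    congr 1
    ring

theorem gp_symm_α (n : ℕ) :
    nMap (S.stable_gp n).symm S.α = ((Real.goldenRatio ^ (2 * n))⁻¹) • S.α := by
  rw [← nMap_symm_eq (S.stable_gp n), LinearEquiv.symm_apply_eq, map_smul, gp_α, smul_smul,
    inv_mul_cancel₀, one_smul]
  exact pow_ne_zero _ Real.goldenRatio_ne_zero

theorem tendsto_s : Tendsto (fun n : ℕ => (Real.goldenRatio ^ (2 * n))⁻¹) atTop (𝓝 0) := by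
  have h1 : Tendsto (fun n : ℕ => ((Real.goldenRatio ^ 2)⁻¹) ^ n) atTop (𝓝 0) := by
    apply tendsto_pow_atTop_nhds_zero_of_lt_one
    · positivity
    · apply inv_lt_one_of_one_lt₀
      have := Real.one_lt_goldenRatio
      nlinarith
  refine h1.congr fun n => ?_
  rw [inv_pow, ← pow_mul]

theorem c₁_eq_r : S.c₁ = (1 / 2 : ℝ) • S.h₁ + S.r := by
  unfold r
  abel

theorem gp_c₁ (i : ℕ) : nMap (S.stable_gp (6 * i)) S.c₁ =
    (1 / 2 : ℝ) • nMap (S.stable_gp (6 * i)) S.h₁ + S.r := by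
  conv_lhs => rw [S.c₁_eq_r]
  rw [map_add, map_smul, S.gp_six]

theorem fib_pos (n : ℕ) : (0 : ℝ) < Nat.fib (n + 1) := by
  exact_mod_cast Nat.fib_pos.2 (Nat.succ_pos n)

theorem scaled (i : ℕ) : (((2 : ℕ) : ℝ) /
    ((Nat.fib (6 * (i + 1)) * Nat.fib (6 * (i + 1) + 1) : ℕ) : ℝ)) •
      nMap (S.stable_gp (6 * (i + 1))) S.c₁ =
    ((Nat.fib (6 * (i + 1) + 1) / Nat.fib (6 * (i + 1)) : ℝ) *
      (Nat.fib (6 * (i + 1) + 2) / Nat.fib (6 * (i + 1) + 1))) • S.h₁ - S.h₂ +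
      ((Nat.fib (6 * (i + 1) + 2) / Nat.fib (6 * (i + 1) + 1) : ℝ)) • S.h₃ +
      (2 * ((1 : ℝ) / Nat.fib (6 * (i + 1))) * (1 / Nat.fib (6 * (i + 1) + 1))) • S.r := by
  rw [gp_c₁, gp_h₁]
  have e : 6 * (i + 1) = (6 * i + 5) + 1 := by ring
  have h1 : (0 : ℝ) < Nat.fib (6 * (i + 1)) := by
    rw [e]
    exact fib_pos _
  have h2 : (0 : ℝ) < Nat.fib (6 * (i + 1) + 1) := fib_pos _
  push_cast
  generalize (Nat.fib (6 * (i + 1)) : ℝ) = u at h1 ⊢
  generalize (Nat.fib (6 * (i + 1) + 1) : ℝ) = v at h2 ⊢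
  generalize (Nat.fib (6 * (i + 1) + 2) : ℝ) = t
  have hu := h1.ne'
  have hv := h2.ne'
  have e1 : (2 : ℝ) / (u * v) * (1 / 2) * (v * t) = v / u * (t / v) := by
    field_simp
  have e2 : (2 : ℝ) / (u * v) * (1 / 2) * (u * v) = 1 := by
    field_simp
  have e3 : (2 : ℝ) / (u * v) * (1 / 2) * (u * t) = t / v := by
    field_simp
  have e4 : (2 : ℝ) / (u * v) = 2 * (1 / u) * (1 / v) := by
    field_simp
  rw [smul_add, smul_smul, smul_add, smul_sub, smul_smul, smul_smul, smul_smul, e1, e2, e3, e4,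
    one_smul]

theorem tendsto_idx : Tendsto (fun i : ℕ => 6 * (i + 1)) atTop atTop :=
  tendsto_atTop_mono (fun i => by
    change i ≤ 6 * (i + 1)
    omega) tendsto_id

theorem tendsto_inv_fib : Tendsto (fun n : ℕ => (1 : ℝ) / Nat.fib n) atTop (𝓝 0) := by
  have h1 : Tendsto (fun n : ℕ => (Nat.fib n : ℝ)) atTop atTop := by
    apply tendsto_natCast_atTop_atTop.comp
    refine tendsto_atTop_mono' atTop ?_ (tendsto_sub_atTop_nat 1)
    filter_upwards [eventually_ge_atTop 5] with n hn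
    exact le_trans (Nat.sub_le _ _) (Nat.le_fib_self hn)
  exact h1.inv_tendsto_atTop.congr fun n => by simp

theorem lim_α : Tendsto (fun i : ℕ => (((2 : ℕ) : ℝ) /
    ((Nat.fib (6 * (i + 1)) * Nat.fib (6 * (i + 1) + 1) : ℕ) : ℝ)) •
      nMap (S.stable_gp (6 * (i + 1))) S.c₁) atTop (𝓝 S.α) := by
  have h1 : Tendsto (fun i : ℕ => (Nat.fib (6 * (i + 1) + 1) / Nat.fib (6 * (i + 1)) : ℝ)) atTop
      (𝓝 Real.goldenRatio) := tendsto_fib_succ_div_fib_atTop.comp tendsto_idx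
  have h2 : Tendsto (fun i : ℕ => (Nat.fib (6 * (i + 1) + 2) / Nat.fib (6 * (i + 1) + 1) : ℝ)) atTop
      (𝓝 Real.goldenRatio) :=
    tendsto_fib_succ_div_fib_atTop.comp ((tendsto_add_atTop_nat 1).comp tendsto_idx)
  have h3 : Tendsto (fun i : ℕ => (1 : ℝ) / Nat.fib (6 * (i + 1))) atTop (𝓝 0) :=
    tendsto_inv_fib.comp tendsto_idx
  have h4 : Tendsto (fun i : ℕ => (1 : ℝ) / Nat.fib (6 * (i + 1) + 1)) atTop (𝓝 0) :=
    tendsto_inv_fib.comp ((tendsto_add_atTop_nat 1).comp tendsto_idx)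
  have h5 : Tendsto (fun i : ℕ => ((Nat.fib (6 * (i + 1) + 1) / Nat.fib (6 * (i + 1)) : ℝ) *
      (Nat.fib (6 * (i + 1) + 2) / Nat.fib (6 * (i + 1) + 1))) • S.h₁ - S.h₂ +
      ((Nat.fib (6 * (i + 1) + 2) / Nat.fib (6 * (i + 1) + 1) : ℝ)) • S.h₃ +
      (2 * ((1 : ℝ) / Nat.fib (6 * (i + 1))) * (1 / Nat.fib (6 * (i + 1) + 1))) • S.r) atTop
      (𝓝 ((Real.goldenRatio * Real.goldenRatio) • S.h₁ - S.h₂ + Real.goldenRatio • S.h₃ +
        (2 * (0 : ℝ) * 0) • S.r)) :=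
    ((((h1.mul h2).smul_const S.h₁).sub_const S.h₂).add (h2.smul_const S.h₃)).add
      (((h3.const_mul 2).mul h4).smul_const S.r)
  have e : (Real.goldenRatio * Real.goldenRatio) • S.h₁ - S.h₂ + Real.goldenRatio • S.h₃ +
        (2 * (0 : ℝ) * 0) • S.r = S.α := by
    unfold α
    rw [mul_zero, zero_smul, add_zero, pow_two]
  rw [e] at h5
  exact h5.congr fun i => (S.scaled i).symm

end Surf

end Pool.Agent.H90ZD
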