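import Pool.Agent.H90ZD.SurfPt

open Filter Topology

namespace Pool.Agent.H90ZD

variable {K F : Type} [Field K] [Field F] [Algebra K F]

/-- Congruences modulo an ideal for endomorphisms of a polynomial ring. -/
theorem sub_mem_of_gens (φ : MvPolynomial (Fin 3) K →ₐ[K] MvPolynomial (Fin 3) K)
    (I : Ideal (MvPolynomial (Fin 3) K))
    (h : ∀ i, MvPolynomial.X i - φ (MvPolynomial.X i) ∈ I) (p : MvPolynomial (Fin 3) K) :
    p - φ p ∈ I := by
  induction p using MvPolynomial.induction_on with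
  | C a =>
    have : φ (MvPolynomial.C a) = MvPolynomial.C a := φ.commutes a
    rw [this, sub_self]
    exact I.zero_mem
  | add p q hp hq =>
    rw [map_add]
    have e : p + q - (φ p + φ q) = (p - φ p) + (q - φ q) := by ring
    rw [e]
    exact I.add_mem hp hq
  | mul_X p i hp =>
    rw [map_mul]
    have e : p * MvPolynomial.X i - φ p * φ (MvPolynomial.X i) =
        MvPolynomial.X i * (p - φ p) + φ p * (MvPolynomial.X i - φ (MvPolynomial.X i)) := by ring
    rw [e]
    exact I.add_mem (I.mul_mem_left _ hp) (I.mul_mem_left _ (h i))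

namespace Surf

variable (S : Surf K F)

theorem Coord.mem {O : Subalgebra K F} {t : F} {p q : O} (h : Coord O t p q)
    (hq : (q : F) ∉ mx O) : t ∈ O := by
  rw [h.eq_div, div_eq_mul_inv]
  exact O.mul_mem p.2 (inv_mem_of_not_mem_mx q.2 hq)

theorem Coord.p_mem_mx {O : Subalgebra K F} {t : F} {p q : O} (h : Coord O t p q)
    (ht : t ∈ mx O) : (p : F) ∈ mx O := by
  rw [← h.eq]
  exact mx_mul_right ht q.2

section Line

variable (e : K)

/-- The homomorphism defining the line `x = 0`, `y + z = e`. -/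
noncomputable def εL : MvPolynomial (Fin 3) K →ₐ[K] Polynomial K :=
  MvPolynomial.aeval ![0, Polynomial.X, Polynomial.C e - Polynomial.X]

theorem εL_X0 : εL e (MvPolynomial.X 0) = 0 := MvPolynomial.aeval_X _ _

theorem εL_X1 : εL e (MvPolynomial.X 1) = Polynomial.X := MvPolynomial.aeval_X _ _

theorem εL_X2 : εL e (MvPolynomial.X 2) = Polynomial.C e - Polynomial.X := MvPolynomial.aeval_X _ _

theorem εL_C (r : K) : εL e (MvPolynomial.C r) = Polynomial.C r := (εL e).commutes r

theorem εL_fp (he : e ^ 2 = 1) : εL e (fp K) = 0 := by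
  unfold fp
  simp only [map_add, map_sub, map_mul, map_pow, map_one, εL_X0, εL_X1, εL_X2]
  have : (Polynomial.C e) ^ 2 = (1 : Polynomial K) := by
    rw [← map_pow, he, map_one]
  linear_combination this

theorem εL_rename (p : MvPolynomial (Fin 2) K) : εL e (MvPolynomial.rename Fin.succ p) =
    MvPolynomial.aeval ![Polynomial.X, Polynomial.C e - Polynomial.X] p := by
  unfold εL
  rw [MvPolynomial.aeval_rename]
  congr 1

theorem exists_of_εL {p : MvPolynomial (Fin 3) K} (hp : εL e p = 0) :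
    ∃ α β, p = α * MvPolynomial.X 0 +
      β * (MvPolynomial.X 1 + MvPolynomial.X 2 - MvPolynomial.C e) := by
  let ι : Polynomial K →ₐ[K] MvPolynomial (Fin 3) K := Polynomial.aeval (MvPolynomial.X 1)
  have h := sub_mem_of_gens (ι.comp (εL e)) (Ideal.span {MvPolynomial.X 0,
    MvPolynomial.X 1 + MvPolynomial.X 2 - MvPolynomial.C e}) (by
      intro i
      fin_cases i
      · change MvPolynomial.X 0 - ι (εL e (MvPolynomial.X 0)) ∈ _
        rw [εL_X0, map_zero, sub_zero]
        exact Ideal.subset_span (Set.mem_insert _ _)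
      · change MvPolynomial.X 1 - ι (εL e (MvPolynomial.X 1)) ∈ _
        rw [εL_X1]
        have : ι Polynomial.X = MvPolynomial.X 1 := Polynomial.aeval_X _
        rw [this, sub_self]
        exact Ideal.zero_mem _
      · change MvPolynomial.X 2 - ι (εL e (MvPolynomial.X 2)) ∈ _
        rw [εL_X2, map_sub]
        have h1 : ι Polynomial.X = MvPolynomial.X 1 := Polynomial.aeval_X _
        have h2 : ι (Polynomial.C e) = MvPolynomial.C e := Polynomial.aeval_C _ _
        rw [h1, h2]
        have e1 : (MvPolynomial.X 2 - (MvPolynomial.C e - MvPolynomial.X 1) :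
          MvPolynomial (Fin 3) K) = MvPolynomial.X 1 + MvPolynomial.X 2 - MvPolynomial.C e := by
            ring
        rw [e1]
        exact Ideal.subset_span (Set.mem_insert_of_mem _ rfl)) p
  rw [AlgHom.comp_apply, hp, map_zero, sub_zero, Ideal.mem_span_pair] at h
  obtain ⟨α, β, h⟩ := h
  exact ⟨α, β, h.symm⟩

variable {e} (he : e ^ 2 = 1)

/-- The generic point of the line. -/
noncomputable def Lpt : Subalgebra K F := S.pt (εL e) (εL_fp e he)

/-- The line `x = 0`, `y + z = e`. -/
noncomputable def L : Curve S.X := ⟨S.Lpt he, by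
  apply S.isCurve_pt
  · refine ⟨MvPolynomial.X 0, εL_X0 e, ?_⟩
    rw [S.π_X]
    exact S.x_ne_zero
  · refine ⟨MvPolynomial.X 1, fun c h => ?_⟩
    rw [εL_X1] at h
    have := congrArg Polynomial.natDegree h
    rw [Polynomial.natDegree_X] at this
    change 1 = (Polynomial.C c).natDegree at this
    rw [Polynomial.natDegree_C] at this
    omega⟩

theorem L_val : (S.L he).1 = S.Lpt he := rfl

theorem L_coords (i : Fin 3) : S.c i ∈ (S.L he).1 := by
  rw [← S.π_X]
  exact S.π_mem_pt _ _

theorem π_mem_mx_L {p : MvPolynomial (Fin 3) K} : S.π p ∈ mx (S.L he).1 ↔ εL e p = 0 :=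
  S.π_mem_mx_pt _

theorem x_mem_L : S.x ∈ mx (S.L he).1 := by
  have := (S.π_mem_mx_L he).2 (εL_X0 e)
  rwa [S.π_X] at this

theorem π_C (r : K) : S.π (MvPolynomial.C r) = algebraMap K F r := MvPolynomial.aeval_C _ _

theorem s_mem_L : S.y + S.z - algebraMap K F e ∈ mx (S.L he).1 := by
  have := (S.π_mem_mx_L he (p := MvPolynomial.X 1 + MvPolynomial.X 2 - MvPolynomial.C e)).2 (by
    simp only [map_add, map_sub, εL_X1, εL_X2, εL_C]
    ring)
  simp only [map_add, map_sub, S.π_X, S.π_C] at this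
  exact this

theorem e_ne_zero (he : e ^ 2 = 1) : e ≠ 0 := by
  rintro rfl
  norm_num at he

theorem s_add_not_mem_L [CharZero K] : S.y + S.z + algebraMap K F e ∉ mx (S.L he).1 := by
  intro h
  have h1 := mx_sub (isLocalRing_of_mem (S.L he).2.mem) h (S.s_mem_L he)
  have e1 : S.y + S.z + algebraMap K F e - (S.y + S.z - algebraMap K F e) =
      algebraMap K F (2 * e) := by
    rw [map_mul, map_ofNat]
    ring
  rw [e1] at h1
  exact algebraMap_not_mem_mx (mul_ne_zero two_ne_zero (e_ne_zero he)) h1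

include he in
/-- The product formula for the roots. -/
theorem root_eq : S.x * (S.a * S.x + S.b) =
    -((S.y + S.z - algebraMap K F e) * (S.y + S.z + algebraMap K F e)) := by
  have h := S.quad
  have h2 : (algebraMap K F e) ^ 2 = 1 := by rw [← map_pow, he, map_one]
  unfold d at h
  linear_combination h - h2

theorem ax_b_not_mem_L [CharZero K] : S.a * S.x + S.b ∉ mx (S.L he).1 := by
  intro h
  have h1 : S.π (MvPolynomial.rename Fin.succ (qa K) * MvPolynomial.X 0 +
      MvPolynomial.rename Fin.succ (qb K)) = S.a * S.x + S.b := by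
    rw [map_add, map_mul, S.π_X, S.π_quad, S.π_quad]
    unfold qa qb a b
    simp only [map_add, map_mul, map_pow, map_one, map_ofNat, MvPolynomial.aeval_X]
    rfl
  rw [← h1, S.π_mem_mx_L, map_add, map_mul, εL_X0, mul_zero, zero_add, εL_rename] at h
  unfold qb at h
  simp only [map_add, map_mul, map_pow, map_ofNat, MvPolynomial.aeval_X] at h
  have h5 := congrArg (Polynomial.eval 0) h
  simp at h5
  exact e_ne_zero he h5

theorem s_ne_zero (r : K) : S.y + S.z - algebraMap K F r ≠ 0 := by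
  have hne : (MvPolynomial.X 0 + MvPolynomial.X 1 - MvPolynomial.C r :
      MvPolynomial (Fin 2) K) ≠ 0 := by
    intro h
    have := congrArg (MvPolynomial.eval ![r + 1, 0]) h
    simp at this
  have := S.aeval_yz_ne_zero hne
  simp only [map_add, map_sub, MvPolynomial.aeval_X, MvPolynomial.aeval_C] at this
  exact this

theorem s_div_x_mem_L [CharZero K] :
    (S.y + S.z - algebraMap K F e) / S.x ∈ (S.L he).1 := by
  have hx := S.x_ne_zero
  have hs := S.s_add_not_mem_L he
  have hs0 := ne_zero_of_not_mem_mx hs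
  have hmem : ∀ i, S.c i ∈ (S.L he).1 := S.L_coords he
  have hy : S.y ∈ (S.L he).1 := hmem 1
  have hz : S.z ∈ (S.L he).1 := hmem 2
  have e1 : (S.y + S.z - algebraMap K F e) / S.x =
      -((S.a * S.x + S.b) * (S.y + S.z + algebraMap K F e)⁻¹) := by
    field_simp
    linear_combination S.root_eq he
  rw [e1]
  have hpoly : S.a * S.x + S.b ∈ (S.L he).1 := by
    have h1 : S.π (MvPolynomial.rename Fin.succ (qa K) * MvPolynomial.X 0 +
        MvPolynomial.rename Fin.succ (qb K)) = S.a * S.x + S.b := by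
      rw [map_add, map_mul, S.π_X, S.π_quad, S.π_quad]
      unfold qa qb a b
      simp only [map_add, map_mul, map_pow, map_one, map_ofNat, MvPolynomial.aeval_X]
      rfl
    rw [← h1]
    exact S.π_mem_pt _ _
  refine Subalgebra.neg_mem _ (Subalgebra.mul_mem _ hpoly (inv_mem_of_not_mem_mx ?_ hs))
  exact Subalgebra.add_mem _ (Subalgebra.add_mem _ hy hz) (Subalgebra.algebraMap_mem _ e)

theorem uniformizer_L [CharZero K] : ∀ g ∈ mx (S.L he).1, g / S.x ∈ (S.L he).1 := by
  apply S.div_mem_pt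
  intro p hp
  obtain ⟨α, β, rfl⟩ := exists_of_εL e hp
  have hx := S.x_ne_zero
  have e1 : S.π (α * MvPolynomial.X 0 + β * (MvPolynomial.X 1 + MvPolynomial.X 2 -
      MvPolynomial.C e)) / S.x = S.π α + S.π β * ((S.y + S.z - algebraMap K F e) / S.x) := by
    simp only [map_add, map_sub, map_mul, S.π_X, S.π_C]
    change (S.π α * S.x + S.π β * (S.y + S.z - algebraMap K F e)) / S.x = _
    field_simp
  rw [e1]
  exact Subalgebra.add_mem _ (S.π_mem_pt _ _) (Subalgebra.mul_mem _ (S.π_mem_pt _ _)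
    (S.s_div_x_mem_L he))

theorem oz_x_L [CharZero K] : oz (S.L he).1 S.x = 1 :=
  oz_uniformizer (isLocalRing_of_mem (S.L he).2.mem) (S.x_mem_L he) (S.uniformizer_L he)
    S.x_ne_zero

theorem uniformizer_L' [CharZero K] :
    ∀ g ∈ mx (S.L he).1, g / (S.y + S.z - algebraMap K F e) ∈ (S.L he).1 := by
  intro g hg
  have h1 := S.uniformizer_L he g hg
  have hx := S.x_ne_zero
  have hs := S.s_ne_zero e
  have hab := S.ax_b_not_mem_L he
  have hab0 := ne_zero_of_not_mem_mx hab
  have hmem : ∀ i, S.c i ∈ (S.L he).1 := S.L_coords he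
  have hy : S.y ∈ (S.L he).1 := hmem 1
  have hz : S.z ∈ (S.L he).1 := hmem 2
  have hpoly : S.a * S.x + S.b ∈ (S.L he).1 := by
    have h1 : S.π (MvPolynomial.rename Fin.succ (qa K) * MvPolynomial.X 0 +
        MvPolynomial.rename Fin.succ (qb K)) = S.a * S.x + S.b := by
      rw [map_add, map_mul, S.π_X, S.π_quad, S.π_quad]
      unfold qa qb a b
      simp only [map_add, map_mul, map_pow, map_one, map_ofNat, MvPolynomial.aeval_X]
      rfl
    rw [← h1]
    exact S.π_mem_pt _ _
  have hroot := S.root_eq he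
  have e1 : g / (S.y + S.z - algebraMap K F e) =
      -((g / S.x) * ((S.y + S.z + algebraMap K F e) * (S.a * S.x + S.b)⁻¹)) := by
    generalize S.a * S.x + S.b = t at hab0 hroot ⊢
    field_simp
    linear_combination g * hroot
  rw [e1]
  refine Subalgebra.neg_mem _ (Subalgebra.mul_mem _ h1 (Subalgebra.mul_mem _ ?_
    (inv_mem_of_not_mem_mx hpoly hab)))
  exact Subalgebra.add_mem _ (Subalgebra.add_mem _ hy hz) (Subalgebra.algebraMap_mem _ e)

theorem oz_s_L [CharZero K] : oz (S.L he).1 (S.y + S.z - algebraMap K F e) = 1 :=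
  oz_uniformizer (isLocalRing_of_mem (S.L he).2.mem) (S.s_mem_L he) (S.uniformizer_L' he)
    (S.s_ne_zero e)

/-- A curve where `x` vanishes has finite coordinates. -/
theorem coords_of_x {C : Curve S.X} (hx : S.x ∈ mx C.1) : ∀ i, S.c i ∈ C.1 := by
  obtain ⟨⟨p₀, q₀, h₀⟩, ⟨p₁, q₁, h₁⟩, ⟨p₂, q₂, h₂⟩⟩ := S.exists_coords C.2.mem
  have hp0 := h₀.p_mem_mx hx
  intro i
  fin_cases i
  · exact hx.1
  · exact h₁.mem (fun h => S.zero_inf_1 C.2 h₀ h₁ h₂ hp0 h)
  · exact h₂.mem (fun h => S.zero_inf_2 C.2 h₀ h₁ h₂ hp0 h)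

/-- Identification of the lines. -/
theorem eq_L [IsAlgClosed K] {C : Curve S.X} (hx : S.x ∈ mx C.1)
    (hs : S.y + S.z - algebraMap K F e ∈ mx C.1) : C = S.L he := by
  have hc := S.coords_of_x hx
  have hloc := isLocalRing_of_mem C.2.mem
  apply Subtype.ext
  refine eq_of_curve_le S.surface C.2 (S.L he).2.mem (S.L he).2.ne_top ?_
  refine S.le_pt (εL_fp e he) C.2.mem hc ?_
  intro p hp
  obtain ⟨α, β, rfl⟩ := exists_of_εL e hp
  simp only [map_add, map_sub, map_mul, S.π_X, S.π_C]
  change S.π α * S.x + S.π β * (S.y + S.z - algebraMap K F e) ∈ mx C.1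
  exact mx_add hloc (mx_mul_left (π_mem_of_coords hc α) hx) (mx_mul_left (π_mem_of_coords hc β) hs)

theorem a_mem {O : Subalgebra K F} (hy : S.y ∈ O) (hz : S.z ∈ O) : S.a ∈ O :=
  O.add_mem O.one_mem (O.mul_mem (O.mul_mem hy hz) (O.add_mem hy hz))

theorem two_mem {O : Subalgebra K F} : (2 : F) ∈ O := by
  have := O.add_mem O.one_mem O.one_mem
  rwa [one_add_one_eq_two] at this

theorem b_mem {O : Subalgebra K F} (hy : S.y ∈ O) (hz : S.z ∈ O) : S.b ∈ O :=
  O.add_mem (O.mul_mem two_mem (O.add_mem hy hz)) (O.pow_mem (O.mul_mem hy hz) 2)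

/-- The zeros of `x`. -/
theorem x_zero [IsAlgClosed K] [CharZero K] {C : Curve S.X} (hx : S.x ∈ mx C.1) :
    C = S.L (one_pow 2) ∨ C = S.L (e := (-1 : K)) (by norm_num) := by
  have hc := S.coords_of_x hx
  have hy : S.y ∈ C.1 := hc 1
  have hz : S.z ∈ C.1 := hc 2
  have h1 := S.root_eq (e := (1 : K)) (one_pow 2)
  have h2 : (S.y + S.z - algebraMap K F 1) * (S.y + S.z + algebraMap K F 1) ∈ mx C.1 := by
    have h3 : S.x * (S.a * S.x + S.b) ∈ mx C.1 :=
      mx_mul_right hx (C.1.add_mem (C.1.mul_mem (S.a_mem hy hz) hx.1) (S.b_mem hy hz))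
    have h4 := mx_neg h3
    rw [h1, neg_neg] at h4
    exact h4
  rcases mem_mx_or_of_mul (C.1.sub_mem (C.1.add_mem hy hz) (C.1.algebraMap_mem 1))
    (C.1.add_mem (C.1.add_mem hy hz) (C.1.algebraMap_mem 1)) h2 with h | h
  · left
    exact S.eq_L (one_pow 2) hx h
  · right
    apply S.eq_L (e := (-1 : K)) (by norm_num) hx
    rw [map_neg, sub_neg_eq_add]
    exact h

end Line

end Surf

end Pool.Agent.H90ZD
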