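import Pool.Agent.H90ZD.SurfAut

open Filter Topology

namespace Pool.Agent.H90ZD

variable {K F : Type} [Field K] [Field F] [Algebra K F]

namespace Surf

variable (S : Surf K F)

include S in
/-- The transcendence degree of the function field. -/
theorem trdeg_eq : Algebra.trdeg K F = 2 := by
  have hind : AlgebraicIndependent K ![S.y, S.z] := by
    rw [algebraicIndependent_iff]
    intro p hp
    by_contra h
    exact S.aeval_yz_ne_zero h hp
  have hbasis : IsTranscendenceBasis K ![S.y, S.z] := by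
    rw [hind.isTranscendenceBasis_iff_isAlgebraic]
    set R₀ := Algebra.adjoin K (Set.range ![S.y, S.z]) with hR₀
    have hy : S.y ∈ R₀ := Algebra.subset_adjoin ⟨0, rfl⟩
    have hz : S.z ∈ R₀ := Algebra.subset_adjoin ⟨1, rfl⟩
    have halg : ∀ f ∈ R₀, IsAlgebraic R₀ f := fun f hf =>
      isAlgebraic_algebraMap (⟨f, hf⟩ : R₀)
    have hx : IsAlgebraic R₀ S.x := by
      have ha : S.a ∈ R₀ :=
        R₀.add_mem R₀.one_mem (R₀.mul_mem (R₀.mul_mem hy hz) (R₀.add_mem hy hz))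
      have h2 : (2 : F) ∈ R₀ := by
        have := R₀.add_mem R₀.one_mem R₀.one_mem
        rwa [one_add_one_eq_two] at this
      have hb : S.b ∈ R₀ :=
        R₀.add_mem (R₀.mul_mem h2 (R₀.add_mem hy hz)) (R₀.pow_mem (R₀.mul_mem hy hz) 2)
      have hd : S.d ∈ R₀ := R₀.sub_mem (R₀.pow_mem (R₀.add_mem hy hz) 2) R₀.one_mem
      refine ⟨Polynomial.C ⟨S.a, ha⟩ * Polynomial.X ^ 2 + Polynomial.C ⟨S.b, hb⟩ * Polynomial.X +
        Polynomial.C ⟨S.d, hd⟩, ?_, ?_⟩
      · intro h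
        have := congrArg Polynomial.natDegree h
        rw [Polynomial.natDegree_quadratic, Polynomial.natDegree_zero] at this
        · omega
        · intro h0
          exact S.a_ne_zero (congrArg Subtype.val h0)
      · simp only [map_add, map_mul, map_pow, Polynomial.aeval_C, Polynomial.aeval_X]
        exact S.quad
    have hπ : ∀ p, IsAlgebraic R₀ (S.π p) := by
      intro p
      have : S.π p ∈ Subalgebra.algebraicClosure R₀ F := by
        induction p using MvPolynomial.induction_on with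
        | C r =>
          unfold π
          rw [MvPolynomial.aeval_C]
          exact halg _ (R₀.algebraMap_mem r)
        | add p q hp hq =>
          rw [map_add]
          exact Subalgebra.add_mem _ hp hq
        | mul_X p i hp =>
          rw [map_mul, S.π_X]
          refine Subalgebra.mul_mem _ hp ?_
          fin_cases i
          · exact hx
          · exact halg _ hy
          · exact halg _ hz
      exact this
    refine ⟨fun g => ?_⟩
    obtain ⟨p, q, hq, rfl⟩ := exists_frac' (S := S) g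
    rw [div_eq_mul_inv]
    exact (hπ p).mul (hπ q).inv
  have h := hbasis.cardinalMk_eq_trdeg
  rw [← h]
  simp

theorem surface : IsProjectiveSurface S.X :=
  ⟨⟨S.V₀, S.fg₀, rfl⟩, S.top_mem, S.trdeg_eq⟩

theorem V₀_ne_bot : S.V₀ ≠ ⊥ := by
  intro h
  have := S.one_mem_V₀
  rw [h, Submodule.mem_bot] at this
  exact one_ne_zero this

theorem x_ne_zero : S.x ≠ 0 := by
  have h := S.π_ne_zero (p := MvPolynomial.X 0) (MvPolynomial.X_ne_zero 0) (by
    rw [MvPolynomial.finSuccEquiv_X_zero]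
    exact Polynomial.natDegree_X_le)
  rwa [S.π_X] at h

theorem y_ne_zero : S.y ≠ 0 := by
  intro h
  have := S.τ_x
  rw [h] at this
  exact S.x_ne_zero ((map_eq_zero_iff S.τ S.τ.injective).1 this)

theorem z_ne_zero : S.z ≠ 0 := by
  intro h
  have := S.τ_y
  rw [h] at this
  exact S.y_ne_zero ((map_eq_zero_iff S.τ S.τ.injective).1 this)

variable {O : Subalgebra K F}

theorem dom_pair_one {t : F} (ht : t ∈ O) : Dom (Submodule.span K {1, t}) O 1 := by
  refine ⟨one_mem_pair t, one_ne_zero, fun v hv => ?_⟩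
  rw [div_one]
  rw [Submodule.mem_span_pair] at hv
  obtain ⟨a, b, rfl⟩ := hv
  exact O.add_mem (O.smul_mem O.one_mem a) (O.smul_mem ht b)

theorem dom_pair_self {t : F} (ht : t⁻¹ ∈ O) (ht0 : t ≠ 0) :
    Dom (Submodule.span K {1, t}) O t := by
  refine ⟨mem_pair t, ht0, fun v hv => ?_⟩
  rw [Submodule.mem_span_pair] at hv
  obtain ⟨a, b, rfl⟩ := hv
  have e : (a • (1 : F) + b • t) / t = a • t⁻¹ + b • 1 := by
    rw [Algebra.smul_def, Algebra.smul_def, Algebra.smul_def, Algebra.smul_def]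
    field_simp
  rw [e]
  exact O.add_mem (O.smul_mem ht a) (O.smul_mem O.one_mem b)

theorem exists_dom_pair {t : F} (ht : t ∈ O ∨ t⁻¹ ∈ O) : ∃ w, Dom (Submodule.span K {1, t}) O w := by
  rcases ht with h | h
  · exact ⟨1, dom_pair_one h⟩
  · by_cases h0 : t = 0
    · refine ⟨1, dom_pair_one ?_⟩
      rw [h0]
      exact O.zero_mem
    · exact ⟨t, dom_pair_self h h0⟩

/-- Local homogeneous coordinates `(p : q)` for a rational function. -/
structure Coord (O : Subalgebra K F) (t : F) (p q : O) : Prop where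
  ne : (q : F) ≠ 0
  eq : t * q = p
  one : q = 1 ∨ p = 1

theorem exists_coord {t : F} (ht0 : t ≠ 0) (ht : t ∈ O ∨ t⁻¹ ∈ O) : ∃ p q : O, Coord O t p q := by
  rcases ht with h | h
  · exact ⟨⟨t, h⟩, 1, one_ne_zero, by simp, Or.inl rfl⟩
  · exact ⟨1, ⟨t⁻¹, h⟩, inv_ne_zero ht0, by simp [ht0], Or.inr rfl⟩

theorem Coord.eq_div {t : F} {p q : O} (h : Coord O t p q) : t = p / q := by
  rw [← h.eq]
  have := h.ne
  field_simp

/-- The coefficients `A, B, D` have no common zero. -/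
theorem unimod {κ : Type} [Field κ] (h3 : (3 : κ) ≠ 0) {p₁ q₁ p₂ q₂ : κ}
    (h₁ : q₁ = 1 ∨ p₁ = 1) (h₂ : q₂ = 1 ∨ p₂ = 1)
    (hA : (q₁ * q₂) ^ 2 + p₁ * p₂ * (p₁ * q₂ + p₂ * q₁) = 0)
    (hB : 2 * (p₁ * q₂ + p₂ * q₁) * (q₁ * q₂) + (p₁ * p₂) ^ 2 = 0)
    (hD : (p₁ * q₂ + p₂ * q₁) ^ 2 - (q₁ * q₂) ^ 2 = 0) : False := by
  set s := p₁ * q₂ + p₂ * q₁ with hs
  set u := q₁ * q₂ with hu
  set q := p₁ * p₂ with hq
  have h5 : 3 * u ^ 5 = 0 := by
    linear_combination (2 * s - u) * (u ^ 2 - s * q) * hA + (2 * s - u) * s ^ 2 * hB -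
      u * (4 * s ^ 2 - 2 * s * u + 4 * u ^ 2) * hD
  have hu0 : u = 0 := by
    rcases mul_eq_zero.1 h5 with h | h
    · exact absurd h h3
    · exact pow_eq_zero_iff (by norm_num) |>.1 h
  have hs0 : s = 0 := by
    rw [hu0] at hD
    have : s ^ 2 = 0 := by linear_combination hD
    exact pow_eq_zero_iff (by norm_num) |>.1 this
  have hq0 : q = 0 := by
    rw [hu0, hs0] at hB
    have : q ^ 2 = 0 := by linear_combination hB
    exact pow_eq_zero_iff (by norm_num) |>.1 this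
  rcases h₁ with h₁ | h₁ <;> rcases h₂ with h₂ | h₂
  · rw [h₁, h₂] at hu
    rw [hu0] at hu
    simp at hu
  · rw [h₁, h₂] at hs
    rw [hu0, h₁] at hu
    rw [hs0, one_mul] at hs
    rw [one_mul] at hu
    rw [← hu] at hs
    simp at hs
  · rw [h₁, h₂] at hs
    rw [hu0, h₂] at hu
    rw [hs0, mul_one] at hs
    rw [mul_one] at hu
    rw [← hu] at hs
    simp at hs
  · rw [h₁, h₂] at hq
    rw [hq0] at hq
    simp at hq

theorem residue_eq_zero [IsLocalRing O] (t : O) : rsd O t = 0 ↔ (t : F) ∈ mx O :=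
  rsd_eq_zero t.2

theorem not_mem_iff [IsLocalRing O] (t : O) : rsd O t ≠ 0 ↔ (t : F) ∉ mx O := by
  rw [Ne, residue_eq_zero]

theorem three_ne_zero_res [CharZero K] [IsLocalRing O] : (3 : Kap O) ≠ 0 := by
  have : CharZero (Kap O) := charZero_of_injective_algebraMap (algebraMap K (Kap O)).injective
  norm_num

theorem two_ne_zero_res [CharZero K] [IsLocalRing O] : (2 : Kap O) ≠ 0 := by
  have : CharZero (Kap O) := charZero_of_injective_algebraMap (algebraMap K (Kap O)).injective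
  norm_num

/-- The local coefficients of the equation. -/
def lA (p₁ q₁ p₂ q₂ : O) : O := (q₁ * q₂) ^ 2 + p₁ * p₂ * (p₁ * q₂ + p₂ * q₁)

def lB (p₁ q₁ p₂ q₂ : O) : O := 2 * (p₁ * q₂ + p₂ * q₁) * (q₁ * q₂) + (p₁ * p₂) ^ 2

def lD (p₁ q₁ p₂ q₂ : O) : O := (p₁ * q₂ + p₂ * q₁) ^ 2 - (q₁ * q₂) ^ 2

variable {S} in
theorem lA_eq {p₁ q₁ p₂ q₂ : O} (h₁ : Coord O S.y p₁ q₁) (h₂ : Coord O S.z p₂ q₂) :
    ((lA p₁ q₁ p₂ q₂ : O) : F) = S.a * (q₁ * q₂) ^ 2 := by
  unfold lA a
  push_cast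
  rw [← h₁.eq, ← h₂.eq]
  ring

variable {S} in
theorem lB_eq {p₁ q₁ p₂ q₂ : O} (h₁ : Coord O S.y p₁ q₁) (h₂ : Coord O S.z p₂ q₂) :
    ((lB p₁ q₁ p₂ q₂ : O) : F) = S.b * (q₁ * q₂) ^ 2 := by
  have h2 : ((2 : O) : F) = 2 := rfl
  unfold lB b
  push_cast
  rw [← h₁.eq, ← h₂.eq, h2]
  ring

variable {S} in
theorem lD_eq {p₁ q₁ p₂ q₂ : O} (h₁ : Coord O S.y p₁ q₁) (h₂ : Coord O S.z p₂ q₂) :
    ((lD p₁ q₁ p₂ q₂ : O) : F) = S.d * (q₁ * q₂) ^ 2 := by
  unfold lD d
  push_cast
  rw [← h₁.eq, ← h₂.eq]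
  ring

/-- The local equation. -/
theorem local_eq {p₀ q₀ p₁ q₁ p₂ q₂ : O} (h₀ : Coord O S.x p₀ q₀) (h₁ : Coord O S.y p₁ q₁)
    (h₂ : Coord O S.z p₂ q₂) :
    lA p₁ q₁ p₂ q₂ * p₀ ^ 2 + lB p₁ q₁ p₂ q₂ * (p₀ * q₀) + lD p₁ q₁ p₂ q₂ * q₀ ^ 2 = 0 := by
  apply Subtype.ext
  push_cast
  rw [lA_eq h₁ h₂, lB_eq h₁ h₂, lD_eq h₁ h₂, ← h₀.eq]
  have := S.quad
  linear_combination (q₁ * q₂ * q₀ : F) ^ 2 * this

theorem local_unimod [CharZero K] (hloc : IsLocalRing O) {p₁ q₁ p₂ q₂ : O}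
    (h₁ : q₁ = 1 ∨ p₁ = 1) (h₂ : q₂ = 1 ∨ p₂ = 1)
    (hA : ((lA p₁ q₁ p₂ q₂ : O) : F) ∈ mx O) (hB : ((lB p₁ q₁ p₂ q₂ : O) : F) ∈ mx O)
    (hD : ((lD p₁ q₁ p₂ q₂ : O) : F) ∈ mx O) : False := by
  rw [← residue_eq_zero] at hA hB hD
  refine unimod (κ := Kap O) three_ne_zero_res (p₁ := rsd O p₁) (q₁ := rsd O q₁)
    (p₂ := rsd O p₂) (q₂ := rsd O q₂) ?_ ?_ ?_ ?_ ?_
  · rcases h₁ with h | h
    · left
      rw [h, map_one]
    · right
      rw [h, map_one]
  · rcases h₂ with h | h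
    · left
      rw [h, map_one]
    · right
      rw [h, map_one]
  · unfold lA at hA
    simp only [map_add, map_mul, map_pow] at hA
    exact hA
  · unfold lB at hB
    simp only [map_add, map_mul, map_pow, map_ofNat] at hB
    exact hB
  · unfold lD at hD
    simp only [map_add, map_sub, map_mul, map_pow] at hD
    exact hD

theorem exists_coords (hO : O ∈ S.X) : (∃ p q : O, Coord O S.x p q) ∧
    (∃ p q : O, Coord O S.y p q) ∧ (∃ p q : O, Coord O S.z p q) :=
  ⟨exists_coord S.x_ne_zero (S.coord hO 0), exists_coord S.y_ne_zero (S.coord hO 1),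
    exists_coord S.z_ne_zero (S.coord hO 2)⟩

/-- The conjugate of `x` has no indeterminacy. -/
theorem coord_x' [CharZero K] (hO : O ∈ S.X) : S.x' ∈ O ∨ (S.x')⁻¹ ∈ O := by
  have hloc := isLocalRing_of_mem hO
  obtain ⟨⟨p₀, q₀, h₀⟩, ⟨p₁, q₁, h₁⟩, ⟨p₂, q₂, h₂⟩⟩ := S.exists_coords hO
  have heq := S.local_eq h₀ h₁ h₂
  have hA := lA_eq h₁ h₂
  have hB := lB_eq h₁ h₂
  have hD := lD_eq h₁ h₂
  have huni := fun a b c => local_unimod hloc (p₁ := p₁) (q₁ := q₁) (p₂ := p₂) (q₂ := q₂) h₁.one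
    h₂.one a b c
  set A := lA p₁ q₁ p₂ q₂
  set B := lB p₁ q₁ p₂ q₂
  set D := lD p₁ q₁ p₂ q₂
  have hq : ((q₁ : F) * q₂) ^ 2 ≠ 0 := pow_ne_zero _ (mul_ne_zero h₁.ne h₂.ne)
  have ha := S.a_ne_zero
  have hA0 : (A : F) ≠ 0 := by
    rw [hA]
    exact mul_ne_zero ha hq
  -- relations in `F`
  have hv1 : (A : F) * (S.x + S.x') = -B := by
    rw [hA, hB]
    linear_combination ((q₁ : F) * q₂) ^ 2 * S.vieta_add
  have hv2 : (A : F) * (S.x * S.x') = D := by
    rw [hA, hD]
    linear_combination ((q₁ : F) * q₂) ^ 2 * S.vieta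
  rcases h₀.one with h | h
  · -- `x` is regular
    have hx : S.x = p₀ := by
      have := h₀.eq
      rw [h] at this
      simpa using this
    have e1 : (A : F) * S.x' = -((B + A * p₀ : O) : F) := by
      push_cast
      rw [← hx]
      linear_combination hv1
    by_cases c1 : (A : F) ∈ mx O
    · by_cases c2 : ((B + A * p₀ : O) : F) ∈ mx O
      · exfalso
        rw [h] at heq
        have hB' : (B : F) ∈ mx O := by
          rw [← residue_eq_zero] at c1 c2 ⊢
          rw [map_add, map_mul, c1, zero_mul, add_zero] at c2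
          exact c2
        refine huni c1 hB' ?_
        rw [← residue_eq_zero] at c1 hB' ⊢
        have := congrArg (rsd O) heq
        simpa [c1, hB'] using this
      · right
        have hne := ne_zero_of_not_mem_mx c2
        have e2 : (S.x')⁻¹ = -(A * ((B + A * p₀ : O) : F)⁻¹) := by
          have hx'0 : S.x' ≠ 0 := by
            intro h0
            rw [h0, mul_zero] at e1
            exact hne (by linear_combination e1)
          rw [inv_eq_iff_eq_inv, inv_neg, mul_inv, inv_inv]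
          field_simp
          linear_combination e1
        rw [e2]
        exact O.neg_mem (O.mul_mem A.2 (inv_mem_of_not_mem_mx (B + A * p₀ : O).2 c2))
    · left
      have e2 : S.x' = -(((B + A * p₀ : O) : F) * (A : F)⁻¹) := by
        field_simp
        linear_combination e1
      rw [e2]
      exact O.neg_mem (O.mul_mem (B + A * p₀ : O).2 (inv_mem_of_not_mem_mx A.2 c1))
  · -- `1/x` is regular
    have hx : S.x * q₀ = 1 := by
      have := h₀.eq
      rw [h] at this
      simpa using this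
    have e1 : ((B + D * q₀ : O) : F) * S.x' = -(D : F) := by
      push_cast
      have hx0 := S.x_ne_zero
      have hq0 : (q₀ : F) = S.x⁻¹ := eq_inv_of_mul_eq_one_right hx
      have h3 := S.quad
      have e3 : (B : F) = -(A * (S.x + S.x')) := by rw [hv1, neg_neg]
      rw [e3, ← hv2, hq0]
      field_simp
      ring
    by_cases c1 : ((B + D * q₀ : O) : F) ∈ mx O
    · by_cases c2 : (D : F) ∈ mx O
      · exfalso
        rw [h] at heq
        have hB' : (B : F) ∈ mx O := by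
          rw [← residue_eq_zero] at c1 c2 ⊢
          rw [map_add, map_mul, c2, zero_mul, add_zero] at c1
          exact c1
        refine huni ?_ hB' c2
        rw [← residue_eq_zero] at c2 hB' ⊢
        have := congrArg (rsd O) heq
        simpa [c2, hB'] using this
      · right
        have hne := ne_zero_of_not_mem_mx c2
        have hx'0 : S.x' ≠ 0 := by
          intro h0
          rw [h0, mul_zero] at e1
          exact hne (by linear_combination e1)
        have e2 : (S.x')⁻¹ = -(((B + D * q₀ : O) : F) * (D : F)⁻¹) := by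
          rw [inv_eq_iff_eq_inv, inv_neg, mul_inv, inv_inv]
          have hne' : ((B + D * q₀ : O) : F) ≠ 0 := by
            intro h0
            rw [h0, zero_mul] at e1
            exact hne (by linear_combination e1)
          field_simp
          linear_combination e1
        rw [e2]
        exact O.neg_mem (O.mul_mem (B + D * q₀ : O).2 (inv_mem_of_not_mem_mx D.2 c2))
    · left
      have hne := ne_zero_of_not_mem_mx c1
      have e2 : S.x' = -((D : F) * ((B + D * q₀ : O) : F)⁻¹) := by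
        field_simp
        linear_combination e1
      rw [e2]
      exact O.neg_mem (O.mul_mem D.2 (inv_mem_of_not_mem_mx (B + D * q₀ : O).2 c1))

theorem ms_pair (θ : F ≃ₐ[K] F) (t : F) :
    ms θ (Submodule.span K {1, t}) = Submodule.span K {1, θ t} := by
  unfold ms
  rw [Submodule.map_span]
  congr 1
  rw [Set.image_pair]
  simp

theorem stable_σ [CharZero K] : Stable S.σ S.X := by
  have h1 : Model (S.V₀ * Submodule.span K {1, S.x'}) = S.X :=
    model_mul S.fg₀ S.V₀_ne_bot (fun O hO => exists_dom_pair (S.coord_x' hO))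
  refine stable_of_model h1 ?_
  rw [← h1]
  congr 1
  unfold V₀
  rw [ms_mul, ms_mul, ms_mul, ms_pair, ms_pair, ms_pair, ms_pair]
  have e0 : S.σ (S.c 0) = S.x' := S.σ_x
  have e1 : S.σ (S.c 1) = S.c 1 := S.σ_y
  have e2 : S.σ (S.c 2) = S.c 2 := S.σ_z
  have e3 : S.σ S.x' = S.c 0 := S.σ_x'
  rw [e0, e1, e2, e3]
  ac_rfl

theorem ms_τ_V₀ : ms S.τ S.V₀ = S.V₀ := by
  unfold V₀
  rw [ms_mul, ms_mul, ms_pair, ms_pair, ms_pair]
  have e0 : S.τ (S.c 0) = S.c 1 := S.τ_x
  have e1 : S.τ (S.c 1) = S.c 2 := S.τ_y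
  have e2 : S.τ (S.c 2) = S.c 0 := S.τ_z
  rw [e0, e1, e2]
  ac_rfl

theorem stable_τ : Stable S.τ S.X := by
  refine stable_of_model (V := S.V₀) rfl ?_
  rw [S.ms_τ_V₀]
  rfl

end Surf

end Pool.Agent.H90ZD
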