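import Pool.Agent.H90ZD.SurfLoc

open Filter Topology

namespace Pool.Agent.H90ZD

variable {K F : Type} [Field K] [Field F] [Algebra K F]

namespace Surf

variable (S : Surf K F)

section Pt

variable {E : Type} [CommRing E] [IsDomain E] [Algebra K E]
  (ε : MvPolynomial (Fin 3) K →ₐ[K] E)

/-- The homomorphism from the coordinate ring. -/
noncomputable def lft (h : ε (fp K) = 0) : S.π.range →ₐ[K] E :=
  AlgHom.liftOfSurjective S.π.rangeRestrict S.π.rangeRestrict_surjective ε (by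
    intro p hp
    have h1 : S.π.rangeRestrict p = 0 := hp
    have h2 : S.π p = 0 := congrArg Subtype.val h1
    obtain ⟨q, rfl⟩ := S.π_eq_zero.1 h2
    change ε (fp K * q) = 0
    rw [map_mul, h, zero_mul])

theorem lft_apply (h : ε (fp K) = 0) (p : MvPolynomial (Fin 3) K) :
    S.lft ε h (S.π.rangeRestrict p) = ε p :=
  AlgHom.liftOfSurjective_apply _ _ _ _ _

/-- The point of the surface given by a homomorphism. -/
noncomputable def pt (h : ε (fp K) = 0) : Subalgebra K F := locHom (S.lft ε h)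

variable {ε}

theorem pt_mem (h : ε (fp K) = 0) : S.pt ε h ∈ S.X := by
  refine ⟨1, S.one_mem_V₀, one_ne_zero, ?_⟩
  rw [S.chart_one]
  exact isLocalizationOf_locHom

theorem π_mem_pt (h : ε (fp K) = 0) (p : MvPolynomial (Fin 3) K) : S.π p ∈ S.pt ε h :=
  coe_mem_locHom (S.π.rangeRestrict p)

theorem π_mem_mx_pt (h : ε (fp K) = 0) {p : MvPolynomial (Fin 3) K} :
    S.π p ∈ mx (S.pt ε h) ↔ ε p = 0 := by
  have h1 := coe_mem_mx_locHom (ε := S.lft ε h) (a := S.π.rangeRestrict p)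
  rw [S.lft_apply] at h1
  exact h1

theorem mem_pt_iff (h : ε (fp K) = 0) {f : F} :
    f ∈ S.pt ε h ↔ ∃ p q : MvPolynomial (Fin 3) K, ε q ≠ 0 ∧ f = S.π p / S.π q := by
  constructor
  · rintro ⟨a, b, hb, rfl⟩
    obtain ⟨p, rfl⟩ := S.π.rangeRestrict_surjective a
    obtain ⟨q, rfl⟩ := S.π.rangeRestrict_surjective b
    rw [S.lft_apply] at hb
    exact ⟨p, q, hb, rfl⟩
  · rintro ⟨p, q, hq, rfl⟩
    refine ⟨S.π.rangeRestrict p, S.π.rangeRestrict q, ?_, rfl⟩
    rw [S.lft_apply]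
    exact hq

theorem inv_mem_pt (h : ε (fp K) = 0) {q : MvPolynomial (Fin 3) K} (hq : ε q ≠ 0) :
    (S.π q)⁻¹ ∈ S.pt ε h := by
  rw [S.mem_pt_iff h]
  exact ⟨1, q, hq, by rw [map_one, one_div]⟩

theorem π_ne_zero_of (h : ε (fp K) = 0) {q : MvPolynomial (Fin 3) K} (hq : ε q ≠ 0) :
    S.π q ≠ 0 := by
  intro h0
  obtain ⟨r, rfl⟩ := S.π_eq_zero.1 h0
  rw [map_mul, h, zero_mul] at hq
  exact hq rfl

/-- Every element of the maximal ideal is divisible by `t` if this is the case for the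
polynomials. -/
theorem div_mem_pt (h : ε (fp K) = 0) {t : F}
    (ht : ∀ p : MvPolynomial (Fin 3) K, ε p = 0 → S.π p / t ∈ S.pt ε h) :
    ∀ g ∈ mx (S.pt ε h), g / t ∈ S.pt ε h := by
  intro g hg
  obtain ⟨p, q, hq, rfl⟩ := (S.mem_pt_iff h).1 hg.1
  have hq0 := S.π_ne_zero_of h hq
  have h1 : S.π p ∈ mx (S.pt ε h) := by
    have e : S.π p = (S.π p / S.π q) * S.π q := by field_simp
    rw [e]
    exact mx_mul_right hg (S.π_mem_pt h q)
  rw [S.π_mem_mx_pt h] at h1
  have e : S.π p / S.π q / t = (S.π p / t) * (S.π q)⁻¹ := by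
    rw [div_div, div_mul_eq_mul_div, mul_comm (S.π q) t, ← div_div, div_eq_mul_inv (S.π p / t)]
    rw [div_mul_eq_mul_div]
  rw [e]
  exact (S.pt ε h).mul_mem (ht p h1) (S.inv_mem_pt h hq)

theorem isCurve_pt (h : ε (fp K) = 0) (h1 : ∃ p, ε p = 0 ∧ S.π p ≠ 0)
    (h2 : ∃ p, ∀ c : K, ε p ≠ algebraMap K E c) : IsCurve S.X (S.pt ε h) := by
  refine ⟨S.pt_mem h, ?_, ?_⟩
  · intro htop
    obtain ⟨p, hp, hp0⟩ := h1
    rw [← S.π_mem_mx_pt h, htop] at hp
    exact hp0 (mx_top hp)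
  · intro hcl
    obtain ⟨p, hp⟩ := h2
    obtain ⟨c, hc⟩ := hcl.rational (S.π p) (S.π_mem_pt h p)
    have e : S.π p - algebraMap K F c = S.π (p - MvPolynomial.C c) := by
      rw [map_sub]
      congr 1
      exact (MvPolynomial.aeval_C S.c c).symm
    rw [e, S.π_mem_mx_pt h, map_sub, sub_eq_zero] at hc
    apply hp c
    rw [hc]
    exact ε.commutes c

omit [IsDomain E] in
theorem π_mem_of_coords {S : Surf K F} {O : Subalgebra K F} (hc : ∀ i, S.c i ∈ O)
    (p : MvPolynomial (Fin 3) K) : S.π p ∈ O := by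
  induction p using MvPolynomial.induction_on with
  | C a =>
    unfold π
    rw [MvPolynomial.aeval_C]
    exact O.algebraMap_mem a
  | add p q hp hq =>
    rw [map_add]
    exact O.add_mem hp hq
  | mul_X p i hp =>
    rw [map_mul, S.π_X]
    exact O.mul_mem hp (hc i)

theorem dom_one {S : Surf K F} {O : Subalgebra K F} (hc : ∀ i, S.c i ∈ O) : Dom S.V₀ O 1 := by
  refine ⟨S.one_mem_V₀, one_ne_zero, fun v hv => ?_⟩
  rw [div_one]
  obtain ⟨p, rfl⟩ := S.V₀_le_range hv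
  exact π_mem_of_coords hc p

/-- Identification of points with finite coordinates. -/
theorem le_pt (h : ε (fp K) = 0) {O : Subalgebra K F} (hO : O ∈ S.X) (hc : ∀ i, S.c i ∈ O)
    (hker : ∀ p, ε p = 0 → S.π p ∈ mx O) : O ≤ S.pt ε h := by
  have hdom : Dom S.V₀ O 1 := dom_one hc
  intro f hf
  obtain ⟨m, a, ha, b, hb, hbP, rfl⟩ := (mem_iff_frac hO).1 hf
  have hb1 := (not_mem_ptIdeal_iff hO hdom hb).1 hbP
  rw [one_pow, div_one] at hb1
  have hpow : ∀ m : ℕ, ∀ a ∈ S.V₀ ^ m, ∃ p, S.π p = a := by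
    intro m
    induction m with
    | zero =>
      intro a ha
      rw [pow_zero, Submodule.mem_one] at ha
      obtain ⟨c, rfl⟩ := ha
      exact ⟨MvPolynomial.C c, MvPolynomial.aeval_C _ _⟩
    | succ m ih =>
      intro a ha
      rw [pow_succ] at ha
      induction ha using Submodule.mul_induction_on' with
      | mem_mul_mem v hv w hw =>
        obtain ⟨p, rfl⟩ := ih v hv
        obtain ⟨q, rfl⟩ := S.V₀_le_range hw
        exact ⟨p * q, map_mul _ _ _⟩
      | add x _ y _ hx hy =>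
        obtain ⟨p, rfl⟩ := hx
        obtain ⟨q, rfl⟩ := hy
        exact ⟨p + q, map_add _ _ _⟩
  obtain ⟨p, rfl⟩ := hpow m a ha
  obtain ⟨q, rfl⟩ := hpow m b hb
  rw [S.mem_pt_iff h]
  refine ⟨p, q, fun h0 => hb1 (hker q h0), rfl⟩

end Pt

/-- Points whose coordinates are all rational are closed. -/
theorem closed_of_rational {O : Subalgebra K F} (hO : O ∈ S.X)
    {p₀ q₀ p₁ q₁ p₂ q₂ : O} (h₀ : Coord O S.x p₀ q₀) (h₁ : Coord O S.y p₁ q₁)
    (h₂ : Coord O S.z p₂ q₂)
    (hr : ∀ t ∈ ({p₀, q₀, p₁, q₁, p₂, q₂} : Set O), ∃ c : K, (t : F) - algebraMap K F c ∈ mx O) :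
    IsClosedPoint S.X O := by
  have hloc := isLocalRing_of_mem hO
  -- the subalgebra of the elements with rational residue
  let R : Subalgebra K F :=
    { carrier := {f | f ∈ O ∧ ∃ c : K, f - algebraMap K F c ∈ mx O}
      mul_mem' := by
        rintro f g ⟨hf, c, hc⟩ ⟨hg, d, hd⟩
        refine ⟨O.mul_mem hf hg, c * d, ?_⟩
        have e : f * g - algebraMap K F (c * d) =
            (f - algebraMap K F c) * g + algebraMap K F c * (g - algebraMap K F d) := by
          rw [map_mul]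
          ring
        rw [e]
        exact mx_add hloc (mx_mul_right hc hg) (mx_mul_left (O.algebraMap_mem c) hd)
      add_mem' := by
        rintro f g ⟨hf, c, hc⟩ ⟨hg, d, hd⟩
        refine ⟨O.add_mem hf hg, c + d, ?_⟩
        have e : f + g - algebraMap K F (c + d) =
            (f - algebraMap K F c) + (g - algebraMap K F d) := by
          rw [map_add]
          ring
        rw [e]
        exact mx_add hloc hc hd
      algebraMap_mem' := by
        intro r
        refine ⟨O.algebraMap_mem r, r, ?_⟩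
        rw [sub_self]
        exact zero_mem_mx }
  have hR : ∀ t ∈ ({p₀, q₀, p₁, q₁, p₂, q₂} : Set O), (t : F) ∈ R := fun t ht => ⟨t.2, hr t ht⟩
  have hdomR : ∀ {t : F} {p q : O}, Coord O t p q → (p : F) ∈ R → (q : F) ∈ R →
      Dom (Submodule.span K {1, t}) R (q : F)⁻¹ := by
    intro t p q h hp hq
    refine ⟨?_, inv_ne_zero h.ne, fun v hv => ?_⟩
    · rcases h.one with h1 | h1
      · rw [h1]
        change (1 : F)⁻¹ ∈ _
        rw [inv_one]
        exact one_mem_pair t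
      · have e : (q : F)⁻¹ = t := by
          have h2 := h.eq
          rw [h1] at h2
          exact inv_eq_of_mul_eq_one_left h2
        rw [e]
        exact mem_pair t
    · rw [Submodule.mem_span_pair] at hv
      obtain ⟨a, b, rfl⟩ := hv
      have e : (a • (1 : F) + b • t) / (q : F)⁻¹ = a • (q : F) + b • (p : F) := by
        rw [← h.eq, Algebra.smul_def, Algebra.smul_def, Algebra.smul_def, Algebra.smul_def]
        rw [div_inv_eq_mul]
        ring
      rw [e]
      exact R.add_mem (R.smul_mem hq a) (R.smul_mem hp b)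
  have hdom : Dom S.V₀ R (((q₀ : F)⁻¹ * (q₁ : F)⁻¹) * (q₂ : F)⁻¹) := by
    refine mul_div_mul_mem (mul_div_mul_mem (hdomR h₀ ?_ ?_) (hdomR h₁ ?_ ?_)) (hdomR h₂ ?_ ?_) <;>
    · apply hR
      simp
  have hRO : R ≤ O := fun f hf => hf.1
  have hdomO := hdom.mono hRO
  refine ⟨hO, fun f hf => ?_⟩
  obtain ⟨m, a, ha, b, hb, hbP, rfl⟩ := (mem_iff_frac hO).1 hf
  have hb0 := GrIdeal.IsPrime.ne_zero_of_not_mem hbP
  have hb1 := (not_mem_ptIdeal_iff hO hdomO hb).1 hbP
  set u := (((q₀ : F)⁻¹ * (q₁ : F)⁻¹) * (q₂ : F)⁻¹) with hu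
  have hu0 : u ≠ 0 := hdom.ne_zero
  obtain ⟨-, c, hc⟩ := hdom.div_pow_mem ha
  obtain ⟨-, d, hd⟩ := hdom.div_pow_mem hb
  have hd0 : d ≠ 0 := by
    rintro rfl
    rw [map_zero, sub_zero] at hd
    exact hb1 hd
  refine ⟨c / d, ?_⟩
  have hinv := inv_mem_of_not_mem_mx (hdomO.div_pow_mem hb) hb1
  have hd0' : algebraMap K F d ≠ 0 := by simpa using hd0
  have e : a / b - algebraMap K F (c / d) =
      (b / u ^ m)⁻¹ * ((a / u ^ m - algebraMap K F c) -
        algebraMap K F (c / d) * (b / u ^ m - algebraMap K F d)) := by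
    rw [map_div₀]
    field_simp
    ring
  rw [e]
  exact mx_mul_left hinv (mx_sub hloc hc (mx_mul_left (O.algebraMap_mem _) hd))

/-- The equation in symmetric form. -/
theorem sym_eq {O : Subalgebra K F} {p₀ q₀ p₁ q₁ p₂ q₂ : O} (h₀ : Coord O S.x p₀ q₀)
    (h₁ : Coord O S.y p₁ q₁) (h₂ : Coord O S.z p₂ q₂) :
    (p₀ * q₁ * q₂ + q₀ * p₁ * q₂ + q₀ * q₁ * p₂) ^ 2 - (q₀ * q₁ * q₂) ^ 2 +
      p₀ * p₁ * p₂ * (p₀ * p₁ * q₂ + p₁ * p₂ * q₀ + p₂ * p₀ * q₁) = 0 := by
  apply Subtype.ext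
  push_cast
  rw [← h₀.eq, ← h₁.eq, ← h₂.eq]
  linear_combination ((q₀ : F) * q₁ * q₂) ^ 2 * S.equation

theorem mem_mx_or_mul {O : Subalgebra K F} {p q : O} (h : ((p * q : O) : F) ∈ mx O) :
    (p : F) ∈ mx O ∨ (q : F) ∈ mx O := mem_mx_or_of_mul p.2 q.2 h

theorem rational_of_mx {O : Subalgebra K F} {t : O} (h : (t : F) ∈ mx O) :
    ∃ c : K, (t : F) - algebraMap K F c ∈ mx O := ⟨0, by simpa using h⟩

theorem rational_of_one {O : Subalgebra K F} {t : O} (h : t = 1) :
    ∃ c : K, (t : F) - algebraMap K F c ∈ mx O := by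
  refine ⟨1, ?_⟩
  rw [h, map_one]
  change (1 : F) - 1 ∈ mx O
  rw [sub_self]
  exact zero_mem_mx

/-- If one of the homogeneous coordinates is in the maximal ideal then both are rational. -/
theorem Coord.rational {O : Subalgebra K F} {t : F} {p q : O} (h : Coord O t p q)
    (h' : (p : F) ∈ mx O ∨ (q : F) ∈ mx O) :
    (∃ c : K, (p : F) - algebraMap K F c ∈ mx O) ∧ (∃ c : K, (q : F) - algebraMap K F c ∈ mx O) := by
  rcases h' with h' | h'
  · refine ⟨rational_of_mx h', ?_⟩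
    rcases h.one with h1 | h1
    · exact rational_of_one h1
    · exfalso
      rw [h1] at h'
      exact one_not_mem_mx h'
  · refine ⟨?_, rational_of_mx h'⟩
    rcases h.one with h1 | h1
    · exfalso
      rw [h1] at h'
      exact one_not_mem_mx h'
    · exact rational_of_one h1

/-- The three coordinates of a curve cannot all be `0` or `∞`. -/
theorem not_all {O : Subalgebra K F} (hO : IsCurve S.X O)
    {p₀ q₀ p₁ q₁ p₂ q₂ : O} (h₀ : Coord O S.x p₀ q₀) (h₁ : Coord O S.y p₁ q₁)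
    (h₂ : Coord O S.z p₂ q₂) (h0 : (p₀ : F) ∈ mx O ∨ (q₀ : F) ∈ mx O)
    (h1 : (p₁ : F) ∈ mx O ∨ (q₁ : F) ∈ mx O) (h2 : (p₂ : F) ∈ mx O ∨ (q₂ : F) ∈ mx O) :
    False := by
  apply hO.not_closed
  refine S.closed_of_rational hO.mem h₀ h₁ h₂ ?_
  obtain ⟨a0, b0⟩ := h₀.rational h0
  obtain ⟨a1, b1⟩ := h₁.rational h1
  obtain ⟨a2, b2⟩ := h₂.rational h2
  intro t ht
  simp only [Set.mem_insert_iff, Set.mem_singleton_iff] at ht
  rcases ht with rfl | rfl | rfl | rfl | rfl | rfl <;> assumption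

section TwoInf

variable {O : Subalgebra K F} (hO : IsCurve S.X O) {p₀ q₀ p₁ q₁ p₂ q₂ : O}
  (h₀ : Coord O S.x p₀ q₀) (h₁ : Coord O S.y p₁ q₁) (h₂ : Coord O S.z p₂ q₂)

theorem Coord.p_one {t : F} {p q : O} (h : Coord O t p q) (hq : (q : F) ∈ mx O) : p = 1 := by
  rcases h.one with h1 | h1
  · rw [h1] at hq
    exact absurd hq one_not_mem_mx
  · exact h1

theorem Coord.q_one {t : F} {p q : O} (h : Coord O t p q) (hp : (p : F) ∈ mx O) : q = 1 := by
  rcases h.one with h1 | h1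
  · exact h1
  · rw [h1] at hp
    exact absurd hp one_not_mem_mx

include hO h₀ h₁ h₂

theorem two_inf_12 (hq1 : (q₁ : F) ∈ mx O) (hq2 : (q₂ : F) ∈ mx O) : False := by
  have hloc := isLocalRing_of_mem hO.mem
  have e1 := h₁.p_one hq1
  have e2 := h₂.p_one hq2
  have heq := S.sym_eq h₀ h₁ h₂
  have h3 : ((p₀ * q₀ : O) : F) ∈ mx O := by
    rw [← residue_eq_zero] at hq1 hq2 ⊢
    have := congrArg (rsd O) heq
    rw [e1, e2] at this
    simp only [map_add, map_sub, map_mul, map_pow, map_one, hq1, hq2, map_zero] at this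
    rw [map_mul]
    linear_combination this
  exact S.not_all hO h₀ h₁ h₂ (mem_mx_or_mul h3) (Or.inr hq1) (Or.inr hq2)

theorem two_inf_01 (hq0 : (q₀ : F) ∈ mx O) (hq1 : (q₁ : F) ∈ mx O) : False := by
  have hloc := isLocalRing_of_mem hO.mem
  have e0 := h₀.p_one hq0
  have e1 := h₁.p_one hq1
  have heq := S.sym_eq h₀ h₁ h₂
  have h3 : ((p₂ * q₂ : O) : F) ∈ mx O := by
    rw [← residue_eq_zero] at hq0 hq1 ⊢
    have := congrArg (rsd O) heq
    rw [e0, e1] at this
    simp only [map_add, map_sub, map_mul, map_pow, map_one, hq0, hq1, map_zero] at this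
    rw [map_mul]
    linear_combination this
  exact S.not_all hO h₀ h₁ h₂ (Or.inr hq0) (Or.inr hq1) (mem_mx_or_mul h3)

theorem two_inf_02 (hq0 : (q₀ : F) ∈ mx O) (hq2 : (q₂ : F) ∈ mx O) : False := by
  have hloc := isLocalRing_of_mem hO.mem
  have e0 := h₀.p_one hq0
  have e2 := h₂.p_one hq2
  have heq := S.sym_eq h₀ h₁ h₂
  have h3 : ((p₁ * q₁ : O) : F) ∈ mx O := by
    rw [← residue_eq_zero] at hq0 hq2 ⊢
    have := congrArg (rsd O) heq
    rw [e0, e2] at this
    simp only [map_add, map_sub, map_mul, map_pow, map_one, hq0, hq2, map_zero] at this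
    rw [map_mul]
    linear_combination this
  exact S.not_all hO h₀ h₁ h₂ (Or.inr hq0) (mem_mx_or_mul h3) (Or.inr hq2)

theorem zero_inf_1 (hp0 : (p₀ : F) ∈ mx O) (hq1 : (q₁ : F) ∈ mx O) : False := by
  have hloc := isLocalRing_of_mem hO.mem
  have e0 := h₀.q_one hp0
  have e1 := h₁.p_one hq1
  have heq := S.sym_eq h₀ h₁ h₂
  have h3 : ((q₂ : O) : F) ∈ mx O := by
    rw [← residue_eq_zero] at hp0 hq1 ⊢
    have := congrArg (rsd O) heq
    rw [e0, e1] at this
    simp only [map_add, map_sub, map_mul, map_pow, map_one, hp0, hq1, map_zero] at this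
    have h4 : rsd O q₂ ^ 2 = 0 := by linear_combination this
    exact pow_eq_zero_iff (by norm_num) |>.1 h4
  exact S.two_inf_12 hO h₀ h₁ h₂ hq1 h3

theorem zero_inf_2 (hp0 : (p₀ : F) ∈ mx O) (hq2 : (q₂ : F) ∈ mx O) : False := by
  have hloc := isLocalRing_of_mem hO.mem
  have e0 := h₀.q_one hp0
  have e2 := h₂.p_one hq2
  have heq := S.sym_eq h₀ h₁ h₂
  have h3 : ((q₁ : O) : F) ∈ mx O := by
    rw [← residue_eq_zero] at hp0 hq2 ⊢
    have := congrArg (rsd O) heq
    rw [e0, e2] at this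
    simp only [map_add, map_sub, map_mul, map_pow, map_one, hp0, hq2, map_zero] at this
    have h4 : rsd O q₁ ^ 2 = 0 := by linear_combination this
    exact pow_eq_zero_iff (by norm_num) |>.1 h4
  exact S.two_inf_12 hO h₀ h₁ h₂ h3 hq2

end TwoInf

end Surf

end Pool.Agent.H90ZD
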