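import Pool.Agent.H90ZD.SurfW

open Filter Topology

namespace Pool.Agent.H90ZD

variable {K F : Type} [Field K] [Field F] [Algebra K F]

namespace Surf

variable (S : Surf K F)

/-- If a homogeneous coordinate vanishes at a point then the coordinate is infinite there. -/
theorem Coord.q_unit {O : Subalgebra K F} {t : F} {p q : O} (h : Coord O t p q) (ht : t ∈ O) :
    (q : F) ∉ mx O := by
  intro hq
  have hp := h.p_one hq
  have e1 := h.eq
  rw [hp] at e1
  have e2 : t * (q : F) ∈ mx O := mx_mul_left ht hq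
  rw [e1] at e2
  exact one_not_mem_mx e2

theorem oz_mul_unit {O : Subalgebra K F} (hO : FinOrd O) {f u : F} (hf : f ∈ O) (hu : u ∈ O)
    (hf0 : f ≠ 0) (humx : u ∉ mx O) : oz O (f * u) = oz O f := by
  rw [oz_mul hO hf hu hf0 (ne_zero_of_not_mem_mx humx), oz_unit hu humx, add_zero]

variable [IsAlgClosed K] [CharZero K]

/-- The cycle of zeros of `y + z + 1 - x`. -/
theorem oz_en {C : Curve S.X} {p₀ q₀ p₁ q₁ p₂ q₂ : C.1} (h₀ : Coord C.1 S.x p₀ q₀)
    (h₁ : Coord C.1 S.y p₁ q₁) (h₂ : Coord C.1 S.z p₂ q₂) :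
    oz C.1 ((p₁ * q₂ * q₀ + p₂ * q₁ * q₀ + q₁ * q₂ * q₀ - p₀ * q₁ * q₂ : C.1) : F) =
      (Finsupp.single S.D 1 + Finsupp.single S.L₁' 1 : Curve S.X →₀ ℕ) C := by
  classical
  have hloc := isLocalRing_of_mem C.2.mem
  have hfin := finOrd_curve S.surface C
  set N : C.1 := p₁ * q₂ * q₀ + p₂ * q₁ * q₀ + q₁ * q₂ * q₀ - p₀ * q₁ * q₂ with hN
  have hN' : (N : F) = S.en * (q₀ * q₁ * q₂) := by
    rw [hN]
    unfold en
    push_cast
    rw [← h₀.eq, ← h₁.eq, ← h₂.eq]
    ring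
  have hen := S.en_ne_zero
  have hfinite : (N : F) ∈ mx C.1 → (q₀ : F) ∉ mx C.1 ∧ (q₁ : F) ∉ mx C.1 ∧
      (q₂ : F) ∉ mx C.1 := by
    intro hNmx
    refine ⟨?_, ?_, ?_⟩
    · intro hq0
      have hp0 := h₀.p_one hq0
      have h3 : ((q₁ * q₂ : C.1) : F) ∈ mx C.1 := by
        rw [← residue_eq_zero] at hNmx hq0 ⊢
        rw [hN, hp0] at hNmx
        simp only [map_add, map_sub, map_mul, map_one, hq0] at hNmx
        rw [map_mul]
        linear_combination -hNmx
      rcases mem_mx_or_mul h3 with h | h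
      · exact S.two_inf_01 C.2 h₀ h₁ h₂ hq0 h
      · exact S.two_inf_02 C.2 h₀ h₁ h₂ hq0 h
    · intro hq1
      have hp1 := h₁.p_one hq1
      have h3 : ((q₀ * q₂ : C.1) : F) ∈ mx C.1 := by
        rw [← residue_eq_zero] at hNmx hq1 ⊢
        rw [hN, hp1] at hNmx
        simp only [map_add, map_sub, map_mul, map_one, hq1] at hNmx
        rw [map_mul]
        linear_combination hNmx
      rcases mem_mx_or_mul h3 with h | h
      · exact S.two_inf_01 C.2 h₀ h₁ h₂ h hq1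
      · exact S.two_inf_12 C.2 h₀ h₁ h₂ hq1 h
    · intro hq2
      have hp2 := h₂.p_one hq2
      have h3 : ((q₀ * q₁ : C.1) : F) ∈ mx C.1 := by
        rw [← residue_eq_zero] at hNmx hq2 ⊢
        rw [hN, hp2] at hNmx
        simp only [map_add, map_sub, map_mul, map_one, hq2] at hNmx
        rw [map_mul]
        linear_combination hNmx
      rcases mem_mx_or_mul h3 with h | h
      · exact S.two_inf_02 C.2 h₀ h₁ h₂ h hq2
      · exact S.two_inf_12 C.2 h₀ h₁ h₂ h hq2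
  have hunitcase : ∀ Z : Curve S.X, (∀ i, S.c i ∈ Z.1) → IsUnif Z.1 S.en → Z = C →
      oz C.1 (N : F) = 1 := by
    rintro Z hc hu rfl
    have hq0 := h₀.q_unit (hc 0)
    have hq1 := h₁.q_unit (hc 1)
    have hq2 := h₂.q_unit (hc 2)
    rw [hN', oz_mul_unit hfin hu.mem.1 (Z.1.mul_mem (Z.1.mul_mem q₀.2 q₁.2) q₂.2) hen
      (not_mem_mx_mul (Z.1.mul_mem q₀.2 q₁.2) q₂.2 (not_mem_mx_mul q₀.2 q₁.2 hq0 hq1) hq2)]
    exact hu.oz hloc hen
  rw [Finsupp.add_apply]
  by_cases c1 : C = S.D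
  · rw [hunitcase S.D S.D_coords ⟨S.en_mem_D, S.uniformizer_D⟩ c1.symm, c1,
      Finsupp.single_eq_same, Finsupp.single_eq_of_ne S.D_ne_L₁', add_zero]
  · by_cases c2 : C = S.L₁'
    · rw [hunitcase S.L₁' (S.L_coords _) S.unif_en_L₁' c2.symm, c2,
        Finsupp.single_eq_same, Finsupp.single_eq_of_ne (Ne.symm S.D_ne_L₁')]
    · rw [Finsupp.single_eq_of_ne c1, Finsupp.single_eq_of_ne c2]
      apply oz_unit N.2
      intro hNmx
      obtain ⟨hq0, hq1, hq2⟩ := hfinite hNmx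
      have hx := h₀.mem hq0
      have hy := h₁.mem hq1
      have hz := h₂.mem hq2
      have hc : ∀ i, S.c i ∈ C.1 := by
        intro i
        fin_cases i
        · exact hx
        · exact hy
        · exact hz
      have henO : S.en ∈ C.1 := C.1.sub_mem (C.1.add_mem (C.1.add_mem hy hz) C.1.one_mem) hx
      have hs : S.en ∈ mx C.1 := by
        rw [hN'] at hNmx
        rcases mem_mx_or_of_mul henO (C.1.mul_mem (C.1.mul_mem q₀.2 q₁.2) q₂.2) hNmx with h | h
        · exact h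
        · exact absurd h (not_mem_mx_mul (C.1.mul_mem q₀.2 q₁.2) q₂.2
            (not_mem_mx_mul q₀.2 q₁.2 hq0 hq1) hq2)
      rcases S.en_zero hc hs with h | h
      · exact c1 h
      · exact c2 h

/-- The linear equivalence given by `w - 1`. -/
theorem cls_D : natCls (Finsupp.single S.D 1 + Finsupp.single S.L₁' 1) =
    natCls (polar S.surface S.y_ne_zero + polar S.surface S.z_ne_zero +
      (Finsupp.single S.L₁ 1 + Finsupp.single S.L₁' 1)) := by
  have hx0 := S.x_ne_zero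
  apply natCls_eq_of_zord S.surface (h := S.en / S.x) (div_ne_zero S.en_ne_zero hx0)
  intro C
  have hfin := finOrd_curve S.surface C
  obtain ⟨p₀, q₀, h₀⟩ : ∃ p q : C.1, Coord C.1 S.x p q := S.coord_C C 0
  obtain ⟨p₁, q₁, h₁⟩ : ∃ p q : C.1, Coord C.1 S.y p q := S.coord_C C 1
  obtain ⟨p₂, q₂, h₂⟩ : ∃ p q : C.1, Coord C.1 S.z p q := S.coord_C C 2
  rw [← S.oz_en h₀ h₁ h₂, Finsupp.add_apply, Finsupp.add_apply,
    polar_coord S.surface S.y_ne_zero h₁,
    polar_coord S.surface S.z_ne_zero h₂, ← S.zeroData_x.oz_eq S.surface h₀]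
  set N : C.1 := p₁ * q₂ * q₀ + p₂ * q₁ * q₀ + q₁ * q₂ * q₀ - p₀ * q₁ * q₂ with hN
  have hN' : (N : F) = S.en * (q₀ * q₁ * q₂) := by
    rw [hN]
    unfold en
    push_cast
    rw [← h₀.eq, ← h₁.eq, ← h₂.eq]
    ring
  have hq0 := h₀.ne
  have hq1 := h₁.ne
  have hq2 := h₂.ne
  have hen := S.en_ne_zero
  have hp0 : (p₀ : F) ≠ 0 := by
    rw [← h₀.eq]
    exact mul_ne_zero hx0 hq0
  have hN0 : (N : F) ≠ 0 := by
    rw [hN']
    exact mul_ne_zero hen (mul_ne_zero (mul_ne_zero hq0 hq1) hq2)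
  have e2 : S.en / S.x = (N : F) / (((q₁ : F) * q₂) * p₀) := by
    rw [hN', ← h₀.eq]
    field_simp
  rw [e2, zord_div hfin N.2 (C.1.mul_mem (C.1.mul_mem q₁.2 q₂.2) p₀.2) hN0
      (mul_ne_zero (mul_ne_zero hq1 hq2) hp0),
    oz_mul hfin (C.1.mul_mem q₁.2 q₂.2) p₀.2 (mul_ne_zero hq1 hq2) hp0,
    oz_mul hfin q₁.2 q₂.2 hq1 hq2]

theorem natCls_two {X : Set (Subalgebra K F)} (Z₁ Z₂ : Curve X) :
    natCls (Finsupp.single Z₁ 1 + Finsupp.single Z₂ 1) = cc Z₁ + cc Z₂ := by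
  rw [natCls_add, natCls_single', natCls_single', Nat.cast_one, one_smul, one_smul]

/-- The class of `D`. -/
theorem cc_D : cc S.D = cc S.L₁ + natCls (polar S.surface S.y_ne_zero) +
    natCls (polar S.surface S.z_ne_zero) := by
  have h := S.cls_D
  rw [natCls_two, natCls_add, natCls_two, natCls_add] at h
  have h1 : cc S.D = (cc S.D + cc S.L₁') - cc S.L₁' := by abel
  rw [h1, h]
  abel

/-- `D` is a member of a pencil. -/
theorem pencil_D : IsPencilMember S.D := by
  refine ⟨S.w - 1, ?_, ?_, ?_⟩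
  · intro c hc
    have h1 := S.w_sub_one_mem_D
    rw [hc] at h1
    have hc0 : c = 0 := by
      by_contra h
      exact algebraMap_not_mem_mx h h1
    rw [hc0, map_zero, S.w_sub_one] at hc
    exact div_ne_zero S.en_ne_zero S.x_ne_zero hc
  · intro C'
    constructor
    · intro h
      classical
      obtain ⟨p₀, q₀, h₀⟩ : ∃ p q : C'.1, Coord C'.1 S.x p q := S.coord_C C' 0
      obtain ⟨p₁, q₁, h₁⟩ : ∃ p q : C'.1, Coord C'.1 S.y p q := S.coord_C C' 1
      obtain ⟨p₂, q₂, h₂⟩ : ∃ p q : C'.1, Coord C'.1 S.z p q := S.coord_C C' 2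
      have hfin := finOrd_curve S.surface C'
      have hloc := isLocalRing_of_mem C'.2.mem
      set N : C'.1 := p₁ * q₂ * q₀ + p₂ * q₁ * q₀ + q₁ * q₂ * q₀ - p₀ * q₁ * q₂ with hN
      have hN' : (N : F) = S.en * (q₀ * q₁ * q₂) := by
        rw [hN]
        unfold en
        push_cast
        rw [← h₀.eq, ← h₁.eq, ← h₂.eq]
        ring
      have hx0 := S.x_ne_zero
      have hq0 := h₀.ne
      have e1 : (N : F) = (S.w - 1) * (p₀ * q₁ * q₂) := by
        rw [hN', S.w_sub_one, ← h₀.eq]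
        field_simp
      have hNmx : (N : F) ∈ mx C'.1 := by
        rw [e1]
        exact mx_mul_right h (C'.1.mul_mem (C'.1.mul_mem p₀.2 q₁.2) q₂.2)
      have h3 := S.oz_en h₀ h₁ h₂
      have hN0 : (N : F) ≠ 0 := by
        rw [hN']
        exact mul_ne_zero S.en_ne_zero (mul_ne_zero (mul_ne_zero hq0 h₁.ne) h₂.ne)
      have h4 := oz_pos hfin hNmx hN0
      rw [h3, Finsupp.add_apply] at h4
      by_contra hne
      rw [Finsupp.single_eq_of_ne hne, zero_add] at h4
      have h5 : C' = S.L₁' := by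
        by_contra hne'
        rw [Finsupp.single_eq_of_ne hne'] at h4
        omega
      -- at `L₁'` the function `w - 1` is a unit
      subst h5
      have hen := S.unif_en_L₁'
      have h6 := hen.div_mem S.x (S.x_mem_L _)
      have h7 : (S.w - 1) * (S.x / S.en) = 1 := by
        have := S.en_ne_zero
        rw [S.w_sub_one]
        field_simp
      have h8 := mx_mul_right h h6
      rw [h7] at h8
      exact one_not_mem_mx h8
    · rintro rfl
      exact S.w_sub_one_mem_D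
  · intro f hf
    have h1 := S.uniformizer_D f hf
    have e1 : f / (S.w - 1) = (f / S.en) * S.x := by
      have := S.en_ne_zero
      have := S.x_ne_zero
      rw [S.w_sub_one]
      field_simp
    rw [e1]
    exact S.D.1.mul_mem h1 (S.D_coords 0)

/-- The sum of the classes of the three fibrations is dominating. -/
theorem dominating_H : Dominating S.X (natCls (polar S.surface S.x_ne_zero +
    polar S.surface S.y_ne_zero + polar S.surface S.z_ne_zero)) := by
  refine dominating_of_section S.surface S.fg₀ rfl S.one_mem_V₀ one_ne_zero _ ?_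
  intro C
  have hfin := finOrd_curve S.surface C
  obtain ⟨p₀, q₀, h₀⟩ : ∃ p q : C.1, Coord C.1 S.x p q := S.coord_C C 0
  obtain ⟨p₁, q₁, h₁⟩ : ∃ p q : C.1, Coord C.1 S.y p q := S.coord_C C 1
  obtain ⟨p₂, q₂, h₂⟩ : ∃ p q : C.1, Coord C.1 S.z p q := S.coord_C C 2
  refine ⟨_, S.dom_V₀ h₀ h₁ h₂, ?_⟩
  have hq0 := h₀.ne
  have hq1 := h₁.ne
  have hq2 := h₂.ne
  have e1 : (1 : F) / (((q₀ : F)⁻¹ * (q₁ : F)⁻¹) * (q₂ : F)⁻¹) = (q₀ * q₁) * q₂ := by
    field_simp
  rw [e1, Finsupp.add_apply, Finsupp.add_apply, polar_coord S.surface S.x_ne_zero h₀,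
    polar_coord S.surface S.y_ne_zero h₁, polar_coord S.surface S.z_ne_zero h₂,
    oz_mul hfin (C.1.mul_mem q₀.2 q₁.2) q₂.2 (mul_ne_zero hq0 hq1) hq2,
    oz_mul hfin q₀.2 q₁.2 hq0 hq1]

end Surf

end Pool.Agent.H90ZD
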