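import Pool.Agent.H90ZD.SurfDiv

open Filter Topology

namespace Pool.Agent.H90ZD

variable {K F : Type} [Field K] [Field F] [Algebra K F]

theorem Surf.Coord.dom {O : Subalgebra K F} {t : F} {p q : O} (h : Surf.Coord O t p q) :
    Dom (Submodule.span K {1, t}) O (q : F)⁻¹ := by
  refine ⟨?_, inv_ne_zero h.ne, fun v hv => ?_⟩
  · rcases h.one with h1 | h1
    · rw [h1]
      change (1 : F)⁻¹ ∈ _
      rw [inv_one]
      exact Surf.one_mem_pair t
    · have e : (q : F)⁻¹ = t := by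
        have h2 := h.eq
        rw [h1] at h2
        exact inv_eq_of_mul_eq_one_left h2
      rw [e]
      exact Surf.mem_pair t
  · rw [Submodule.mem_span_pair] at hv
    obtain ⟨a, b, rfl⟩ := hv
    have e : (a • (1 : F) + b • t) / (q : F)⁻¹ = a • (q : F) + b • (p : F) := by
      rw [← h.eq, Algebra.smul_def, Algebra.smul_def, Algebra.smul_def, Algebra.smul_def]
      rw [div_inv_eq_mul]
      ring
    rw [e]
    exact O.add_mem (O.smul_mem q.2 a) (O.smul_mem p.2 b)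

namespace Surf

variable (S : Surf K F)

theorem dom_V₀ {O : Subalgebra K F} {p₀ q₀ p₁ q₁ p₂ q₂ : O} (h₀ : Coord O S.x p₀ q₀)
    (h₁ : Coord O S.y p₁ q₁) (h₂ : Coord O S.z p₂ q₂) :
    Dom S.V₀ O (((q₀ : F)⁻¹ * (q₁ : F)⁻¹) * (q₂ : F)⁻¹) :=
  mul_div_mul_mem (mul_div_mul_mem h₀.dom h₁.dom) h₂.dom

/-- The linear system of the forms of bidegree `(1,1)` in `y`, `z`. -/
def Ψ : Submodule K F := Submodule.span K {1, S.y} * Submodule.span K {1, S.z}

/-- The rational function `w`. -/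
def w : F := (S.y + S.z + 1) / S.x

def Φ : Submodule K F := S.Ψ ⊔ Submodule.span K {S.w}

theorem fgΨ : S.Ψ.FG := (fg_pair _ _).mul (fg_pair _ _)

theorem fgΦ : S.Φ.FG := S.fgΨ.sup (Submodule.fg_span_singleton _)

theorem dom_Ψ {O : Subalgebra K F} {p₁ q₁ p₂ q₂ : O} (h₁ : Coord O S.y p₁ q₁)
    (h₂ : Coord O S.z p₂ q₂) : Dom S.Ψ O ((q₁ : F)⁻¹ * (q₂ : F)⁻¹) :=
  mul_div_mul_mem h₁.dom h₂.dom

theorem w_ne_zero : S.w ≠ 0 := by
  unfold w
  apply div_ne_zero _ S.x_ne_zero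
  have := S.s_ne_zero (-1 : K)
  rw [map_neg, map_one, sub_neg_eq_add] at this
  exact this

theorem dom_Φ_of_Ψ {O : Subalgebra K F} {v : F} (h : Dom S.Ψ O v) (hw : S.w / v ∈ O) :
    Dom S.Φ O v := by
  refine ⟨Submodule.mem_sup_left h.mem, h.ne_zero, fun f hf => ?_⟩
  obtain ⟨g, hg, k, hk, rfl⟩ := Submodule.mem_sup.1 hf
  obtain ⟨c, rfl⟩ := Submodule.mem_span_singleton.1 hk
  rw [add_div, Algebra.smul_def, mul_div_assoc]
  exact O.add_mem (h.div_mem g hg) (O.mul_mem (O.algebraMap_mem c) hw)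

theorem dom_Φ_w {O : Subalgebra K F} {v : F} (h : Dom S.Ψ O v) (hw : v / S.w ∈ O) :
    Dom S.Φ O S.w := by
  have hw0 := S.w_ne_zero
  have hv0 := h.ne_zero
  refine ⟨Submodule.mem_sup_right (Submodule.mem_span_singleton_self _), hw0, fun f hf => ?_⟩
  obtain ⟨g, hg, k, hk, rfl⟩ := Submodule.mem_sup.1 hf
  obtain ⟨c, rfl⟩ := Submodule.mem_span_singleton.1 hk
  have e : (g + c • S.w) / S.w = (g / v) * (v / S.w) + algebraMap K F c := by
    rw [Algebra.smul_def]
    field_simp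
  rw [e]
  exact O.add_mem (O.mul_mem (h.div_mem g hg) hw) (O.algebraMap_mem c)

theorem w_div {O : Subalgebra K F} {p₀ q₀ p₁ q₁ p₂ q₂ : O} (h₀ : Coord O S.x p₀ q₀)
    (h₁ : Coord O S.y p₁ q₁) (h₂ : Coord O S.z p₂ q₂) :
    S.w / ((q₁ : F)⁻¹ * (q₂ : F)⁻¹) =
      ((p₁ * q₂ + p₂ * q₁ + q₁ * q₂ : O) : F) * q₀ / p₀ := by
  have hq0 := h₀.ne
  have hq1 := h₁.ne
  have hq2 := h₂.ne
  have hx := S.x_ne_zero
  unfold w
  push_cast
  rw [← h₀.eq, ← h₁.eq, ← h₂.eq]
  field_simp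

/-- The linear system `Φ` has no base points. -/
theorem phi_bpf [CharZero K] {O : Subalgebra K F} (hO : O ∈ S.X) : ∃ v, Dom S.Φ O v := by
  have hloc := isLocalRing_of_mem hO
  obtain ⟨⟨p₀, q₀, h₀⟩, ⟨p₁, q₁, h₁⟩, ⟨p₂, q₂, h₂⟩⟩ := S.exists_coords hO
  have hΨ := S.dom_Ψ h₁ h₂
  have hwd := S.w_div h₀ h₁ h₂
  set v := (q₁ : F)⁻¹ * (q₂ : F)⁻¹ with hv
  have hv0 : v ≠ 0 := hΨ.ne_zero
  suffices h : S.w / v ∈ O ∨ v / S.w ∈ O by
    rcases h with h | h
    · exact ⟨v, S.dom_Φ_of_Ψ hΨ h⟩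
    · exact ⟨S.w, S.dom_Φ_w hΨ h⟩
  set T : O := p₁ * q₂ + p₂ * q₁ + q₁ * q₂ with hT
  have hw0 := S.w_ne_zero
  have hp0 : (p₀ : F) ≠ 0 := by
    rw [← h₀.eq]
    exact mul_ne_zero S.x_ne_zero h₀.ne
  have hT0 : (T : F) ≠ 0 := by
    intro h0
    rw [h0, zero_mul, zero_div] at hwd
    exact div_ne_zero hw0 hv0 hwd
  rcases h₀.one with h | h
  · -- `x` is regular
    have hq0 : (q₀ : F) = 1 := by
      rw [h]
      rfl
    rw [hq0, mul_one] at hwd
    have hwd' : v / S.w = (p₀ : F) / T := by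
      have : v / S.w = (S.w / v)⁻¹ := by rw [inv_div]
      rw [this, hwd, inv_div]
    by_cases c1 : (p₀ : F) ∈ mx O
    · -- `x` vanishes
      by_cases c2 : (T : F) ∈ mx O
      · set T' : O := p₁ * q₂ + p₂ * q₁ - q₁ * q₂ with hT'
        set A := lA p₁ q₁ p₂ q₂ with hA
        set B := lB p₁ q₁ p₂ q₂ with hB
        have heq := S.local_eq h₀ h₁ h₂
        rw [← hA, ← hB, h] at heq
        have hD : lD p₁ q₁ p₂ q₂ = T' * T := by
          rw [hT, hT']
          unfold lD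
          ring
        rw [hD] at heq
        have heq' : T' * T = -(p₀ * (A * p₀ + B)) := by linear_combination heq
        by_cases c3 : (T' : F) ∈ mx O
        · by_cases c4 : ((A * p₀ + B : O) : F) ∈ mx O
          · exfalso
            have h2 := two_ne_zero_res (K := K) (O := O)
            rw [← residue_eq_zero] at c1 c2 c3 c4
            rw [hT] at c2
            rw [hT'] at c3
            simp only [map_add, map_sub, map_mul] at c2 c3 c4
            rw [c1, mul_zero, zero_add] at c4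
            have r1 : rsd O q₁ * rsd O q₂ = 0 := by
              have : 2 * (rsd O q₁ * rsd O q₂) = 0 := by linear_combination c2 - c3
              rcases mul_eq_zero.1 this with h | h
              · exact absurd h h2
              · exact h
            have r2 : rsd O p₁ * rsd O q₂ + rsd O p₂ * rsd O q₁ = 0 := by
              linear_combination c2 - r1
            rw [hB] at c4
            unfold lB at c4
            simp only [map_add, map_mul, map_pow] at c4
            rw [r1, mul_zero, zero_add] at c4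
            have r3 : rsd O p₁ * rsd O p₂ = 0 := pow_eq_zero_iff (by norm_num) |>.1 c4
            refine local_unimod hloc (p₁ := p₁) (q₁ := q₁) (p₂ := p₂) (q₂ := q₂) h₁.one h₂.one
              ?_ ?_ ?_
            · rw [← residue_eq_zero]
              unfold lA
              simp only [map_add, map_mul, map_pow]
              rw [r1, r3]
              ring
            · rw [← residue_eq_zero]
              unfold lB
              simp only [map_add, map_mul, map_pow]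
              rw [r1, r3]
              ring
            · rw [← residue_eq_zero]
              unfold lD
              simp only [map_add, map_sub, map_mul, map_pow]
              rw [r1, r2]
              ring
          · right
            rw [hwd']
            have hne := ne_zero_of_not_mem_mx c4
            have e1 : (p₀ : F) / T = -((T' : F) * (((A * p₀ + B : O) : F))⁻¹) := by
              have e2 := congrArg (fun t : O => (t : F)) heq'
              have e3 : (T' : F) * T = -((p₀ : F) * ((A * p₀ + B : O) : F)) := e2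
              generalize ((A * p₀ + B : O) : F) = r at hne e3 ⊢
              field_simp
              linear_combination e3
            rw [e1]
            exact O.neg_mem (O.mul_mem T'.2 (inv_mem_of_not_mem_mx (A * p₀ + B : O).2 c4))
        · left
          rw [hwd]
          have hne := ne_zero_of_not_mem_mx c3
          have e1 : (T : F) / p₀ = -(((A * p₀ + B : O) : F) * (T' : F)⁻¹) := by
            have e2 := congrArg (fun t : O => (t : F)) heq'
            have e3 : (T' : F) * T = -((p₀ : F) * ((A * p₀ + B : O) : F)) := e2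
            generalize ((A * p₀ + B : O) : F) = r at e3 ⊢
            field_simp
            linear_combination e3
          rw [e1]
          exact O.neg_mem (O.mul_mem (A * p₀ + B : O).2 (inv_mem_of_not_mem_mx T'.2 c3))
      · right
        rw [hwd', div_eq_mul_inv]
        exact O.mul_mem p₀.2 (inv_mem_of_not_mem_mx T.2 c2)
    · left
      rw [hwd, div_eq_mul_inv]
      exact O.mul_mem T.2 (inv_mem_of_not_mem_mx p₀.2 c1)
  · left
    rw [hwd, h]
    change (T : F) * q₀ / 1 ∈ O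
    rw [div_one]
    exact O.mul_mem T.2 q₀.2

theorem modelΨ : Model (S.V₀ * S.Ψ) = S.X := by
  refine model_mul S.fg₀ S.V₀_ne_bot (fun O hO => ?_)
  obtain ⟨-, ⟨p₁, q₁, h₁⟩, ⟨p₂, q₂, h₂⟩⟩ := S.exists_coords hO
  exact ⟨_, S.dom_Ψ h₁ h₂⟩

theorem modelΦ [CharZero K] : Model (S.V₀ * S.Φ) = S.X :=
  model_mul S.fg₀ S.V₀_ne_bot (fun _ hO => S.phi_bpf hO)

variable [IsAlgClosed K] [CharZero K]

/-- Outside `L₁` the function `w` is a section of `Ψ`. -/
theorem w_div_mem {C : Curve S.X} (hC : C ≠ S.L₁) {p₀ q₀ p₁ q₁ p₂ q₂ : C.1}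
    (h₀ : Coord C.1 S.x p₀ q₀) (h₁ : Coord C.1 S.y p₁ q₁) (h₂ : Coord C.1 S.z p₂ q₂) :
    S.w / ((q₁ : F)⁻¹ * (q₂ : F)⁻¹) ∈ C.1 := by
  rw [S.w_div h₀ h₁ h₂]
  by_cases c1 : (p₀ : F) ∈ mx C.1
  · have hq := h₀.q_one c1
    have hx : S.x ∈ mx C.1 := by
      have e := h₀.eq
      rw [hq] at e
      have e2 : (p₀ : F) = S.x := by
        rw [← e]
        change S.x * 1 = S.x
        rw [mul_one]
      rwa [e2] at c1
    rcases S.x_zero hx with h | h
    · exact absurd h hC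
    · subst h
      have h3 := S.w_div h₀ h₁ h₂
      rw [← h3]
      have h4 := S.s_div_x_mem_L (e := (-1 : K)) (by norm_num)
      rw [map_neg, map_one, sub_neg_eq_add] at h4
      have e1 : S.w / ((q₁ : F)⁻¹ * (q₂ : F)⁻¹) = (S.y + S.z + 1) / S.x * (q₁ * q₂) := by
        have hq1 := h₁.ne
        have hq2 := h₂.ne
        unfold w
        field_simp
      rw [e1]
      exact Subalgebra.mul_mem _ h4 (Subalgebra.mul_mem _ q₁.2 q₂.2)
  · rw [div_eq_mul_inv]
    exact C.1.mul_mem (C.1.mul_mem (p₁ * q₂ + p₂ * q₁ + q₁ * q₂ : C.1).2 q₀.2)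
      (inv_mem_of_not_mem_mx p₀.2 c1)

theorem degC_le_of_hilb {X : Set (Subalgebra K F)} (hX : IsProjectiveSurface X)
    {V V' : Submodule K F} (hV : V.FG) (hV' : V'.FG) (h : Model V = X) (h' : Model V' = X)
    (C : Curve X) (hle : ∀ m, hilb V C.1 m ≤ hilb V' C.1 m) : degC V C.1 ≤ degC V' C.1 := by
  refine le_of_tendsto_of_tendsto' (tendsto_degC hX hV h C.2) (tendsto_degC hX hV' h' C.2) ?_
  intro m
  have : (hilb V C.1 m : ℝ) ≤ hilb V' C.1 m := by exact_mod_cast hle m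
  gcongr

theorem degC_lt_of_hilb {X : Set (Subalgebra K F)} (hX : IsProjectiveSurface X)
    {V V' : Submodule K F} (hV : V.FG) (hV' : V'.FG) (h : Model V = X) (h' : Model V' = X)
    (C : Curve X) (hle : ∀ m, hilb V C.1 m + m ≤ hilb V' C.1 m) : degC V C.1 < degC V' C.1 := by
  have h1 : degC V C.1 + 1 ≤ degC V' C.1 := by
    refine le_of_tendsto_of_tendsto ((tendsto_degC hX hV h C.2).add_const 1)
      (tendsto_degC hX hV' h' C.2) ?_
    filter_upwards [eventually_gt_atTop 0] with m hm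
    have h2 : (hilb V C.1 m : ℝ) + m ≤ hilb V' C.1 m := by exact_mod_cast hle m
    have hm' : (0 : ℝ) < m := by exact_mod_cast hm
    rw [div_add_one hm'.ne', div_le_div_iff_of_pos_right hm']
    exact h2
  linarith

theorem deg_le_other {C : Curve S.X} (hC : C ≠ S.L₁) :
    degC (S.V₀ * S.Ψ) C.1 ≤ degC (S.V₀ * S.Φ) C.1 := by
  apply degC_le_of_hilb S.surface (S.fg₀.mul S.fgΨ) (S.fg₀.mul S.fgΦ) S.modelΨ S.modelΦ
  intro m
  obtain ⟨⟨p₀, q₀, h₀⟩, ⟨p₁, q₁, h₁⟩, ⟨p₂, q₂, h₂⟩⟩ := S.exists_coords C.2.mem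
  have hΨ := S.dom_Ψ h₁ h₂
  have hΦ := S.dom_Φ_of_Ψ hΨ (S.w_div_mem hC h₀ h₁ h₂)
  refine hilb_mul_mono (isLocalRing_of_mem C.2.mem) S.fg₀ S.fgΨ S.fgΦ (S.dom_V₀ h₀ h₁ h₂)
    hΨ hΦ ?_ m
  intro v hv
  refine ⟨v, Submodule.mem_sup_left hv, ?_⟩
  rw [sub_self]
  exact zero_mem_mx

theorem w_sub_one : S.w - 1 = S.en / S.x := by
  have hx := S.x_ne_zero
  unfold w en
  field_simp

theorem w_sub_one_mem_D : S.w - 1 ∈ mx S.D.1 := by
  rw [S.w_sub_one, div_eq_mul_inv]
  exact mx_mul_right S.en_mem_D (inv_mem_of_not_mem_mx (S.D_coords 0) S.x_not_mem_D)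

theorem deg_eq_D : degC (S.V₀ * S.Φ) S.D.1 = degC (S.V₀ * S.Ψ) S.D.1 := by
  have hloc := isLocalRing_of_mem S.D.2.mem
  have hc := S.D_coords
  have hw := S.w_sub_one_mem_D
  have hwD : S.w ∈ S.D.1 := by
    have := Subalgebra.add_mem _ hw.1 (Subalgebra.one_mem S.D.1)
    rwa [sub_add_cancel] at this
  have h₁ : Coord S.D.1 S.y ⟨S.y, hc 1⟩ 1 := ⟨one_ne_zero, by simp, Or.inl rfl⟩
  have h₂ : Coord S.D.1 S.z ⟨S.z, hc 2⟩ 1 := ⟨one_ne_zero, by simp, Or.inl rfl⟩
  have hΨ : Dom S.Ψ S.D.1 1 := by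
    have := S.dom_Ψ h₁ h₂
    simpa using this
  have hΦ : Dom S.Φ S.D.1 1 := S.dom_Φ_of_Ψ hΨ (by rwa [div_one])
  have h0 : Dom S.V₀ S.D.1 1 := dom_one hc
  apply le_antisymm
  · apply degC_le_of_hilb S.surface (S.fg₀.mul S.fgΦ) (S.fg₀.mul S.fgΨ) S.modelΦ S.modelΨ
    intro m
    refine hilb_mul_mono hloc S.fg₀ S.fgΦ S.fgΨ h0 hΦ hΨ ?_ m
    intro v hv
    obtain ⟨g, hg, k, hk, rfl⟩ := Submodule.mem_sup.1 hv
    obtain ⟨c, rfl⟩ := Submodule.mem_span_singleton.1 hk
    refine ⟨g + c • 1, Submodule.add_mem _ hg (Submodule.smul_mem _ _ hΨ.mem), ?_⟩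
    have e : (g + c • S.w) / 1 - (g + c • (1 : F)) / 1 = algebraMap K F c * (S.w - 1) := by
      rw [Algebra.smul_def, Algebra.smul_def]
      ring
    rw [e]
    exact mx_mul_left (Subalgebra.algebraMap_mem _ c) hw
  · apply degC_le_of_hilb S.surface (S.fg₀.mul S.fgΨ) (S.fg₀.mul S.fgΦ) S.modelΨ S.modelΦ
    intro m
    refine hilb_mul_mono hloc S.fg₀ S.fgΨ S.fgΦ h0 hΨ hΦ ?_ m
    intro v hv
    refine ⟨v, Submodule.mem_sup_left hv, ?_⟩
    rw [sub_self]
    exact zero_mem_mx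

theorem deg_lt_L : degC (S.V₀ * S.Φ) S.L₁.1 < degC (S.V₀ * S.Ψ) S.L₁.1 := by
  have hloc := isLocalRing_of_mem S.L₁.2.mem
  have hc : ∀ i, S.c i ∈ S.L₁.1 := S.L_coords _
  have hy : S.y ∈ S.L₁.1 := hc 1
  have hz : S.z ∈ S.L₁.1 := hc 2
  have h₁ : Coord S.L₁.1 S.y ⟨S.y, hy⟩ 1 := ⟨one_ne_zero, by simp, Or.inl rfl⟩
  have h₂ : Coord S.L₁.1 S.z ⟨S.z, hz⟩ 1 := ⟨one_ne_zero, by simp, Or.inl rfl⟩
  have hΨ : Dom S.Ψ S.L₁.1 1 := by
    have := S.dom_Ψ h₁ h₂
    simpa using this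
  have h0 : Dom S.V₀ S.L₁.1 1 := dom_one hc
  have hs : S.y + S.z + 1 ∉ mx S.L₁.1 := by
    have := S.s_add_not_mem_L (e := (1 : K)) (one_pow 2)
    rwa [map_one] at this
  have hs1 : S.y + S.z + 1 ∈ S.L₁.1 :=
    Subalgebra.add_mem _ (Subalgebra.add_mem _ hy hz) (Subalgebra.one_mem _)
  have hx : S.x ∈ mx S.L₁.1 := S.x_mem_L _
  have hinv : 1 / S.w ∈ mx S.L₁.1 := by
    have e1 : 1 / S.w = S.x * (S.y + S.z + 1)⁻¹ := by
      unfold w
      rw [one_div, inv_div, div_eq_mul_inv]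
    rw [e1]
    exact mx_mul_right hx (inv_mem_of_not_mem_mx hs1 hs)
  have hΦ : Dom S.Φ S.L₁.1 S.w := S.dom_Φ_w hΨ hinv.1
  have hone : Dom (1 : Submodule K F) S.L₁.1 1 := by
    refine ⟨Submodule.one_le.1 le_rfl, one_ne_zero, fun v hv => ?_⟩
    rw [Submodule.mem_one] at hv
    obtain ⟨c, rfl⟩ := hv
    rw [div_one]
    exact Subalgebra.algebraMap_mem _ c
  have hfg1 : (1 : Submodule K F).FG := by
    rw [Submodule.one_eq_span]
    exact Submodule.fg_span_singleton _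
  have hle : ∀ m, hilb (S.V₀ * S.Φ) S.L₁.1 m ≤ hilb S.V₀ S.L₁.1 m := by
    intro m
    have h := hilb_mul_mono hloc S.fg₀ S.fgΦ hfg1 h0 hΦ hone (by
      intro v hv
      obtain ⟨g, hg, k, hk, rfl⟩ := Submodule.mem_sup.1 hv
      obtain ⟨c, rfl⟩ := Submodule.mem_span_singleton.1 hk
      refine ⟨algebraMap K F c, Submodule.mem_one.2 ⟨c, rfl⟩, ?_⟩
      have hw0 := S.w_ne_zero
      have e : (g + c • S.w) / S.w - algebraMap K F c / 1 = (g / 1) * (1 / S.w) := by
        rw [Algebra.smul_def]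
        field_simp
        ring
      rw [e]
      exact mx_mul_left (hΨ.div_mem g hg) hinv) m
    rwa [mul_one] at h
  have h1 : degC (S.V₀ * S.Φ) S.L₁.1 ≤ degC S.V₀ S.L₁.1 :=
    degC_le_of_hilb S.surface (S.fg₀.mul S.fgΦ) S.fg₀ S.modelΦ rfl S.L₁ hle
  have h2 : degC S.V₀ S.L₁.1 < degC (S.V₀ * S.Ψ) S.L₁.1 := by
    refine degC_lt_of_hilb S.surface S.fg₀ (S.fg₀.mul S.fgΨ) rfl S.modelΨ S.L₁ ?_
    intro m
    refine hilb_mul_ge hloc S.fg₀ S.fgΨ h0 hΨ (b := S.y) ?_ ?_ m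
    · have := Submodule.mul_mem_mul (mem_pair (K := K) S.y) (one_mem_pair (K := K) S.z)
      rwa [mul_one] at this
    · intro c hmx
      rw [div_one] at hmx
      have e1 : S.y - algebraMap K F c = S.π (MvPolynomial.X 1 - MvPolynomial.C c) := by
        rw [map_sub, S.π_X, S.π_C]
        rfl
      rw [e1] at hmx
      have h3 := (S.π_mem_mx_L (e := (1 : K)) (one_pow 2)).1 hmx
      rw [map_sub, εL_X1, εL_C] at h3
      exact Polynomial.X_sub_C_ne_zero c h3
  exact lt_of_le_of_lt h1 h2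

/-- `y + z + 1 - x` is a uniformizer on the line `x = 0`, `y + z = -1`. -/
theorem unif_en_L₁' : IsUnif S.L₁'.1 S.en := by
  have hloc := isLocalRing_of_mem S.L₁'.2.mem
  have hc : ∀ i, S.c i ∈ S.L₁'.1 := S.L_coords _
  have hx : S.x ∈ mx S.L₁'.1 := S.x_mem_L _
  have hy : S.y ∈ S.L₁'.1 := hc 1
  have hz : S.z ∈ S.L₁'.1 := hc 2
  have he : (-1 : K) ^ 2 = 1 := by norm_num
  have hs : S.y + S.z + 1 ∈ mx S.L₁'.1 := by
    have := S.s_mem_L he
    rw [map_neg, map_one, sub_neg_eq_add] at this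
    exact this
  have hs' : S.y + S.z - 1 ∉ mx S.L₁'.1 := by
    have := S.s_add_not_mem_L he
    rw [map_neg, map_one, ← sub_eq_add_neg] at this
    exact this
  have hs0 := ne_zero_of_not_mem_mx hs'
  have hroot := S.root_eq he
  rw [map_neg, map_one, sub_neg_eq_add, ← sub_eq_add_neg] at hroot
  have hen := S.en_ne_zero
  have hx0 := S.x_ne_zero
  -- the unit `a x + b + y + z - 1`
  have hpoly : S.π (MvPolynomial.rename Fin.succ (qa K) * MvPolynomial.X 0 +
      MvPolynomial.rename Fin.succ (qb K) + MvPolynomial.X 1 + MvPolynomial.X 2 - 1) =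
      S.a * S.x + S.b + S.y + S.z - 1 := by
    rw [map_sub, map_add, map_add, map_add, map_mul, S.π_X, S.π_X, S.π_X, S.π_quad, S.π_quad,
      map_one]
    unfold qa qb a b
    simp only [map_add, map_mul, map_pow, map_one, map_ofNat, MvPolynomial.aeval_X]
    rfl
  have hr : S.a * S.x + S.b + S.y + S.z - 1 ∈ S.L₁'.1 := by
    rw [← hpoly]
    exact S.π_mem_pt _ _
  have hrmx : S.a * S.x + S.b + S.y + S.z - 1 ∉ mx S.L₁'.1 := by
    intro h
    rw [← hpoly] at h
    have h2 := (S.π_mem_mx_L he).1 h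
    rw [map_sub, map_add, map_add, map_add, map_mul, εL_X0, mul_zero, zero_add, εL_rename,
      εL_X1, εL_X2, map_one] at h2
    unfold qb at h2
    simp only [map_add, map_mul, map_pow, map_ofNat, MvPolynomial.aeval_X] at h2
    have h5 := congrArg (Polynomial.eval 0) h2
    simp at h5
    have h6 : (4 : K) = 0 := by linear_combination -h5
    norm_num at h6
  have hrne := ne_zero_of_not_mem_mx hrmx
  have hrel : S.en * (S.y + S.z - 1) = -(S.x * (S.a * S.x + S.b + S.y + S.z - 1)) := by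
    unfold en
    linear_combination hroot
  refine ⟨?_, ?_⟩
  · have e1 : S.en = (S.y + S.z + 1) - S.x := rfl
    rw [e1]
    exact mx_sub hloc hs hx
  · intro g hg
    have h1 := S.uniformizer_L he g hg
    have e1 : g / S.en = -((g / S.x) * ((S.y + S.z - 1) *
        (S.a * S.x + S.b + S.y + S.z - 1)⁻¹)) := by
      generalize S.a * S.x + S.b + S.y + S.z - 1 = r at hrne hrel ⊢
      field_simp
      linear_combination g * hrel
    rw [e1]
    exact Subalgebra.neg_mem _ (Subalgebra.mul_mem _ h1 (Subalgebra.mul_mem _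
      (Subalgebra.sub_mem _ (Subalgebra.add_mem _ hy hz) (Subalgebra.one_mem _))
      (inv_mem_of_not_mem_mx hr hrmx)))

theorem D_ne_L₁' : S.D ≠ S.L₁' := by
  intro h
  have := S.x_not_mem_D
  rw [h] at this
  exact this (S.x_mem_L _)

theorem D_ne_L₁ : S.D ≠ S.L₁ := by
  intro h
  have := S.x_not_mem_D
  rw [h] at this
  exact this (S.x_mem_L _)

end Surf

end Pool.Agent.H90ZD
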